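import Mathlib

set_option autoImplicit false

/-! A finite form of Weyl's criterion. -/

open Finset Filter Topology MeasureTheory

namespace Pool.Agent.Zk45.W

/-- `e(x) = exp(2 π i x)` -/
noncomputable def e (x : ℝ) : ℂ := Complex.exp (2 * Real.pi * Complex.I * x)

lemma norm_e (x : ℝ) : ‖e x‖ = 1 := by
  unfold e
  rw [Complex.norm_exp]
  simp

lemma e_add (x y : ℝ) : e (x + y) = e x * e y := by
  unfold e
  rw [← Complex.exp_add]
  congr 1
  push_cast
  ring

lemma e_zero : e 0 = 1 := by simp [e]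

lemma e_neg (x : ℝ) : e (-x) = (starRingEnd ℂ) (e x) := by
  unfold e
  rw [← Complex.exp_conj]
  congr 1
  simp only [map_mul, Complex.conj_I, Complex.conj_ofReal, Complex.ofReal_neg, map_ofNat]
  ring

lemma e_int (n : ℤ) : e n = 1 := by
  unfold e
  rw [Complex.exp_eq_one_iff]
  exact ⟨n, by push_cast; ring⟩

lemma fourier_e (h : ℤ) (y : ℝ) : (fourier h (y : UnitAddCircle) : ℂ) = e (h * y) := by
  rw [fourier_coe_apply]
  unfold e
  congr 1
  push_cast
  ring

/-- the mean of `g` over the points `y i` is close to its integral if the exponential sums are small -/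
def Close (g : C(UnitAddCircle, ℂ)) : Prop :=
  ∀ ε : ℝ, 0 < ε → ∃ H : ℕ, ∃ δ : ℝ, 0 < δ ∧ ∀ (ι : Type) (s : Finset ι) (y : ι → ℝ),
    (∀ h : ℤ, h ≠ 0 → |h| ≤ H → ‖∑ i ∈ s, e (h * y i)‖ ≤ δ * s.card) →
    ‖∑ i ∈ s, g (y i : UnitAddCircle) - s.card * ∫ x, g x ∂AddCircle.haarAddCircle‖ ≤ ε * s.card

lemma close_fourier (h : ℤ) : Close (fourier h) := by
  intro ε hε
  by_cases h0 : h = 0
  · subst h0
    refine ⟨0, 1, one_pos, fun ι s y _ => ?_⟩
    have : ∀ x : UnitAddCircle, (fourier 0 x : ℂ) = 1 := fun x => by simp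
    simp only [this]
    have h1 : (∑ i ∈ s, (1 : ℂ)) = s.card := by simp
    rw [h1]
    simp only [integral_const, probReal_univ, one_smul, mul_one, sub_self, norm_zero]
    have : (0 : ℝ) ≤ s.card := Nat.cast_nonneg _
    nlinarith
  · refine ⟨h.natAbs, ε, hε, fun ι s y hy => ?_⟩
    have hint : ∫ x : UnitAddCircle, (fourier h x : ℂ) ∂AddCircle.haarAddCircle = 0 := by
      have h1 := congrFun (fourierCoeff_fourier (T := 1) h) 0
      unfold fourierCoeff at h1
      rw [Pi.single_eq_of_ne (Ne.symm h0)] at h1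
      simpa using h1
    rw [hint, mul_zero, sub_zero]
    simp only [fourier_e]
    exact hy h h0 (by rw [Int.abs_eq_natAbs])

lemma integrable_cont (g : C(UnitAddCircle, ℂ)) : Integrable (fun x => g x) (AddCircle.haarAddCircle (T := 1)) :=
  g.continuous.integrable_of_hasCompactSupport (HasCompactSupport.of_compactSpace _)

lemma close_add (f g : C(UnitAddCircle, ℂ)) (hf : Close f) (hg : Close g) : Close (f + g) := by
  intro ε hε
  obtain ⟨H1, δ1, hδ1, h1⟩ := hf (ε / 2) (by linarith)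
  obtain ⟨H2, δ2, hδ2, h2⟩ := hg (ε / 2) (by linarith)
  refine ⟨max H1 H2, min δ1 δ2, lt_min hδ1 hδ2, fun ι s y hy => ?_⟩
  have hc : (0 : ℝ) ≤ s.card := Nat.cast_nonneg _
  have k1 := h1 ι s y (fun h h0 hh => (hy h h0 (hh.trans (by exact_mod_cast le_max_left _ _))).trans
    (mul_le_mul_of_nonneg_right (min_le_left _ _) hc))
  have k2 := h2 ι s y (fun h h0 hh => (hy h h0 (hh.trans (by exact_mod_cast le_max_right _ _))).trans
    (mul_le_mul_of_nonneg_right (min_le_right _ _) hc))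
  have e1 : ∑ i ∈ s, (f + g) (y i : UnitAddCircle) - s.card * ∫ x, (f + g) x ∂AddCircle.haarAddCircle =
      (∑ i ∈ s, f (y i : UnitAddCircle) - s.card * ∫ x, f x ∂AddCircle.haarAddCircle) +
      (∑ i ∈ s, g (y i : UnitAddCircle) - s.card * ∫ x, g x ∂AddCircle.haarAddCircle) := by
    simp only [ContinuousMap.add_apply]
    rw [integral_add (integrable_cont f) (integrable_cont g), sum_add_distrib]
    ring
  rw [e1]
  refine (norm_add_le _ _).trans ?_
  linarith

lemma close_smul (c : ℂ) (f : C(UnitAddCircle, ℂ)) (hf : Close f) : Close (c • f) := by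
  intro ε hε
  obtain ⟨H1, δ1, hδ1, h1⟩ := hf (ε / (‖c‖ + 1)) (by positivity)
  refine ⟨H1, δ1, hδ1, fun ι s y hy => ?_⟩
  have hc : (0 : ℝ) ≤ s.card := Nat.cast_nonneg _
  have k1 := h1 ι s y hy
  have e1 : ∑ i ∈ s, (c • f) (y i : UnitAddCircle) - s.card * ∫ x, (c • f) x ∂AddCircle.haarAddCircle =
      c * (∑ i ∈ s, f (y i : UnitAddCircle) - s.card * ∫ x, f x ∂AddCircle.haarAddCircle) := by
    simp only [ContinuousMap.smul_apply, smul_eq_mul]
    rw [integral_const_mul, ← mul_sum]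
    ring
  rw [e1, norm_mul]
  calc ‖c‖ * _ ≤ ‖c‖ * (ε / (‖c‖ + 1) * s.card) := mul_le_mul_of_nonneg_left k1 (norm_nonneg _)
    _ = (‖c‖ / (‖c‖ + 1)) * (ε * s.card) := by ring
    _ ≤ 1 * (ε * s.card) := by
        apply mul_le_mul_of_nonneg_right _ (by positivity)
        rw [div_le_one (by positivity)]
        linarith
    _ = ε * s.card := one_mul _

lemma close_all (g : C(UnitAddCircle, ℂ)) : Close g := by
  intro ε hε
  have hg : g ∈ (Submodule.span ℂ (Set.range (@fourier 1))).topologicalClosure := by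
    rw [span_fourier_closure_eq_top]
    trivial
  rw [← SetLike.mem_coe, Submodule.topologicalClosure_coe, Metric.mem_closure_iff] at hg
  obtain ⟨f, hf, hfg⟩ := hg (ε / 3) (by linarith)
  have hcf : Close f := by
    refine Submodule.span_induction (p := fun f _ => Close f) ?_ ?_ ?_ ?_ hf
    · rintro _ ⟨h, rfl⟩
      exact close_fourier h
    · intro ε hε
      refine ⟨0, 1, one_pos, fun ι s y _ => ?_⟩
      simp
      positivity
    · exact fun f g _ _ h1 h2 => close_add f g h1 h2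
    · exact fun c f _ h => close_smul c f h
  obtain ⟨H, δ, hδ, h⟩ := hcf (ε / 3) (by linarith)
  refine ⟨H, δ, hδ, fun ι s y hy => ?_⟩
  have k := h ι s y hy
  have hc : (0 : ℝ) ≤ s.card := Nat.cast_nonneg _
  have hd : ∀ x, ‖g x - f x‖ ≤ ε / 3 := fun x => by
    have := ContinuousMap.dist_apply_le_dist (f := g) (g := f) x
    rw [dist_eq_norm] at this
    linarith
  have b1 : ‖∑ i ∈ s, g (y i : UnitAddCircle) - ∑ i ∈ s, f (y i : UnitAddCircle)‖ ≤ ε / 3 * s.card := by
    rw [← sum_sub_distrib]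
    refine (norm_sum_le _ _).trans ?_
    refine (sum_le_sum fun i _ => hd _).trans ?_
    simp
    linarith
  have b2 : ‖∫ x, g x ∂AddCircle.haarAddCircle - ∫ x, f x ∂AddCircle.haarAddCircle‖ ≤ ε / 3 := by
    rw [← integral_sub (integrable_cont g) (integrable_cont f)]
    refine (norm_integral_le_of_norm_le_const (C := ε / 3) (Eventually.of_forall hd)).trans ?_
    simp
  have e1 : ∑ i ∈ s, g (y i : UnitAddCircle) - s.card * ∫ x, g x ∂AddCircle.haarAddCircle =
      (∑ i ∈ s, g (y i : UnitAddCircle) - ∑ i ∈ s, f (y i : UnitAddCircle)) +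
      (∑ i ∈ s, f (y i : UnitAddCircle) - s.card * ∫ x, f x ∂AddCircle.haarAddCircle) -
      s.card * (∫ x, g x ∂AddCircle.haarAddCircle - ∫ x, f x ∂AddCircle.haarAddCircle) := by ring
  rw [e1]
  refine (norm_sub_le _ _).trans ?_
  have b3 : ‖(s.card : ℂ) * (∫ x, g x ∂AddCircle.haarAddCircle - ∫ x, f x ∂AddCircle.haarAddCircle)‖ ≤
      s.card * (ε / 3) := by
    rw [norm_mul, Complex.norm_natCast]
    exact mul_le_mul_of_nonneg_left b2 hc
  have b4 := norm_add_le (∑ i ∈ s, g (y i : UnitAddCircle) - ∑ i ∈ s, f (y i : UnitAddCircle))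
    (∑ i ∈ s, f (y i : UnitAddCircle) - s.card * ∫ x, f x ∂AddCircle.haarAddCircle)
  linarith

/-- the image of `[a, b]` -/
def arc (a b : ℝ) : Set UnitAddCircle := (fun x : ℝ => (x : UnitAddCircle)) '' Set.Icc a b

lemma arc_compact (a b : ℝ) : IsCompact (arc a b) :=
  isCompact_Icc.image (AddCircle.continuous_mk' 1)

lemma arc_vol (a b : ℝ) (hb : b < a + 1) :
    AddCircle.haarAddCircle (arc a b) ≤ ENNReal.ofReal (b - a) := by
  have hv : (volume : Measure UnitAddCircle) = AddCircle.haarAddCircle := by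
    rw [AddCircle.volume_eq_smul_haarAddCircle]
    simp
  rw [← hv]
  have hmp := AddCircle.measurePreserving_mk 1 a
  have hmeas := (arc_compact a b).isClosed.measurableSet
  rw [← hmp.measure_preimage hmeas.nullMeasurableSet]
  rw [Measure.restrict_apply (hmp.measurable hmeas)]
  have hsub : (fun x : ℝ => (x : UnitAddCircle)) ⁻¹' (arc a b) ∩ Set.Ioc a (a + 1) ⊆ Set.Icc a b ∪ {a + 1} := by
    rintro x ⟨hx1, hx2⟩
    obtain ⟨z, hz, hzx⟩ := hx1
    have hzx' : (z : UnitAddCircle) = (x : UnitAddCircle) := hzx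
    rcases eq_or_lt_of_le hx2.2 with h | h
    · exact Or.inr h
    · left
      have := (AddCircle.coe_eq_coe_iff_of_mem_Ico (p := (1 : ℝ)) (a := a) ⟨hz.1, hz.2.trans_lt hb⟩
        ⟨hx2.1.le, h⟩).1 hzx'
      rw [← this]
      exact hz
  refine (measure_mono hsub).trans ((measure_union_le _ _).trans ?_)
  simp

/-- few of the points are in an arc, if the exponential sums are small -/
lemma arc_upper (a b ε : ℝ) (hb : b < a + 1) (hε : 0 < ε) : ∃ H : ℕ, ∃ δ : ℝ, 0 < δ ∧
    ∀ (ι : Type) (s : Finset ι) (y : ι → ℝ),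
    (∀ h : ℤ, h ≠ 0 → |h| ≤ H → ‖∑ i ∈ s, e (h * y i)‖ ≤ δ * s.card) →
    ∀ t : Finset ι, t ⊆ s → (∀ i ∈ t, a ≤ Int.fract (y i) ∧ Int.fract (y i) ≤ b) → a ≤ b →
      (t.card : ℝ) ≤ (b - a + ε) * s.card := by
  classical
  by_cases hab' : b < a
  · exact ⟨0, 1, one_pos, fun ι s y _ t _ _ hab => absurd hab (not_le.2 hab')⟩
  have hab0 : a ≤ b := not_lt.1 hab'
  have h1 := tendsto_measure_cthickening_of_isCompact (μ := AddCircle.haarAddCircle) (arc_compact a b)
  have h2 : AddCircle.haarAddCircle (arc a b) < ENNReal.ofReal (b - a + ε / 2) :=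
    (arc_vol a b hb).trans_lt ((ENNReal.ofReal_lt_ofReal_iff (by linarith)).2 (by linarith))
  have h3 := h1.eventually (eventually_lt_nhds h2)
  obtain ⟨η, hη0, hη⟩ := Metric.eventually_nhds_iff.1 h3
  have hη2 : 0 < η / 2 := by linarith
  have h4 := hη (y := η / 2) (by rw [Real.dist_eq, sub_zero, abs_of_pos hη2]; linarith)
  set K := arc a b with hK
  let g : C(UnitAddCircle, ℂ) :=
    ⟨fun x => (((thickenedIndicator hη2 K x : NNReal) : ℝ) : ℂ),
      Complex.continuous_ofReal.comp (NNReal.continuous_coe.comp (thickenedIndicator hη2 K).continuous)⟩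
  have hg : ∀ x, g x = (((thickenedIndicator hη2 K x : NNReal) : ℝ) : ℂ) := fun x => rfl
  have hint : (∫ x, g x ∂AddCircle.haarAddCircle).re ≤ b - a + ε / 2 := by
    have e1 : ∫ x, g x ∂AddCircle.haarAddCircle =
        ((∫ x, ((thickenedIndicator hη2 K x : NNReal) : ℝ) ∂AddCircle.haarAddCircle : ℝ) : ℂ) := by
      simp only [hg]
      exact integral_ofReal
    rw [e1, Complex.ofReal_re]
    have e2 : ∫ x, ((thickenedIndicator hη2 K x : NNReal) : ℝ) ∂AddCircle.haarAddCircle ≤
        ∫ x, (Metric.cthickening (η / 2) K).indicator (fun _ => (1 : ℝ)) x ∂AddCircle.haarAddCircle := by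
      apply integral_mono_of_nonneg
      · exact Eventually.of_forall fun x => NNReal.coe_nonneg _
      · exact (integrable_const (1 : ℝ)).indicator Metric.isClosed_cthickening.measurableSet
      · refine Eventually.of_forall fun x => ?_
        by_cases hx : x ∈ Metric.cthickening (η / 2) K
        · rw [Set.indicator_of_mem hx]
          exact_mod_cast thickenedIndicator_le_one hη2 K x
        · rw [Set.indicator_of_notMem hx]
          have : x ∉ Metric.thickening (η / 2) K := fun h => hx (Metric.thickening_subset_cthickening _ _ h)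
          show ((thickenedIndicator hη2 K x : NNReal) : ℝ) ≤ 0
          rw [thickenedIndicator_zero hη2 K this]
          simp
    refine e2.trans ?_
    rw [integral_indicator Metric.isClosed_cthickening.measurableSet]
    simp only [integral_const, MeasurableSet.univ, measureReal_restrict_apply, Set.univ_inter, smul_eq_mul, mul_one]
    exact (ENNReal.toReal_le_of_le_ofReal (by linarith) h4.le)
  obtain ⟨H, δ, hδ, h⟩ := close_all g (ε / 2) (by linarith)
  refine ⟨H, δ, hδ, fun ι s y hy t hts ht _ => ?_⟩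
  have k1 := h ι s y hy
  have hc : (0 : ℝ) ≤ s.card := Nat.cast_nonneg _
  have k2 := (Complex.re_le_norm _).trans k1
  rw [Complex.sub_re, ← Complex.ofReal_natCast, Complex.re_ofReal_mul, Complex.re_sum] at k2
  have k3 : (t.card : ℝ) ≤ ∑ i ∈ s, (g (y i : UnitAddCircle)).re := by
    have e1 : (t.card : ℝ) = ∑ i ∈ t, (1 : ℝ) := by simp
    rw [e1]
    refine le_trans (sum_le_sum fun i hi => ?_) (sum_le_sum_of_subset_of_nonneg hts fun i _ _ => ?_)
    · have hmem : (y i : UnitAddCircle) ∈ K := by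
        refine ⟨Int.fract (y i), ⟨(ht i hi).1, (ht i hi).2⟩, ?_⟩
        show ((Int.fract (y i) : ℝ) : UnitAddCircle) = (y i : UnitAddCircle)
        have e3 : Int.fract (y i) = y i - ((⌊y i⌋ : ℤ) : ℝ) := rfl
        rw [e3, AddCircle.coe_sub]
        have e4 : (((⌊y i⌋ : ℤ) : ℝ) : UnitAddCircle) = 0 := by
          rw [AddCircle.coe_eq_zero_iff]
          exact ⟨⌊y i⌋, by simp⟩
        rw [e4, sub_zero]
      rw [hg, Complex.ofReal_re, thickenedIndicator_one hη2 K hmem]
      simp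
    · rw [hg, Complex.ofReal_re]
      exact NNReal.coe_nonneg _
  have k4 : (s.card : ℝ) * (∫ x, g x ∂AddCircle.haarAddCircle).re ≤ s.card * (b - a + ε / 2) :=
    mul_le_mul_of_nonneg_left hint hc
  nlinarith

/-- **Weyl's criterion**, finite form -/
theorem weyl_fin (a b ε : ℝ) (ha : 0 ≤ a) (hab : a ≤ b) (hb : b ≤ 1) (hε : 0 < ε) : ∃ H : ℕ, ∃ δ : ℝ, 0 < δ ∧
    ∀ (ι : Type) (s : Finset ι) (y : ι → ℝ),
    (∀ h : ℤ, h ≠ 0 → |h| ≤ H → ‖∑ i ∈ s, e (h * y i)‖ ≤ δ * s.card) →
    |((s.filter (fun i => a ≤ Int.fract (y i) ∧ Int.fract (y i) < b)).card : ℝ) - (b - a) * s.card| ≤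
      ε * s.card := by
  classical
  -- the arcs `[a, b]`, `[0, a]`, `[b, 1]`
  have key : ∀ a b : ℝ, 0 ≤ a → a ≤ b → b ≤ 1 → ∃ H : ℕ, ∃ δ : ℝ, 0 < δ ∧
    ∀ (ι : Type) (s : Finset ι) (y : ι → ℝ),
    (∀ h : ℤ, h ≠ 0 → |h| ≤ H → ‖∑ i ∈ s, e (h * y i)‖ ≤ δ * s.card) →
      ((s.filter (fun i => a ≤ Int.fract (y i) ∧ Int.fract (y i) < b)).card : ℝ) ≤ (b - a + ε / 2) * s.card := by
    intro a b ha hab hb
    rcases lt_or_ge b (a + 1) with h | h
    · obtain ⟨H, δ, hδ, h1⟩ := arc_upper a b (ε / 2) h (by linarith)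
      refine ⟨H, δ, hδ, fun ι s y hy => h1 ι s y hy _ (filter_subset _ _) (fun i hi => ?_) hab⟩
      rw [mem_filter] at hi
      exact ⟨hi.2.1, hi.2.2.le⟩
    · refine ⟨0, 1, one_pos, fun ι s y _ => ?_⟩
      have h2 : ((s.filter (fun i => a ≤ Int.fract (y i) ∧ Int.fract (y i) < b)).card : ℝ) ≤ s.card := by
        exact_mod_cast card_filter_le _ _
      have hc : (0 : ℝ) ≤ s.card := Nat.cast_nonneg _
      nlinarith
  obtain ⟨H1, δ1, hδ1, h1⟩ := key a b ha hab hb
  obtain ⟨H2, δ2, hδ2, h2⟩ := key 0 a le_rfl ha (hab.trans hb)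
  obtain ⟨H3, δ3, hδ3, h3⟩ := key b 1 (ha.trans hab) hb le_rfl
  refine ⟨max H1 (max H2 H3), min δ1 (min δ2 δ3), lt_min hδ1 (lt_min hδ2 hδ3), fun ι s y hy => ?_⟩
  have hc : (0 : ℝ) ≤ s.card := Nat.cast_nonneg _
  have k1 := h1 ι s y (fun h h0 hh => (hy h h0 (hh.trans (by
    exact_mod_cast le_max_left _ _))).trans (mul_le_mul_of_nonneg_right (min_le_left _ _) hc))
  have k2 := h2 ι s y (fun h h0 hh => (hy h h0 (hh.trans (by
    exact_mod_cast (le_max_left _ _).trans (le_max_right _ _)))).trans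
      (mul_le_mul_of_nonneg_right ((min_le_right _ _).trans (min_le_left _ _)) hc))
  have k3 := h3 ι s y (fun h h0 hh => (hy h h0 (hh.trans (by
    exact_mod_cast (le_max_right _ _).trans (le_max_right _ _)))).trans
      (mul_le_mul_of_nonneg_right ((min_le_right _ _).trans (min_le_right _ _)) hc))
  have hsplit : s.card ≤ (s.filter (fun i => a ≤ Int.fract (y i) ∧ Int.fract (y i) < b)).card +
      ((s.filter (fun i => 0 ≤ Int.fract (y i) ∧ Int.fract (y i) < a)).card +
      (s.filter (fun i => b ≤ Int.fract (y i) ∧ Int.fract (y i) < 1)).card) := by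
    have hsub : s ⊆ (s.filter (fun i => a ≤ Int.fract (y i) ∧ Int.fract (y i) < b)) ∪
      ((s.filter (fun i => 0 ≤ Int.fract (y i) ∧ Int.fract (y i) < a)) ∪
      (s.filter (fun i => b ≤ Int.fract (y i) ∧ Int.fract (y i) < 1))) := by
      intro i hi
      have f0 := Int.fract_nonneg (y i)
      have f1 := Int.fract_lt_one (y i)
      simp only [mem_union, mem_filter]
      rcases lt_or_ge (Int.fract (y i)) a with h | h
      · exact Or.inr (Or.inl ⟨hi, f0, h⟩)
      · rcases lt_or_ge (Int.fract (y i)) b with h' | h'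
        · exact Or.inl ⟨hi, h, h'⟩
        · exact Or.inr (Or.inr ⟨hi, h', f1⟩)
    refine (card_le_card hsub).trans ((card_union_le _ _).trans ?_)
    exact Nat.add_le_add_left (card_union_le _ _) _
  have hsplit' : (s.card : ℝ) ≤ (s.filter (fun i => a ≤ Int.fract (y i) ∧ Int.fract (y i) < b)).card +
      ((s.filter (fun i => 0 ≤ Int.fract (y i) ∧ Int.fract (y i) < a)).card +
      (s.filter (fun i => b ≤ Int.fract (y i) ∧ Int.fract (y i) < 1)).card : ℝ) := by exact_mod_cast hsplit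
  rw [abs_le]
  constructor <;> nlinarith

end Pool.Agent.Zk45.W
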