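import Mathlib
import Pool.Agent.Zk45.Weyl

set_option autoImplicit false

/-! The rotation by `log (3/2) / log 6` and the phases `y 6 ^ τ`. -/

open Finset Filter Topology MeasureTheory

namespace Pool.Agent.Zk45.R

open Pool.Agent.Zk45.W

/-- `log (3/2) / log 6` -/
noncomputable def th : ℝ := Real.log (3 / 2) / Real.log 6

lemma log6 : 0 < Real.log 6 := Real.log_pos (by norm_num)

lemma th_lo : 1 / 5 < th := by
  unfold th
  rw [div_lt_div_iff₀ (by norm_num) log6]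
  have h1 : Real.log 6 < Real.log ((3 / 2) ^ 5) := Real.log_lt_log (by norm_num) (by norm_num)
  rw [Real.log_pow] at h1
  push_cast at h1
  linarith

lemma th_hi : th < 1 / 4 := by
  unfold th
  rw [div_lt_div_iff₀ log6 (by norm_num)]
  have h1 : Real.log ((3 / 2) ^ 4) < Real.log 6 := Real.log_lt_log (by norm_num) (by norm_num)
  rw [Real.log_pow] at h1
  push_cast at h1
  linarith

lemma th_pos : 0 < th := by linarith [th_lo]

lemma six_th (n : ℕ) : (6 : ℝ) ^ (n * th) = (3 / 2 : ℝ) ^ n := by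
  have h1 : (6 : ℝ) ^ th = 3 / 2 := by
    unfold th
    rw [Real.rpow_def_of_pos (by norm_num), mul_div_cancel₀ _ log6.ne', Real.exp_log (by norm_num)]
  rw [mul_comm, Real.rpow_mul (by norm_num), h1, Real.rpow_natCast]

lemma th_irr : Irrational th := by
  rintro ⟨q, hq⟩
  have hq0 : 0 < q := by
    have : (0 : ℝ) < (q : ℝ) := by rw [hq]; exact th_pos
    exact_mod_cast this
  obtain ⟨a, ha⟩ := Int.eq_ofNat_of_zero_le (Rat.num_nonneg.2 hq0.le)
  have hd := q.den_pos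
  have ha0 : 0 < a := by
    have := Rat.num_pos.2 hq0
    omega
  have h1 : (q.den : ℝ) * th = a := by
    rw [← hq]
    have h2 : (q.den : ℚ) * q = (a : ℚ) := by
      rw [Rat.den_mul_eq_num, ha]; simp
    exact_mod_cast h2
  have h2 := six_th q.den
  rw [h1, Real.rpow_natCast, div_pow, eq_div_iff (by positivity)] at h2
  have h3 : 6 ^ a * 2 ^ q.den = 3 ^ q.den := by exact_mod_cast h2
  have h4 : 2 ∣ 3 ^ q.den := by
    rw [← h3]
    exact Dvd.dvd.mul_left (dvd_pow_self 2 hd.ne') _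
  have := Nat.Prime.dvd_of_dvd_pow Nat.prime_two h4
  omega

/-- exponential sums over a rotation are bounded -/
lemma rot_sum (h : ℤ) (hh : h ≠ 0) : ∃ C : ℝ, ∀ n0 N : ℕ,
    ‖∑ n ∈ Ico n0 (n0 + N), e (h * (n * th))‖ ≤ C := by
  have hr : e (h * th) ≠ 1 := by
    unfold e
    intro h1
    rw [Complex.exp_eq_one_iff] at h1
    obtain ⟨m, hm⟩ := h1
    have h2 : ((h * th : ℝ) : ℂ) = ((m : ℝ) : ℂ) := by
      have h3 : (2 * Real.pi * Complex.I : ℂ) ≠ 0 := Complex.two_pi_I_ne_zero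
      have h4 : (2 * Real.pi * Complex.I : ℂ) * ((h * th : ℝ) : ℂ) = (2 * Real.pi * Complex.I) * ((m : ℝ) : ℂ) := by
        rw [hm]; push_cast; ring
      exact mul_left_cancel₀ h3 h4
    have h5 : (h : ℝ) * th = m := by exact_mod_cast h2
    exact (th_irr.intCast_mul hh).ne_int m h5
  refine ⟨2 / ‖e (h * th) - 1‖, fun n0 N => ?_⟩
  have hpow : ∀ n : ℕ, e (h * (n * th)) = e (h * th) ^ n := by
    intro n
    unfold e
    rw [← Complex.exp_nat_mul]
    congr 1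
    push_cast
    ring
  simp only [hpow]
  have h1 : ‖e (h * th) - 1‖ ≠ 0 := norm_ne_zero_iff.2 (sub_ne_zero.2 hr)
  have h2 := geom_sum_Ico hr (m := n0) (n := n0 + N) (by omega)
  rw [h2, norm_div]
  apply div_le_div_of_nonneg_right _ (norm_nonneg _)
  refine (norm_sub_le _ _).trans ?_
  rw [norm_pow, norm_pow, norm_e]
  norm_num

/-- equidistribution of the rotation, uniform in the starting point -/
lemma rot_equi (a b ε : ℝ) (ha : 0 ≤ a) (hab : a ≤ b) (hb : b ≤ 1) (hε : 0 < ε) :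
    ∃ N0 : ℕ, ∀ N : ℕ, N0 ≤ N → ∀ n0 : ℕ,
    |(((Ico n0 (n0 + N)).filter (fun n : ℕ => a ≤ Int.fract (n * th) ∧ Int.fract (n * th) < b)).card : ℝ) -
      (b - a) * N| ≤ ε * N := by
  obtain ⟨H, δ, hδ, h⟩ := weyl_fin a b ε ha hab hb hε
  have hC : ∃ C : ℝ, ∀ h : ℤ, h ≠ 0 → |h| ≤ H → ∀ n0 N : ℕ,
      ‖∑ n ∈ Ico n0 (n0 + N), e (h * (n * th))‖ ≤ C := by
    choose! C hC using rot_sum
    refine ⟨∑ h ∈ Icc (-(H : ℤ)) H, |C h|, fun h h0 hh n0 N => (hC h h0 n0 N).trans ?_⟩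
    have h1 : h ∈ Icc (-(H : ℤ)) H := by
      rw [mem_Icc]
      exact abs_le.1 hh
    exact (le_abs_self _).trans (single_le_sum (f := fun h => |C h|) (fun i _ => abs_nonneg _) h1)
  obtain ⟨C, hC⟩ := hC
  obtain ⟨N0, hN0⟩ := exists_nat_ge (C / δ)
  refine ⟨N0, fun N hN n0 => ?_⟩
  have h1 := h ℕ (Ico n0 (n0 + N)) (fun n => n * th) (fun h h0 hh => (hC h h0 hh n0 N).trans (by
    rw [Nat.card_Ico, Nat.add_sub_cancel_left]
    have : (N0 : ℝ) ≤ N := by exact_mod_cast hN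
    rw [div_le_iff₀ hδ] at hN0
    nlinarith))
  rw [Nat.card_Ico, Nat.add_sub_cancel_left] at h1
  exact h1

/-- the phase integral -/
noncomputable def I (y : ℝ) : ℂ := ∫ t in (0 : ℝ)..1, e (y * 6 ^ t)

lemma e_hasDeriv (g : ℝ → ℝ) (g' x : ℝ) (hg : HasDerivAt g g' x) :
    HasDerivAt (fun t => e (g t)) (2 * Real.pi * Complex.I * g' * e (g x)) x := by
  unfold e
  have h1 : HasDerivAt (fun t : ℝ => (g t : ℂ)) (g' : ℂ) x := hg.ofReal_comp
  have h2 := (h1.const_mul (2 * Real.pi * Complex.I : ℂ)).cexp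
  convert h2 using 1
  ring

lemma e_cont : Continuous e := by
  unfold e
  fun_prop

lemma six_cont : Continuous (fun t : ℝ => (6 : ℝ) ^ t) :=
  Real.continuous_const_rpow (by norm_num)

lemma six_deriv (x : ℝ) : HasDerivAt (fun t : ℝ => (6 : ℝ) ^ t) (6 ^ x * Real.log 6) x := by
  have := (hasDerivAt_id x).const_rpow (a := 6) (by norm_num)
  simp only [id] at this
  convert this using 1
  ring

lemma I_le (y : ℝ) (hy : y ≠ 0) : ‖I y‖ ≤ 1 / |y| := by
  have hy0 : 0 < |y| := abs_pos.2 hy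
  -- the antiderivative
  have hF : ∀ x : ℝ, HasDerivAt (fun t : ℝ => e (y * 6 ^ t) * (((6 : ℝ) ^ (-t) : ℝ) : ℂ))
      (2 * Real.pi * Complex.I * y * Real.log 6 * e (y * 6 ^ x) -
        Real.log 6 * (((6 : ℝ) ^ (-x) : ℝ) : ℂ) * e (y * 6 ^ x)) x := by
    intro x
    have h1 := e_hasDeriv (fun t => y * 6 ^ t) _ x ((six_deriv x).const_mul y)
    have h2 : HasDerivAt (fun t : ℝ => (((6 : ℝ) ^ (-t) : ℝ) : ℂ)) ((-(6 ^ (-x) * Real.log 6) : ℝ) : ℂ) x := by
      have h3 := (six_deriv (-x)).comp x (hasDerivAt_neg x)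
      have h4 := h3.ofReal_comp
      have h5 : ((6 ^ (-x) * Real.log 6 * (-1) : ℝ) : ℂ) = ((-(6 ^ (-x) * Real.log 6) : ℝ) : ℂ) := by
        push_cast
        ring
      rw [← h5]
      exact h4
    have h5 := h1.mul h2
    refine HasDerivAt.congr_deriv h5 ?_
    have h6 : (((6 : ℝ) ^ x : ℝ) : ℂ) * (((6 : ℝ) ^ (-x) : ℝ) : ℂ) = 1 := by
      rw [← Complex.ofReal_mul, ← Real.rpow_add (by norm_num)]
      simp
    have h7 : ((y * (6 ^ x * Real.log 6) : ℝ) : ℂ) = (y : ℂ) * ((((6 : ℝ) ^ x : ℝ) : ℂ) * (Real.log 6 : ℂ)) := by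
      push_cast
      ring
    have h8 : ((-(6 ^ (-x) * Real.log 6) : ℝ) : ℂ) = -((((6 : ℝ) ^ (-x) : ℝ) : ℂ) * (Real.log 6 : ℂ)) := by
      push_cast
      ring
    rw [h7, h8]
    generalize (((6 : ℝ) ^ x : ℝ) : ℂ) = A at h6 ⊢
    generalize (((6 : ℝ) ^ (-x) : ℝ) : ℂ) = B at h6 ⊢
    linear_combination (2 * (Real.pi : ℂ) * Complex.I * y * Real.log 6 * e (y * 6 ^ x)) * h6
  have c1 : Continuous (fun x : ℝ => (2 * Real.pi * Complex.I * y * Real.log 6 : ℂ) * e (y * 6 ^ x)) :=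
    continuous_const.mul (e_cont.comp (continuous_const.mul six_cont))
  have c2 : Continuous (fun x : ℝ => Real.log 6 * (((6 : ℝ) ^ (-x) : ℝ) : ℂ) * e (y * 6 ^ x)) :=
    (continuous_const.mul (Complex.continuous_ofReal.comp (six_cont.comp continuous_neg))).mul
      (e_cont.comp (continuous_const.mul six_cont))
  have h1 := intervalIntegral.integral_eq_sub_of_hasDerivAt (a := (0 : ℝ)) (b := 1) (fun x _ => hF x)
    ((c1.sub c2).intervalIntegrable _ _)
  rw [intervalIntegral.integral_sub (c1.intervalIntegrable _ _) (c2.intervalIntegrable _ _),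
    intervalIntegral.integral_const_mul] at h1
  have h2 : (2 * Real.pi * Complex.I * y * Real.log 6 : ℂ) * I y =
      e (y * 6 ^ (1 : ℝ)) * (((6 : ℝ) ^ (-(1 : ℝ)) : ℝ) : ℂ) - e (y * 6 ^ (0 : ℝ)) * (((6 : ℝ) ^ (-(0 : ℝ)) : ℝ) : ℂ) +
      ∫ x in (0 : ℝ)..1, Real.log 6 * (((6 : ℝ) ^ (-x) : ℝ) : ℂ) * e (y * 6 ^ x) := by
    unfold I
    linear_combination h1
  have h3 : ‖∫ x in (0 : ℝ)..1, Real.log 6 * (((6 : ℝ) ^ (-x) : ℝ) : ℂ) * e (y * 6 ^ x)‖ ≤ Real.log 6 * |(1 : ℝ) - 0| := by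
    apply intervalIntegral.norm_integral_le_of_norm_le_const
    intro x hx
    rw [Set.uIoc_of_le (by norm_num)] at hx
    rw [norm_mul, norm_mul, norm_e, mul_one, Complex.norm_real, Complex.norm_real,
      Real.norm_of_nonneg log6.le, Real.norm_of_nonneg (by positivity)]
    have : (6 : ℝ) ^ (-x) ≤ 1 := Real.rpow_le_one_of_one_le_of_nonpos (by norm_num) (by linarith [hx.1])
    nlinarith [log6]
  have h4 : ‖(2 * Real.pi * Complex.I * y * Real.log 6 : ℂ) * I y‖ ≤ 1 / 6 + 1 + Real.log 6 := by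
    rw [h2]
    refine (norm_add_le _ _).trans (add_le_add ((norm_sub_le _ _).trans (add_le_add ?_ ?_)) (h3.trans (by simp)))
    · rw [norm_mul, norm_e, one_mul, Complex.norm_real, Real.rpow_neg (by norm_num), Real.rpow_one]
      norm_num
    · rw [norm_mul, norm_e, one_mul, Complex.norm_real]
      simp
  have h5 : ‖(2 * Real.pi * Complex.I * y * Real.log 6 : ℂ) * I y‖ = 2 * Real.pi * |y| * Real.log 6 * ‖I y‖ := by
    simp only [norm_mul, Complex.norm_real, Complex.norm_I, Real.norm_eq_abs, mul_one, Complex.norm_ofNat]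
    rw [abs_of_pos Real.pi_pos, abs_of_pos log6]
  rw [h5] at h4
  rw [le_div_iff₀ hy0]
  have h6 : 3 < Real.pi := Real.pi_gt_three
  have h7 : 1 < Real.log 6 := by
    rw [Real.lt_log_iff_exp_lt (by norm_num)]
    exact Real.exp_one_lt_three.trans (by norm_num)
  have h8 : 0 ≤ ‖I y‖ * |y| := by positivity
  nlinarith [mul_nonneg h8 (by linarith : (0 : ℝ) ≤ Real.log 6 - 1), mul_nonneg (mul_nonneg h8 (by linarith : (0 : ℝ) ≤ Real.pi - 3)) log6.le]

end Pool.Agent.Zk45.R
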