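import Mathlib
import Pool.Agent.Zk45.Rot

set_option autoImplicit false

/-! Mean values of the phases `e (y 6 ^ τ)` over the orbit of the rotation. -/

open Finset Filter Topology MeasureTheory

namespace Pool.Agent.Zk45.R

open Pool.Agent.Zk45.W

lemma phase_cont (y : ℝ) : Continuous (fun t : ℝ => e (y * 6 ^ t)) :=
  e_cont.comp (continuous_const.mul six_cont)

lemma phase_unif (y η : ℝ) (hη : 0 < η) : ∃ M : ℕ, 0 < M ∧ ∀ s t : ℝ, 0 ≤ s → s ≤ 1 → 0 ≤ t → t ≤ 1 →
    |s - t| ≤ 1 / M → ‖e (y * 6 ^ s) - e (y * 6 ^ t)‖ ≤ η := by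
  have h1 : UniformContinuousOn (fun t : ℝ => e (y * 6 ^ t)) (Set.Icc 0 1) :=
    isCompact_Icc.uniformContinuousOn_of_continuous (phase_cont y).continuousOn
  rw [Metric.uniformContinuousOn_iff] at h1
  obtain ⟨d, hd, h2⟩ := h1 η hη
  obtain ⟨M, hM⟩ := exists_nat_one_div_lt hd
  refine ⟨M + 1, Nat.succ_pos _, fun s t hs0 hs1 ht0 ht1 hst => ?_⟩
  have h3 := h2 s ⟨hs0, hs1⟩ t ⟨ht0, ht1⟩ (by
    rw [Real.dist_eq]
    refine lt_of_le_of_lt hst ?_
    push_cast
    exact hM)
  rw [dist_eq_norm] at h3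
  exact h3.le

/-- the mean of the phases over long stretches of the orbit -/
lemma phase_equi (y η : ℝ) (hη : 0 < η) : ∃ N0 : ℕ, ∀ N : ℕ, N0 ≤ N → ∀ n0 : ℕ,
    ‖∑ n ∈ Ico n0 (n0 + N), e (y * 6 ^ (Int.fract (n * th)))‖ ≤ (‖I y‖ + η) * N := by
  classical
  obtain ⟨M, hM, hu⟩ := phase_unif y (η / 2) (by linarith)
  have hMr : (0 : ℝ) < M := by exact_mod_cast hM
  -- equidistribution in the cells
  have hcell : ∀ i : ℕ, i < M → ∃ N0 : ℕ, ∀ N : ℕ, N0 ≤ N → ∀ n0 : ℕ,
      |(((Ico n0 (n0 + N)).filter (fun n : ℕ => (i : ℝ) / M ≤ Int.fract (n * th) ∧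
        Int.fract (n * th) < ((i : ℝ) + 1) / M)).card : ℝ) - (1 / M) * N| ≤ (η / (2 * M)) * N := by
    intro i hi
    have hi' : (i : ℝ) + 1 ≤ M := by exact_mod_cast hi
    obtain ⟨N0, h⟩ := rot_equi ((i : ℝ) / M) (((i : ℝ) + 1) / M) (η / (2 * M)) (by positivity)
      (by apply div_le_div_of_nonneg_right _ hMr.le; linarith)
      (by rw [div_le_one hMr]; exact hi') (by positivity)
    refine ⟨N0, fun N hN n0 => ?_⟩
    have h1 := h N hN n0
    have h2 : ((i : ℝ) + 1) / M - (i : ℝ) / M = 1 / M := by ring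
    rw [h2] at h1
    exact h1
  choose! N0 hN0 using hcell
  refine ⟨∑ i ∈ range M, N0 i, fun N hN n0 => ?_⟩
  have hN' : ∀ i, i < M → N0 i ≤ N := fun i hi =>
    (single_le_sum (f := N0) (fun _ _ => Nat.zero_le _) (mem_range.2 hi)).trans hN
  set g : ℝ → ℂ := fun t => e (y * 6 ^ t) with hg
  have hgc : Continuous g := phase_cont y
  set C : ℕ → Finset ℕ := fun i => (Ico n0 (n0 + N)).filter (fun n : ℕ => (i : ℝ) / M ≤ Int.fract (n * th) ∧
        Int.fract (n * th) < ((i : ℝ) + 1) / M) with hC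
  set v : ℕ → ℂ := fun i => ∫ t in ((i : ℝ) / M)..(((i : ℝ) + 1) / M), g t with hv
  have hlen : ∀ i : ℕ, ((i : ℝ) + 1) / M - (i : ℝ) / M = 1 / M := fun i => by ring
  -- sum of the integrals
  have hvs : ∑ i ∈ range M, v i = I y := by
    have h1 := intervalIntegral.sum_integral_adjacent_intervals (f := g) (μ := volume)
      (a := fun i : ℕ => (i : ℝ) / M) (n := M) (fun k _ => hgc.intervalIntegrable _ _)
    have h2 : ∑ i ∈ range M, v i = ∑ k ∈ range M, ∫ x in ((k : ℕ) : ℝ) / M..((k + 1 : ℕ) : ℝ) / M, g x := by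
      apply sum_congr rfl
      intro i _
      rw [hv]
      push_cast
      rfl
    rw [h2, h1]
    unfold I
    simp [hMr.ne', hg]
  -- the bound for v
  have hvb : ∀ i, ‖v i‖ ≤ 1 / M := by
    intro i
    have := intervalIntegral.norm_integral_le_of_norm_le_const (a := (i : ℝ) / M) (b := ((i : ℝ) + 1) / M)
      (f := g) (C := 1) (fun x _ => (norm_e _).le)
    rw [hlen i, one_mul, abs_of_pos (by positivity)] at this
    exact this
  -- the comparision in a cell
  have hcmp : ∀ i, i < M → ∀ n ∈ C i, ‖g (Int.fract (n * th)) - M * v i‖ ≤ η / 2 := by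
    intro i hi n hn
    rw [hC, mem_filter] at hn
    have hi' : (i : ℝ) + 1 ≤ M := by exact_mod_cast hi
    have h1 : (M : ℂ) * v i - g (Int.fract (n * th)) =
        M * ∫ t in ((i : ℝ) / M)..(((i : ℝ) + 1) / M), (g t - g (Int.fract (n * th))) := by
      rw [intervalIntegral.integral_sub (hgc.intervalIntegrable _ _) (by simp),
        intervalIntegral.integral_const, hlen i]
      have hMc : (M : ℂ) ≠ 0 := by exact_mod_cast hMr.ne'
      rw [mul_sub]
      congr 1
      simp only [Complex.real_smul]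
      push_cast
      field_simp
    rw [norm_sub_rev, h1, norm_mul, Complex.norm_natCast]
    have h2 := intervalIntegral.norm_integral_le_of_norm_le_const (a := (i : ℝ) / M) (b := ((i : ℝ) + 1) / M)
      (f := fun t => g t - g (Int.fract (n * th))) (C := η / 2) (by
        intro x hx
        rw [Set.uIoc_of_le (by apply div_le_div_of_nonneg_right _ hMr.le; linarith)] at hx
        have hi1 : ((i : ℝ) + 1) / M ≤ 1 := by rw [div_le_one hMr]; exact hi'
        have hi0 : 0 ≤ (i : ℝ) / M := by positivity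
        refine hu x _ (hi0.trans hx.1.le) (hx.2.trans hi1) (Int.fract_nonneg _) (Int.fract_lt_one _).le ?_
        have h3 := hlen i
        rw [abs_le]
        constructor
        · linarith [hn.2.2, hx.1]
        · linarith [hn.2.1, hx.2])
    rw [hlen i, abs_of_pos (by positivity)] at h2
    calc (M : ℝ) * _ ≤ M * (η / 2 * (1 / M)) := mul_le_mul_of_nonneg_left h2 hMr.le
      _ = η / 2 := by field_simp
  -- partition
  have hcov : ∀ n ∈ Ico n0 (n0 + N), ∃! i, i ∈ range M ∧ n ∈ C i := by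
    intro n hn
    have f0 := Int.fract_nonneg (n * th)
    have f1 := Int.fract_lt_one (n * th)
    refine ⟨⌊M * Int.fract (n * th)⌋₊, ⟨?_, ?_⟩, ?_⟩
    · rw [mem_range, Nat.floor_lt (by positivity)]
      nlinarith
    · rw [hC, mem_filter]
      refine ⟨hn, ?_, ?_⟩
      · rw [div_le_iff₀ hMr, mul_comm]
        exact Nat.floor_le (by positivity)
      · rw [lt_div_iff₀ hMr, mul_comm]
        exact Nat.lt_floor_add_one _
    · rintro i ⟨_, hi⟩
      rw [hC, mem_filter] at hi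
      symm
      rw [Nat.floor_eq_iff (by positivity)]
      constructor
      · have := hi.2.1
        rw [div_le_iff₀ hMr, mul_comm] at this
        exact this
      · have := hi.2.2
        rw [lt_div_iff₀ hMr, mul_comm] at this
        exact this
  have hdis : ((range M : Finset ℕ) : Set ℕ).PairwiseDisjoint C := by
    intro i hi j hj hij
    rw [Function.onFun, Finset.disjoint_left]
    intro n hni hnj
    apply hij
    have hn : n ∈ Ico n0 (n0 + N) := by
      rw [hC, mem_filter] at hni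
      exact hni.1
    exact (hcov n hn).unique ⟨hi, hni⟩ ⟨hj, hnj⟩
  have hun : Ico n0 (n0 + N) = (range M).biUnion C := by
    ext n
    rw [mem_biUnion]
    constructor
    · intro hn
      obtain ⟨i, ⟨h1, h2⟩, _⟩ := hcov n hn
      exact ⟨i, h1, h2⟩
    · rintro ⟨i, _, hi⟩
      rw [hC, mem_filter] at hi
      exact hi.1
  have hcard : ∑ i ∈ range M, (C i).card = N := by
    have := card_biUnion (s := range M) (t := C) hdis
    rw [← hun, Nat.card_Ico, Nat.add_sub_cancel_left] at this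
    exact this.symm
  have hsum : ∑ n ∈ Ico n0 (n0 + N), g (Int.fract (n * th)) =
      ∑ i ∈ range M, ∑ n ∈ C i, g (Int.fract (n * th)) := by
    conv_lhs => rw [hun]
    exact sum_biUnion hdis
  have hdec : ∑ n ∈ Ico n0 (n0 + N), g (Int.fract (n * th)) =
      (∑ i ∈ range M, ∑ n ∈ C i, (g (Int.fract (n * th)) - M * v i)) +
      (∑ i ∈ range M, (((C i).card : ℂ) - (1 / M) * N) * (M * v i)) + N * I y := by
    rw [hsum, ← hvs, mul_sum, ← sum_add_distrib, ← sum_add_distrib]
    apply sum_congr rfl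
    intro i _
    rw [sum_sub_distrib, sum_const, nsmul_eq_mul]
    have hMc : (M : ℂ) ≠ 0 := by exact_mod_cast hMr.ne'
    generalize ∑ x ∈ C i, g (Int.fract (x * th)) = X
    field_simp
    ring
  have b1 : ‖∑ i ∈ range M, ∑ n ∈ C i, (g (Int.fract (n * th)) - M * v i)‖ ≤ η / 2 * N := by
    refine (norm_sum_le _ _).trans ?_
    calc ∑ i ∈ range M, ‖∑ n ∈ C i, (g (Int.fract (n * th)) - M * v i)‖
        ≤ ∑ i ∈ range M, (η / 2) * (C i).card := by
          apply sum_le_sum
          intro i hi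
          refine (norm_sum_le _ _).trans ?_
          refine (sum_le_sum fun n hn => hcmp i (mem_range.1 hi) n hn).trans ?_
          rw [sum_const, nsmul_eq_mul]
          linarith
      _ = η / 2 * N := by
          rw [← mul_sum]
          congr 1
          exact_mod_cast hcard
  have b2 : ‖∑ i ∈ range M, (((C i).card : ℂ) - (1 / M) * N) * (M * v i)‖ ≤ η / 2 * N := by
    refine (norm_sum_le _ _).trans ?_
    calc ∑ i ∈ range M, ‖(((C i).card : ℂ) - (1 / M) * N) * (M * v i)‖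
        ≤ ∑ i ∈ range M, (η / (2 * M)) * N := by
          apply sum_le_sum
          intro i hi
          have h1 := hN0 i (mem_range.1 hi) N (hN' i (mem_range.1 hi)) n0
          rw [norm_mul, norm_mul, Complex.norm_natCast]
          have h2 : ((C i).card : ℂ) - (1 / M) * N = (((C i).card - (1 / M) * N : ℝ) : ℂ) := by
            push_cast
            rfl
          rw [h2, Complex.norm_real, Real.norm_eq_abs]
          have h3 : (M : ℝ) * ‖v i‖ ≤ 1 := by
            calc (M : ℝ) * ‖v i‖ ≤ M * (1 / M) := mul_le_mul_of_nonneg_left (hvb i) hMr.le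
              _ = 1 := by field_simp
          calc |((C i).card : ℝ) - (1 / M) * N| * (M * ‖v i‖) ≤ (η / (2 * M) * N) * 1 :=
                mul_le_mul h1 h3 (by positivity) (by positivity)
            _ = _ := mul_one _
      _ = η / 2 * N := by
          rw [sum_const, card_range, nsmul_eq_mul]
          field_simp
  show ‖∑ n ∈ Ico n0 (n0 + N), g (Int.fract (n * th))‖ ≤ _
  rw [hdec]
  refine (norm_add_le _ _).trans ?_
  refine (add_le_add (norm_add_le _ _) le_rfl).trans ?_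
  rw [norm_mul, Complex.norm_natCast]
  linarith

lemma six_sub (k k' : ℕ) (h : k ≠ k') : (2 : ℝ) ^ k' ≤ |(6 : ℝ) ^ k - 6 ^ k'| := by
  have key : ∀ a b : ℕ, a < b → (2 : ℝ) ^ b ≤ 6 ^ b - 6 ^ a := by
    intro a b hab
    obtain ⟨c, rfl⟩ := Nat.exists_eq_succ_of_ne_zero (by omega : b ≠ 0)
    have h1 : (6 : ℝ) ^ a ≤ 6 ^ c := pow_le_pow_right₀ (by norm_num) (by omega)
    have h2 : (2 : ℝ) ^ c ≤ 6 ^ c := pow_le_pow_left₀ (by norm_num) (by norm_num) _
    have h3 : (0 : ℝ) < 6 ^ c := by positivity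
    rw [Nat.succ_eq_add_one, pow_succ, pow_succ]
    linarith
  rcases lt_or_gt_of_ne h with h | h
  · have h1 := key k k' h
    have h2 := neg_abs_le ((6 : ℝ) ^ k - 6 ^ k')
    linarith
  · have h1 := key k' k h
    have h2 := le_abs_self ((6 : ℝ) ^ k - 6 ^ k')
    have h3 : (2 : ℝ) ^ k' ≤ 2 ^ k := pow_le_pow_right₀ (by norm_num) h.le
    linarith

/-- the mean square of a lacunary sum -/
lemma lac_ms (c : ℝ) (hc : c ≠ 0) (m : ℕ) : ∃ N0 : ℕ, ∀ N : ℕ, N0 ≤ N → ∀ n0 : ℕ,
    ∑ n ∈ Ico n0 (n0 + N), ‖∑ k ∈ range m, e (c * 6 ^ k * 6 ^ (Int.fract (n * th)))‖ ^ 2 ≤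
      N * (m + 2 * m / |c| + 1) := by
  classical
  have hc0 : 0 < |c| := abs_pos.2 hc
  set η : ℝ := 1 / ((m : ℝ) ^ 2 + 1) with hη
  have hη0 : 0 < η := by positivity
  have h1 : ∀ k k' : ℕ, ∃ N0 : ℕ, ∀ N : ℕ, N0 ≤ N → ∀ n0 : ℕ,
      ‖∑ n ∈ Ico n0 (n0 + N), e ((c * (6 ^ k - 6 ^ k')) * 6 ^ (Int.fract (n * th)))‖ ≤
        (‖I (c * (6 ^ k - 6 ^ k'))‖ + η) * N := fun k k' => phase_equi _ η hη0
  choose N0 hN0 using h1
  refine ⟨∑ k ∈ range m, ∑ k' ∈ range m, N0 k k', fun N hN n0 => ?_⟩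
  have hN' : ∀ k ∈ range m, ∀ k' ∈ range m, N0 k k' ≤ N := fun k hk k' hk' =>
    ((single_le_sum (f := fun k' => N0 k k') (fun _ _ => Nat.zero_le _) hk').trans
      (single_le_sum (f := fun k => ∑ k' ∈ range m, N0 k k') (fun _ _ => Nat.zero_le _) hk)).trans hN
  have hNr : (0 : ℝ) ≤ N := Nat.cast_nonneg _
  -- expand the square
  have hsq : ∀ n : ℕ, ((‖∑ k ∈ range m, e (c * 6 ^ k * 6 ^ (Int.fract (n * th)))‖ ^ 2 : ℝ) : ℂ) =
      ∑ k ∈ range m, ∑ k' ∈ range m, e ((c * (6 ^ k - 6 ^ k')) * 6 ^ (Int.fract (n * th))) := by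
    intro n
    rw [← Complex.normSq_eq_norm_sq, Complex.normSq_eq_conj_mul_self, map_sum, mul_comm, sum_mul_sum]
    apply sum_congr rfl
    intro k _
    apply sum_congr rfl
    intro k' _
    rw [← e_neg, ← e_add]
    congr 1
    ring
  have hC : ((∑ n ∈ Ico n0 (n0 + N), ‖∑ k ∈ range m, e (c * 6 ^ k * 6 ^ (Int.fract (n * th)))‖ ^ 2 : ℝ) : ℂ) =
      ∑ k ∈ range m, ∑ k' ∈ range m, ∑ n ∈ Ico n0 (n0 + N),
        e ((c * (6 ^ k - 6 ^ k')) * 6 ^ (Int.fract (n * th))) := by
    rw [Complex.ofReal_sum]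
    simp only [hsq]
    rw [sum_comm]
    apply sum_congr rfl
    intro k _
    rw [sum_comm]
  have hb : ∀ k ∈ range m, ∀ k' ∈ range m, ‖∑ n ∈ Ico n0 (n0 + N),
        e ((c * (6 ^ k - 6 ^ k')) * 6 ^ (Int.fract (n * th)))‖ ≤
      (if k' = k then (N : ℝ) else 0) + (1 / |c| * (1 / 2) ^ k' + η) * N := by
    intro k hk k' hk'
    by_cases hkk : k' = k
    · subst hkk
      rw [if_pos rfl]
      have h2 : ‖∑ n ∈ Ico n0 (n0 + N), e ((c * (6 ^ k' - 6 ^ k')) * 6 ^ (Int.fract (n * th)))‖ ≤ N := by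
        refine (norm_sum_le _ _).trans ?_
        simp [norm_e]
      have h3 : 0 ≤ (1 / |c| * (1 / 2) ^ k' + η) * N := by positivity
      linarith
    · rw [if_neg hkk, zero_add]
      refine (hN0 k k' N (hN' k hk k' hk') n0).trans ?_
      apply mul_le_mul_of_nonneg_right _ hNr
      have h2 := six_sub k k' (Ne.symm hkk)
      have h2' : (0 : ℝ) < 2 ^ k' := by positivity
      have h3 : c * ((6 : ℝ) ^ k - 6 ^ k') ≠ 0 := by
        apply mul_ne_zero hc
        intro h0
        rw [h0, abs_zero] at h2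
        linarith
      have h4 := I_le _ h3
      have h5 : 1 / |c * ((6 : ℝ) ^ k - 6 ^ k')| ≤ 1 / |c| * (1 / 2) ^ k' := by
        rw [abs_mul, one_div_mul_eq_div, ← one_div_mul_one_div, div_eq_mul_one_div ((1 / 2 : ℝ) ^ k') |c|,
          mul_comm]
        apply mul_le_mul_of_nonneg_right _ (by positivity)
        rw [one_div_pow]
        exact one_div_le_one_div_of_le h2' h2
      linarith
  have hgeo : ∑ k' ∈ range m, ((1 : ℝ) / 2) ^ k' ≤ 2 := by
    rw [geom_sum_eq (by norm_num)]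
    have : (0 : ℝ) < (1 / 2) ^ m := by positivity
    rw [div_le_iff_of_neg (by norm_num)]
    linarith
  have hre : ∑ n ∈ Ico n0 (n0 + N), ‖∑ k ∈ range m, e (c * 6 ^ k * 6 ^ (Int.fract (n * th)))‖ ^ 2 ≤
      ‖∑ k ∈ range m, ∑ k' ∈ range m, ∑ n ∈ Ico n0 (n0 + N),
        e ((c * (6 ^ k - 6 ^ k')) * 6 ^ (Int.fract (n * th)))‖ := by
    rw [← hC, Complex.norm_real]
    exact le_abs_self _
  refine hre.trans ((norm_sum_le _ _).trans ?_)
  calc ∑ k ∈ range m, ‖∑ k' ∈ range m, ∑ n ∈ Ico n0 (n0 + N),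
        e ((c * (6 ^ k - 6 ^ k')) * 6 ^ (Int.fract (n * th)))‖
      ≤ ∑ k ∈ range m, ((N : ℝ) + (2 / |c| + m * η) * N) := by
        apply sum_le_sum
        intro k hk
        refine (norm_sum_le _ _).trans ?_
        refine (sum_le_sum fun k' hk' => hb k hk k' hk').trans ?_
        rw [sum_add_distrib, sum_ite_eq' (range m) k, if_pos hk, ← sum_mul, sum_add_distrib, ← mul_sum, sum_const,
          card_range, nsmul_eq_mul]
        have h6 : 1 / |c| * ∑ i ∈ range m, ((1 : ℝ) / 2) ^ i ≤ 2 / |c| := by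
          calc 1 / |c| * ∑ i ∈ range m, ((1 : ℝ) / 2) ^ i ≤ 1 / |c| * 2 :=
                mul_le_mul_of_nonneg_left hgeo (by positivity)
            _ = 2 / |c| := by ring
        have h7 := mul_le_mul_of_nonneg_right h6 hNr
        nlinarith
    _ = N * (m + 2 * m / |c| + m * m * η) := by
        rw [sum_const, card_range, nsmul_eq_mul]
        ring
    _ ≤ N * (m + 2 * m / |c| + 1) := by
        apply mul_le_mul_of_nonneg_left _ hNr
        have h8 : (m : ℝ) * m * η ≤ 1 := by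
          rw [hη, mul_one_div, div_le_one (by positivity)]
          nlinarith
        linarith

end Pool.Agent.Zk45.R
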