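import Mathlib
import Pool.Agent.Zk45.Phase

set_option autoImplicit false

/-! The second moment over the positions of the second block. -/

open Finset Filter Topology MeasureTheory

namespace Pool.Agent.Zk45.R

open Pool.Agent.Zk45.W

/-- `⌊n θ⌋` -/
noncomputable def fl (n : ℕ) : ℤ := ⌊(n : ℝ) * th⌋

/-- the times `n` with `6 ^ p ≤ (3/2) ^ n < 6 ^ (p + K)` -/
noncomputable def Win (K p : ℕ) : Finset ℕ :=
  (range (5 * (p + K))).filter (fun n => (6 : ℝ) ^ p ≤ (3 / 2 : ℝ) ^ n ∧ (3 / 2 : ℝ) ^ n < 6 ^ (p + K))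

lemma le_pow_iff (p n : ℕ) : (6 : ℝ) ^ p ≤ (3 / 2 : ℝ) ^ n ↔ (p : ℝ) ≤ n * th := by
  rw [← six_th, ← Real.rpow_natCast (6 : ℝ) p, Real.rpow_le_rpow_left_iff (by norm_num)]

lemma pow_lt_iff (p n : ℕ) : (3 / 2 : ℝ) ^ n < (6 : ℝ) ^ p ↔ n * th < (p : ℝ) := by
  rw [← not_le, le_pow_iff, not_le]

lemma mem_Win (K p n : ℕ) : n ∈ Win K p ↔ (p : ℤ) ≤ fl n ∧ fl n < p + K := by
  unfold Win fl
  rw [mem_filter, mem_range, le_pow_iff, pow_lt_iff, Int.le_floor, Int.floor_lt]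
  push_cast
  constructor
  · rintro ⟨_, h⟩
    exact h
  · intro h
    refine ⟨?_, h⟩
    have h1 := th_lo
    have h2 : (n : ℝ) < 5 * (p + K) := by
      have h3 : (0 : ℝ) ≤ n := Nat.cast_nonneg _
      nlinarith [h.2]
    exact_mod_cast h2

lemma Win_card (K p : ℕ) : 4 * K ≤ (Win K p).card := by
  have hsub : Ico ⌈(p : ℝ) / th⌉₊ (⌈(p : ℝ) / th⌉₊ + 4 * K) ⊆ Win K p := by
    intro n hn
    rw [mem_Ico] at hn
    rw [mem_Win]
    unfold fl
    rw [Int.le_floor, Int.floor_lt]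
    push_cast
    have h1 : (p : ℝ) / th ≤ n := (Nat.le_ceil _).trans (by exact_mod_cast hn.1)
    have h2 : (⌈(p : ℝ) / th⌉₊ : ℝ) < (p : ℝ) / th + 1 := Nat.ceil_lt_add_one (by have := th_pos; positivity)
    have h3 : (n : ℝ) + 1 ≤ ⌈(p : ℝ) / th⌉₊ + 4 * K := by exact_mod_cast hn.2
    have h4 : (n : ℝ) < p / th + 4 * K := by linarith
    constructor
    · rwa [div_le_iff₀ th_pos] at h1
    · have h5 : (n : ℝ) * th < (p / th + 4 * K) * th := mul_lt_mul_of_pos_right h4 th_pos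
      have h6 : ((p : ℝ) / th + 4 * K) * th = p + K * (4 * th) := by
        have := th_pos.ne'
        field_simp
      rw [h6] at h5
      have h7 : (K : ℝ) * (4 * th) ≤ K * 1 := mul_le_mul_of_nonneg_left (by linarith [th_hi]) (Nat.cast_nonneg _)
      linarith
  have := card_le_card hsub
  rw [Nat.card_Ico] at this
  omega

lemma fl_mono {n n' : ℕ} (h : n ≤ n') : fl n ≤ fl n' := by
  unfold fl
  apply Int.floor_le_floor
  apply mul_le_mul_of_nonneg_right _ th_pos.le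
  exact_mod_cast h

lemma fl_nonneg (n : ℕ) : 0 ≤ fl n := by
  unfold fl
  apply Int.floor_nonneg.2
  have := th_pos
  positivity

lemma fl_add (n l : ℕ) : fl n + fl l ≤ fl (n + l) ∧ fl (n + l) ≤ fl n + fl l + 1 := by
  unfold fl
  constructor
  · have := Int.le_floor_add ((n : ℝ) * th) (l * th)
    push_cast
    rw [add_mul]
    exact this
  · have := Int.le_floor_add_floor ((n : ℝ) * th) (l * th)
    push_cast
    rw [add_mul]
    linarith

lemma sym_sum (R : Finset ℕ) (B : ℕ → ℕ → ℝ) (hB0 : ∀ n n', 0 ≤ B n n') (hs : ∀ n n', B n n' = B n' n)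
    (L : ℕ) (hL : ∀ n l, L < l → B n (n + l) = 0) :
    ∑ n ∈ R, ∑ n' ∈ R, B n n' ≤ ∑ n ∈ R, B n n + 2 * ∑ l ∈ Icc 1 L, ∑ n ∈ R, B n (n + l) := by
  classical
  have h1 : ∀ n n', B n n' = (if n' = n then B n n else 0) +
      ((if n < n' then B n n' else 0) + (if n' < n then B n' n else 0)) := by
    intro n n'
    rcases lt_trichotomy n n' with h | h | h
    · rw [if_neg h.ne', if_pos h, if_neg (by omega)]; ring
    · subst h; simp
    · rw [if_neg h.ne, if_neg (by omega), if_pos h, hs]; ring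
  have h2 : ∑ n ∈ R, ∑ n' ∈ R, B n n' = ∑ n ∈ R, B n n +
      (∑ n ∈ R, ∑ n' ∈ R, (if n < n' then B n n' else 0) + ∑ n ∈ R, ∑ n' ∈ R, (if n' < n then B n' n else 0)) := by
    rw [← sum_add_distrib, ← sum_add_distrib]
    apply sum_congr rfl
    intro n hn
    rw [← sum_add_distrib]
    have h3 : B n n = ∑ n' ∈ R, (if n' = n then B n n else 0) := by
      rw [sum_ite_eq' R n, if_pos hn]
    rw [h3, ← sum_add_distrib]
    apply sum_congr rfl
    intro n' _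
    exact h1 n n'
  have h4 : ∑ n ∈ R, ∑ n' ∈ R, (if n' < n then B n' n else 0) =
      ∑ n ∈ R, ∑ n' ∈ R, (if n < n' then B n n' else 0) := sum_comm
  have h5 : ∑ n ∈ R, ∑ n' ∈ R, (if n < n' then B n n' else 0) ≤ ∑ l ∈ Icc 1 L, ∑ n ∈ R, B n (n + l) := by
    rw [sum_comm (s := Icc 1 L)]
    apply sum_le_sum
    intro n _
    rw [← sum_filter]
    have h6 : ∑ l ∈ Icc 1 L, B n (n + l) = ∑ n' ∈ (Icc 1 L).image (fun l => n + l), B n n' := by
      rw [sum_image]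
      intro a _ b _ hab
      simp only at hab
      omega
    rw [h6]
    have h7 : ∑ n' ∈ R.filter (fun n' => n < n'), B n n' =
        ∑ n' ∈ (R.filter (fun n' => n < n')).filter (fun n' => n' ≤ n + L), B n n' := by
      symm
      apply sum_subset (filter_subset _ _)
      intro n' hn' hn''
      rw [mem_filter, not_and] at hn''
      have h8 := hn'' hn'
      have h9 := hL n (n' - n) (by omega)
      rwa [show n + (n' - n) = n' by omega] at h9
    rw [h7]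
    apply sum_le_sum_of_subset_of_nonneg
    · intro n' hn'
      simp only [mem_filter] at hn'
      rw [mem_image]
      exact ⟨n' - n, by rw [mem_Icc]; omega, by omega⟩
    · intro _ _ _
      exact hB0 _ _
  rw [h2, h4]
  linarith

/-- the terms -/
noncomputable def a (u : ℕ → ℂ) (Γ : ℝ) (K : ℕ) (p : ℤ) (n : ℕ) : ℂ :=
  if p ≤ fl n ∧ fl n < p + K then u n * e (Γ * (3 / 2) ^ n / 6 ^ p) else 0

lemma norm_a_le (u : ℕ → ℂ) (hu : ∀ n, ‖u n‖ = 1) (Γ : ℝ) (K : ℕ) (p : ℤ) (n : ℕ) : ‖a u Γ K p n‖ ≤ 1 := by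
  unfold a
  split_ifs
  · rw [norm_mul, hu, norm_e, one_mul]
  · simp

noncomputable def B (u : ℕ → ℂ) (Γ : ℝ) (K : ℕ) (Q : Finset ℤ) (n n' : ℕ) : ℝ :=
  ‖∑ p ∈ Q, a u Γ K p n * (starRingEnd ℂ) (a u Γ K p n')‖

lemma B_symm (u : ℕ → ℂ) (Γ : ℝ) (K : ℕ) (Q : Finset ℤ) (n n' : ℕ) : B u Γ K Q n n' = B u Γ K Q n' n := by
  unfold B
  rw [← Complex.norm_conj, map_sum]
  congr 1
  apply sum_congr rfl
  intro p _
  rw [map_mul, Complex.conj_conj, mul_comm]

lemma B_diag (u : ℕ → ℂ) (hu : ∀ n, ‖u n‖ = 1) (Γ : ℝ) (K : ℕ) (Q : Finset ℤ) (n : ℕ) : B u Γ K Q n n ≤ K := by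
  classical
  unfold B
  refine (norm_sum_le _ _).trans ?_
  have h1 : ∀ p ∈ Q, ‖a u Γ K p n * (starRingEnd ℂ) (a u Γ K p n)‖ ≤ if p ∈ Ioc (fl n - K) (fl n) then 1 else 0 := by
    intro p _
    split_ifs with h
    · rw [norm_mul, Complex.norm_conj]
      have := norm_a_le u hu Γ K p n
      have := norm_nonneg (a u Γ K p n)
      nlinarith
    · rw [mem_Ioc] at h
      unfold a
      rw [if_neg (by omega)]
      simp
  refine (sum_le_sum h1).trans ?_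
  rw [← sum_filter, sum_const, nsmul_eq_mul, mul_one]
  have h2 : (Q.filter (fun p => p ∈ Ioc (fl n - K) (fl n))).card ≤ (Ioc (fl n - K) (fl n)).card := by
    apply card_le_card
    intro p hp
    rw [mem_filter] at hp
    exact hp.2
  rw [Int.card_Ioc] at h2
  have h3 : (fl n - (fl n - (K : ℤ))).toNat = K := by simp
  rw [h3] at h2
  exact_mod_cast h2

lemma expo_eq (Γ : ℝ) (n l : ℕ) (p : ℤ) (k : ℕ) (hk : p = fl n - k) :
    Γ * (3 / 2) ^ n / 6 ^ p - Γ * (3 / 2) ^ (n + l) / 6 ^ p =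
      (Γ * (1 - (3 / 2) ^ l)) * 6 ^ k * 6 ^ (Int.fract ((n : ℝ) * th)) := by
  have h1 : (3 / 2 : ℝ) ^ n = 6 ^ (fl n) * 6 ^ (Int.fract ((n : ℝ) * th)) := by
    rw [← six_th n, ← Real.rpow_intCast, ← Real.rpow_add (by norm_num)]
    congr 1
    unfold fl
    exact (Int.floor_add_fract _).symm
  have h2 : (6 : ℝ) ^ p * 6 ^ k = 6 ^ (fl n) := by
    rw [hk, zpow_sub₀ (by norm_num), zpow_natCast]
    field_simp
  have h3 : (6 : ℝ) ^ p ≠ 0 := (zpow_pos (by norm_num) p).ne'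
  rw [pow_add, h1, ← h2]
  field_simp

/-- the off-diagonal terms -/
lemma B_off (u : ℕ → ℂ) (hu : ∀ n, ‖u n‖ = 1) (Γ : ℝ) (K : ℕ) (Q : Finset ℤ) (n l : ℕ)
    (hQ : Ioc (fl (n + l) - K) (fl n) ⊆ Q) :
    B u Γ K Q n (n + l) = ‖∑ k ∈ range (K - (fl (n + l) - fl n)).toNat,
      e ((Γ * (1 - (3 / 2) ^ l)) * 6 ^ k * 6 ^ (Int.fract ((n : ℝ) * th)))‖ := by
  classical
  have hm := fl_mono (Nat.le_add_right n l)
  unfold B
  have h1 : ∑ p ∈ Q, a u Γ K p n * (starRingEnd ℂ) (a u Γ K p (n + l)) =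
      ∑ p ∈ Ioc (fl (n + l) - K) (fl n), a u Γ K p n * (starRingEnd ℂ) (a u Γ K p (n + l)) := by
    symm
    apply sum_subset hQ
    intro p _ hp
    rw [mem_Ioc] at hp
    unfold a
    by_cases h : p ≤ fl n
    · rw [if_neg (c := p ≤ fl (n + l) ∧ fl (n + l) < p + K) (by omega)]
      simp
    · rw [if_neg (by omega)]
      simp
  rw [h1]
  have h2 : ∑ p ∈ Ioc (fl (n + l) - K) (fl n), a u Γ K p n * (starRingEnd ℂ) (a u Γ K p (n + l)) =
      (u n * (starRingEnd ℂ) (u (n + l))) * ∑ k ∈ range (K - (fl (n + l) - fl n)).toNat,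
      e ((Γ * (1 - (3 / 2) ^ l)) * 6 ^ k * 6 ^ (Int.fract ((n : ℝ) * th))) := by
    rw [mul_sum]
    refine sum_nbij' (fun p => (fl n - p).toNat) (fun k => fl n - k) ?_ ?_ ?_ ?_ ?_
    · intro p hp
      rw [mem_Ioc] at hp
      rw [mem_range]
      omega
    · intro k hk
      rw [mem_range] at hk
      rw [mem_Ioc]
      omega
    · intro p hp
      rw [mem_Ioc] at hp
      omega
    · intro k hk
      simp
    · intro p hp
      rw [mem_Ioc] at hp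
      have h3 : p = fl n - ((fl n - p).toNat : ℕ) := by omega
      unfold a
      rw [if_pos (by omega), if_pos (by omega), map_mul, ← e_neg]
      rw [← expo_eq Γ n l p (fl n - p).toNat h3, sub_eq_add_neg, e_add]
      ring
  rw [h2, norm_mul, norm_mul, Complex.norm_conj, hu, hu, one_mul, one_mul]

/-- the number of terms for the difference `l` -/
noncomputable def ml (K l : ℕ) : ℕ := (K - fl l).toNat

lemma B_off_le (u : ℕ → ℂ) (hu : ∀ n, ‖u n‖ = 1) (Γ : ℝ) (K : ℕ) (Q : Finset ℤ) (n l : ℕ)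
    (hQ : Ioc (fl (n + l) - K) (fl n) ⊆ Q) :
    B u Γ K Q n (n + l) ≤ ‖∑ k ∈ range (ml K l),
      e ((Γ * (1 - (3 / 2) ^ l)) * 6 ^ k * 6 ^ (Int.fract ((n : ℝ) * th)))‖ + 1 := by
  rw [B_off u hu Γ K Q n l hQ]
  obtain ⟨h1, h2⟩ := fl_add n l
  set g : ℕ → ℂ := fun k => e ((Γ * (1 - (3 / 2) ^ l)) * 6 ^ k * 6 ^ (Int.fract ((n : ℝ) * th))) with hg
  have hn : ∀ k, ‖g k‖ = 1 := fun k => norm_e _
  show ‖∑ k ∈ range (K - (fl (n + l) - fl n)).toNat, g k‖ ≤ ‖∑ k ∈ range (ml K l), g k‖ + 1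
  unfold ml
  rcases (by omega : (K - (fl (n + l) - fl n)).toNat = (K - fl l).toNat ∨
    (K - (fl (n + l) - fl n)).toNat + 1 = (K - fl l).toNat) with h | h
  · rw [h]
    linarith
  · rw [← h, sum_range_succ]
    have h3 := norm_sub_le (∑ k ∈ range (K - (fl (n + l) - fl n)).toNat, g k + g (K - (fl (n + l) - fl n)).toNat)
      (g (K - (fl (n + l) - fl n)).toNat)
    rw [add_sub_cancel_right, hn] at h3
    exact h3

lemma B_off_zero (u : ℕ → ℂ) (hu : ∀ n, ‖u n‖ = 1) (Γ : ℝ) (K : ℕ) (Q : Finset ℤ) (n l : ℕ) (hl : 5 * K < l) :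
    B u Γ K Q n (n + l) = 0 := by
  have h1 : (K : ℤ) ≤ fl l := by
    unfold fl
    rw [Int.le_floor]
    have h2 : (5 : ℝ) * K < l := by exact_mod_cast hl
    have h3 := th_lo
    have h4 : (0 : ℝ) ≤ K := Nat.cast_nonneg _
    push_cast
    nlinarith
  obtain ⟨h2, _⟩ := fl_add n l
  have h3 : Ioc (fl (n + l) - K) (fl n) = ∅ := by
    rw [Ioc_eq_empty]
    omega
  rw [B_off u hu Γ K Q n l (by rw [h3]; exact empty_subset _)]
  have h4 : (K - (fl (n + l) - fl n)).toNat = 0 := by omega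
  rw [h4]
  simp

/-- the sum of squares is bounded by the double sum -/
lemma sq_le (u : ℕ → ℂ) (Γ : ℝ) (K : ℕ) (Q : Finset ℤ) (R : Finset ℕ) :
    ∑ p ∈ Q, ‖∑ n ∈ R, a u Γ K p n‖ ^ 2 ≤ ∑ n ∈ R, ∑ n' ∈ R, B u Γ K Q n n' := by
  have hC : ((∑ p ∈ Q, ‖∑ n ∈ R, a u Γ K p n‖ ^ 2 : ℝ) : ℂ) =
      ∑ n ∈ R, ∑ n' ∈ R, ∑ p ∈ Q, a u Γ K p n * (starRingEnd ℂ) (a u Γ K p n') := by
    rw [Complex.ofReal_sum]
    have h1 : ∀ p, ((‖∑ n ∈ R, a u Γ K p n‖ ^ 2 : ℝ) : ℂ) =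
        ∑ n ∈ R, ∑ n' ∈ R, a u Γ K p n * (starRingEnd ℂ) (a u Γ K p n') := by
      intro p
      rw [← Complex.normSq_eq_norm_sq, Complex.normSq_eq_conj_mul_self, map_sum, mul_comm, sum_mul_sum]
    simp only [h1]
    rw [sum_comm]
    apply sum_congr rfl
    intro n _
    rw [sum_comm]
  have h2 : ∑ p ∈ Q, ‖∑ n ∈ R, a u Γ K p n‖ ^ 2 ≤
      ‖∑ n ∈ R, ∑ n' ∈ R, ∑ p ∈ Q, a u Γ K p n * (starRingEnd ℂ) (a u Γ K p n')‖ := by
    rw [← hC, Complex.norm_real]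
    exact le_abs_self _
  refine h2.trans ((norm_sum_le _ _).trans (sum_le_sum fun n _ => ?_))
  exact norm_sum_le _ _

lemma cl_bound (l : ℕ) (hl : 1 ≤ l) : (1 : ℝ) / 2 ≤ |1 - (3 / 2 : ℝ) ^ l| := by
  have h1 : (3 / 2 : ℝ) ≤ (3 / 2) ^ l := le_self_pow₀ (by norm_num) (by omega)
  rw [abs_sub_comm]
  exact le_trans (by linarith) (le_abs_self _)

/-- **the second moment** over the positions `p` of the second block -/
theorem second_moment (Γ : ℝ) (hΓ : Γ ≠ 0) (K : ℕ) : ∃ P0 : ℕ, ∀ u : ℕ → ℂ, (∀ n, ‖u n‖ = 1) →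
    ∀ A P : ℕ, P0 ≤ P →
    ∑ p ∈ Ioc A (A + P), ‖∑ n ∈ Win K p, u n * e (Γ * (3 / 2) ^ n / 6 ^ p)‖ ^ 2 ≤
      10 * P * K * (11 + 10 * Real.sqrt (K * (1 + 4 / |Γ|) + 1)) := by
  classical
  have hΓ0 : 0 < |Γ| := abs_pos.2 hΓ
  have hms : ∀ l : ℕ, ∃ N0 : ℕ, 1 ≤ l → ∀ N : ℕ, N0 ≤ N → ∀ n0 : ℕ,
      ∑ n ∈ Ico n0 (n0 + N), ‖∑ k ∈ range (ml K l), e ((Γ * (1 - (3 / 2) ^ l)) * 6 ^ k *
        6 ^ (Int.fract ((n : ℝ) * th)))‖ ^ 2 ≤ N * (K * (1 + 4 / |Γ|) + 1) := by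
    intro l
    by_cases hl : 1 ≤ l
    · have hb := cl_bound l hl
      have hne : Γ * (1 - (3 / 2 : ℝ) ^ l) ≠ 0 := by
        apply mul_ne_zero hΓ
        intro h0
        rw [h0, abs_zero] at hb
        norm_num at hb
      obtain ⟨N0, h⟩ := lac_ms _ hne (ml K l)
      refine ⟨N0, fun _ N hN n0 => (h N hN n0).trans ?_⟩
      apply mul_le_mul_of_nonneg_left _ (Nat.cast_nonneg _)
      have h1 : (ml K l : ℝ) ≤ K := by
        have : ml K l ≤ K := by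
          unfold ml
          have := fl_nonneg l
          omega
        exact_mod_cast this
      have h2 : 2 * (ml K l : ℝ) / |Γ * (1 - (3 / 2 : ℝ) ^ l)| ≤ K * (4 / |Γ|) := by
        rw [div_le_iff₀ (by positivity), abs_mul]
        have h3 : (K : ℝ) * (4 / |Γ|) * (|Γ| * |1 - (3 / 2 : ℝ) ^ l|) = 4 * K * |1 - (3 / 2 : ℝ) ^ l| := by
          field_simp
        rw [h3]
        have h4 : (0 : ℝ) ≤ K := Nat.cast_nonneg _
        nlinarith
      linarith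
    · exact ⟨0, fun h => absurd h hl⟩
  choose N0 hN0 using hms
  refine ⟨K + 1 + ∑ l ∈ Icc 1 (5 * K), N0 l, fun u hu A P hP => ?_⟩
  set N : ℕ := 5 * (P + K) with hN
  set n0 : ℕ := ⌈((A : ℝ) + 1) / th⌉₊ with hn0
  set R : Finset ℕ := Ico n0 (n0 + N) with hR
  have hN' : ∀ l ∈ Icc 1 (5 * K), N0 l ≤ N := fun l hl => by
    have := single_le_sum (f := N0) (fun _ _ => Nat.zero_le _) hl
    omega
  have hn0' : ((A : ℝ) + 1) / th ≤ n0 := Nat.le_ceil _
  have hn0'' : ((A : ℝ) + 1) ≤ n0 * th := by rwa [div_le_iff₀ th_pos] at hn0'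
  set Q : Finset ℤ := Icc (-(K : ℤ)) (fl (n0 + N)) with hQ
  have hNth : (P : ℝ) + K ≤ N * th := by
    rw [hN]
    push_cast
    have h1 := th_lo
    have h2 : (0 : ℝ) ≤ P + K := by positivity
    nlinarith
  have hbig : (A : ℤ) + P + K + 1 ≤ fl (n0 + N) := by
    unfold fl
    rw [Int.le_floor]
    push_cast
    rw [add_mul]
    linarith
  -- the windows are in `R`
  have hWR : ∀ p ∈ Ioc A (A + P), Win K p ⊆ R := by
    intro p hp n hn
    rw [mem_Ioc] at hp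
    rw [mem_Win] at hn
    rw [hR, mem_Ico]
    constructor
    · rw [hn0]
      apply Nat.ceil_le.2
      rw [div_le_iff₀ th_pos]
      have h1 := hn.1
      unfold fl at h1
      rw [Int.le_floor] at h1
      have h2 : (A : ℝ) + 1 ≤ p := by exact_mod_cast hp.1
      push_cast at h1
      linarith
    · by_contra hcon
      have h1 := fl_mono (not_lt.1 hcon)
      omega
  have hlhs : ∑ p ∈ Ioc A (A + P), ‖∑ n ∈ Win K p, u n * e (Γ * (3 / 2) ^ n / 6 ^ p)‖ ^ 2 ≤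
      ∑ p ∈ Q, ‖∑ n ∈ R, a u Γ K p n‖ ^ 2 := by
    have h1 : ∑ p ∈ Ioc A (A + P), ‖∑ n ∈ Win K p, u n * e (Γ * (3 / 2) ^ n / 6 ^ p)‖ ^ 2 =
        ∑ p ∈ (Ioc A (A + P)).image (fun p : ℕ => (p : ℤ)), ‖∑ n ∈ R, a u Γ K p n‖ ^ 2 := by
      rw [sum_image (fun a _ b _ hab => by exact_mod_cast hab)]
      apply sum_congr rfl
      intro p hp
      congr 2
      have h2 := hWR p hp
      have h3 : ∑ n ∈ R, a u Γ K p n = ∑ n ∈ Win K p, a u Γ K p n := by
        symm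
        apply sum_subset h2
        intro n _ hn
        rw [mem_Win] at hn
        unfold a
        rw [if_neg hn]
      rw [h3]
      apply sum_congr rfl
      intro n hn
      rw [mem_Win] at hn
      unfold a
      rw [if_pos hn, zpow_natCast]
    rw [h1]
    apply sum_le_sum_of_subset_of_nonneg
    · intro p hp
      rw [mem_image] at hp
      obtain ⟨q, hq, rfl⟩ := hp
      rw [mem_Ioc] at hq
      rw [hQ, mem_Icc]
      omega
    · intro _ _ _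
      positivity
  refine hlhs.trans ((sq_le u Γ K Q R).trans ((sym_sum R (B u Γ K Q) (fun _ _ => norm_nonneg _)
    (B_symm u Γ K Q) (5 * K) (fun n l hl => B_off_zero u hu Γ K Q n l hl)).trans ?_))
  have hRc : (R.card : ℝ) = N := by
    rw [hR, Nat.card_Ico]
    congr 1
    omega
  have hdiag : ∑ n ∈ R, B u Γ K Q n n ≤ N * K := by
    refine (sum_le_sum fun n _ => B_diag u hu Γ K Q n).trans ?_
    rw [sum_const, nsmul_eq_mul, hRc]
  set S := Real.sqrt (K * (1 + 4 / |Γ|) + 1) with hS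
  have hoff : ∀ l ∈ Icc 1 (5 * K), ∑ n ∈ R, B u Γ K Q n (n + l) ≤ N * (S + 1) := by
    intro l hl
    have hl1 := (mem_Icc.1 hl).1
    set G : ℕ → ℝ := fun n => ‖∑ k ∈ range (ml K l), e ((Γ * (1 - (3 / 2) ^ l)) * 6 ^ k *
        6 ^ (Int.fract ((n : ℝ) * th)))‖ with hG
    have h1 : ∑ n ∈ R, B u Γ K Q n (n + l) ≤ ∑ n ∈ R, (G n + 1) := by
      apply sum_le_sum
      intro n hn
      apply B_off_le u hu Γ K Q n l
      intro p hp
      rw [hR, mem_Ico] at hn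
      rw [mem_Ioc] at hp
      rw [hQ, mem_Icc]
      have h2 := fl_nonneg (n + l)
      have h3 := fl_mono hn.2.le
      omega
    have h2 : (∑ n ∈ R, G n) ^ 2 ≤ N * (N * (K * (1 + 4 / |Γ|) + 1)) := by
      refine (sq_sum_le_card_mul_sum_sq (s := R) (f := G)).trans ?_
      rw [hRc]
      exact mul_le_mul_of_nonneg_left (hN0 l hl1 N (hN' l hl) n0) (Nat.cast_nonneg _)
    have h3 : ∑ n ∈ R, G n ≤ N * S := by
      have h4 : 0 ≤ N * S := by positivity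
      apply le_of_sq_le_sq _ h4
      have h5 : S ^ 2 = K * (1 + 4 / |Γ|) + 1 := Real.sq_sqrt (by positivity)
      rw [mul_pow, h5]
      linarith
    refine h1.trans ?_
    rw [sum_add_distrib, sum_const, nsmul_eq_mul, mul_one, hRc]
    linarith
  have hoff' : ∑ l ∈ Icc 1 (5 * K), ∑ n ∈ R, B u Γ K Q n (n + l) ≤ 5 * K * (N * (S + 1)) := by
    refine (sum_le_sum hoff).trans ?_
    rw [sum_const, nsmul_eq_mul, Nat.card_Icc]
    push_cast
    simp
  have hNP : (N : ℝ) ≤ 10 * P := by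
    have : N ≤ 10 * P := by omega
    exact_mod_cast this
  have hS0 : 0 ≤ S := Real.sqrt_nonneg _
  have hK0 : (0 : ℝ) ≤ K := Nat.cast_nonneg _
  calc ∑ n ∈ R, B u Γ K Q n n + 2 * ∑ l ∈ Icc 1 (5 * K), ∑ n ∈ R, B u Γ K Q n (n + l)
      ≤ N * K + 2 * (5 * K * (N * (S + 1))) := by linarith
    _ = N * (K * (11 + 10 * S)) := by ring
    _ ≤ (10 * P) * (K * (11 + 10 * S)) := mul_le_mul_of_nonneg_right hNP (by positivity)
    _ = _ := by ring

/-- few positions are bad -/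
theorem core1 (Γ : ℝ) (hΓ : Γ ≠ 0) (δ ε : ℝ) (hδ : 0 < δ) (hε : 0 < ε) : ∃ K0 : ℕ, ∀ K : ℕ, K0 ≤ K →
    ∃ P0 : ℕ, ∀ u : ℕ → ℂ, (∀ n, ‖u n‖ = 1) → ∀ A P : ℕ, P0 ≤ P →
    (((Ioc A (A + P)).filter (fun p => δ * (Win K p).card <
      ‖∑ n ∈ Win K p, u n * e (Γ * (3 / 2) ^ n / 6 ^ p)‖)).card : ℝ) ≤ ε * P := by
  classical
  have hΓ0 : 0 < |Γ| := abs_pos.2 hΓ
  set D : ℝ := 2 + 4 / |Γ| with hD
  have hD2 : 2 ≤ D := by
    have : 0 ≤ 4 / |Γ| := by positivity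
    linarith
  obtain ⟨K0, hK0⟩ := exists_nat_ge (196 * D / (δ ^ 4 * ε ^ 2))
  refine ⟨K0 + 1, fun K hK => ?_⟩
  obtain ⟨P0, hP0⟩ := second_moment Γ hΓ K
  refine ⟨P0, fun u hu A P hP => ?_⟩
  have h1 := hP0 u hu A P hP
  have hK1 : (1 : ℝ) ≤ K := by
    have : 1 ≤ K := by omega
    exact_mod_cast this
  have hKpos : (0 : ℝ) < K := by linarith
  set bad := (Ioc A (A + P)).filter (fun p => δ * (Win K p).card <
      ‖∑ n ∈ Win K p, u n * e (Γ * (3 / 2) ^ n / 6 ^ p)‖) with hbad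
  have h2 : (bad.card : ℝ) * (4 * δ * K) ^ 2 ≤
      ∑ p ∈ Ioc A (A + P), ‖∑ n ∈ Win K p, u n * e (Γ * (3 / 2) ^ n / 6 ^ p)‖ ^ 2 := by
    calc (bad.card : ℝ) * (4 * δ * K) ^ 2 = ∑ p ∈ bad, (4 * δ * K) ^ 2 := by
          rw [sum_const, nsmul_eq_mul]
      _ ≤ ∑ p ∈ bad, ‖∑ n ∈ Win K p, u n * e (Γ * (3 / 2) ^ n / 6 ^ p)‖ ^ 2 := by
          apply sum_le_sum
          intro p hp
          rw [hbad, mem_filter] at hp
          apply pow_le_pow_left₀ (by positivity)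
          refine le_trans ?_ hp.2.le
          have h3 : (4 : ℝ) * K ≤ (Win K p).card := by exact_mod_cast Win_card K p
          nlinarith
      _ ≤ _ := sum_le_sum_of_subset_of_nonneg (filter_subset _ _) (fun _ _ _ => by positivity)
  set S := Real.sqrt (K * (1 + 4 / |Γ|) + 1) with hS
  have hSle : S ≤ Real.sqrt (K * D) := by
    apply Real.sqrt_le_sqrt
    rw [hD]
    nlinarith
  set T := Real.sqrt (K * D) with hT
  have hT2 : T ^ 2 = K * D := Real.sq_sqrt (by positivity)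
  have hT1 : 1 ≤ T := by
    rw [hT, Real.one_le_sqrt]
    nlinarith
  have h3 : (bad.card : ℝ) * (16 * δ ^ 2 * K) ≤ 10 * P * (21 * T) := by
    have h4 : (bad.card : ℝ) * (16 * δ ^ 2 * K) * K ≤ 10 * P * (21 * T) * K := by
      calc (bad.card : ℝ) * (16 * δ ^ 2 * K) * K = bad.card * (4 * δ * K) ^ 2 := by ring
        _ ≤ 10 * P * K * (11 + 10 * S) := h2.trans h1
        _ ≤ 10 * P * K * (21 * T) := by
            apply mul_le_mul_of_nonneg_left _ (by positivity)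
            linarith
        _ = _ := by ring
    exact le_of_mul_le_mul_right h4 hKpos
  have hKbig : 196 * D ≤ K * (δ ^ 4 * ε ^ 2) := by
    rw [div_le_iff₀ (by positivity)] at hK0
    refine hK0.trans (mul_le_mul_of_nonneg_right ?_ (by positivity))
    have : K0 ≤ K := by omega
    exact_mod_cast this
  have h5 : 14 * T ≤ K * (δ ^ 2 * ε) := by
    apply le_of_sq_le_sq _ (by positivity)
    rw [mul_pow, hT2]
    nlinarith
  have h6 : (bad.card : ℝ) * (16 * δ ^ 2 * K) ≤ (ε * P) * (16 * δ ^ 2 * K) := by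
    refine h3.trans ?_
    have hP0' : (0 : ℝ) ≤ P := Nat.cast_nonneg _
    have h7 : (P : ℝ) * (14 * T) ≤ P * (K * (δ ^ 2 * ε)) := mul_le_mul_of_nonneg_left h5 hP0'
    nlinarith
  exact le_of_mul_le_mul_right h6 (by positivity)

end Pool.Agent.Zk45.R
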