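import Mathlib
import Pool.Agent.Zk45.Core
import Pool.Agent.H429R2.Auto

set_option autoImplicit false

/-! Words shown by the automaton and fractional parts; two blocks. -/

open Finset Filter Topology MeasureTheory

namespace Pool.Agent.Zk45.Two

open Pool.Agent.Zk45.W Pool.Agent.Zk45.R Pool.Agent.H429R2.Auto

/-- the word `w` is shown at `j` -/
def Sh {L : ℕ} (x : Conf) (w : Fin L → Fin 6) (j : ℤ) : Prop := ∀ s : Fin L, x (j + (s : ℕ)) = w s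

/-- the number coding the word -/
def code {L : ℕ} (w : Fin L → Fin 6) : ℕ :=
  ∑ r ∈ range L, ((if h : L - 1 - r < L then w ⟨L - 1 - r, h⟩ else 0 : Fin 6) : ℕ) * 6 ^ r

lemma code_lt {L : ℕ} (w : Fin L → Fin 6) : code w < 6 ^ L :=
  sum_lt L fun r => if h : L - 1 - r < L then w ⟨L - 1 - r, h⟩ else 0

lemma code_digit {L : ℕ} (w : Fin L → Fin 6) (r : ℕ) (hr : r < L) :
    code w / 6 ^ r % 6 = ((w ⟨L - 1 - r, by omega⟩ : Fin 6) : ℕ) := by
  have h := digits_sum L (fun r => if h : L - 1 - r < L then w ⟨L - 1 - r, h⟩ else 0) r hr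
  unfold code
  rw [h, dif_pos]

lemma sh_iff_mod {L : ℕ} {x : Conf} {v : ℝ} (hx : Rep x v) (w : Fin L → Fin 6) (j : ℤ) :
    Sh x w j ↔ ⌊(6 : ℝ) ^ (j + L - 1) * v⌋₊ % 6 ^ L = code w := by
  constructor
  · intro h
    apply eq_of_digits L _ _ (Nat.mod_lt _ (by positivity)) (code_lt w)
    intro r hr
    rw [← letter hx j L r hr, code_digit w r hr]
    have h1 := h ⟨L - 1 - r, by omega⟩
    rw [← h1]
    congr 2
    simp only
    omega
  · intro h s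
    have hs := s.isLt
    have h1 := letter hx j L (L - 1 - s) (by omega)
    rw [h, code_digit w _ (by omega)] at h1
    have e1 : j + (L : ℤ) - 1 - ((L - 1 - (s : ℕ) : ℕ) : ℤ) = j + (s : ℕ) := by omega
    rw [e1] at h1
    have e2 : L - 1 - (L - 1 - (s : ℕ)) = s := by omega
    simp only [e2] at h1
    exact Fin.ext h1

lemma mod_iff_fract (L : ℕ) (y : ℝ) (hy : 0 ≤ y) (c : ℕ) :
    ⌊(6 : ℝ) ^ L * y⌋₊ % 6 ^ L = c ↔ (c : ℝ) / 6 ^ L ≤ Int.fract y ∧ Int.fract y < (c + 1) / 6 ^ L := by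
  have h6 : (0 : ℝ) < 6 ^ L := by positivity
  set q : ℕ := ⌊y⌋₊ with hq
  have hfr : Int.fract y = y - q := by
    rw [Int.fract, hq, ← natCast_floor_eq_intCast_floor hy]
  have hf0 := Int.fract_nonneg y
  have hf1 := Int.fract_lt_one y
  have h1 : ⌊(6 : ℝ) ^ L * y⌋₊ = 6 ^ L * q + ⌊(6 : ℝ) ^ L * Int.fract y⌋₊ := by
    have h2 : (6 : ℝ) ^ L * y = (6 : ℝ) ^ L * Int.fract y + ((6 ^ L * q : ℕ) : ℝ) := by
      rw [hfr]; push_cast; ring
    rw [h2, Nat.floor_add_natCast (by positivity), add_comm]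
  have h3 : ⌊(6 : ℝ) ^ L * Int.fract y⌋₊ < 6 ^ L := by
    rw [Nat.floor_lt (by positivity)]
    push_cast
    nlinarith
  rw [h1, Nat.mul_add_mod, Nat.mod_eq_of_lt h3, Nat.floor_eq_iff (by positivity), div_le_iff₀ h6, lt_div_iff₀ h6,
    mul_comm]

/-- showing a word is a condition on a fractional part -/
lemma sh_iff_fract {L : ℕ} {x : Conf} {v : ℝ} (hv : 0 ≤ v) (hx : Rep x v) (w : Fin L → Fin 6) (j : ℤ) :
    Sh x w j ↔ ((code w : ℕ) : ℝ) / 6 ^ L ≤ Int.fract ((6 : ℝ) ^ (j - 1) * v) ∧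
      Int.fract ((6 : ℝ) ^ (j - 1) * v) < ((code w : ℕ) + 1 : ℝ) / 6 ^ L := by
  rw [sh_iff_mod hx, ← mod_iff_fract L _ (by positivity)]
  have e1 : (6 : ℝ) ^ (j + L - 1) * v = (6 : ℝ) ^ L * ((6 : ℝ) ^ (j - 1) * v) := by
    rw [← mul_assoc, ← zpow_natCast (6 : ℝ) L, ← zpow_add₀ (by norm_num)]
    congr 2
    ring
  rw [e1]

lemma rep_shift_iter {y : Conf} {β : ℝ} (h : Rep y β) (p : ℕ) : Rep (shiftR^[p] y) (β / 6 ^ p) := by
  induction p with
  | zero => simpa using h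
  | succ p ih =>
    rw [Function.iterate_succ_apply']
    have := rep_shiftR ih
    rw [pow_succ, ← div_div]
    exact this

/-- the sum of a finite configuration and a configuration far to the right of it -/
lemma rep_add {x y : Conf} {m k : ℕ} {β : ℝ} (hx : Rep x ((m : ℝ) / 6 ^ k)) (hβ : 0 ≤ β) (hy : Rep y β) (p : ℕ)
    (hp : β * 6 ^ k < 6 ^ p) : Rep (x + shiftR^[p] y) ((m : ℝ) / 6 ^ k + β / 6 ^ p) := by
  have hy' := rep_shift_iter hy p
  intro i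
  have hxi := hx i
  have hyi := hy' i
  have hsum : ((x + shiftR^[p] y) i : Fin 6) = x i + (shiftR^[p] y) i := rfl
  set z : ℝ := (6 : ℝ) ^ i * (β / 6 ^ p) with hz
  have hz0 : 0 ≤ z := by positivity
  rcases le_or_gt i (k : ℤ) with h | h
  · obtain ⟨l, hl⟩ := Int.eq_ofNat_of_zero_le (sub_nonneg.2 h)
    have hil : i = (k : ℤ) - l := by omega
    have e : (6 : ℝ) ^ i * ((m : ℝ) / 6 ^ k) = (m : ℝ) / ((6 ^ l : ℕ) : ℝ) := by
      rw [hil, zpow_sub₀ (by norm_num), zpow_natCast, zpow_natCast]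
      push_cast
      field_simp
    have hzl : z * 6 ^ l < 1 := by
      rw [hz, hil, zpow_sub₀ (by norm_num), zpow_natCast, zpow_natCast]
      have : (6 : ℝ) ^ k / 6 ^ l * (β / 6 ^ p) * 6 ^ l = (β * 6 ^ k) / 6 ^ p := by field_simp
      rw [this, div_lt_one (by positivity)]
      exact hp
    have h6l : (1 : ℝ) ≤ 6 ^ l := one_le_pow₀ (by norm_num)
    have hz1 : z < 1 := by nlinarith
    have hyz : (shiftR^[p] y) i = 0 := by
      rw [Nat.floor_eq_zero.2 hz1] at hyi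
      exact Fin.ext (by simpa using hyi)
    rw [hsum, hyz, add_zero, hxi]
    congr 1
    rw [mul_add, e, Nat.floor_div_eq_div]
    symm
    rw [Nat.floor_eq_iff (by positivity)]
    have h6 : (0 : ℝ) < ((6 ^ l : ℕ) : ℝ) := by positivity
    constructor
    · have : ((m / 6 ^ l : ℕ) : ℝ) ≤ (m : ℝ) / ((6 ^ l : ℕ) : ℝ) := Nat.cast_div_le
      linarith
    · have h7 : m + 1 ≤ 6 ^ l * (m / 6 ^ l + 1) := by
        have := Nat.lt_mul_div_succ m (show 0 < 6 ^ l by positivity)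
        omega
      have h8 : (m : ℝ) + 1 ≤ ((6 ^ l : ℕ) : ℝ) * (((m / 6 ^ l : ℕ) : ℝ) + 1) := by exact_mod_cast h7
      have h9 : ((m : ℝ) / ((6 ^ l : ℕ) : ℝ) + z) * ((6 ^ l : ℕ) : ℝ) < (((m / 6 ^ l : ℕ) : ℝ) + 1) * ((6 ^ l : ℕ) : ℝ) := by
        rw [add_mul, div_mul_cancel₀ _ h6.ne']
        push_cast at h8 ⊢
        linarith
      exact lt_of_mul_lt_mul_right h9 h6.le
  · obtain ⟨l, hl⟩ := Int.eq_ofNat_of_zero_le (sub_nonneg.2 h.le)
    have hl1 : 0 < l := by omega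
    obtain ⟨l', rfl⟩ : ∃ l', l = l' + 1 := ⟨l - 1, by omega⟩
    have e : (6 : ℝ) ^ i * ((m : ℝ) / 6 ^ k) = ((6 * (6 ^ l' * m) : ℕ) : ℝ) := by
      have : i = (k : ℤ) + ((l' + 1 : ℕ) : ℤ) := by omega
      rw [this, zpow_add₀ (by norm_num), zpow_natCast, zpow_natCast]
      push_cast
      field_simp
      ring
    rw [e, Nat.floor_natCast, Nat.mul_mod_right] at hxi
    have hx0 : x i = 0 := Fin.ext (by simpa using hxi)
    rw [hsum, hx0, zero_add, hyi, mul_add, e, ← hz, add_comm, Nat.floor_add_natCast hz0]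
    omega

/-- good positions: all words of length `L` have about the right frequency at the positions `|j| ≤ J` during the
window of time -/
def Bal (L J : ℕ) (ε : ℝ) (K p : ℕ) (x : Conf) : Prop :=
  ∀ j : ℤ, |j| ≤ J → ∀ w : Fin L → Fin 6,
    |({n : ℕ | n ∈ Win K p ∧ Sh (F^[n] x) w j}.ncard : ℝ) - (Win K p).card / 6 ^ L| ≤ ε * (Win K p).card

/-- Main theorem, for expansions of `α + β / 6 ^ p` -/
theorem main (β : ℝ) (hβ : 0 < β) (L J : ℕ) (ε : ℝ) (hε : 0 < ε) : ∃ K0 : ℕ, ∀ K : ℕ, K0 ≤ K →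
    ∃ P0 : ℕ, ∀ α : ℝ, 0 ≤ α → ∀ x : ℕ → Conf, ∀ A P : ℕ, P0 ≤ P →
      (({p : ℕ | A < p ∧ p ≤ A + P ∧ Rep (x p) (α + β / 6 ^ p) ∧ ¬ Bal L J ε K p (x p)}.ncard : ℕ) : ℝ) ≤ ε * P := by
  classical
  -- Weyl's criterion for all the intervals
  have hw : ∀ c : ℕ, ∃ H : ℕ, ∃ δ : ℝ, 0 < δ ∧ (c < 6 ^ L → ∀ (ι : Type) (s : Finset ι) (y : ι → ℝ),
    (∀ h : ℤ, h ≠ 0 → |h| ≤ H → ‖∑ i ∈ s, e (h * y i)‖ ≤ δ * s.card) →
    |((s.filter (fun i => (c : ℝ) / 6 ^ L ≤ Int.fract (y i) ∧ Int.fract (y i) < (c + 1) / 6 ^ L)).card : ℝ) -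
      ((c + 1 : ℝ) / 6 ^ L - c / 6 ^ L) * s.card| ≤ ε * s.card) := by
    intro c
    by_cases hc : c < 6 ^ L
    · have hc' : (c : ℝ) + 1 ≤ 6 ^ L := by exact_mod_cast hc
      obtain ⟨H, δ, hδ, h⟩ := weyl_fin ((c : ℝ) / 6 ^ L) ((c + 1) / 6 ^ L) ε (by positivity)
        (by apply div_le_div_of_nonneg_right _ (by positivity); linarith)
        (by rw [div_le_one (by positivity)]; exact hc') hε
      exact ⟨H, δ, hδ, fun _ => h⟩
    · exact ⟨0, 1, one_pos, fun h => absurd h hc⟩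
  choose H δ hδ hw using hw
  set H0 : ℕ := ∑ c ∈ range (6 ^ L), H c with hH0
  have hHle : ∀ c < 6 ^ L, H c ≤ H0 := fun c hc =>
    single_le_sum (f := H) (fun _ _ => Nat.zero_le _) (mem_range.2 hc)
  obtain ⟨δ0, hδ0, hδle⟩ : ∃ δ0 : ℝ, 0 < δ0 ∧ ∀ c < 6 ^ L, δ0 ≤ δ c := by
    have hne : (range (6 ^ L)).Nonempty := ⟨0, mem_range.2 (by positivity)⟩
    refine ⟨(range (6 ^ L)).inf' hne δ, ?_, fun c hc => inf'_le _ (mem_range.2 hc)⟩
    rw [lt_inf'_iff]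
    exact fun c _ => hδ c
  -- the family of phases
  set T : Finset (ℤ × ℤ) := ((Icc (-(H0 : ℤ)) H0).filter (fun h => h ≠ 0)) ×ˢ (Icc (-(J : ℤ)) J) with hT
  set ε' : ℝ := ε / (T.card + 1) with hε'
  have hε'0 : 0 < ε' := by positivity
  have hcore : ∀ t : ℤ × ℤ, ∃ K0 : ℕ, t.1 ≠ 0 → ∀ K : ℕ, K0 ≤ K →
    ∃ P0 : ℕ, ∀ u : ℕ → ℂ, (∀ n, ‖u n‖ = 1) → ∀ A P : ℕ, P0 ≤ P →
    (((Ioc A (A + P)).filter (fun p => δ0 * (Win K p).card <
      ‖∑ n ∈ Win K p, u n * e ((t.1 * ((6 : ℝ) ^ (t.2 - 1) * β)) * (3 / 2) ^ n / 6 ^ p)‖)).card : ℝ) ≤ ε' * P := by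
    intro t
    by_cases ht : t.1 = 0
    · exact ⟨0, fun h => absurd ht h⟩
    · have hne : (t.1 : ℝ) * ((6 : ℝ) ^ (t.2 - 1) * β) ≠ 0 := by
        have : (t.1 : ℝ) ≠ 0 := by exact_mod_cast ht
        positivity
      obtain ⟨K0, h⟩ := core1 _ hne δ0 ε' hδ0 hε'0
      exact ⟨K0, fun _ => h⟩
  choose K0 hK0 using hcore
  refine ⟨∑ t ∈ T, K0 t, fun K hK => ?_⟩
  have hKle : ∀ t ∈ T, K0 t ≤ K := fun t ht =>
    (single_le_sum (f := K0) (fun _ _ => Nat.zero_le _) ht).trans hK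
  have hTne : ∀ t ∈ T, t.1 ≠ 0 := by
    intro t ht
    rw [hT, mem_product, mem_filter] at ht
    exact ht.1.2
  have hP : ∀ t : ℤ × ℤ, ∃ P0 : ℕ, t ∈ T → ∀ u : ℕ → ℂ, (∀ n, ‖u n‖ = 1) → ∀ A P : ℕ, P0 ≤ P →
    (((Ioc A (A + P)).filter (fun p => δ0 * (Win K p).card <
      ‖∑ n ∈ Win K p, u n * e ((t.1 * ((6 : ℝ) ^ (t.2 - 1) * β)) * (3 / 2) ^ n / 6 ^ p)‖)).card : ℝ) ≤ ε' * P := by
    intro t
    by_cases ht : t ∈ T
    · obtain ⟨P0, h⟩ := hK0 t (hTne t ht) K (hKle t ht)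
      exact ⟨P0, fun _ => h⟩
    · exact ⟨0, fun h => absurd h ht⟩
  choose P0 hP0 using hP
  refine ⟨∑ t ∈ T, P0 t, fun α hα x A P hPP => ?_⟩
  have hPle : ∀ t ∈ T, P0 t ≤ P := fun t ht =>
    (single_le_sum (f := P0) (fun _ _ => Nat.zero_le _) ht).trans hPP
  set u : ℤ × ℤ → ℕ → ℂ := fun t n => e ((t.1 * ((6 : ℝ) ^ (t.2 - 1) * α)) * (3 / 2) ^ n) with hu
  set bad : ℤ × ℤ → Finset ℕ := fun t => (Ioc A (A + P)).filter (fun p => δ0 * (Win K p).card <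
      ‖∑ n ∈ Win K p, u t n * e ((t.1 * ((6 : ℝ) ^ (t.2 - 1) * β)) * (3 / 2) ^ n / 6 ^ p)‖) with hbad
  have hbc : ∀ t ∈ T, ((bad t).card : ℝ) ≤ ε' * P := fun t ht =>
    hP0 t ht (u t) (fun n => norm_e _) A P (hPle t ht)
  have hsub : {p : ℕ | A < p ∧ p ≤ A + P ∧ Rep (x p) (α + β / 6 ^ p) ∧ ¬ Bal L J ε K p (x p)} ⊆
      ((T.biUnion bad : Finset ℕ) : Set ℕ) := by
    rintro p ⟨hp1, hp2, hrep, hnb⟩
    by_contra hcon
    apply hnb
    intro j hj w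
    have hvn : ∀ n : ℕ, 0 ≤ (3 / 2 : ℝ) ^ n * (α + β / 6 ^ p) := fun n => by positivity
    have hβ6 : 0 ≤ α + β / 6 ^ p := by positivity
    set y : ℕ → ℝ := fun n => (6 : ℝ) ^ (j - 1) * ((3 / 2) ^ n * (α + β / 6 ^ p)) with hy
    have hset : {n : ℕ | n ∈ Win K p ∧ Sh (F^[n] (x p)) w j} =
        (((Win K p).filter (fun n => ((code w : ℕ) : ℝ) / 6 ^ L ≤ Int.fract (y n) ∧
          Int.fract (y n) < ((code w : ℕ) + 1 : ℝ) / 6 ^ L) : Finset ℕ) : Set ℕ) := by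
      ext n
      rw [Set.mem_ofPred_eq, mem_coe, mem_filter]
      apply and_congr_right
      intro _
      exact sh_iff_fract (hvn n) (rep_iter hβ6 hrep n) w j
    rw [hset, Set.ncard_coe_finset]
    have hcode := code_lt w
    have h1 := hw (code w) hcode ℕ (Win K p) y (by
      intro h hh0 hhH
      have hhH' : |h| ≤ H0 := hhH.trans (by exact_mod_cast hHle _ hcode)
      have hmem : (h, j) ∈ T := by
        rw [hT, mem_product, mem_filter, mem_Icc, mem_Icc]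
        exact ⟨⟨abs_le.1 hhH', hh0⟩, abs_le.1 hj⟩
      have hnbad : p ∉ bad (h, j) := by
        intro hb
        apply hcon
        rw [mem_coe, mem_biUnion]
        exact ⟨(h, j), hmem, hb⟩
      rw [hbad, mem_filter, not_and, not_lt] at hnbad
      have h2 := hnbad (mem_Ioc.2 ⟨hp1, hp2⟩)
      have h3 : ∀ n ∈ Win K p, u (h, j) n * e (((h : ℤ) * ((6 : ℝ) ^ (j - 1) * β)) * (3 / 2) ^ n / 6 ^ p) =
          e (h * y n) := by
        intro n _
        rw [hu, hy, ← e_add]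
        congr 1
        simp only
        ring
      rw [sum_congr rfl h3] at h2
      exact h2.trans (mul_le_mul_of_nonneg_right (hδle _ hcode) (Nat.cast_nonneg _)))
    have h4 : (((code w : ℕ) + 1 : ℝ) / 6 ^ L - (code w : ℕ) / 6 ^ L) * (Win K p).card = (Win K p).card / 6 ^ L := by
      ring
    rw [h4] at h1
    exact h1
  have hcard : (({p : ℕ | A < p ∧ p ≤ A + P ∧ Rep (x p) (α + β / 6 ^ p) ∧ ¬ Bal L J ε K p (x p)}.ncard : ℕ) : ℝ) ≤
      ((T.biUnion bad).card : ℝ) := by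
    have := Set.ncard_le_ncard hsub (Finset.finite_toSet _)
    rw [Set.ncard_coe_finset] at this
    exact_mod_cast this
  refine hcard.trans ?_
  have h5 : ((T.biUnion bad).card : ℝ) ≤ ∑ t ∈ T, ((bad t).card : ℝ) := by
    exact_mod_cast card_biUnion_le
  refine h5.trans ((sum_le_sum hbc).trans ?_)
  rw [sum_const, nsmul_eq_mul, hε']
  have hP0' : (0 : ℝ) ≤ P := Nat.cast_nonneg _
  have hTc : (0 : ℝ) < (T.card : ℝ) + 1 := by positivity
  calc (T.card : ℝ) * (ε / (T.card + 1) * P) = (T.card / (T.card + 1)) * (ε * P) := by ring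
    _ ≤ 1 * (ε * P) := by
        apply mul_le_mul_of_nonneg_right _ (by positivity)
        rw [div_le_one hTc]
        linarith
    _ = ε * P := one_mul _

end Pool.Agent.Zk45.Two
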