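import Mathlib
import Pool.Agent.Zk45.Two

set_option autoImplicit false

/-! Sequences of digits: a new digit far away makes all words of a given length appear. -/

open Finset Filter Topology

namespace Pool.Agent.Zk45.Far

open Pool.Agent.Zk45.W Pool.Agent.Zk45.R Pool.Agent.H429R2.Auto Pool.Agent.Zk45.Two

/-- the configuration with the digits `a 0, a 1, …` at the positions `0, 1, …` -/
def conf (a : ℕ → Fin 6) : Conf := fun i => if 0 ≤ i then a i.toNat else 0

/-- the base 6 value of the first `M` digits -/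
noncomputable def V (a : ℕ → Fin 6) (M : ℕ) : ℝ := ∑ i ∈ range M, ((a i : Fin 6) : ℕ) / (6 : ℝ) ^ i

/-- truncation -/
def tr (a : ℕ → Fin 6) (M : ℕ) : ℕ → Fin 6 := fun i => if i < M then a i else 0

lemma V_nonneg (a : ℕ → Fin 6) (M : ℕ) : 0 ≤ V a M := by
  unfold V
  positivity

/-- one digit -/
def dig (c : Fin 6) : Conf := fun i => if i = 0 then c else 0

lemma rep_dig (c : Fin 6) : Rep (dig c) ((c : ℕ) : ℝ) := by
  intro i
  have hc := c.isLt
  unfold dig
  split_ifs with h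
  · subst h
    rw [zpow_zero, one_mul, Nat.floor_natCast, Nat.mod_eq_of_lt hc]
  · rcases lt_or_gt_of_ne h with h | h
    · obtain ⟨l, hl⟩ := Int.eq_ofNat_of_zero_le (show 0 ≤ -i by omega)
      have hl1 : 0 < l := by omega
      have h1 : (6 : ℝ) ^ i * ((c : ℕ) : ℝ) < 1 := by
        have : i = -(l : ℤ) := by omega
        rw [this, zpow_neg, zpow_natCast, inv_mul_lt_iff₀ (by positivity), mul_one]
        calc ((c : ℕ) : ℝ) < 6 := by exact_mod_cast hc
          _ ≤ 6 ^ l := le_self_pow₀ (by norm_num) (by omega)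
      rw [Nat.floor_eq_zero.2 h1]
      rfl
    · obtain ⟨l, hl⟩ := Int.eq_ofNat_of_zero_le h.le
      obtain ⟨l', rfl⟩ : ∃ l', l = l' + 1 := ⟨l - 1, by omega⟩
      have h1 : (6 : ℝ) ^ i * ((c : ℕ) : ℝ) = ((6 * (6 ^ l' * c) : ℕ) : ℝ) := by
        rw [hl, zpow_natCast, pow_succ]
        push_cast
        ring
      rw [h1, Nat.floor_natCast, Nat.mul_mod_right]
      rfl

lemma iter_shift (x : Conf) (p : ℕ) (i : ℤ) : (shiftR^[p] x) i = x (i - p) := by
  induction p generalizing i with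
  | zero => simp
  | succ p ih =>
    rw [Function.iterate_succ_apply']
    show (shiftR^[p] x) (i - 1) = _
    rw [ih]
    congr 1
    push_cast
    ring

lemma rep_tr_aux (a : ℕ → Fin 6) (M : ℕ) : ∃ m : ℕ, V a (M + 1) = (m : ℝ) / 6 ^ M ∧
    Rep (conf (tr a (M + 1))) ((m : ℝ) / 6 ^ M) := by
  induction M with
  | zero =>
    refine ⟨(a 0 : ℕ), by simp [V], ?_⟩
    have h := rep_dig (a 0)
    have h2 : conf (tr a (0 + 1)) = dig (a 0) := by
      funext i
      unfold conf tr dig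
      by_cases h0 : i = 0
      · subst h0; simp
      · rw [if_neg h0]
        split_ifs with h1 h2
        · omega
        · rfl
        · rfl
    rw [h2]
    simpa using h
  | succ M ih =>
    obtain ⟨m, hm1, hm2⟩ := ih
    have h1 := rep_add hm2 (Nat.cast_nonneg _) (rep_dig (a (M + 1))) (M + 1) (by
      rw [pow_succ, mul_comm]
      apply mul_lt_mul_of_pos_left _ (by positivity)
      exact_mod_cast (a (M + 1)).isLt)
    refine ⟨6 * m + (a (M + 1) : ℕ), ?_, ?_⟩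
    · have h2 : V a (M + 1 + 1) = V a (M + 1) + ((a (M + 1) : Fin 6) : ℕ) / (6 : ℝ) ^ (M + 1) := sum_range_succ _ _
      rw [h2, hm1, pow_succ]
      push_cast
      field_simp
    · have h3 : conf (tr a (M + 1)) + shiftR^[M + 1] (dig (a (M + 1))) = conf (tr a (M + 1 + 1)) := by
        funext i
        rw [Pi.add_apply, iter_shift]
        unfold conf tr dig
        by_cases h0 : 0 ≤ i
        · rw [if_pos h0, if_pos h0]
          rcases lt_trichotomy i.toNat (M + 1) with h | h | h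
          · rw [if_pos h, if_neg (show ¬ (i - ((M + 1 : ℕ) : ℤ) = 0) by omega),
              if_pos (show i.toNat < M + 1 + 1 by omega), add_zero]
          · rw [if_neg (show ¬ i.toNat < M + 1 by omega), if_pos (show (i - ((M + 1 : ℕ) : ℤ) = 0) by omega),
              if_pos (show i.toNat < M + 1 + 1 by omega), zero_add, h]
          · rw [if_neg (show ¬ i.toNat < M + 1 by omega), if_neg (show ¬ (i - ((M + 1 : ℕ) : ℤ) = 0) by omega),
              if_neg (show ¬ i.toNat < M + 1 + 1 by omega), add_zero]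
        · rw [if_neg h0, if_neg h0, if_neg (by omega), add_zero]
      rw [← h3]
      have h4 : (((6 * m + (a (M + 1) : ℕ) : ℕ)) : ℝ) / 6 ^ (M + 1) =
          (m : ℝ) / 6 ^ M + ((a (M + 1) : Fin 6) : ℕ) / 6 ^ (M + 1) := by
        rw [pow_succ]
        push_cast
        field_simp
      rw [h4]
      exact h1

lemma rep_tr (a : ℕ → Fin 6) (M : ℕ) : Rep (conf (tr a (M + 1))) (V a (M + 1)) := by
  obtain ⟨m, h1, h2⟩ := rep_tr_aux a M
  rw [h1]
  exact h2

lemma F_apply (x : Conf) (i : ℤ) : F x i = f (f (x (i - 1)) (x i)) (f (x i) (x (i + 1))) := by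
  unfold F mul3 shiftR
  congr 3
  · ring
  · ring
  · ring

/-- locality of the automaton -/
lemma local_F (x z : Conf) (M : ℤ) (h : ∀ i ≤ M, x i = z i) (n : ℕ) : ∀ i : ℤ, i + n ≤ M → F^[n] x i = F^[n] z i := by
  induction n with
  | zero =>
    intro i hi
    exact h i (by simpa using hi)
  | succ n ih =>
    intro i hi
    rw [Function.iterate_succ_apply', Function.iterate_succ_apply']
    push_cast at hi
    rw [F_apply, F_apply, ih (i - 1) (by omega), ih i (by omega), ih (i + 1) (by omega)]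

/-- a word followed by the digit one is shown robustly -/
lemma robust {L : ℕ} {x z : Conf} {v v' : ℝ} (hv : 0 ≤ v) (hx : Rep x v) (hz : Rep z v') (w : Fin L → Fin 6) (j : ℤ)
    (h1 : Sh x w j) (h2 : x (j + L) = 1) (hvv : v ≤ v') (hd : (6 : ℝ) ^ (j + L) * (v' - v) < 1) : Sh z w j := by
  rw [sh_iff_mod hx] at h1
  rw [sh_iff_mod hz, ← h1]
  congr 1
  set y : ℝ := (6 : ℝ) ^ (j + L - 1) * v with hy
  set y' : ℝ := (6 : ℝ) ^ (j + L - 1) * v' with hy'
  have h6 : (6 : ℝ) ^ (j + L) = 6 * (6 : ℝ) ^ (j + L - 1) := by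
    rw [← zpow_one_add₀ (by norm_num)]
    congr 1
    ring
  have hp : (0 : ℝ) < (6 : ℝ) ^ (j + L - 1) := by positivity
  have hy0 : 0 ≤ y := by positivity
  have hyy : y ≤ y' := mul_le_mul_of_nonneg_left hvv hp.le
  have hyd : 6 * (y' - y) < 1 := by
    rw [h6] at hd
    rw [hy, hy']
    linarith
  have hdig := hx (j + L)
  rw [h2, h6, mul_assoc, ← hy] at hdig
  have hdig' : ⌊6 * y⌋₊ % 6 = 1 := by
    rw [← hdig]; rfl
  -- `⌊6 y⌋ = 6 q + 1`
  obtain ⟨q, hq⟩ : ∃ q, ⌊6 * y⌋₊ = 6 * q + 1 := ⟨⌊6 * y⌋₊ / 6, by omega⟩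
  rw [Nat.floor_eq_iff (by positivity)] at hq
  push_cast at hq
  have e1 : ⌊y⌋₊ = q := by
    rw [Nat.floor_eq_iff hy0]
    constructor <;> linarith
  have e2 : ⌊y'⌋₊ = q := by
    rw [Nat.floor_eq_iff (hy0.trans hyy)]
    constructor <;> linarith
  rw [e1, e2]

/-- the position `p` is good for the prefix value `α` and the digit value `β` -/
def Good (L J K K' : ℕ) (α β : ℝ) (p : ℕ) : Prop :=
  ∀ z : Conf, ∀ v : ℝ, Rep z v → α + β / 6 ^ p ≤ v → v < α + β / 6 ^ p + 1 / 6 ^ (p + K') →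
    ∀ j : ℤ, |j| ≤ J → ∀ w : Fin L → Fin 6, ∃ n < 5 * (p + K), Sh (F^[n] z) w j

theorem far (β : ℝ) (hβ : 0 < β) (L J : ℕ) (ε : ℝ) (hε : 0 < ε) : ∃ K0 : ℕ, ∀ K : ℕ, K0 ≤ K → ∃ P0 : ℕ,
    ∀ α : ℝ, 0 ≤ α → ∀ A P : ℕ, P0 ≤ P → ∀ K' : ℕ, K + L + J ≤ K' →
      (({p : ℕ | A < p ∧ p ≤ A + P ∧ ¬ Good L J K K' α β p}.ncard : ℕ) : ℝ) ≤ ε * P := by
  classical
  set ε' : ℝ := min ε (1 / (2 * 6 ^ (L + 1))) with hε'
  have hε'0 : 0 < ε' := lt_min hε (by positivity)
  obtain ⟨K0, h⟩ := main β hβ (L + 1) J ε' hε'0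
  refine ⟨K0 + 1, fun K hK => ?_⟩
  obtain ⟨P0, h0⟩ := h K (by omega)
  refine ⟨P0, fun α hα A P hP K' hK' => ?_⟩
  set x : ℕ → Conf := fun p i => ⟨⌊(6 : ℝ) ^ i * (α + β / 6 ^ p)⌋₊ % 6, Nat.mod_lt _ (by norm_num)⟩ with hx
  have hrep : ∀ p, Rep (x p) (α + β / 6 ^ p) := fun p i => rfl
  have h1 := h0 α hα x A P hP
  have hfin : ({p : ℕ | A < p ∧ p ≤ A + P ∧ Rep (x p) (α + β / 6 ^ p) ∧ ¬ Bal (L + 1) J ε' K p (x p)} : Set ℕ).Finite :=
    (Set.finite_Iic (A + P)).subset (fun p hp => hp.2.1)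
  have hsub : {p : ℕ | A < p ∧ p ≤ A + P ∧ ¬ Good L J K K' α β p} ⊆
      {p : ℕ | A < p ∧ p ≤ A + P ∧ Rep (x p) (α + β / 6 ^ p) ∧ ¬ Bal (L + 1) J ε' K p (x p)} := by
    rintro p ⟨ha, hb, hc⟩
    refine ⟨ha, hb, hrep p, fun hbal => hc ?_⟩
    intro z v hz hv1 hv2 j hj w
    -- the extended word
    set w' : Fin (L + 1) → Fin 6 := fun s => if h : (s : ℕ) < L then w ⟨s, h⟩ else 1 with hw'
    have hne : {n : ℕ | n ∈ Win K p ∧ Sh (F^[n] (x p)) w' j}.Nonempty := by
      by_contra hno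
      rw [Set.not_nonempty_iff_eq_empty] at hno
      have h2 := hbal j hj w'
      rw [hno, Set.ncard_empty] at h2
      have hc1 : (4 : ℝ) ≤ ((Win K p).card : ℝ) := by
        have := Win_card K p
        have h4 : 4 ≤ (Win K p).card := by omega
        exact_mod_cast h4
      set C : ℝ := ((Win K p).card : ℝ) with hC
      have h6 : (0 : ℝ) < 6 ^ (L + 1) := by positivity
      have h3 : |((0 : ℕ) : ℝ) - C / 6 ^ (L + 1)| = C / 6 ^ (L + 1) := by
        rw [Nat.cast_zero, zero_sub, abs_neg, abs_of_pos (by positivity)]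
      rw [h3] at h2
      have h4 : ε' * C ≤ 1 / (2 * 6 ^ (L + 1)) * C := mul_le_mul_of_nonneg_right (min_le_right _ _) (by linarith)
      have h5 : 1 / (2 * 6 ^ (L + 1)) * C = C / 6 ^ (L + 1) / 2 := by field_simp
      have h7 : 0 < C / 6 ^ (L + 1) := by positivity
      linarith
    obtain ⟨n, hn, hsh⟩ := hne
    have hnlt : n < 5 * (p + K) := by
      unfold Win at hn
      rw [mem_filter, mem_range] at hn
      exact hn.1
    have hpow : (3 / 2 : ℝ) ^ n < 6 ^ (p + K) := by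
      unfold Win at hn
      rw [mem_filter] at hn
      exact hn.2.2
    refine ⟨n, hnlt, ?_⟩
    have hvp : 0 ≤ α + β / 6 ^ p := by positivity
    have hv0 : 0 ≤ v := hvp.trans hv1
    apply robust (v := (3 / 2) ^ n * (α + β / 6 ^ p)) (v' := (3 / 2) ^ n * v) (by positivity)
      (rep_iter hvp (hrep p) n) (rep_iter hv0 hz n) w j
    · intro s
      have h2 := hsh ⟨s, by omega⟩
      rw [hw'] at h2
      simp only [s.isLt, dite_true] at h2
      exact h2
    · have h2 := hsh ⟨L, by omega⟩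
      rw [hw'] at h2
      simp only [lt_irrefl, dite_false] at h2
      exact h2
    · exact mul_le_mul_of_nonneg_left hv1 (by positivity)
    · rw [← mul_sub]
      have h2 : v - (α + β / 6 ^ p) < 1 / 6 ^ (p + K') := by linarith
      have h3 : (3 / 2 : ℝ) ^ n * (v - (α + β / 6 ^ p)) < 6 ^ (p + K) * (1 / 6 ^ (p + K')) := by
        apply mul_lt_mul'' hpow h2 (by positivity) (by linarith)
      have h4 : (6 : ℝ) ^ (j + L) ≤ 6 ^ (J + L) := by
        rw [← zpow_natCast (6 : ℝ) (J + L)]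
        apply zpow_le_zpow_right₀ (by norm_num)
        have := (abs_le.1 hj).2
        push_cast
        omega
      have h5 : (6 : ℝ) ^ (p + K) * (1 / 6 ^ (p + K')) * 6 ^ (J + L) ≤ 1 := by
        rw [mul_one_div, div_mul_eq_mul_div, div_le_one (by positivity), ← pow_add]
        exact pow_le_pow_right₀ (by norm_num) (by omega)
      have h6 : 0 < (6 : ℝ) ^ (j + L) := by positivity
      have h7 : 0 ≤ (3 / 2 : ℝ) ^ n * (v - (α + β / 6 ^ p)) := by
        apply mul_nonneg (by positivity)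
        linarith
      calc (6 : ℝ) ^ (j + L) * ((3 / 2 : ℝ) ^ n * (v - (α + β / 6 ^ p)))
          < (6 : ℝ) ^ (j + L) * (6 ^ (p + K) * (1 / 6 ^ (p + K'))) := mul_lt_mul_of_pos_left h3 h6
        _ ≤ 6 ^ (J + L) * (6 ^ (p + K) * (1 / 6 ^ (p + K'))) := mul_le_mul_of_nonneg_right h4 (by positivity)
        _ = (6 : ℝ) ^ (p + K) * (1 / 6 ^ (p + K')) * 6 ^ (J + L) := by ring
        _ ≤ 1 := h5
  have h2 := Set.ncard_le_ncard hsub hfin
  have h3 : ε' * P ≤ ε * P := mul_le_mul_of_nonneg_right (min_le_left _ _) (Nat.cast_nonneg _)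
  exact le_trans (by exact_mod_cast h2) (h1.trans h3)

lemma V_tail (a : ℕ → Fin 6) (m : ℕ) (k : ℕ) : V a (m + k) < V a m + 6 / 6 ^ m ∧ V a m ≤ V a (m + k) := by
  have key : V a (m + k) ≤ V a m + 6 / 6 ^ m - 6 / 6 ^ (m + k) ∧ V a m ≤ V a (m + k) := by
    induction k with
    | zero => simp
    | succ k ih =>
      have h1 : V a (m + (k + 1)) = V a (m + k) + ((a (m + k) : Fin 6) : ℕ) / (6 : ℝ) ^ (m + k) := by
        rw [← add_assoc]
        exact sum_range_succ _ _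
      have h2 : (((a (m + k) : Fin 6) : ℕ) : ℝ) ≤ 5 := by
        have := (a (m + k)).isLt
        exact_mod_cast (by omega : ((a (m + k) : Fin 6) : ℕ) ≤ 5)
      have h3 : ((((a (m + k) : Fin 6) : ℕ) : ℝ)) / (6 : ℝ) ^ (m + k) ≤ 5 / 6 ^ (m + k) :=
        div_le_div_of_nonneg_right h2 (by positivity)
      have h3' : 0 ≤ ((((a (m + k) : Fin 6) : ℕ) : ℝ)) / (6 : ℝ) ^ (m + k) := by positivity
      have h4 : (6 : ℝ) / 6 ^ (m + (k + 1)) = 1 / 6 ^ (m + k) := by
        rw [← add_assoc, pow_succ]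
        field_simp
      have h5 : (6 : ℝ) / 6 ^ (m + k) = 5 / 6 ^ (m + k) + 1 / 6 ^ (m + k) := by ring
      rw [h1, h4]
      constructor
      · linarith [ih.1]
      · linarith [ih.2]
  have : (0 : ℝ) < 6 / 6 ^ (m + k) := by positivity
  exact ⟨by linarith [key.1], key.2⟩

/-- a sequence with a digit `a p` at a good position, followed by zeros -/
lemma hit_seq (L J K K' : ℕ) (a : ℕ → Fin 6) (p : ℕ)
    (hg : Good L J K K' (V a p) ((a p : Fin 6) : ℕ) p) (hz : ∀ i, p < i → i ≤ p + K' → a i = 0) :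
    ∀ j : ℤ, |j| ≤ J → ∀ w : Fin L → Fin 6, ∃ n : ℕ, Sh (F^[n] (conf a)) w j := by
  intro j hj w
  set M : ℕ := p + K' + J + L + 5 * (p + K) with hM
  have hrep := rep_tr a M
  have hV1 : V a (p + 1 + K') = V a p + ((a p : Fin 6) : ℕ) / (6 : ℝ) ^ p := by
    have h1 : V a (p + 1) = V a p + ((a p : Fin 6) : ℕ) / (6 : ℝ) ^ p := sum_range_succ _ _
    rw [← h1]
    unfold V
    rw [sum_range_add]
    have : ∑ x ∈ range K', (((a (p + 1 + x) : Fin 6) : ℕ) : ℝ) / (6 : ℝ) ^ (p + 1 + x) = 0 := by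
      apply sum_eq_zero
      intro i hi
      rw [mem_range] at hi
      rw [hz (p + 1 + i) (by omega) (by omega)]
      simp
    rw [this, add_zero]
  obtain ⟨h1, h2⟩ := V_tail a (p + 1 + K') (M + 1 - (p + 1 + K'))
  have hMM : p + 1 + K' + (M + 1 - (p + 1 + K')) = M + 1 := by omega
  rw [hMM, hV1] at h1 h2
  have h3 : (6 : ℝ) / 6 ^ (p + 1 + K') = 1 / 6 ^ (p + K') := by
    rw [show p + 1 + K' = (p + K') + 1 by ring, pow_succ]
    field_simp
  rw [h3] at h1
  obtain ⟨n, hn, hsh⟩ := hg _ _ hrep h2 h1 j hj w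
  refine ⟨n, fun s => ?_⟩
  rw [← hsh s]
  apply local_F _ _ (M : ℤ)
  · intro i hi
    unfold conf tr
    by_cases h0 : 0 ≤ i
    · rw [if_pos h0, if_pos h0, if_pos (by omega)]
    · rw [if_neg h0, if_neg h0]
  · have h4 := (abs_le.1 hj).2
    have h5 := s.isLt
    omega

/-- dense orbits in terms of words -/
lemma dense_of_shows (x : Conf) (h : ∀ j : ℤ, ∀ L : ℕ, ∀ w : Fin L → Fin 6, ∃ n : ℕ, Sh (F^[n] x) w j) :
    Dense (orbit x) := by
  rw [dense_iff_inter_open]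
  intro U hU hne
  obtain ⟨y, hy⟩ := hne
  rw [isOpen_pi_iff] at hU
  obtain ⟨I, u, hu, hsub⟩ := hU y hy
  -- a window containing `I`
  obtain ⟨N, hN⟩ : ∃ N : ℕ, ∀ i ∈ I, i.natAbs ≤ N := by
    refine ⟨∑ i ∈ I, i.natAbs, fun i hi => ?_⟩
    exact single_le_sum (f := fun i : ℤ => i.natAbs) (fun _ _ => Nat.zero_le _) hi
  obtain ⟨n, hn⟩ := h (-(N : ℤ)) (2 * N + 1) (fun s => y (-(N : ℤ) + (s : ℕ)))
  refine ⟨F^[n] x, hsub ?_, ⟨n, rfl⟩⟩
  intro i hi
  have h1 := hN i hi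
  have h2 := hn ⟨(i + N).toNat, by omega⟩
  have h3 : -(N : ℤ) + (((i + N).toNat : ℕ) : ℤ) = i := by omega
  simp only [h3] at h2
  rw [h2]
  exact (hu i hi).2

end Pool.Agent.Zk45.Far
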