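import Mathlib
import Pool.Agent.Zk45.Far

set_option autoImplicit false

/-! Lacunary configurations. -/

open Finset Filter Topology

namespace Pool.Agent.Zk45.LacN

open Pool.Agent.Zk45.W Pool.Agent.Zk45.R Pool.Agent.H429R2.Auto Pool.Agent.Zk45.Two Pool.Agent.Zk45.Far

/-- digits `0` and `c`, the digit `c` only at positions in `T`, with gaps prescribed by `g` -/
def Lac (T : Set ℕ) (c : Fin 6) (g : ℕ → ℕ) : Set (ℕ → Fin 6) :=
  {a | (∀ i, a i = 0 ∨ (a i = c ∧ i ∈ T)) ∧ ∀ i k, i < k → a i ≠ 0 → a k ≠ 0 → g i ≤ k}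

/-- positive upper Banach density -/
def PosDens (T : Set ℕ) : Prop :=
  ∃ δ : ℝ, 0 < δ ∧ ∀ P0 : ℕ, ∃ A P : ℕ, P0 ≤ P ∧ δ * P ≤ ((T ∩ Set.Ioc A (A + P)).ncard : ℝ)

lemma V_congr (a b : ℕ → Fin 6) (M : ℕ) (h : ∀ i < M, a i = b i) : V a M = V b M := by
  unfold V
  apply sum_congr rfl
  intro i hi
  rw [h i (mem_range.1 hi)]

lemma V_zero (a : ℕ → Fin 6) (M k : ℕ) (h : ∀ i, M ≤ i → i < M + k → a i = 0) : V a (M + k) = V a M := by
  unfold V
  rw [sum_range_add]
  have : ∑ x ∈ range k, (((a (M + x) : Fin 6) : ℕ) : ℝ) / (6 : ℝ) ^ (M + x) = 0 := by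
    apply sum_eq_zero
    intro i hi
    rw [mem_range] at hi
    rw [h (M + i) (by omega) (by omega)]
    simp
  rw [this, add_zero]

lemma extend (T : Set ℕ) (hT : PosDens T) (c : Fin 6) (hc : c ≠ 0) (g : ℕ → ℕ) (a : ℕ → Fin 6) (ha : a ∈ Lac T c g)
    (N0 N L : ℕ) (j : ℤ) (w : Fin L → Fin 6) : ∃ b ∈ Lac T c g, (∀ i < N0, b i = a i) ∧ (∃ i ≥ N, b i ≠ 0) ∧
      ∃ n : ℕ, Sh (F^[n] (conf b)) w j := by
  classical
  obtain ⟨δ, hδ, hd⟩ := hT
  have hc0 : 0 < ((c : ℕ) : ℝ) := by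
    have : 0 < (c : ℕ) := by
      rcases Nat.eq_zero_or_pos (c : ℕ) with h | h
      · exact absurd (Fin.ext h) hc
      · exact h
    exact_mod_cast this
  obtain ⟨K, hK⟩ := far (c : ℕ) hc0 L j.natAbs (δ / 4) (by linarith)
  obtain ⟨P0, hP0⟩ := hK K le_rfl
  set N1 : ℕ := N0 + N + ∑ i ∈ range N0, g i with hN1
  obtain ⟨P1, hP1⟩ := exists_nat_ge (4 * ((N1 : ℝ) + 1) / δ)
  obtain ⟨A, P, hP, hcount⟩ := hd (P0 + P1 + 1)
  set K' : ℕ := K + L + j.natAbs with hK'
  have hbad := hP0 (V a N0) (V_nonneg a N0) A P (by omega) K' le_rfl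
  -- a good position in `T`
  obtain ⟨p, hpT, hp1, hgood⟩ : ∃ p ∈ T, N1 < p ∧ Good L j.natAbs K K' (V a N0) (c : ℕ) p := by
    by_contra hno
    push Not at hno
    have hsub : T ∩ Set.Ioc A (A + P) ⊆ {p : ℕ | A < p ∧ p ≤ A + P ∧ ¬ Good L j.natAbs K K' (V a N0) (c : ℕ) p} ∪
        ((range (N1 + 1) : Finset ℕ) : Set ℕ) := by
      rintro p ⟨hpT, hp1, hp2⟩
      rcases Nat.lt_or_ge N1 p with h | h
      · left
        exact ⟨hp1, hp2, hno p hpT h⟩
      · right
        rw [mem_coe, mem_range]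
        omega
    have hfin : ({p : ℕ | A < p ∧ p ≤ A + P ∧ ¬ Good L j.natAbs K K' (V a N0) (c : ℕ) p}).Finite :=
      (Set.finite_Iic (A + P)).subset (fun p hp => hp.2.1)
    have h1 := (Set.ncard_le_ncard hsub (hfin.union (Finset.finite_toSet _))).trans (Set.ncard_union_le _ _)
    rw [Set.ncard_coe_finset, card_range] at h1
    have h2 := (Nat.cast_le (α := ℝ)).2 h1
    rw [Nat.cast_add] at h2
    push_cast at h2
    rw [div_le_iff₀ hδ] at hP1
    have h3 : (P1 : ℝ) + 1 ≤ P := by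
      have : P1 + 1 ≤ P := by omega
      exact_mod_cast this
    nlinarith
  set b : ℕ → Fin 6 := fun i => if i < N0 then a i else if i = p then c else 0 with hb
  have hbp : b p = c := by
    rw [hb]
    simp only
    simp [show ¬ p < N0 by omega]
  have hb1 : ∀ i < N0, b i = a i := fun i hi => by
    rw [hb]
    simp only
    rw [if_pos hi]
  have hb2 : ∀ i, N0 ≤ i → i ≠ p → b i = 0 := fun i hi hip => by
    rw [hb]
    simp only
    rw [if_neg (by omega), if_neg hip]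
  refine ⟨b, ⟨?_, ?_⟩, hb1, ⟨p, by omega, by rw [hbp]; exact hc⟩, ?_⟩
  · intro i
    rcases Nat.lt_or_ge i N0 with h | h
    · rw [hb1 i h]
      exact ha.1 i
    · by_cases hip : i = p
      · right
        rw [hip]
        exact ⟨hbp, hpT⟩
      · left
        exact hb2 i h hip
  · intro i k hik hi hk
    rcases Nat.lt_or_ge k N0 with h | h
    · rw [hb1 i (by omega)] at hi
      rw [hb1 k h] at hk
      exact ha.2 i k hik hi hk
    · have hkp : k = p := by
        by_contra hkp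
        exact hk (hb2 k h hkp)
      rcases Nat.lt_or_ge i N0 with h' | h'
      · have := single_le_sum (f := g) (fun _ _ => Nat.zero_le _) (mem_range.2 h')
        omega
      · have hip : i = p := by
          by_contra hip
          exact hi (hb2 i h' hip)
        omega
  · have hV : V b p = V a N0 := by
      have h1 := V_zero b N0 (p - N0) (fun i h1 h2 => hb2 i h1 (by omega))
      rw [show N0 + (p - N0) = p by omega] at h1
      rw [h1]
      exact V_congr b a N0 hb1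
    apply hit_seq L j.natAbs K K' b p
    · rw [hV, hbp]
      exact hgood
    · intro i h1 h2
      exact hb2 i (by omega) (by omega)
    · rw [Int.abs_eq_natAbs]

lemma F_cont : Continuous F := by
  refine continuous_pi fun i => ?_
  have h : (fun x : Conf => F x i) = (fun t : Fin 6 × Fin 6 × Fin 6 => f (f t.1 t.2.1) (f t.2.1 t.2.2)) ∘
      (fun x : Conf => (x (i - 1), x i, x (i + 1))) := by
    funext x
    exact F_apply x i
  rw [h]
  refine continuous_of_discreteTopology.comp ?_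
  fun_prop

lemma conf_cont : Continuous conf := by
  refine continuous_pi fun i => ?_
  by_cases h : 0 ≤ i
  · have : (fun a : ℕ → Fin 6 => conf a i) = fun a => a i.toNat := by
      funext a
      unfold conf
      rw [if_pos h]
    rw [this]
    fun_prop
  · have : (fun a : ℕ → Fin 6 => conf a i) = fun _ => 0 := by
      funext a
      unfold conf
      rw [if_neg h]
    rw [this]
    fun_prop

lemma open_shows (L : ℕ) (j : ℤ) (w : Fin L → Fin 6) :
    IsOpen {a : ℕ → Fin 6 | ∃ n : ℕ, Sh (F^[n] (conf a)) w j} := by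
  have : {a : ℕ → Fin 6 | ∃ n : ℕ, Sh (F^[n] (conf a)) w j} =
      ⋃ n : ℕ, ⋂ s : Fin L, {a : ℕ → Fin 6 | F^[n] (conf a) (j + (s : ℕ)) = w s} := by
    ext a
    simp [Sh]
  rw [this]
  refine isOpen_iUnion fun n => isOpen_iInter_of_finite fun s => ?_
  have hc : Continuous (fun a : ℕ → Fin 6 => F^[n] (conf a) (j + (s : ℕ))) :=
    (continuous_apply (j + (s : ℕ) : ℤ)).comp ((F_cont.iterate n).comp conf_cont)
  exact (isOpen_discrete ({w s} : Set (Fin 6))).preimage hc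

lemma open_far (N : ℕ) : IsOpen {a : ℕ → Fin 6 | ∃ i ≥ N, a i ≠ 0} := by
  have : {a : ℕ → Fin 6 | ∃ i ≥ N, a i ≠ 0} = ⋃ i : ℕ, ⋃ _ : i ≥ N, {a : ℕ → Fin 6 | a i ≠ 0} := by
    ext a
    simp
  rw [this]
  refine isOpen_iUnion fun i => isOpen_iUnion fun _ => ?_
  have hcn : Continuous (fun a : ℕ → Fin 6 => a i) := continuous_apply i
  exact (isOpen_discrete ({0}ᶜ : Set (Fin 6))).preimage hcn

lemma closed_Lac (T : Set ℕ) (c : Fin 6) (g : ℕ → ℕ) : IsClosed (Lac T c g) := by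
  have : Lac T c g = (⋂ i : ℕ, {a : ℕ → Fin 6 | a i ∈ {s : Fin 6 | s = 0 ∨ (s = c ∧ i ∈ T)}}) ∩
      (⋂ i : ℕ, ⋂ k : ℕ, {a : ℕ → Fin 6 | (a i, a k) ∈ {t : Fin 6 × Fin 6 | i < k → t.1 ≠ 0 → t.2 ≠ 0 → g i ≤ k}}) := by
    ext a
    simp [Lac]
  rw [this]
  refine (isClosed_iInter fun i => ?_).inter (isClosed_iInter fun i => isClosed_iInter fun k => ?_)
  · exact (isClosed_discrete _).preimage (continuous_apply i)
  · exact (isClosed_discrete _).preimage ((continuous_apply i).prodMk (continuous_apply k))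

/-- a set that can be reached by changing far digits is dense in `Lac` -/
lemma dense_of_extend (T : Set ℕ) (c : Fin 6) (g : ℕ → ℕ) (S : Set (ℕ → Fin 6))
    (h : ∀ a ∈ Lac T c g, ∀ N0 : ℕ, ∃ b ∈ Lac T c g, (∀ i < N0, b i = a i) ∧ b ∈ S) :
    Dense ((fun a : Lac T c g => (a : ℕ → Fin 6)) ⁻¹' S) := by
  rw [dense_iff_inter_open]
  intro U hU hne
  obtain ⟨y, hy⟩ := hne
  rw [isOpen_induced_iff] at hU
  obtain ⟨V, hV, rfl⟩ := hU
  rw [isOpen_pi_iff] at hV
  obtain ⟨I, u, hu, hsub⟩ := hV y hy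
  obtain ⟨b, hb, hb1, hb2⟩ := h y y.2 (∑ i ∈ I, i + 1)
  refine ⟨⟨b, hb⟩, hsub ?_, hb2⟩
  intro i hi
  have h1 : i ≤ ∑ i ∈ I, i := single_le_sum (f := fun i : ℕ => i) (fun _ _ => Nat.zero_le _) hi
  show b i ∈ u i
  rw [hb1 i (by omega)]
  exact (hu i hi).2

theorem residual_Lac (T : Set ℕ) (hT : PosDens T) (c : Fin 6) (hc : c ≠ 0) (g : ℕ → ℕ) :
    ∀ᶠ a : Lac T c g in residual (Lac T c g), {i : ℕ | (a : ℕ → Fin 6) i ≠ 0}.Infinite ∧
      Dense (orbit (conf (a : ℕ → Fin 6))) := by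
  have h1 : ∀ N : ℕ, ∀ᶠ a : Lac T c g in residual (Lac T c g), ∃ i ≥ N, (a : ℕ → Fin 6) i ≠ 0 := by
    intro N
    apply residual_of_dense_open
    · exact (open_far N).preimage continuous_subtype_val
    · apply dense_of_extend T c g {a | ∃ i ≥ N, a i ≠ 0}
      intro a ha N0
      obtain ⟨b, hb, hb1, hb2, _⟩ := extend T hT c hc g a ha N0 N 0 0 (fun _ => 0)
      exact ⟨b, hb, hb1, hb2⟩
  have h2 : ∀ j : ℤ, ∀ L : ℕ, ∀ w : Fin L → Fin 6, ∀ᶠ a : Lac T c g in residual (Lac T c g),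
      ∃ n : ℕ, Sh (F^[n] (conf (a : ℕ → Fin 6))) w j := by
    intro j L w
    apply residual_of_dense_open
    · exact (open_shows L j w).preimage continuous_subtype_val
    · apply dense_of_extend T c g {a | ∃ n : ℕ, Sh (F^[n] (conf a)) w j}
      intro a ha N0
      obtain ⟨b, hb, hb1, _, hb2⟩ := extend T hT c hc g a ha N0 0 L j w
      exact ⟨b, hb, hb1, hb2⟩
  have h3 := eventually_countable_forall.2 h1
  have h4 : ∀ᶠ a : Lac T c g in residual (Lac T c g), ∀ j : ℤ, ∀ L : ℕ, ∀ w : Fin L → Fin 6,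
      ∃ n : ℕ, Sh (F^[n] (conf (a : ℕ → Fin 6))) w j := by
    rw [eventually_countable_forall]
    intro j
    rw [eventually_countable_forall]
    intro L
    rw [eventually_countable_forall]
    exact h2 j L
  filter_upwards [h3, h4] with a ha hb
  refine ⟨?_, dense_of_shows _ hb⟩
  rw [Set.infinite_iff_exists_gt]
  intro N
  obtain ⟨i, hi, h⟩ := ha (N + 1)
  exact ⟨i, h, by omega⟩

end Pool.Agent.Zk45.LacN
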