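import Mathlib
import Pool.Agent.Zk45.Core

set_option autoImplicit false

/-! Uniform versions of the mean value estimates; Riesz products. -/

open Finset Filter Topology MeasureTheory

namespace Pool.Agent.Zk45.R

open Pool.Agent.Zk45.W

/-- the cells -/
def Cells (M : ℕ) (η : ℝ) (N n0 : ℕ) : Prop := ∀ i : ℕ, i < M →
      |(((Ico n0 (n0 + N)).filter (fun n : ℕ => (i : ℝ) / M ≤ Int.fract (n * th) ∧
        Int.fract (n * th) < ((i : ℝ) + 1) / M)).card : ℝ) - (1 / M) * N| ≤ (η / (2 * M)) * N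

lemma cells_unif (M : ℕ) (hM : 0 < M) (η : ℝ) (hη : 0 < η) : ∃ N0 : ℕ, ∀ N : ℕ, N0 ≤ N → ∀ n0 : ℕ, Cells M η N n0 := by
  have hMr : (0 : ℝ) < M := by exact_mod_cast hM
  have hcell : ∀ i : ℕ, i < M → ∃ N0 : ℕ, ∀ N : ℕ, N0 ≤ N → ∀ n0 : ℕ,
      |(((Ico n0 (n0 + N)).filter (fun n : ℕ => (i : ℝ) / M ≤ Int.fract (n * th) ∧
        Int.fract (n * th) < ((i : ℝ) + 1) / M)).card : ℝ) - (1 / M) * N| ≤ (η / (2 * M)) * N := by
    intro i hi
    have hi' : (i : ℝ) + 1 ≤ M := by exact_mod_cast hi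
    obtain ⟨N0, h⟩ := rot_equi ((i : ℝ) / M) (((i : ℝ) + 1) / M) (η / (2 * M)) (by positivity)
      (by apply div_le_div_of_nonneg_right _ hMr.le; linarith)
      (by rw [div_le_one hMr]; exact hi') (by positivity)
    refine ⟨N0, fun N hN n0 => ?_⟩
    have h1 := h N hN n0
    have h2 : ((i : ℝ) + 1) / M - (i : ℝ) / M = 1 / M := by ring
    rw [h2] at h1
    exact h1
  choose! N0 hN0 using hcell
  refine ⟨∑ i ∈ range M, N0 i, fun N hN n0 i hi => ?_⟩
  exact hN0 i hi N ((single_le_sum (f := N0) (fun _ _ => Nat.zero_le _) (mem_range.2 hi)).trans hN) n0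

/-- the mean of the phases over stretches of the orbit, given the cells -/
lemma phase_core (y η : ℝ) (hη : 0 < η) (M : ℕ) (hM : 0 < M)
    (hu : ∀ s t : ℝ, 0 ≤ s → s ≤ 1 → 0 ≤ t → t ≤ 1 →
      |s - t| ≤ 1 / M → ‖e (y * 6 ^ s) - e (y * 6 ^ t)‖ ≤ η / 2) (N n0 : ℕ) (hN0 : Cells M η N n0) :
    ‖∑ n ∈ Ico n0 (n0 + N), e (y * 6 ^ (Int.fract (n * th)))‖ ≤ (‖I y‖ + η) * N := by
  classical
  have hMr : (0 : ℝ) < M := by exact_mod_cast hM
  set g : ℝ → ℂ := fun t => e (y * 6 ^ t) with hg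
  have hgc : Continuous g := phase_cont y
  set C : ℕ → Finset ℕ := fun i => (Ico n0 (n0 + N)).filter (fun n : ℕ => (i : ℝ) / M ≤ Int.fract (n * th) ∧
        Int.fract (n * th) < ((i : ℝ) + 1) / M) with hC
  set v : ℕ → ℂ := fun i => ∫ t in ((i : ℝ) / M)..(((i : ℝ) + 1) / M), g t with hv
  have hlen : ∀ i : ℕ, ((i : ℝ) + 1) / M - (i : ℝ) / M = 1 / M := fun i => by ring
  -- sum of the integrals
  have hvs : ∑ i ∈ range M, v i = I y := by
    have h1 := intervalIntegral.sum_integral_adjacent_intervals (f := g) (μ := volume)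
      (a := fun i : ℕ => (i : ℝ) / M) (n := M) (fun k _ => hgc.intervalIntegrable _ _)
    have h2 : ∑ i ∈ range M, v i = ∑ k ∈ range M, ∫ x in ((k : ℕ) : ℝ) / M..((k + 1 : ℕ) : ℝ) / M, g x := by
      apply sum_congr rfl
      intro i _
      rw [hv]
      push_cast
      rfl
    rw [h2, h1]
    unfold I
    simp [hMr.ne', hg]
  -- the bound for v
  have hvb : ∀ i, ‖v i‖ ≤ 1 / M := by
    intro i
    have := intervalIntegral.norm_integral_le_of_norm_le_const (a := (i : ℝ) / M) (b := ((i : ℝ) + 1) / M)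
      (f := g) (C := 1) (fun x _ => (norm_e _).le)
    rw [hlen i, one_mul, abs_of_pos (by positivity)] at this
    exact this
  -- the comparision in a cell
  have hcmp : ∀ i, i < M → ∀ n ∈ C i, ‖g (Int.fract (n * th)) - M * v i‖ ≤ η / 2 := by
    intro i hi n hn
    rw [hC, mem_filter] at hn
    have hi' : (i : ℝ) + 1 ≤ M := by exact_mod_cast hi
    have h1 : (M : ℂ) * v i - g (Int.fract (n * th)) =
        M * ∫ t in ((i : ℝ) / M)..(((i : ℝ) + 1) / M), (g t - g (Int.fract (n * th))) := by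
      rw [intervalIntegral.integral_sub (hgc.intervalIntegrable _ _) (by simp),
        intervalIntegral.integral_const, hlen i]
      have hMc : (M : ℂ) ≠ 0 := by exact_mod_cast hMr.ne'
      rw [mul_sub]
      congr 1
      simp only [Complex.real_smul]
      push_cast
      field_simp
    rw [norm_sub_rev, h1, norm_mul, Complex.norm_natCast]
    have h2 := intervalIntegral.norm_integral_le_of_norm_le_const (a := (i : ℝ) / M) (b := ((i : ℝ) + 1) / M)
      (f := fun t => g t - g (Int.fract (n * th))) (C := η / 2) (by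
        intro x hx
        rw [Set.uIoc_of_le (by apply div_le_div_of_nonneg_right _ hMr.le; linarith)] at hx
        have hi1 : ((i : ℝ) + 1) / M ≤ 1 := by rw [div_le_one hMr]; exact hi'
        have hi0 : 0 ≤ (i : ℝ) / M := by positivity
        refine hu x _ (hi0.trans hx.1.le) (hx.2.trans hi1) (Int.fract_nonneg _) (Int.fract_lt_one _).le ?_
        have h3 := hlen i
        rw [abs_le]
        constructor
        · linarith [hn.2.2, hx.1]
        · linarith [hn.2.1, hx.2])
    rw [hlen i, abs_of_pos (by positivity)] at h2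
    calc (M : ℝ) * _ ≤ M * (η / 2 * (1 / M)) := mul_le_mul_of_nonneg_left h2 hMr.le
      _ = η / 2 := by field_simp
  -- partition
  have hcov : ∀ n ∈ Ico n0 (n0 + N), ∃! i, i ∈ range M ∧ n ∈ C i := by
    intro n hn
    have f0 := Int.fract_nonneg (n * th)
    have f1 := Int.fract_lt_one (n * th)
    refine ⟨⌊M * Int.fract (n * th)⌋₊, ⟨?_, ?_⟩, ?_⟩
    · rw [mem_range, Nat.floor_lt (by positivity)]
      nlinarith
    · rw [hC, mem_filter]
      refine ⟨hn, ?_, ?_⟩
      · rw [div_le_iff₀ hMr, mul_comm]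
        exact Nat.floor_le (by positivity)
      · rw [lt_div_iff₀ hMr, mul_comm]
        exact Nat.lt_floor_add_one _
    · rintro i ⟨_, hi⟩
      rw [hC, mem_filter] at hi
      symm
      rw [Nat.floor_eq_iff (by positivity)]
      constructor
      · have := hi.2.1
        rw [div_le_iff₀ hMr, mul_comm] at this
        exact this
      · have := hi.2.2
        rw [lt_div_iff₀ hMr, mul_comm] at this
        exact this
  have hdis : ((range M : Finset ℕ) : Set ℕ).PairwiseDisjoint C := by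
    intro i hi j hj hij
    rw [Function.onFun, Finset.disjoint_left]
    intro n hni hnj
    apply hij
    have hn : n ∈ Ico n0 (n0 + N) := by
      rw [hC, mem_filter] at hni
      exact hni.1
    exact (hcov n hn).unique ⟨hi, hni⟩ ⟨hj, hnj⟩
  have hun : Ico n0 (n0 + N) = (range M).biUnion C := by
    ext n
    rw [mem_biUnion]
    constructor
    · intro hn
      obtain ⟨i, ⟨h1, h2⟩, _⟩ := hcov n hn
      exact ⟨i, h1, h2⟩
    · rintro ⟨i, _, hi⟩
      rw [hC, mem_filter] at hi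
      exact hi.1
  have hcard : ∑ i ∈ range M, (C i).card = N := by
    have := card_biUnion (s := range M) (t := C) hdis
    rw [← hun, Nat.card_Ico, Nat.add_sub_cancel_left] at this
    exact this.symm
  have hsum : ∑ n ∈ Ico n0 (n0 + N), g (Int.fract (n * th)) =
      ∑ i ∈ range M, ∑ n ∈ C i, g (Int.fract (n * th)) := by
    conv_lhs => rw [hun]
    exact sum_biUnion hdis
  have hdec : ∑ n ∈ Ico n0 (n0 + N), g (Int.fract (n * th)) =
      (∑ i ∈ range M, ∑ n ∈ C i, (g (Int.fract (n * th)) - M * v i)) +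
      (∑ i ∈ range M, (((C i).card : ℂ) - (1 / M) * N) * (M * v i)) + N * I y := by
    rw [hsum, ← hvs, mul_sum, ← sum_add_distrib, ← sum_add_distrib]
    apply sum_congr rfl
    intro i _
    rw [sum_sub_distrib, sum_const, nsmul_eq_mul]
    have hMc : (M : ℂ) ≠ 0 := by exact_mod_cast hMr.ne'
    generalize ∑ x ∈ C i, g (Int.fract (x * th)) = X
    field_simp
    ring
  have b1 : ‖∑ i ∈ range M, ∑ n ∈ C i, (g (Int.fract (n * th)) - M * v i)‖ ≤ η / 2 * N := by
    refine (norm_sum_le _ _).trans ?_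
    calc ∑ i ∈ range M, ‖∑ n ∈ C i, (g (Int.fract (n * th)) - M * v i)‖
        ≤ ∑ i ∈ range M, (η / 2) * (C i).card := by
          apply sum_le_sum
          intro i hi
          refine (norm_sum_le _ _).trans ?_
          refine (sum_le_sum fun n hn => hcmp i (mem_range.1 hi) n hn).trans ?_
          rw [sum_const, nsmul_eq_mul]
          linarith
      _ = η / 2 * N := by
          rw [← mul_sum]
          congr 1
          exact_mod_cast hcard
  have b2 : ‖∑ i ∈ range M, (((C i).card : ℂ) - (1 / M) * N) * (M * v i)‖ ≤ η / 2 * N := by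
    refine (norm_sum_le _ _).trans ?_
    calc ∑ i ∈ range M, ‖(((C i).card : ℂ) - (1 / M) * N) * (M * v i)‖
        ≤ ∑ i ∈ range M, (η / (2 * M)) * N := by
          apply sum_le_sum
          intro i hi
          have h1 := hN0 i (mem_range.1 hi)
          rw [norm_mul, norm_mul, Complex.norm_natCast]
          have h2 : ((C i).card : ℂ) - (1 / M) * N = (((C i).card - (1 / M) * N : ℝ) : ℂ) := by
            push_cast
            rfl
          rw [h2, Complex.norm_real, Real.norm_eq_abs]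
          have h3 : (M : ℝ) * ‖v i‖ ≤ 1 := by
            calc (M : ℝ) * ‖v i‖ ≤ M * (1 / M) := mul_le_mul_of_nonneg_left (hvb i) hMr.le
              _ = 1 := by field_simp
          calc |((C i).card : ℝ) - (1 / M) * N| * (M * ‖v i‖) ≤ (η / (2 * M) * N) * 1 :=
                mul_le_mul h1 h3 (by positivity) (by positivity)
            _ = _ := mul_one _
      _ = η / 2 * N := by
          rw [sum_const, card_range, nsmul_eq_mul]
          field_simp
  show ‖∑ n ∈ Ico n0 (n0 + N), g (Int.fract (n * th))‖ ≤ _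
  rw [hdec]
  refine (norm_add_le _ _).trans ?_
  refine (add_le_add (norm_add_le _ _) le_rfl).trans ?_
  rw [norm_mul, Complex.norm_natCast]
  linarith


lemma e_lip (a b : ℝ) : ‖e a - e b‖ ≤ 2 * Real.pi * |a - b| := by
  have h1 : e a - e b = e b * (e (a - b) - 1) := by
    rw [mul_sub, ← e_add]
    simp
  rw [h1, norm_mul, norm_e, one_mul]
  have h2 : e (a - b) = Complex.exp (Complex.I * ((2 * Real.pi * (a - b) : ℝ) : ℂ)) := by
    unfold e
    congr 1
    push_cast
    ring
  rw [h2]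
  refine (Real.norm_exp_I_mul_ofReal_sub_one_le).trans ?_
  rw [Real.norm_eq_abs, abs_mul, abs_of_pos (by positivity)]

lemma phase_mod (Y η : ℝ) (hη : 0 < η) : ∃ M : ℕ, 0 < M ∧ ∀ y : ℝ, |y| ≤ Y → ∀ s t : ℝ, 0 ≤ s → s ≤ 1 →
    0 ≤ t → t ≤ 1 → |s - t| ≤ 1 / M → ‖e (y * 6 ^ s) - e (y * 6 ^ t)‖ ≤ η := by
  by_cases hY : Y < 0
  · exact ⟨1, one_pos, fun y hy => absurd ((abs_nonneg y).trans hy) (not_le.2 hY)⟩
  have hY0 : 0 ≤ Y := not_lt.1 hY
  have h1 : UniformContinuousOn (fun t : ℝ => (6 : ℝ) ^ t) (Set.Icc 0 1) :=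
    isCompact_Icc.uniformContinuousOn_of_continuous six_cont.continuousOn
  rw [Metric.uniformContinuousOn_iff] at h1
  obtain ⟨d, hd, h2⟩ := h1 (η / (2 * Real.pi * (Y + 1))) (by positivity)
  obtain ⟨M, hM⟩ := exists_nat_one_div_lt hd
  refine ⟨M + 1, Nat.succ_pos _, fun y hy s t hs0 hs1 ht0 ht1 hst => ?_⟩
  have h3 := h2 s ⟨hs0, hs1⟩ t ⟨ht0, ht1⟩ (by
    rw [Real.dist_eq]
    refine lt_of_le_of_lt hst ?_
    push_cast
    exact hM)
  rw [Real.dist_eq] at h3
  refine (e_lip _ _).trans ?_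
  rw [← mul_sub, abs_mul]
  have hpi : 0 < 2 * Real.pi := by positivity
  calc 2 * Real.pi * (|y| * |(6 : ℝ) ^ s - 6 ^ t|) ≤ 2 * Real.pi * ((Y + 1) * (η / (2 * Real.pi * (Y + 1)))) := by
        apply mul_le_mul_of_nonneg_left _ hpi.le
        apply mul_le_mul (by linarith) h3.le (abs_nonneg _) (by linarith)
    _ = η := by field_simp

/-- uniform version of the mean value estimate -/
lemma phase_equi_unif (Y η : ℝ) (hη : 0 < η) : ∃ N0 : ℕ, ∀ N : ℕ, N0 ≤ N → ∀ n0 : ℕ, ∀ y : ℝ, |y| ≤ Y →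
    ‖∑ n ∈ Ico n0 (n0 + N), e (y * 6 ^ (Int.fract (n * th)))‖ ≤ (‖I y‖ + η) * N := by
  obtain ⟨M, hM, hu⟩ := phase_mod Y (η / 2) (by linarith)
  obtain ⟨N0, h⟩ := cells_unif M hM η hη
  exact ⟨N0, fun N hN n0 y hy => phase_core y η hη M hM (hu y hy) N n0 (h N hN n0)⟩

end Pool.Agent.Zk45.R
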