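import Mathlib
import Pool.Agent.Zk45.Phase2

set_option autoImplicit false

/-! Riesz products over the rotation, and the characteristic functions of digits. -/

open Finset Filter Topology MeasureTheory

namespace Pool.Agent.Zk45.R

open Pool.Agent.Zk45.W

lemma base6_zero (R : ℕ) : ∀ p : Fin R → ℤ, (∀ k, |p k| ≤ 1) → ∑ k, p k * 6 ^ (k : ℕ) = 0 → p = 0 := by
  induction R with
  | zero => intro p _ _; exact Subsingleton.elim _ _
  | succ R ih =>
    intro p hp h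
    rw [Fin.sum_univ_succ] at h
    have h1 : ∑ i : Fin R, p i.succ * 6 ^ ((i.succ : Fin (R + 1)) : ℕ) = 6 * ∑ i : Fin R, p i.succ * 6 ^ (i : ℕ) := by
      rw [mul_sum]
      apply sum_congr rfl
      intro i _
      rw [Fin.val_succ, pow_succ]
      ring
    rw [h1] at h
    simp only [Fin.val_zero, pow_zero, mul_one] at h
    have h2 := abs_le.1 (hp 0)
    have h3 : p 0 = 0 := by omega
    have h4 : ∑ i : Fin R, p i.succ * 6 ^ (i : ℕ) = 0 := by omega
    have h5 := ih (fun i => p i.succ) (fun i => hp _) h4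
    funext k
    refine Fin.cases h3 (fun i => ?_) k
    exact congrFun h5 i

lemma base6_le (R : ℕ) (p : Fin R → ℤ) (hp : ∀ k, |p k| ≤ 1) : |∑ k, p k * 6 ^ (k : ℕ)| ≤ 6 ^ R := by
  have h1 : |∑ k, p k * 6 ^ (k : ℕ)| ≤ ∑ k : Fin R, (6 : ℤ) ^ (k : ℕ) := by
    refine (abs_sum_le_sum_abs _ _).trans (sum_le_sum fun k _ => ?_)
    rw [abs_mul, abs_of_pos (by positivity : (0 : ℤ) < 6 ^ (k : ℕ))]
    have : (0 : ℤ) < 6 ^ (k : ℕ) := by positivity
    nlinarith [hp k]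
  refine h1.trans ?_
  rw [Fin.sum_univ_eq_sum_range (fun k => (6 : ℤ) ^ k) R]
  clear h1 hp p
  induction R with
  | zero => simp
  | succ R ih =>
    rw [sum_range_succ, pow_succ]
    have : (0 : ℤ) < 6 ^ R := by positivity
    omega

/-- the factor `1 - κ + κ cos (2 π t)` -/
noncomputable def psi (κ t : ℝ) : ℝ := 1 - κ + κ * Real.cos (2 * Real.pi * t)

/-- the weights -/
noncomputable def wt (κ : ℝ) (δ : ℤ) : ℝ := if δ = 0 then 1 - κ else κ / 2

def DD : Finset ℤ := {-1, 0, 1}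

lemma psi_eq (κ t : ℝ) : (psi κ t : ℂ) = ∑ δ ∈ DD, (wt κ δ : ℂ) * e (δ * t) := by
  have h1 : e t + e (-t) = ((2 * Real.cos (2 * Real.pi * t) : ℝ) : ℂ) := by
    unfold e
    push_cast
    rw [Complex.two_cos]
    congr 1
    · congr 1; ring
    · congr 1; ring
  unfold DD
  rw [sum_insert (by decide), sum_insert (by decide), sum_singleton]
  unfold wt psi
  rw [if_neg (by decide), if_pos rfl, if_neg (by decide)]
  push_cast
  rw [show (-1 : ℝ) * t = -t by ring, show (1 : ℝ) * t = t by ring, show (0 : ℝ) * t = 0 by ring, e_zero]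
  push_cast at h1
  linear_combination (-(κ : ℂ) / 2) * h1

lemma psi_nonneg (κ t : ℝ) (h0 : 0 ≤ κ) (h1 : κ ≤ 1 / 2) : 0 ≤ psi κ t := by
  unfold psi
  nlinarith [Real.neg_one_le_cos (2 * Real.pi * t)]

lemma wt_nonneg (κ : ℝ) (h0 : 0 ≤ κ) (h1 : κ ≤ 1) (δ : ℤ) : 0 ≤ wt κ δ := by
  unfold wt
  split_ifs <;> linarith

lemma wt_sum (κ : ℝ) : ∑ δ ∈ DD, wt κ δ = 1 := by
  unfold DD
  rw [sum_insert (by decide), sum_insert (by decide), sum_singleton]
  unfold wt
  rw [if_neg (by decide), if_pos rfl, if_neg (by decide)]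
  ring

/-- the average of Riesz products over the orbit of the rotation -/
lemma riesz_avg (Γ : ℝ) (hΓ : Γ ≠ 0) (κ : ℝ) (hκ0 : 0 < κ) (hκ1 : κ ≤ 1 / 2) (ε : ℝ) (hε : 0 < ε) :
    ∃ k0 R N0 : ℕ, ∀ c : ℝ, |Γ| / 3 ≤ |c| → |c| ≤ |Γ| → ∀ N : ℕ, N0 ≤ N → ∀ n0 : ℕ,
      ∑ n ∈ Ico n0 (n0 + N), ∏ k : Fin R, psi κ (60 * (c * 6 ^ (k0 + 1 + (k : ℕ)) * 6 ^ (Int.fract ((n : ℝ) * th)))) ≤
        ε * N := by
  classical
  have hΓ0 : 0 < |Γ| := abs_pos.2 hΓ
  obtain ⟨R, hR⟩ := exists_pow_lt_of_lt_one (show (0 : ℝ) < ε / 3 by linarith) (show 1 - κ < 1 by linarith)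
  obtain ⟨k0, hk0⟩ := pow_unbounded_of_one_lt (3 / (20 * |Γ| * ε)) (show (1 : ℝ) < 6 by norm_num)
  obtain ⟨N0, hN0⟩ := phase_equi_unif (60 * |Γ| * 6 ^ (k0 + 1 + R)) (ε / 3) (by linarith)
  refine ⟨k0, R, N0, fun c hc1 hc2 N hN n0 => ?_⟩
  have hNr : (0 : ℝ) ≤ N := Nat.cast_nonneg _
  set P : Finset (Fin R → ℤ) := Fintype.piFinset (fun _ => DD) with hP
  set Wt : (Fin R → ℤ) → ℝ := fun p => ∏ k, wt κ (p k) with hWt
  set yy : (Fin R → ℤ) → ℝ := fun p => 60 * c * 6 ^ (k0 + 1) * ((∑ k, p k * 6 ^ (k : ℕ) : ℤ) : ℝ) with hyy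
  have hW0 : ∀ p, 0 ≤ Wt p := fun p => prod_nonneg fun k _ => wt_nonneg κ hκ0.le (by linarith) _
  have hWsum : ∑ p ∈ P, Wt p = 1 := by
    have h := prod_univ_sum (fun _ : Fin R => DD) (fun _ δ => wt κ δ)
    rw [← hP] at h
    rw [hWt, ← h]
    simp only [wt_sum, prod_const_one]
  have hPabs : ∀ p ∈ P, ∀ k, |p k| ≤ 1 := by
    intro p hp k
    have h1 := Fintype.mem_piFinset.1 hp k
    unfold DD at h1
    simp only [mem_insert, mem_singleton] at h1
    rcases h1 with h | h | h <;> rw [h] <;> simp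
  -- expand the product
  have hexp : ∀ x : ℝ, ((∏ k : Fin R, psi κ (60 * (c * 6 ^ (k0 + 1 + (k : ℕ)) * x)) : ℝ) : ℂ) =
      ∑ p ∈ P, (Wt p : ℂ) * e (yy p * x) := by
    intro x
    rw [Complex.ofReal_prod]
    simp only [psi_eq]
    rw [prod_univ_sum]
    apply sum_congr rfl
    intro p _
    rw [prod_mul_distrib]
    rw [hWt]
    push_cast
    congr 1
    have h1 : ∀ (s : Finset (Fin R)) (f : Fin R → ℝ), ∏ k ∈ s, e (f k) = e (∑ k ∈ s, f k) := by
      intro s f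
      induction s using Finset.induction_on with
      | empty => simp [e_zero]
      | insert a s ha ih => rw [prod_insert ha, sum_insert ha, e_add, ih]
    rw [h1]
    congr 1
    rw [hyy]
    push_cast
    rw [mul_sum, sum_mul]
    apply sum_congr rfl
    intro k _
    rw [pow_add]
    ring
  have hC : ((∑ n ∈ Ico n0 (n0 + N), ∏ k : Fin R, psi κ (60 * (c * 6 ^ (k0 + 1 + (k : ℕ)) *
      6 ^ (Int.fract ((n : ℝ) * th)))) : ℝ) : ℂ) =
      ∑ p ∈ P, (Wt p : ℂ) * ∑ n ∈ Ico n0 (n0 + N), e (yy p * 6 ^ (Int.fract ((n : ℝ) * th))) := by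
    rw [Complex.ofReal_sum]
    simp only [hexp]
    rw [sum_comm]
    apply sum_congr rfl
    intro p _
    rw [mul_sum]
  have hbound : ∀ p ∈ P, ‖∑ n ∈ Ico n0 (n0 + N), e (yy p * 6 ^ (Int.fract ((n : ℝ) * th)))‖ ≤
      (if p = 0 then (N : ℝ) else 0) + (2 * ε / 3) * N := by
    intro p hp
    by_cases hp0 : p = 0
    · rw [if_pos hp0]
      have h2 : ‖∑ n ∈ Ico n0 (n0 + N), e (yy p * 6 ^ (Int.fract ((n : ℝ) * th)))‖ ≤ N := by
        refine (norm_sum_le _ _).trans ?_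
        simp [norm_e]
      have h3 : 0 ≤ (2 * ε / 3) * N := by positivity
      linarith
    · rw [if_neg hp0, zero_add]
      have hsum0 : ∑ k, p k * 6 ^ (k : ℕ) ≠ 0 := fun h => hp0 (base6_zero R p (hPabs p hp) h)
      have hs1 : (1 : ℝ) ≤ |((∑ k, p k * 6 ^ (k : ℕ) : ℤ) : ℝ)| := by
        rw [← Int.cast_abs]
        exact_mod_cast Int.one_le_abs hsum0
      have hs2 : |((∑ k, p k * 6 ^ (k : ℕ) : ℤ) : ℝ)| ≤ 6 ^ R := by
        rw [← Int.cast_abs]
        exact_mod_cast base6_le R p (hPabs p hp)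
      have hyabs : |yy p| = 60 * |c| * 6 ^ (k0 + 1) * |((∑ k, p k * 6 ^ (k : ℕ) : ℤ) : ℝ)| := by
        rw [hyy]
        simp only
        rw [abs_mul, abs_mul, abs_mul, abs_of_pos (by positivity : (0 : ℝ) < 6 ^ (k0 + 1)),
          abs_of_pos (by norm_num : (0 : ℝ) < 60)]
      have hyle : |yy p| ≤ 60 * |Γ| * 6 ^ (k0 + 1 + R) := by
        rw [hyabs, pow_add (6 : ℝ) (k0 + 1) R, ← mul_assoc]
        apply mul_le_mul _ hs2 (abs_nonneg _) (by positivity)
        apply mul_le_mul_of_nonneg_right _ (by positivity)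
        linarith
      have hyge : 20 * |Γ| * 6 ^ k0 ≤ |yy p| := by
        rw [hyabs]
        have h1 : (6 : ℝ) ^ k0 ≤ 6 ^ (k0 + 1) := pow_le_pow_right₀ (by norm_num) (by omega)
        calc 20 * |Γ| * 6 ^ k0 ≤ 60 * |c| * 6 ^ (k0 + 1) := by
              apply mul_le_mul (by linarith) h1 (by positivity) (by positivity)
          _ ≤ 60 * |c| * 6 ^ (k0 + 1) * |((∑ k, p k * 6 ^ (k : ℕ) : ℤ) : ℝ)| :=
              le_mul_of_one_le_right (by positivity) hs1
      have hypos : 0 < |yy p| := lt_of_lt_of_le (by positivity) hyge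
      have hI := I_le (yy p) (abs_pos.1 hypos)
      have hI2 : 1 / |yy p| ≤ ε / 3 := by
        rw [div_le_iff₀ hypos]
        have h2 : 3 / (20 * |Γ| * ε) * (20 * |Γ| * ε / 3) = 1 := by field_simp
        have h3 : 3 / (20 * |Γ| * ε) * (20 * |Γ| * ε / 3) ≤ 6 ^ k0 * (20 * |Γ| * ε / 3) :=
          mul_le_mul_of_nonneg_right hk0.le (by positivity)
        have h4 : ε / 3 * (20 * |Γ| * 6 ^ k0) ≤ ε / 3 * |yy p| := mul_le_mul_of_nonneg_left hyge (by linarith)
        linarith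
      refine (hN0 N hN n0 (yy p) hyle).trans ?_
      apply mul_le_mul_of_nonneg_right _ hNr
      linarith
  have hre : ∑ n ∈ Ico n0 (n0 + N), ∏ k : Fin R, psi κ (60 * (c * 6 ^ (k0 + 1 + (k : ℕ)) *
      6 ^ (Int.fract ((n : ℝ) * th)))) ≤
      ‖∑ p ∈ P, (Wt p : ℂ) * ∑ n ∈ Ico n0 (n0 + N), e (yy p * 6 ^ (Int.fract ((n : ℝ) * th)))‖ := by
    rw [← hC, Complex.norm_real]
    exact le_abs_self _
  refine hre.trans ((norm_sum_le _ _).trans ?_)
  have hW00 : Wt 0 = (1 - κ) ^ R := by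
    rw [hWt]
    simp [wt]
  have h0P : (0 : Fin R → ℤ) ∈ P := by
    rw [hP, Fintype.mem_piFinset]
    intro k
    unfold DD
    simp
  calc ∑ p ∈ P, ‖(Wt p : ℂ) * ∑ n ∈ Ico n0 (n0 + N), e (yy p * 6 ^ (Int.fract ((n : ℝ) * th)))‖
      ≤ ∑ p ∈ P, ((if p = 0 then Wt p * N else 0) + Wt p * ((2 * ε / 3) * N)) := by
        apply sum_le_sum
        intro p hp
        rw [norm_mul, Complex.norm_real, Real.norm_of_nonneg (hW0 p)]
        have h1 := mul_le_mul_of_nonneg_left (hbound p hp) (hW0 p)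
        refine h1.trans (le_of_eq ?_)
        rw [mul_add]
        congr 1
        split_ifs
        · rfl
        · ring
    _ = (1 - κ) ^ R * N + (2 * ε / 3) * N := by
        rw [sum_add_distrib, sum_ite_eq' P 0, if_pos h0P, hW00, ← sum_mul, hWsum, one_mul]
    _ ≤ ε / 3 * N + (2 * ε / 3) * N := by
        have := mul_le_mul_of_nonneg_right hR.le hNr
        linarith
    _ = ε * N := by ring

lemma abs_sin_nat_mul (m : ℕ) (x : ℝ) : |Real.sin (m * x)| ≤ m * |Real.sin x| := by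
  induction m with
  | zero => simp
  | succ m ih =>
    push_cast
    rw [add_mul, one_mul, Real.sin_add]
    refine (abs_add_le _ _).trans ?_
    rw [abs_mul, abs_mul]
    have h1 := Real.abs_cos_le_one x
    have h2 := Real.abs_cos_le_one (m * x)
    have h3 := abs_nonneg (Real.sin x)
    have h4 := abs_nonneg (Real.sin (m * x))
    nlinarith

lemma one_sub_cos_nat_mul (m : ℕ) (x : ℝ) : 1 - Real.cos (m * x) ≤ m ^ 2 * (1 - Real.cos x) := by
  have h1 : ∀ y : ℝ, 1 - Real.cos y = 2 * Real.sin (y / 2) ^ 2 := by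
    intro y
    have := Real.cos_sq_add_sin_sq (y / 2)
    have h2 : Real.cos y = 2 * Real.cos (y / 2) ^ 2 - 1 := by
      rw [← Real.cos_two_mul]
      congr 1
      ring
    rw [h2]
    linarith
  rw [h1, h1]
  have h2 := abs_sin_nat_mul m (x / 2)
  rw [show (m : ℝ) * (x / 2) = m * x / 2 by ring] at h2
  have h3 := pow_le_pow_left₀ (abs_nonneg _) h2 2
  rw [mul_pow, sq_abs, sq_abs] at h3
  linarith

/-- the characteristic function of a digit -/
noncomputable def chf (r : Fin 6 → ℝ) (t : ℝ) : ℂ := ∑ d : Fin 6, (r d : ℂ) * e ((d : ℕ) * t)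

lemma chf_bound (r : Fin 6 → ℝ) (h0 : ∀ d, 0 ≤ r d) (h1 : ∑ d, r d = 1) (ρ : ℝ) (hρ : ∀ d, r d ≤ 1 - ρ) (t : ℝ) :
    ‖chf r t‖ ^ 2 ≤ psi (ρ / 3600) (60 * t) := by
  classical
  have hsq : ((‖chf r t‖ ^ 2 : ℝ) : ℂ) = ∑ d : Fin 6, ∑ d' : Fin 6, ((r d * r d' : ℝ) : ℂ) *
      e ((((d : ℕ) : ℝ) - ((d' : ℕ) : ℝ)) * t) := by
    rw [← Complex.normSq_eq_norm_sq, Complex.normSq_eq_conj_mul_self]
    unfold chf
    rw [map_sum, mul_comm, sum_mul_sum]
    apply sum_congr rfl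
    intro d _
    apply sum_congr rfl
    intro d' _
    rw [map_mul, Complex.conj_ofReal, ← e_neg]
    have : e ((((d : ℕ) : ℝ) - ((d' : ℕ) : ℝ)) * t) = e ((d : ℕ) * t) * e (-((d' : ℕ) * t)) := by
      rw [← e_add]
      congr 1
      ring
    rw [this]
    push_cast
    ring
  have hre : ‖chf r t‖ ^ 2 = ∑ d : Fin 6, ∑ d' : Fin 6, (r d * r d') *
      Real.cos (2 * Real.pi * ((((d : ℕ) : ℝ) - ((d' : ℕ) : ℝ)) * t)) := by
    have h2 := congrArg Complex.re hsq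
    rw [Complex.ofReal_re, Complex.re_sum] at h2
    rw [h2]
    apply sum_congr rfl
    intro d _
    rw [Complex.re_sum]
    apply sum_congr rfl
    intro d' _
    rw [Complex.re_ofReal_mul]
    congr 1
    unfold e
    rw [show (2 * Real.pi * Complex.I * ((((((d : ℕ) : ℝ) - ((d' : ℕ) : ℝ)) * t) : ℝ) : ℂ)) =
      ((2 * Real.pi * ((((d : ℕ) : ℝ) - ((d' : ℕ) : ℝ)) * t) : ℝ) : ℂ) * Complex.I by push_cast; ring]
    rw [Complex.exp_ofReal_mul_I_re]
  have hone : (1 : ℝ) = ∑ d : Fin 6, ∑ d' : Fin 6, r d * r d' := by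
    rw [← sum_mul_sum, h1, one_mul]
  set Q : ℝ := 1 - Real.cos (2 * Real.pi * (60 * t)) with hQ
  have hQ0 : 0 ≤ Q := by
    rw [hQ]
    linarith [Real.cos_le_one (2 * Real.pi * (60 * t))]
  have hterm : ∀ d d' : Fin 6, (if d' = d then 0 else r d * r d' * (Q / 3600)) ≤
      r d * r d' - (r d * r d') * Real.cos (2 * Real.pi * ((((d : ℕ) : ℝ) - ((d' : ℕ) : ℝ)) * t)) := by
    intro d d'
    have hrr : 0 ≤ r d * r d' := mul_nonneg (h0 d) (h0 d')
    split_ifs with hdd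
    · have := Real.cos_le_one (2 * Real.pi * ((((d : ℕ) : ℝ) - ((d' : ℕ) : ℝ)) * t))
      nlinarith
    · have hne : (d : ℕ) ≠ (d' : ℕ) := fun h => hdd (Fin.ext h.symm)
      have hd := d.isLt
      have hd' := d'.isLt
      -- `m` with `m |d - d'| = 60`
      obtain ⟨m, hm, hm60⟩ : ∃ m : ℕ, m ≤ 60 ∧ ((m : ℤ) * (((d : ℕ) : ℤ) - ((d' : ℕ) : ℤ)) = 60 ∨
          (m : ℤ) * (((d : ℕ) : ℤ) - ((d' : ℕ) : ℤ)) = -60) := by
        have hcases : ∀ a b : ℕ, a < 6 → b < 6 → a ≠ b → ∃ m : ℕ, m ≤ 60 ∧ ((m : ℤ) * ((a : ℤ) - (b : ℤ)) = 60 ∨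
            (m : ℤ) * ((a : ℤ) - (b : ℤ)) = -60) := by
          intro a b ha hb hab
          have h5 : ∃ x : ℕ, 1 ≤ x ∧ x ≤ 5 ∧ ((a : ℤ) - b = x ∨ (a : ℤ) - b = -x) :=
            ⟨((a : ℤ) - b).natAbs, by omega, by omega, by omega⟩
          obtain ⟨x, hx1, hx5, hx⟩ := h5
          interval_cases x
          · exact ⟨60, by norm_num, by omega⟩
          · exact ⟨30, by norm_num, by omega⟩
          · exact ⟨20, by norm_num, by omega⟩
          · exact ⟨15, by norm_num, by omega⟩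
          · exact ⟨12, by norm_num, by omega⟩
        exact hcases d d' hd hd' hne
      have hcos : Q ≤ m ^ 2 * (1 - Real.cos (2 * Real.pi * ((((d : ℕ) : ℝ) - ((d' : ℕ) : ℝ)) * t))) := by
        have h2 := one_sub_cos_nat_mul m (2 * Real.pi * ((((d : ℕ) : ℝ) - ((d' : ℕ) : ℝ)) * t))
        have h3 : Real.cos ((m : ℝ) * (2 * Real.pi * ((((d : ℕ) : ℝ) - ((d' : ℕ) : ℝ)) * t))) =
            Real.cos (2 * Real.pi * (60 * t)) := by
          rcases hm60 with h | h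
          · have h4 : (m : ℝ) * (((d : ℕ) : ℝ) - ((d' : ℕ) : ℝ)) = 60 := by exact_mod_cast h
            congr 1
            linear_combination (2 * Real.pi * t) * h4
          · have h4 : (m : ℝ) * (((d : ℕ) : ℝ) - ((d' : ℕ) : ℝ)) = -60 := by exact_mod_cast h
            rw [← Real.cos_neg]
            congr 1
            linear_combination (-(2 * Real.pi * t)) * h4
        rw [h3] at h2
        exact h2
      have hm2 : (m : ℝ) ^ 2 ≤ 3600 := by
        have : (m : ℝ) ≤ 60 := by exact_mod_cast hm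
        nlinarith [Nat.cast_nonneg (α := ℝ) m]
      have hc1 := Real.cos_le_one (2 * Real.pi * ((((d : ℕ) : ℝ) - ((d' : ℕ) : ℝ)) * t))
      have hQ2 : Q / 3600 ≤ 1 - Real.cos (2 * Real.pi * ((((d : ℕ) : ℝ) - ((d' : ℕ) : ℝ)) * t)) := by
        rw [div_le_iff₀ (by norm_num)]
        nlinarith
      have h6 := mul_le_mul_of_nonneg_left hQ2 hrr
      linarith
  have hsum : ∑ d : Fin 6, ∑ d' : Fin 6, (if d' = d then 0 else r d * r d' * (Q / 3600)) =
      (1 - ∑ d, r d ^ 2) * (Q / 3600) := by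
    have h2 : ∀ d : Fin 6, ∑ d' : Fin 6, (if d' = d then 0 else r d * r d' * (Q / 3600)) =
        r d * (Q / 3600) - r d ^ 2 * (Q / 3600) := by
      intro d
      have h3 : ∀ d' : Fin 6, (if d' = d then 0 else r d * r d' * (Q / 3600)) =
          r d' * (r d * (Q / 3600)) - (if d' = d then r d ^ 2 * (Q / 3600) else 0) := by
        intro d'
        split_ifs with h
        · subst h; ring
        · ring
      simp only [h3]
      rw [sum_sub_distrib, ← sum_mul, h1, one_mul, sum_ite_eq' univ d, if_pos (mem_univ d)]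
    simp only [h2]
    rw [sum_sub_distrib, ← sum_mul, ← sum_mul, h1]
    ring
  have hsqs : ∑ d, r d ^ 2 ≤ 1 - ρ := by
    calc ∑ d, r d ^ 2 ≤ ∑ d, (1 - ρ) * r d := by
          apply sum_le_sum
          intro d _
          nlinarith [h0 d, hρ d]
      _ = 1 - ρ := by rw [← mul_sum, h1, mul_one]
  have hfinal : (1 - ∑ d, r d ^ 2) * (Q / 3600) ≤ 1 - ‖chf r t‖ ^ 2 := by
    rw [← hsum]
    conv_rhs => rw [hone, hre]
    rw [← sum_sub_distrib]
    apply sum_le_sum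
    intro d _
    rw [← sum_sub_distrib]
    exact sum_le_sum fun d' _ => hterm d d'
  unfold psi
  have h9 : ρ * (Q / 3600) ≤ (1 - ∑ d, r d ^ 2) * (Q / 3600) :=
    mul_le_mul_of_nonneg_right (by linarith) (by positivity)
  have h10 : ρ * (Q / 3600) = ρ / 3600 - ρ / 3600 * Real.cos (2 * Real.pi * (60 * t)) := by
    rw [hQ]; ring
  linarith

end Pool.Agent.Zk45.R
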