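import Mathlib
import Pool.Agent.Zk45.Riesz
import Pool.Agent.Zk45.Lac

set_option autoImplicit false

/-! Averages over independent digits. -/

open Finset Filter Topology MeasureTheory

namespace Pool.Agent.Zk45.Avg

open Pool.Agent.Zk45.W Pool.Agent.Zk45.R Pool.Agent.Zk45.Far Pool.Agent.Zk45.LacN

/-- digit sequences -/
abbrev Sq := ℕ → Fin 6

/-- the average over the `i`-th digit -/
noncomputable def av {E : Type} [AddCommGroup E] [Module ℝ E] (r : ℕ → Fin 6 → ℝ) (i : ℕ) (f : Sq → E) : Sq → E :=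
  fun a => ∑ d : Fin 6, r i d • f (Function.update a i d)

/-- the average over the digits `m, …, m + k - 1` -/
noncomputable def avI {E : Type} [AddCommGroup E] [Module ℝ E] (r : ℕ → Fin 6 → ℝ) (m : ℕ) : ℕ → (Sq → E) → (Sq → E)
  | 0, f => f
  | k + 1, f => avI r m k (av r (m + k) f)

/-- probability laws -/
def Laws (r : ℕ → Fin 6 → ℝ) : Prop := (∀ i d, 0 ≤ r i d) ∧ ∀ i, ∑ d, r i d = 1

section

variable {E : Type} [AddCommGroup E] [Module ℝ E] (r : ℕ → Fin 6 → ℝ)

lemma avI_split (m k l : ℕ) (f : Sq → E) : avI r m (k + l) f = avI r m k (avI r (m + k) l f) := by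
  induction l generalizing f with
  | zero => rfl
  | succ l ih =>
    rw [← add_assoc]
    show avI r m (k + l) (av r (m + (k + l)) f) = avI r m k (avI r (m + k) l (av r (m + k + l) f))
    rw [ih, add_assoc]

lemma av_lin {E' : Type} [AddCommGroup E'] [Module ℝ E'] (L : E →ₗ[ℝ] E') (i : ℕ) (f : Sq → E) :
    av r i (fun a => L (f a)) = fun a => L (av r i f a) := by
  funext a
  unfold av
  rw [map_sum]
  simp only [map_smul]

lemma avI_lin {E' : Type} [AddCommGroup E'] [Module ℝ E'] (L : E →ₗ[ℝ] E') (m k : ℕ) (f : Sq → E) :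
    avI r m k (fun a => L (f a)) = fun a => L (avI r m k f a) := by
  induction k generalizing f with
  | zero => rfl
  | succ k ih =>
    show avI r m k (av r (m + k) (fun a => L (f a))) = fun a => L (avI r m k (av r (m + k) f) a)
    rw [av_lin, ih]

lemma av_sum {ι : Type} (s : Finset ι) (i : ℕ) (f : ι → Sq → E) :
    av r i (fun a => ∑ x ∈ s, f x a) = fun a => ∑ x ∈ s, av r i (f x) a := by
  funext a
  unfold av
  simp only [smul_sum]
  rw [sum_comm]

lemma avI_sum {ι : Type} (s : Finset ι) (m k : ℕ) (f : ι → Sq → E) :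
    avI r m k (fun a => ∑ x ∈ s, f x a) = fun a => ∑ x ∈ s, avI r m k (f x) a := by
  induction k generalizing f with
  | zero => rfl
  | succ k ih =>
    show avI r m k (av r (m + k) (fun a => ∑ x ∈ s, f x a)) = fun a => ∑ x ∈ s, avI r m k (av r (m + k) (f x)) a
    rw [av_sum, ih]

end

section

variable (r : ℕ → Fin 6 → ℝ)

lemma av_mono (hr : Laws r) (i : ℕ) (f g : Sq → ℝ) (h : ∀ a, f a ≤ g a) : ∀ a, av r i f a ≤ av r i g a := by
  intro a
  unfold av
  exact sum_le_sum fun d _ => smul_le_smul_of_nonneg_left (h _) (hr.1 i d)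

lemma avI_mono (hr : Laws r) (m k : ℕ) (f g : Sq → ℝ) (h : ∀ a, f a ≤ g a) : ∀ a, avI r m k f a ≤ avI r m k g a := by
  induction k generalizing f g with
  | zero => exact h
  | succ k ih => exact ih _ _ (av_mono r hr _ f g h)

lemma avI_const (hr : Laws r) (m k : ℕ) (c : ℝ) : avI r m k (fun _ => c) = fun _ => c := by
  induction k with
  | zero => rfl
  | succ k ih =>
    show avI r m k (av r (m + k) (fun _ => c)) = fun _ => c
    have : av r (m + k) (fun _ => c) = fun _ => c := by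
      funext a
      unfold av
      rw [← sum_smul, hr.2, one_smul]
    rw [this, ih]

/-- `f` does not depend on the digits `m, …, m + k - 1` -/
def Indep (f : Sq → ℝ) (m k : ℕ) : Prop := ∀ a : Sq, ∀ i, m ≤ i → i < m + k → ∀ d, f (Function.update a i d) = f a

lemma avI_mul (m k : ℕ) (f g : Sq → ℝ) (hf : Indep f m k) :
    avI r m k (fun a => f a * g a) = fun a => f a * avI r m k g a := by
  induction k generalizing g with
  | zero => rfl
  | succ k ih =>
    show avI r m k (av r (m + k) (fun a => f a * g a)) = fun a => f a * avI r m k (av r (m + k) g) a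
    have h1 : av r (m + k) (fun a => f a * g a) = fun a => f a * av r (m + k) g a := by
      funext a
      unfold av
      rw [mul_sum]
      apply sum_congr rfl
      intro d _
      simp only [smul_eq_mul]
      rw [hf a (m + k) (by omega) (by omega) d]
      ring
    rw [h1]
    exact ih (av r (m + k) g) (fun a i h2 h3 d => hf a i h2 (by omega) d)

/-- exponentials of linear forms in the digits -/
noncomputable def Fe (lam : ℕ → ℝ) (N : ℕ) (a : Sq) : ℂ := e (∑ i ∈ range N, lam i * ((a i : Fin 6) : ℕ))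

lemma Fe_update (lam : ℕ → ℝ) (N i : ℕ) (hi : i < N) (a : Sq) (d : Fin 6) :
    Fe lam N (Function.update a i d) = e (((d : Fin 6) : ℕ) * lam i) * Fe (Function.update lam i 0) N a := by
  unfold Fe
  rw [← e_add]
  congr 1
  have hmem : i ∈ range N := mem_range.2 hi
  rw [← add_sum_erase _ _ hmem, ← add_sum_erase (range N) (fun j => Function.update lam i 0 j * ((a j : Fin 6) : ℕ)) hmem]
  simp only [Function.update_self, zero_mul, zero_add]
  have h1 : ∑ x ∈ (range N).erase i, lam x * (((Function.update a i d x : Fin 6) : ℕ) : ℝ) =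
      ∑ x ∈ (range N).erase i, Function.update lam i 0 x * ((a x : Fin 6) : ℕ) := by
    apply sum_congr rfl
    intro x hx
    have hxi := (mem_erase.1 hx).1
    rw [Function.update_of_ne hxi, Function.update_of_ne hxi]
  rw [h1]
  ring

lemma av_Fe (lam : ℕ → ℝ) (N i : ℕ) (hi : i < N) (a : Sq) :
    av r i (Fe lam N) a = chf (r i) (lam i) * Fe (Function.update lam i 0) N a := by
  unfold av chf
  rw [sum_mul]
  apply sum_congr rfl
  intro d _
  rw [Fe_update lam N i hi, Complex.real_smul, mul_assoc]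

lemma avI_Fe (N m k : ℕ) (hk : m + k ≤ N) : ∀ (lam : ℕ → ℝ) (a : Sq),
    ‖avI r m k (Fe lam N) a‖ = ∏ s ∈ range k, ‖chf (r (m + s)) (lam (m + s))‖ := by
  induction k with
  | zero =>
    intro lam a
    show ‖Fe lam N a‖ = _
    unfold Fe
    simp [norm_e]
  | succ k ih =>
    intro lam a
    show ‖avI r m k (av r (m + k) (Fe lam N)) a‖ = _
    have h1 : av r (m + k) (Fe lam N) = fun a => (LinearMap.mulLeft ℝ (chf (r (m + k)) (lam (m + k))))
        (Fe (Function.update lam (m + k) 0) N a) := by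
      funext a
      rw [av_Fe r lam N (m + k) (by omega)]
      rfl
    rw [h1, avI_lin]
    show ‖chf (r (m + k)) (lam (m + k)) * avI r m k (Fe (Function.update lam (m + k) 0) N) a‖ = _
    rw [norm_mul, ih (by omega), prod_range_succ, mul_comm]
    congr 1
    apply prod_congr rfl
    intro s hs
    rw [mem_range] at hs
    rw [Function.update_of_ne (by omega)]

lemma chf_le_one (hr : Laws r) (i : ℕ) (t : ℝ) : ‖chf (r i) t‖ ≤ 1 := by
  unfold chf
  refine (norm_sum_le _ _).trans ?_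
  rw [← hr.2 i]
  apply sum_le_sum
  intro d _
  rw [norm_mul, norm_e, mul_one, Complex.norm_real, Real.norm_of_nonneg (hr.1 i d)]

lemma e_V (β : ℝ) (N : ℕ) (a : Sq) : e (β * V a N) = Fe (fun i => β / 6 ^ i) N a := by
  unfold Fe V
  congr 1
  rw [mul_sum]
  apply sum_congr rfl
  intro i _
  ring

/-- the second moment over the digits `m, …, m + k - 1` -/
lemma sm (m k : ℕ) (β : ℕ → ℝ) (W : Finset ℕ) (a : Sq) :
    avI r m k (fun a => ‖∑ n ∈ W, e (β n * V a (m + k))‖ ^ 2) a ≤
      ∑ n ∈ W, ∑ n' ∈ W, ∏ s ∈ range k, ‖chf (r (m + s)) ((β n - β n') / 6 ^ (m + s))‖ := by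
  have h1 : (fun a : Sq => ‖∑ n ∈ W, e (β n * V a (m + k))‖ ^ 2) = fun a : Sq =>
      Complex.reLm (∑ x ∈ W ×ˢ W, Fe (fun i => (β x.1 - β x.2) / 6 ^ i) (m + k) a) := by
    funext a
    have h2 : ((‖∑ n ∈ W, e (β n * V a (m + k))‖ ^ 2 : ℝ) : ℂ) =
        ∑ x ∈ W ×ˢ W, Fe (fun i => (β x.1 - β x.2) / 6 ^ i) (m + k) a := by
      rw [← Complex.normSq_eq_norm_sq, Complex.normSq_eq_conj_mul_self, map_sum, mul_comm, sum_mul_sum, ← sum_product']
      apply sum_congr rfl
      intro x _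
      rw [← e_neg, ← e_add, ← e_V]
      congr 1
      ring
    show _ = Complex.re _
    rw [← h2, Complex.ofReal_re]
  rw [h1, avI_lin, avI_sum]
  simp only [Complex.reLm_coe]
  refine (Complex.re_le_norm _).trans ((norm_sum_le _ _).trans ?_)
  rw [← sum_product']
  apply sum_le_sum
  intro x _
  rw [avI_Fe r (m + k) m k le_rfl]

/-- the constants of the mixing estimate -/
theorem win_moment (Γ : ℝ) (hΓ : Γ ≠ 0) (ρ : ℝ) (hρ0 : 0 < ρ) (hρ1 : ρ ≤ 1) (ε : ℝ) (hε : 0 < ε) :
    ∃ b N0 : ℕ, ∀ r : ℕ → Fin 6 → ℝ, Laws r → (∀ i d, r i d ≤ 1 - ρ) → ∀ N : ℕ, N0 ≤ N → ∀ n0 m k : ℕ,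
      (∀ n ∈ Ico n0 (n0 + N), ((m + b : ℕ) : ℤ) ≤ fl n ∧ fl n < ((m + k : ℕ) : ℤ)) → ∀ a : Sq,
      avI r m k (fun a => ‖∑ n ∈ Ico n0 (n0 + N), e (Γ * (3 / 2) ^ n * V a (m + k))‖ ^ 2) a ≤
        N * (1 + 2 * N * ε) := by
  classical
  have hΓ0 : 0 < |Γ| := abs_pos.2 hΓ
  obtain ⟨k0, R, N0, hN0⟩ := riesz_avg Γ hΓ (ρ / 3600) (by positivity) (by linarith) (ε ^ 2) (by positivity)
  refine ⟨k0 + 1 + R, N0, fun r hr hρr N hN n0 m k hfl a => ?_⟩
  set W := Ico n0 (n0 + N) with hW
  have hWc : (W.card : ℝ) = N := by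
    rw [hW, Nat.card_Ico]
    congr 1
    omega
  refine (sm r m k (fun n => Γ * (3 / 2) ^ n) W a).trans ?_
  set B0 : ℕ → ℕ → ℝ := fun n n' => ∏ s ∈ range k, ‖chf (r (m + s)) ((Γ * (3 / 2) ^ n - Γ * (3 / 2) ^ n') / 6 ^ (m + s))‖ with hB0
  set B : ℕ → ℕ → ℝ := fun n n' => if n ∈ W ∧ n' ∈ W then B0 n n' else 0 with hB
  have hB00 : ∀ n n', 0 ≤ B0 n n' := fun n n' => prod_nonneg fun _ _ => norm_nonneg _
  have hB01 : ∀ n n', B0 n n' ≤ 1 := fun n n' => prod_le_one (fun _ _ => norm_nonneg _) (fun _ _ => chf_le_one r hr _ _)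
  have hchf_neg : ∀ i t, ‖chf (r i) (-t)‖ = ‖chf (r i) t‖ := by
    intro i t
    have : chf (r i) (-t) = (starRingEnd ℂ) (chf (r i) t) := by
      unfold chf
      rw [map_sum]
      apply sum_congr rfl
      intro d _
      rw [map_mul, Complex.conj_ofReal, ← e_neg]
      congr 2
      ring
    rw [this, Complex.norm_conj]
  have hsymm0 : ∀ n n', B0 n n' = B0 n' n := by
    intro n n'
    rw [hB0]
    simp only
    apply prod_congr rfl
    intro s _
    rw [← hchf_neg]
    congr 2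
    ring
  have hsum : ∑ n ∈ W, ∑ n' ∈ W, B0 n n' = ∑ n ∈ W, ∑ n' ∈ W, B n n' := by
    apply sum_congr rfl
    intro n hn
    apply sum_congr rfl
    intro n' hn'
    rw [hB]
    simp only
    rw [if_pos ⟨hn, hn'⟩]
  show ∑ n ∈ W, ∑ n' ∈ W, B0 n n' ≤ _
  rw [hsum]
  refine (sym_sum W B (fun n n' => ?_) (fun n n' => ?_) N (fun n l hl => ?_)).trans ?_
  · rw [hB]
    simp only
    split_ifs
    · exact hB00 n n'
    · exact le_rfl
  · rw [hB]
    simp only
    by_cases h : n ∈ W ∧ n' ∈ W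
    · rw [if_pos h, if_pos h.symm, hsymm0]
    · rw [if_neg h, if_neg (fun hh => h hh.symm)]
  · rw [hB]
    simp only
    rw [if_neg]
    rintro ⟨h1, h2⟩
    rw [hW, mem_Ico] at h1 h2
    omega
  have hdiag : ∑ n ∈ W, B n n ≤ N := by
    calc ∑ n ∈ W, B n n ≤ ∑ n ∈ W, (1 : ℝ) := by
          apply sum_le_sum
          intro n _
          rw [hB]
          simp only
          split_ifs
          · exact hB01 n n
          · exact zero_le_one
      _ = N := by rw [sum_const, nsmul_eq_mul, mul_one, hWc]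
  have hoff : ∀ l ∈ Icc 1 N, ∑ n ∈ W, B n (n + l) ≤ N * ε := by
    intro l hl
    have hl1 := (mem_Icc.1 hl).1
    set c : ℝ := Γ * (1 - (2 / 3) ^ l) with hc
    have hcb : (1 : ℝ) / 3 ≤ 1 - (2 / 3) ^ l ∧ (1 : ℝ) - (2 / 3) ^ l ≤ 1 := by
      have h1 : (2 / 3 : ℝ) ^ l ≤ (2 / 3) ^ 1 := pow_le_pow_of_le_one (by norm_num) (by norm_num) hl1
      have h2 : (0 : ℝ) < (2 / 3) ^ l := by positivity
      constructor <;> linarith
    have hcabs : |c| = |Γ| * (1 - (2 / 3) ^ l) := by
      rw [hc, abs_mul, abs_of_nonneg (by linarith : (0 : ℝ) ≤ 1 - (2 / 3) ^ l)]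
    have hc1 : |Γ| / 3 ≤ |c| := by rw [hcabs]; nlinarith
    have hc2 : |c| ≤ |Γ| := by rw [hcabs]; nlinarith
    set G : ℕ → ℝ := fun n => ∏ κ : Fin R, psi (ρ / 3600) (60 * (c * 6 ^ (k0 + 1 + (κ : ℕ)) *
      6 ^ (Int.fract ((n : ℝ) * th)))) with hG
    have hG0 : ∀ n, 0 ≤ G n := fun n => prod_nonneg fun κ _ => psi_nonneg _ _ (by positivity) (by linarith)
    -- the product over the digits is small
    have hprod : ∀ n ∈ W, n + l ∈ W → B0 n (n + l) ≤ Real.sqrt (G (n + l)) := by
      intro n hn hnl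
      obtain ⟨hf1, hf2⟩ := hfl (n + l) hnl
      apply Real.le_sqrt_of_sq_le
      rw [hB0]
      simp only
      rw [← prod_pow]
      -- the digits used
      set ι : Fin R → ℕ := fun κ => (fl (n + l)).toNat - k0 - 1 - (κ : ℕ) - m with hι
      have hfl0 : ((fl (n + l)).toNat : ℤ) = fl (n + l) := Int.toNat_of_nonneg (fl_nonneg _)
      have hιlt : ∀ κ : Fin R, m + ι κ = (fl (n + l)).toNat - k0 - 1 - (κ : ℕ) ∧ ι κ < k := by
        intro κ
        have := κ.isLt
        simp only [hι]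
        constructor <;> omega
      have hinj : Function.Injective ι := by
        intro κ κ' h
        have h1 := (hιlt κ).1
        have h2 := (hιlt κ').1
        rw [h] at h1
        have h3 := κ.isLt
        have h4 := κ'.isLt
        apply Fin.ext
        omega
      have hsubset : (univ : Finset (Fin R)).map ⟨ι, hinj⟩ ⊆ range k := by
        intro s hs
        rw [Finset.mem_map] at hs
        obtain ⟨κ, _, rfl⟩ := hs
        rw [mem_range]
        exact (hιlt κ).2
      have hle1 : ∏ s ∈ range k, ‖chf (r (m + s)) ((Γ * (3 / 2) ^ n - Γ * (3 / 2) ^ (n + l)) / 6 ^ (m + s))‖ ^ 2 ≤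
          ∏ s ∈ (univ : Finset (Fin R)).map ⟨ι, hinj⟩,
            ‖chf (r (m + s)) ((Γ * (3 / 2) ^ n - Γ * (3 / 2) ^ (n + l)) / 6 ^ (m + s))‖ ^ 2 := by
        rw [← prod_sdiff hsubset]
        apply mul_le_of_le_one_left (prod_nonneg fun _ _ => by positivity)
        apply prod_le_one (fun _ _ => by positivity)
        intro s _
        have := chf_le_one r hr (m + s) ((Γ * (3 / 2) ^ n - Γ * (3 / 2) ^ (n + l)) / 6 ^ (m + s))
        exact pow_le_one₀ (norm_nonneg _) this
      refine hle1.trans ?_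
      rw [prod_map]
      rw [hG]
      simp only [Function.Embedding.coeFn_mk]
      apply Finset.prod_le_prod (fun _ _ => by positivity)
      intro κ _
      have hκ := κ.isLt
      have hi := (hιlt κ).1
      have hval : (Γ * (3 / 2) ^ n - Γ * (3 / 2) ^ (n + l)) / 6 ^ (m + ι κ) =
          -(c * 6 ^ (k0 + 1 + (κ : ℕ)) * 6 ^ (Int.fract (((n + l : ℕ) : ℝ) * th))) := by
        have h1 : (3 / 2 : ℝ) ^ (n + l) = 6 ^ (fl (n + l)) * 6 ^ (Int.fract (((n + l : ℕ) : ℝ) * th)) := by
          rw [← six_th (n + l), ← Real.rpow_intCast, ← Real.rpow_add (by norm_num)]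
          congr 1
          unfold fl
          exact (Int.floor_add_fract _).symm
        have h2 : (6 : ℝ) ^ (fl (n + l)) = 6 ^ (m + ι κ) * 6 ^ (k0 + 1 + (κ : ℕ)) := by
          rw [← hfl0, zpow_natCast, ← pow_add, hi]
          congr 1
          omega
        have h3 : (3 / 2 : ℝ) ^ n = (2 / 3) ^ l * (3 / 2) ^ (n + l) := by
          rw [pow_add, mul_comm ((3 / 2 : ℝ) ^ n), ← mul_assoc, ← mul_pow]
          norm_num
        have h4 : (6 : ℝ) ^ (m + ι κ) ≠ 0 := by positivity
        rw [h3, h1, h2, hc]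
        field_simp
        ring
      rw [hval, hchf_neg]
      exact chf_bound (r (m + ι κ)) (hr.1 _) (hr.2 _) ρ (hρr _) _
    have h1 : ∑ n ∈ W, B n (n + l) ≤ ∑ n ∈ W, Real.sqrt (G n) := by
      have h2 : ∑ n ∈ W, B n (n + l) ≤ ∑ n ∈ W.filter (fun n => n + l ∈ W), Real.sqrt (G (n + l)) := by
        rw [sum_filter]
        apply sum_le_sum
        intro n hn
        rw [hB]
        simp only
        by_cases h : n + l ∈ W
        · rw [if_pos ⟨hn, h⟩, if_pos h]
          exact hprod n hn h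
        · rw [if_neg (fun hh => h hh.2), if_neg h]
      refine h2.trans ?_
      have h3 : ∑ n ∈ W.filter (fun n => n + l ∈ W), Real.sqrt (G (n + l)) =
          ∑ n' ∈ (W.filter (fun n => n + l ∈ W)).image (fun n => n + l), Real.sqrt (G n') := by
        rw [sum_image]
        intro x _ y _ hxy
        simp only at hxy
        omega
      rw [h3]
      apply sum_le_sum_of_subset_of_nonneg
      · intro n' hn'
        rw [mem_image] at hn'
        obtain ⟨n, hn, rfl⟩ := hn'
        exact (mem_filter.1 hn).2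
      · intro _ _ _
        exact Real.sqrt_nonneg _
    refine h1.trans ?_
    have h4 : (∑ n ∈ W, Real.sqrt (G n)) ^ 2 ≤ N * (ε ^ 2 * N) := by
      refine (sq_sum_le_card_mul_sum_sq (s := W) (f := fun n => Real.sqrt (G n))).trans ?_
      rw [hWc]
      apply mul_le_mul_of_nonneg_left _ (Nat.cast_nonneg _)
      have h5 : ∑ n ∈ W, Real.sqrt (G n) ^ 2 = ∑ n ∈ W, G n := sum_congr rfl fun n _ => Real.sq_sqrt (hG0 n)
      rw [h5]
      exact hN0 c hc1 hc2 N hN n0
    have h6 : (∑ n ∈ W, Real.sqrt (G n)) ^ 2 ≤ (N * ε) ^ 2 := by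
      refine h4.trans (le_of_eq ?_)
      ring
    exact le_of_sq_le_sq h6 (by positivity)
  have hoff' : ∑ l ∈ Icc 1 N, ∑ n ∈ W, B n (n + l) ≤ N * (N * ε) := by
    refine (sum_le_sum hoff).trans ?_
    rw [sum_const, nsmul_eq_mul, Nat.card_Icc]
    simp
  calc ∑ n ∈ W, B n n + 2 * ∑ l ∈ Icc 1 N, ∑ n ∈ W, B n (n + l) ≤ N + 2 * (N * (N * ε)) := by linarith
    _ = N * (1 + 2 * N * ε) := by ring

end

end Pool.Agent.Zk45.Avg
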