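import Mathlib
import Pool.Agent.Zk45.Lac

set_option autoImplicit false

/-! Random sparse configurations. -/

open Finset Filter Topology MeasureTheory ProbabilityTheory

namespace Pool.Agent.Zk45.Rand

open Pool.Agent.Zk45.W Pool.Agent.Zk45.R Pool.Agent.H429R2.Auto Pool.Agent.Zk45.Two Pool.Agent.Zk45.Far
  Pool.Agent.Zk45.LacN

/-- Abel summation -/
lemma abel (q : ℕ → ℝ) (hq : Antitone q) (B : ℕ → Prop) [DecidablePred B] (ε C : ℝ)
    (hB : ∀ T : ℕ, (((range T).filter B).card : ℝ) ≤ ε * T + C) (T : ℕ) (hq0 : ∀ t, 0 ≤ q t) :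
    ∑ t ∈ (range T).filter B, q t ≤ ε * ∑ t ∈ range T, q t + C * q 0 := by
  have key : ∀ T : ℕ, (ε * T + C - ((range T).filter B).card) * q T ≤
      ε * ∑ t ∈ range T, q t + C * q 0 - ∑ t ∈ (range T).filter B, q t := by
    intro T
    induction T with
    | zero => simp
    | succ T ih =>
      have h1 := hB (T + 1)
      have h2 : (((range (T + 1)).filter B).card : ℝ) = ((range T).filter B).card + (if B T then 1 else 0) := by
        rw [range_add_one, filter_insert]
        split_ifs with h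
        · rw [card_insert_of_notMem (by simp)]
          push_cast
          ring
        · simp
      have h3 : ∑ t ∈ (range (T + 1)).filter B, q t = ∑ t ∈ (range T).filter B, q t + (if B T then q T else 0) := by
        rw [range_add_one, filter_insert]
        split_ifs with h
        · rw [sum_insert (by simp)]
          ring
        · simp
      rw [sum_range_succ, h3]
      have h4 : (ε * ((T + 1 : ℕ) : ℝ) + C - ((range (T + 1)).filter B).card) * q (T + 1) ≤
          (ε * ((T + 1 : ℕ) : ℝ) + C - ((range (T + 1)).filter B).card) * q T :=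
        mul_le_mul_of_nonneg_left (hq (Nat.le_succ T)) (by linarith)
      rw [h2] at h4 ⊢
      push_cast at h4 ⊢
      split_ifs at h4 ⊢ <;> linarith
  have h1 := key T
  have h2 := hB T
  have h3 : 0 ≤ (ε * T + C - ((range T).filter B).card) * q T := mul_nonneg (by linarith) (hq0 T)
  linarith

lemma telescope (r : ℕ → ℝ) (T : ℕ) : ∑ t ∈ range T, r t * ∏ s ∈ range t, (1 - r s) =
    1 - ∏ s ∈ range T, (1 - r s) := by
  induction T with
  | zero => simp
  | succ T ih =>
    rw [sum_range_succ, ih, prod_range_succ]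
    ring

lemma prod_tendsto (r : ℕ → ℝ) (h0 : ∀ t, 0 ≤ r t) (h1 : ∀ t, r t ≤ 1) (hdiv : ¬ Summable r) :
    Tendsto (fun T => ∏ s ∈ range T, (1 - r s)) atTop (𝓝 0) := by
  have h2 := (not_summable_iff_tendsto_nat_atTop_of_nonneg h0).1 hdiv
  have h3 : Tendsto (fun T => Real.exp (-(∑ s ∈ range T, r s))) atTop (𝓝 0) :=
    Real.tendsto_exp_neg_atTop_nhds_zero.comp h2
  refine tendsto_of_tendsto_of_tendsto_of_le_of_le tendsto_const_nhds h3 (fun T => ?_) (fun T => ?_)
  · exact prod_nonneg fun s _ => by linarith [h1 s]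
  · rw [← sum_neg_distrib, Real.exp_sum]
    apply Finset.prod_le_prod
    · intro s _
      linarith [h1 s]
    · intro s _
      have := Real.add_one_le_exp (-(r s))
      linarith

section Prob

variable {Ω : Type} [MeasurableSpace Ω] (μ : Measure Ω) [IsProbabilityMeasure μ] (X : ℕ → Ω → Fin 6)

lemma box (hX : ∀ i, Measurable (X i)) (hind : iIndepFun X μ) (n : ℕ) (S : ℕ → Set (Fin 6)) :
    μ.real {ω | ∀ i < n, X i ω ∈ S i} = ∏ i ∈ range n, μ.real {ω | X i ω ∈ S i} := by
  have h := hind.measure_inter_preimage_eq_mul (range n) (sets := S) (fun i _ => .of_discrete)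
  have h1 : {ω | ∀ i < n, X i ω ∈ S i} = ⋂ i ∈ range n, X i ⁻¹' S i := by
    ext ω
    simp
  rw [measureReal_def, h1, h, ENNReal.toReal_prod]
  rfl

/-- the digits of the event `D` -/
def Sd (u : ℕ → Fin 6) (n t i : ℕ) : Set (Fin 6) :=
  if i < n then {u i} else if i = n + t then {0}ᶜ else {0}

def D (u : ℕ → Fin 6) (n t K' : ℕ) : Set Ω := {ω | ∀ i < n + (t + (1 + K')), X i ω ∈ Sd u n t i}

lemma D_meas (hX : ∀ i, Measurable (X i)) (u : ℕ → Fin 6) (n t K' : ℕ) : MeasurableSet (D X u n t K') := by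
  have : D X u n t K' = ⋂ i ∈ range (n + (t + (1 + K'))), X i ⁻¹' (Sd u n t i) := by
    ext ω
    simp [D]
  rw [this]
  exact Finset.measurableSet_biInter _ fun i _ => hX i .of_discrete

lemma D_prob (hX : ∀ i, Measurable (X i)) (hind : iIndepFun X μ) (u : ℕ → Fin 6) (n t K' : ℕ) :
    μ.real (D X u n t K') = μ.real {ω | ∀ i < n, X i ω ∈ ({u i} : Set (Fin 6))} *
      ((μ.real {ω | X (n + t) ω ≠ 0} * ∏ s ∈ range t, (1 - μ.real {ω | X (n + s) ω ≠ 0})) *
        ∏ s ∈ range K', (1 - μ.real {ω | X (n + t + 1 + s) ω ≠ 0})) := by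
  have hc : ∀ i, μ.real {ω | X i ω ∈ ({0} : Set (Fin 6))} = 1 - μ.real {ω | X i ω ≠ 0} := by
    intro i
    have hm : MeasurableSet {ω | X i ω ≠ 0} := by
      have : {ω | X i ω ≠ 0} = X i ⁻¹' ({0}ᶜ) := rfl
      rw [this]
      exact hX i .of_discrete
    have h1 := probReal_compl_eq_one_sub (μ := μ) hm
    rw [← h1]
    congr 1
    ext ω
    simp
  unfold D
  rw [box μ X hX hind, box μ X hX hind, prod_range_add, prod_range_add, prod_range_add]
  have e1 : ∀ i ∈ range n, μ.real {ω | X i ω ∈ Sd u n t i} = μ.real {ω | X i ω ∈ ({u i} : Set (Fin 6))} := by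
    intro i hi
    unfold Sd
    rw [if_pos (mem_range.1 hi)]
  have e2 : ∀ s ∈ range t, μ.real {ω | X (n + s) ω ∈ Sd u n t (n + s)} = 1 - μ.real {ω | X (n + s) ω ≠ 0} := by
    intro s hs
    rw [mem_range] at hs
    unfold Sd
    rw [if_neg (by omega), if_neg (by omega)]
    exact hc _
  have e3 : ∏ s ∈ range 1, μ.real {ω | X (n + (t + s)) ω ∈ Sd u n t (n + (t + s))} = μ.real {ω | X (n + t) ω ≠ 0} := by
    rw [prod_range_one]
    unfold Sd
    rw [if_neg (by omega), if_pos (by omega)]
    rfl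
  have e4 : ∀ s ∈ range K', μ.real {ω | X (n + (t + (1 + s))) ω ∈ Sd u n t (n + (t + (1 + s)))} =
      1 - μ.real {ω | X (n + t + 1 + s) ω ≠ 0} := by
    intro s _
    unfold Sd
    rw [if_neg (by omega), if_neg (by omega), hc]
    simp only [← add_assoc]
  rw [prod_congr rfl e1, prod_congr rfl e2, e3, prod_congr rfl e4]
  ring

lemma D_disj (u : ℕ → Fin 6) (n K' : ℕ) {t t' : ℕ} (h : t < t') : Disjoint (D X u n t K') (D X u n t' K') := by
  rw [Set.disjoint_left]
  intro ω h1 h2
  have h3 := h1 (n + t) (by omega)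
  have h4 := h2 (n + t) (by omega)
  unfold Sd at h3 h4
  rw [if_neg (by omega), if_pos rfl] at h3
  rw [if_neg (by omega), if_neg (by omega)] at h4
  exact h3 h4

lemma V_D (u : ℕ → Fin 6) (n t K' : ℕ) (ω : Ω) (hω : ω ∈ D X u n t K') :
    V (fun i => X i ω) (n + t) = V u n := by
  rw [V_zero (fun i => X i ω) n t]
  · apply V_congr
    intro i hi
    have := hω i (by omega)
    unfold Sd at this
    rw [if_pos hi] at this
    exact this
  · intro i h1 h2
    have := hω i (by omega)
    unfold Sd at this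
    rw [if_neg (by omega), if_neg (by omega)] at this
    exact this

/-- the event that the word is shown -/
def Hit (L : ℕ) (j : ℤ) (w : Fin L → Fin 6) : Set (ℕ → Fin 6) := {a | ∃ n : ℕ, Sh (F^[n] (conf a)) w j}

lemma one_sub_prod (r : ℕ → ℝ) (b : ℝ) (h0 : ∀ s, 0 ≤ r s) (h1 : ∀ s, r s ≤ b) (hb : b ≤ 1) (K : ℕ) :
    1 - K * b ≤ ∏ s ∈ range K, (1 - r s) := by
  induction K with
  | zero => simp
  | succ K ih =>
    rw [prod_range_succ]
    have hp0 : 0 ≤ ∏ s ∈ range K, (1 - r s) := prod_nonneg fun s _ => by linarith [h1 s]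
    have hp1 : ∏ s ∈ range K, (1 - r s) ≤ 1 := prod_le_one (fun s _ => by linarith [h1 s]) (fun s _ => by linarith [h0 s])
    have hb0 : 0 ≤ b := (h0 0).trans (h1 0)
    push_cast
    nlinarith [h1 K, h0 K, mul_nonneg hp0 (h0 K), mul_le_mul_of_nonneg_right hp1 (h0 K)]

/-- given the first digits, the word is shown with probability at least `1/3` -/
lemma third (hX : ∀ i, Measurable (X i)) (hind : iIndepFun X μ) (hanti : Antitone fun i => μ.real {ω | X i ω ≠ 0})
    (hlim : Tendsto (fun i => μ.real {ω | X i ω ≠ 0}) atTop (𝓝 0))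
    (hdiv : ¬ Summable fun i => μ.real {ω | X i ω ≠ 0}) (L : ℕ) (j : ℤ) (w : Fin L → Fin 6) :
    ∃ n0 : ℕ, ∀ n : ℕ, n0 ≤ n → ∀ u : ℕ → Fin 6,
      (1 / 3) * μ.real {ω | ∀ i < n, X i ω ∈ ({u i} : Set (Fin 6))} ≤
        μ.real ({ω | ∀ i < n, X i ω ∈ ({u i} : Set (Fin 6))} ∩ {ω | (fun i => X i ω) ∈ Hit L j w}) := by
  classical
  set p : ℕ → ℝ := fun i => μ.real {ω | X i ω ≠ 0} with hp
  have hp0 : ∀ i, 0 ≤ p i := fun i => measureReal_nonneg
  have hp1 : ∀ i, p i ≤ 1 := fun i => measureReal_le_one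
  set J : ℕ := j.natAbs with hJ
  -- the constants
  have hfar : ∀ c : Fin 6, ∃ K0 : ℕ, c ≠ 0 → ∀ K : ℕ, K0 ≤ K → ∃ P0 : ℕ,
    ∀ α : ℝ, 0 ≤ α → ∀ A P : ℕ, P0 ≤ P → ∀ K' : ℕ, K + L + J ≤ K' →
      (({q : ℕ | A < q ∧ q ≤ A + P ∧ ¬ Good L J K K' α (c : ℕ) q}.ncard : ℕ) : ℝ) ≤ (1 / 36) * P := by
    intro c
    by_cases hc : c = 0
    · exact ⟨0, fun h => absurd hc h⟩
    · have hc0 : 0 < ((c : ℕ) : ℝ) := by
        have : 0 < (c : ℕ) := by
          rcases Nat.eq_zero_or_pos (c : ℕ) with h | h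
          · exact absurd (Fin.ext h) hc
          · exact h
        exact_mod_cast this
      obtain ⟨K0, h⟩ := far (c : ℕ) hc0 L J (1 / 36) (by norm_num)
      exact ⟨K0, fun _ => h⟩
  choose K0 hK0 using hfar
  set K : ℕ := ∑ c : Fin 6, K0 c with hK
  have hKle : ∀ c, K0 c ≤ K := fun c => single_le_sum (f := K0) (fun _ _ => Nat.zero_le _) (mem_univ c)
  have hP : ∀ c : Fin 6, ∃ P0 : ℕ, c ≠ 0 → ∀ α : ℝ, 0 ≤ α → ∀ A P : ℕ, P0 ≤ P → ∀ K' : ℕ, K + L + J ≤ K' →
      (({q : ℕ | A < q ∧ q ≤ A + P ∧ ¬ Good L J K K' α (c : ℕ) q}.ncard : ℕ) : ℝ) ≤ (1 / 36) * P := by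
    intro c
    by_cases hc : c = 0
    · exact ⟨0, fun h => absurd hc h⟩
    · obtain ⟨P0, h⟩ := hK0 c hc K (hKle c)
      exact ⟨P0, fun _ => h⟩
  choose P0 hP0 using hP
  set P1 : ℕ := ∑ c : Fin 6, P0 c with hP1
  have hPle : ∀ c, P0 c ≤ P1 := fun c => single_le_sum (f := P0) (fun _ _ => Nat.zero_le _) (mem_univ c)
  set K' : ℕ := K + L + J with hK'
  -- `p n` is small
  obtain ⟨n1, hn1⟩ : ∃ n1 : ℕ, ∀ n, n1 ≤ n → p n ≤ 1 / (6 * ((P1 : ℝ) + K' + 1)) := by
    have h1 : (0 : ℝ) < 1 / (6 * ((P1 : ℝ) + K' + 1)) := by positivity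
    have h2 := hlim.eventually (gt_mem_nhds h1)
    obtain ⟨n1, h⟩ := eventually_atTop.1 h2
    exact ⟨n1, fun n hn => (h n hn).le⟩
  refine ⟨n1 + 1, fun n hn u => ?_⟩
  have hpn := hn1 n (by omega)
  rw [le_div_iff₀ (by positivity)] at hpn
  have hpnP : (P1 : ℝ) * p n ≤ 1 / 6 := by
    nlinarith [hp0 n, mul_nonneg (hp0 n) (Nat.cast_nonneg (α := ℝ) K')]
  have hpnK : (K' : ℝ) * p n ≤ 1 / 6 := by
    nlinarith [hp0 n, mul_nonneg (hp0 n) (Nat.cast_nonneg (α := ℝ) P1)]
  set α : ℝ := V u n with hα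
  have hα0 : 0 ≤ α := V_nonneg u n
  -- good times
  set G : ℕ → Prop := fun t => ∀ c : Fin 6, c ≠ 0 → Good L J K K' α (c : ℕ) (n + t) with hG
  have hcount : ∀ T : ℕ, (((range T).filter (fun t => ¬ G t)).card : ℝ) ≤ (1 / 6) * T + P1 := by
    intro T
    rcases Nat.lt_or_ge T P1 with hT | hT
    · have h1 : ((range T).filter (fun t => ¬ G t)).card ≤ T := by
        refine (card_filter_le _ _).trans ?_
        rw [card_range]
      have h2 : (((range T).filter (fun t => ¬ G t)).card : ℝ) ≤ T := by exact_mod_cast h1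
      have h3 : (T : ℝ) ≤ P1 := by exact_mod_cast hT.le
      have h4 : (0 : ℝ) ≤ T := Nat.cast_nonneg _
      linarith
    · set bad : Fin 6 → Finset ℕ := fun c => (range T).filter (fun t => c ≠ 0 ∧ ¬ Good L J K K' α (c : ℕ) (n + t)) with hbad
      have h1 : (range T).filter (fun t => ¬ G t) ⊆ (univ : Finset (Fin 6)).biUnion bad := by
        intro t ht
        rw [mem_filter] at ht
        have ht2 := ht.2
        rw [hG] at ht2
        push Not at ht2
        obtain ⟨c, hc, hc2⟩ := ht2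
        rw [mem_biUnion]
        exact ⟨c, mem_univ c, by rw [hbad, mem_filter]; exact ⟨ht.1, hc, hc2⟩⟩
      have h2 : ∀ c : Fin 6, ((bad c).card : ℝ) ≤ (1 / 36) * T := by
        intro c
        by_cases hc : c = 0
        · have : bad c = ∅ := by
            rw [hbad]
            apply filter_eq_empty_iff.2
            intro t _ h
            exact h.1 hc
          rw [this]
          simp
        · have h3 := hP0 c hc α hα0 (n - 1) T ((hPle c).trans hT) K' le_rfl
          refine le_trans ?_ h3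
          have h4 : ((bad c).image (fun t => n + t) : Finset ℕ).card = (bad c).card := by
            apply card_image_of_injective
            intro a b hab
            simp only at hab
            omega
          rw [← h4]
          have hfin : ({q : ℕ | n - 1 < q ∧ q ≤ n - 1 + T ∧ ¬ Good L J K K' α (c : ℕ) q}).Finite :=
            (Set.finite_Iic (n - 1 + T)).subset (fun q hq => hq.2.1)
          have h5 : (((bad c).image (fun t => n + t) : Finset ℕ) : Set ℕ) ⊆
              {q : ℕ | n - 1 < q ∧ q ≤ n - 1 + T ∧ ¬ Good L J K K' α (c : ℕ) q} := by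
            intro q hq
            rw [mem_coe, mem_image] at hq
            obtain ⟨t, ht, rfl⟩ := hq
            rw [hbad, mem_filter, mem_range] at ht
            exact ⟨by omega, by omega, ht.2.2⟩
          have h6 := Set.ncard_le_ncard h5 hfin
          rw [Set.ncard_coe_finset] at h6
          exact_mod_cast h6
      have h3 : (((range T).filter (fun t => ¬ G t)).card : ℝ) ≤ ∑ c : Fin 6, ((bad c).card : ℝ) := by
        have h4 := (card_le_card h1).trans card_biUnion_le
        exact_mod_cast h4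
      have h5 : ∑ c : Fin 6, ((bad c).card : ℝ) ≤ ∑ c : Fin 6, (1 / 36) * (T : ℝ) := sum_le_sum fun c _ => h2 c
      rw [sum_const, card_univ, Fintype.card_fin, nsmul_eq_mul] at h5
      have h6 : (0 : ℝ) ≤ P1 := Nat.cast_nonneg _
      push_cast at h5
      linarith
  -- the distribution of the next digit
  set r : ℕ → ℝ := fun s => p (n + s) with hr
  set q : ℕ → ℝ := fun t => r t * ∏ s ∈ range t, (1 - r s) with hq
  have hr0 : ∀ s, 0 ≤ r s := fun s => hp0 _
  have hr1 : ∀ s, r s ≤ 1 := fun s => hp1 _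
  have hpr0 : ∀ t, 0 ≤ ∏ s ∈ range t, (1 - r s) := fun t => prod_nonneg fun s _ => by linarith [hr1 s]
  have hq0 : ∀ t, 0 ≤ q t := fun t => mul_nonneg (hr0 t) (hpr0 t)
  have hqanti : Antitone q := by
    apply antitone_nat_of_succ_le
    intro t
    rw [hq]
    simp only
    rw [prod_range_succ]
    have h1 : r (t + 1) ≤ r t := hanti (by omega)
    have h2 : (∏ s ∈ range t, (1 - r s)) * (1 - r t) ≤ ∏ s ∈ range t, (1 - r s) :=
      mul_le_of_le_one_right (hpr0 t) (by linarith [hr0 t])
    exact mul_le_mul h1 h2 (mul_nonneg (hpr0 t) (by linarith [hr1 t])) (hr0 t)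
  have hrdiv : ¬ Summable r := by
    intro h
    apply hdiv
    have := (summable_nat_add_iff (f := p) n).1 (by
      refine h.congr fun s => ?_
      rw [hr]
      simp only
      rw [add_comm])
    exact this
  obtain ⟨T, hT⟩ : ∃ T : ℕ, ∏ s ∈ range T, (1 - r s) ≤ 1 / 6 := by
    have h1 := (prod_tendsto r hr0 hr1 hrdiv).eventually (gt_mem_nhds (show (0 : ℝ) < 1 / 6 by norm_num))
    obtain ⟨T, h⟩ := h1.exists
    exact ⟨T, h.le⟩
  have hsumq : ∑ t ∈ range T, q t = 1 - ∏ s ∈ range T, (1 - r s) := telescope r T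
  have hbadq := abel q hqanti (fun t => ¬ G t) (1 / 6) P1 hcount T hq0
  have hq00 : q 0 = p n := by simp [hq, hr]
  have hgoodq : 1 / 2 ≤ ∑ t ∈ (range T).filter G, q t := by
    have h1 := sum_filter_add_sum_filter_not (range T) G q
    rw [hq00] at hbadq
    have h2 := hpr0 T
    nlinarith
  -- the probability
  set E : Set Ω := {ω | ∀ i < n, X i ω ∈ ({u i} : Set (Fin 6))} with hE
  have hsub : (⋃ t ∈ (range T).filter G, D X u n t K') ⊆ E ∩ {ω | (fun i => X i ω) ∈ Hit L j w} := by
    intro ω hω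
    simp only [Set.mem_iUnion] at hω
    obtain ⟨t, ht, hωt⟩ := hω
    rw [mem_filter] at ht
    refine ⟨?_, ?_⟩
    · intro i hi
      have := hωt i (by omega)
      unfold Sd at this
      rw [if_pos hi] at this
      exact this
    · have hV := V_D X u n t K' ω hωt
      have hne : X (n + t) ω ≠ 0 := by
        have := hωt (n + t) (by omega)
        unfold Sd at this
        rw [if_neg (by omega), if_pos rfl] at this
        exact this
      have hgood := ht.2 (X (n + t) ω) hne
      refine hit_seq L J K K' (fun i => X i ω) (n + t) ?_ ?_ j ?_ w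
      · rw [hV]
        exact hgood
      · intro i h1 h2
        have := hωt i (by omega)
        unfold Sd at this
        rw [if_neg (by omega), if_neg (by omega)] at this
        exact this
      · rw [hJ, Int.abs_eq_natAbs]
  have hDp : ∀ t, (5 / 6) * (μ.real E * q t) ≤ μ.real (D X u n t K') := by
    intro t
    rw [D_prob μ X hX hind]
    have h1 := one_sub_prod (fun s => p (n + t + 1 + s)) (p n) (fun s => hp0 _) (fun s => hanti (by omega)) (hp1 n) K'
    have h2 : (5 : ℝ) / 6 ≤ ∏ s ∈ range K', (1 - p (n + t + 1 + s)) := by linarith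
    have h3 : 0 ≤ μ.real E * q t := mul_nonneg measureReal_nonneg (hq0 t)
    calc (5 / 6) * (μ.real E * q t) ≤ (∏ s ∈ range K', (1 - p (n + t + 1 + s))) * (μ.real E * q t) :=
          mul_le_mul_of_nonneg_right h2 h3
      _ = _ := by
          rw [hq, hE, hr, hp]
          ring
  have hmeas : μ.real (⋃ t ∈ (range T).filter G, D X u n t K') = ∑ t ∈ (range T).filter G, μ.real (D X u n t K') := by
    apply measureReal_biUnion_finset
    · intro t _ t' _ htt
      rcases lt_or_gt_of_ne htt with h | h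
      · exact D_disj X u n K' h
      · exact (D_disj X u n K' h).symm
    · intro t _
      exact D_meas X hX u n t K'
    · intro t _
      exact measure_ne_top _ _
  calc (1 / 3) * μ.real E ≤ (5 / 6) * (μ.real E * (1 / 2)) := by
        have : 0 ≤ μ.real E := measureReal_nonneg
        linarith
    _ ≤ (5 / 6) * (μ.real E * ∑ t ∈ (range T).filter G, q t) := by
        apply mul_le_mul_of_nonneg_left _ (by norm_num)
        exact mul_le_mul_of_nonneg_left hgoodq measureReal_nonneg
    _ = ∑ t ∈ (range T).filter G, (5 / 6) * (μ.real E * q t) := by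
        rw [mul_sum, mul_sum]
    _ ≤ ∑ t ∈ (range T).filter G, μ.real (D X u n t K') := sum_le_sum fun t _ => hDp t
    _ = μ.real (⋃ t ∈ (range T).filter G, D X u n t K') := hmeas.symm
    _ ≤ _ := measureReal_mono hsub

lemma hit_meas (L : ℕ) (j : ℤ) (w : Fin L → Fin 6) : MeasurableSet (Hit L j w) := (open_shows L j w).measurableSet

/-- the word is shown almost surely -/
lemma as_hit (hX : ∀ i, Measurable (X i)) (hind : iIndepFun X μ) (hanti : Antitone fun i => μ.real {ω | X i ω ≠ 0})
    (hlim : Tendsto (fun i => μ.real {ω | X i ω ≠ 0}) atTop (𝓝 0))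
    (hdiv : ¬ Summable fun i => μ.real {ω | X i ω ≠ 0}) (L : ℕ) (j : ℤ) (w : Fin L → Fin 6) :
    ∀ᵐ ω ∂μ, (fun i => X i ω) ∈ Hit L j w := by
  classical
  obtain ⟨n0, hn0⟩ := third μ X hX hind hanti hlim hdiv L j w
  set Xv : Ω → (ℕ → Fin 6) := fun ω i => X i ω with hXv
  have hXvm : Measurable Xv := measurable_pi_iff.2 hX
  set ν : Measure (ℕ → Fin 6) := μ.map Xv with hν
  have : IsProbabilityMeasure ν := Measure.isProbabilityMeasure_map hXvm.aemeasurable
  have hνr : ∀ S : Set (ℕ → Fin 6), MeasurableSet S → ν.real S = μ.real (Xv ⁻¹' S) := by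
    intro S hS
    rw [measureReal_def, measureReal_def, hν, Measure.map_apply hXvm hS]
  set H := Hit L j w with hH
  have hHm : MeasurableSet H := hit_meas L j w
  -- the bound for atoms
  have hatom : ∀ n, n0 ≤ n → ∀ u : ℕ → Fin 6, (1 / 3) * ν.real {a | ∀ i < n, a i = u i} ≤
      ν.real ({a | ∀ i < n, a i = u i} ∩ H) := by
    intro n hn u
    have h1 := hn0 n hn u
    have hm : MeasurableSet {a : ℕ → Fin 6 | ∀ i < n, a i = u i} := by
      have : {a : ℕ → Fin 6 | ∀ i < n, a i = u i} = ⋂ i ∈ range n, (fun a => a i) ⁻¹' {u i} := by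
        ext a
        simp
      rw [this]
      exact Finset.measurableSet_biInter _ fun i _ => measurable_pi_apply i .of_discrete
    rw [hνr _ hm, hνr _ (hm.inter hHm)]
    exact h1
  have hatomm : ∀ (n : ℕ) (u : ℕ → Fin 6), MeasurableSet {a : ℕ → Fin 6 | ∀ i < n, a i = u i} := by
    intro n u
    have : {a : ℕ → Fin 6 | ∀ i < n, a i = u i} = ⋂ i ∈ range n, (fun a => a i) ⁻¹' {u i} := by
      ext a
      simp
    rw [this]
    exact Finset.measurableSet_biInter _ fun i _ => measurable_pi_apply i .of_discrete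
  -- the bound for cylinders
  have hcyl : ∀ t ∈ measurableCylinders (fun _ : ℕ => Fin 6), (1 / 3) * ν.real t ≤ ν.real (t ∩ H) := by
    intro t ht
    rw [mem_measurableCylinders] at ht
    obtain ⟨s, S, hS, rfl⟩ := ht
    obtain ⟨n, hn, hsn⟩ : ∃ n, n0 ≤ n ∧ ∀ i ∈ s, i < n :=
      ⟨n0 + (∑ i ∈ s, i) + 1, by omega, fun i hi => by
        have := single_le_sum (f := fun i : ℕ => i) (fun _ _ => Nat.zero_le _) hi
        omega⟩
    set t : Set (ℕ → Fin 6) := cylinder (α := fun _ : ℕ => Fin 6) s S with ht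
    set ex : (Fin n → Fin 6) → (ℕ → Fin 6) := fun u i => if h : i < n then u ⟨i, h⟩ else 0 with hex
    set U : Finset (Fin n → Fin 6) := univ.filter (fun u => ex u ∈ t) with hU
    have hagree : ∀ a b : ℕ → Fin 6, (∀ i < n, a i = b i) → (a ∈ t ↔ b ∈ t) := by
      intro a b hab
      rw [ht, mem_cylinder, mem_cylinder]
      have : s.restrict a = s.restrict b := by
        funext i
        exact hab i (hsn i i.2)
      rw [this]
    have ht' : t = ⋃ u ∈ U, {a : ℕ → Fin 6 | ∀ i < n, a i = ex u i} := by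
      ext a
      simp only [Set.mem_iUnion, Set.mem_ofPred_eq, exists_prop]
      constructor
      · intro ha
        refine ⟨fun i => a i, ?_, ?_⟩
        · rw [hU, mem_filter]
          refine ⟨mem_univ _, (hagree a _ fun i hi => ?_).1 ha⟩
          rw [hex]
          simp [hi]
        · intro i hi
          rw [hex]
          simp [hi]
      · rintro ⟨u, hu, h⟩
        rw [hU, mem_filter] at hu
        exact (hagree a (ex u) h).2 hu.2
    have hdis : ((U : Finset (Fin n → Fin 6)) : Set (Fin n → Fin 6)).PairwiseDisjoint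
        (fun u => {a : ℕ → Fin 6 | ∀ i < n, a i = ex u i}) := by
      intro u _ v _ huv
      rw [Function.onFun, Set.disjoint_left]
      intro a h1 h2
      apply huv
      funext i
      have h3 := h1 i i.2
      have h4 := h2 i i.2
      rw [h3] at h4
      rw [hex] at h4
      simpa using h4
    have e1 : ν.real t = ∑ u ∈ U, ν.real {a : ℕ → Fin 6 | ∀ i < n, a i = ex u i} := by
      conv_lhs => rw [ht']
      exact measureReal_biUnion_finset hdis fun u _ => hatomm n _
    have e2 : ν.real (t ∩ H) = ∑ u ∈ U, ν.real ({a : ℕ → Fin 6 | ∀ i < n, a i = ex u i} ∩ H) := by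
      conv_lhs => rw [ht', Set.iUnion₂_inter]
      refine measureReal_biUnion_finset ?_ fun u _ => (hatomm n _).inter hHm
      intro u hu v hv huv
      exact (hdis hu hv huv).mono Set.inter_subset_left Set.inter_subset_left
    rw [e1, e2, mul_sum]
    exact sum_le_sum fun u _ => hatom n hn (ex u)
  -- approximation
  have hdense : ν.MeasureDense (measurableCylinders (fun _ : ℕ => Fin 6)) :=
    Measure.MeasureDense.of_generateFrom_isSetAlgebra_finite ν isSetAlgebra_measurableCylinders
      generateFrom_measurableCylinders.symm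
  have hzero : ν.real Hᶜ = 0 := by
    by_contra hne
    have hpos : 0 < ν.real Hᶜ := lt_of_le_of_ne measureReal_nonneg (Ne.symm hne)
    obtain ⟨t, ht, hlt⟩ := hdense.approx Hᶜ hHm.compl (measure_ne_top _ _) (ν.real Hᶜ / 5) (by linarith)
    have hlt' : ν.real (symmDiff Hᶜ t) < ν.real Hᶜ / 5 := by
      rw [measureReal_def]
      have := ENNReal.toReal_lt_of_lt_ofReal hlt
      exact this
    have h1 := hcyl t ht
    have h2 : ν.real (t ∩ H) ≤ ν.real (symmDiff Hᶜ t) := by
      apply measureReal_mono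
      · rintro a ⟨h3, h4⟩
        right
        exact ⟨h3, fun h5 => h5 h4⟩
      · exact measure_ne_top _ _
    have h3 : ν.real Hᶜ ≤ ν.real t + ν.real (symmDiff Hᶜ t) := by
      refine (measureReal_mono ?_).trans (measureReal_union_le _ _)
      intro a ha
      by_cases hat : a ∈ t
      · exact Or.inl hat
      · exact Or.inr (Or.inl ⟨ha, hat⟩)
    linarith
  have h1 : μ.real (Xv ⁻¹' Hᶜ) = 0 := by
    rw [← hνr _ hHm.compl]
    exact hzero
  rw [measureReal_eq_zero_iff] at h1
  exact h1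

theorem main (hX : ∀ i, Measurable (X i)) (hind : iIndepFun X μ) (hanti : Antitone fun i => μ.real {ω | X i ω ≠ 0})
    (hlim : Tendsto (fun i => μ.real {ω | X i ω ≠ 0}) atTop (𝓝 0))
    (hdiv : ¬ Summable fun i => μ.real {ω | X i ω ≠ 0}) :
    ∀ᵐ ω ∂μ, Dense (orbit (conf (fun i => X i ω))) := by
  have h : ∀ᵐ ω ∂μ, ∀ j : ℤ, ∀ L : ℕ, ∀ w : Fin L → Fin 6, (fun i => X i ω) ∈ Hit L j w := by
    rw [ae_all_iff]
    intro j
    rw [ae_all_iff]
    intro L
    rw [ae_all_iff]
    intro w
    exact as_hit μ X hX hind hanti hlim hdiv L j w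
  filter_upwards [h] with ω hω
  exact dense_of_shows _ hω

end Prob

end Pool.Agent.Zk45.Rand
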