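import Mathlib
import Pool.Agent.Zk45.Avg
import Pool.Agent.Zk45.Rand

set_option autoImplicit false

/-! Almost sure equidistribution for independent digits. -/

open Finset Filter Topology MeasureTheory ProbabilityTheory

namespace Pool.Agent.Zk45.Avg

open Pool.Agent.Zk45.W Pool.Agent.Zk45.R Pool.Agent.Zk45.Far Pool.Agent.Zk45.LacN Pool.Agent.Zk45.Two
  Pool.Agent.H429R2.Auto

/-- the beginning of the `k`-th window -/
noncomputable def nk (M k : ℕ) : ℕ := ⌈((k * M : ℕ) : ℝ) / th⌉₊

lemma nk_le_iff (M k n : ℕ) : nk M k ≤ n ↔ ((k * M : ℕ) : ℤ) ≤ fl n := by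
  unfold nk fl
  rw [Nat.ceil_le, div_le_iff₀ th_pos, Int.le_floor]
  push_cast
  rfl

lemma nk_mono (M : ℕ) {k k' : ℕ} (h : k ≤ k') : nk M k ≤ nk M k' := by
  unfold nk
  apply Nat.ceil_le_ceil
  apply div_le_div_of_nonneg_right _ th_pos.le
  exact_mod_cast Nat.mul_le_mul_right M h

lemma M_th (M : ℕ) : (4 * M : ℝ) ≤ M / th ∧ (M : ℝ) / th ≤ 5 * M := by
  have h1 := th_lo
  have h2 := th_hi
  have h3 := th_pos
  have h4 : (0 : ℝ) ≤ M := Nat.cast_nonneg _
  constructor
  · rw [le_div_iff₀ h3]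
    nlinarith
  · rw [div_le_iff₀ h3]
    nlinarith

lemma nk_step (M k : ℕ) : nk M k + 4 * M ≤ nk M (k + 1) ∧ nk M (k + 1) ≤ nk M k + 5 * M := by
  obtain ⟨h1, h2⟩ := M_th M
  have h3 : (((k + 1) * M : ℕ) : ℝ) / th = ((k * M : ℕ) : ℝ) / th + M / th := by
    push_cast
    ring
  have h0 : (0 : ℝ) ≤ ((k * M : ℕ) : ℝ) / th := by have := th_pos; positivity
  unfold nk
  rw [h3]
  constructor
  · rw [← Nat.ceil_add_natCast h0]
    apply Nat.ceil_le_ceil
    push_cast
    linarith
  · rw [← Nat.ceil_add_natCast h0]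
    apply Nat.ceil_le_ceil
    push_cast
    linarith

lemma nk_ge (M k : ℕ) : 4 * (k * M) ≤ nk M k := by
  have h := (M_th (k * M)).1
  unfold nk
  have h1 : (((4 * (k * M)) : ℕ) : ℝ) ≤ ⌈((k * M : ℕ) : ℝ) / th⌉₊ := by
    refine le_trans ?_ (Nat.le_ceil _)
    push_cast at h ⊢
    exact h
  exact_mod_cast h1

/-- the exponential sum over the `k`-th window, with finitely many digits -/
noncomputable def Sk (Γ : ℝ) (M b k : ℕ) (a : Sq) : ℂ :=
  ∑ n ∈ Ico (nk M k) (nk M (k + 1)), e (Γ * (3 / 2) ^ n * V a (k * M - b + 2 * M))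

/-- its normalised square -/
noncomputable def Zk (Γ : ℝ) (M b k : ℕ) (a : Sq) : ℝ :=
  ((nk M (k + 1) - nk M k : ℕ) : ℝ)⁻¹ ^ 2 * ‖Sk Γ M b k a‖ ^ 2

lemma Zk_nonneg (Γ : ℝ) (M b k : ℕ) (a : Sq) : 0 ≤ Zk Γ M b k a := by
  unfold Zk
  positivity

lemma Sk_le (Γ : ℝ) (M b k : ℕ) (a : Sq) : ‖Sk Γ M b k a‖ ≤ ((nk M (k + 1) - nk M k : ℕ) : ℝ) := by
  unfold Sk
  refine (norm_sum_le _ _).trans ?_
  simp [norm_e]

lemma Zk_le_one (Γ : ℝ) (M b k : ℕ) (hM : 0 < M) (a : Sq) : Zk Γ M b k a ≤ 1 := by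
  unfold Zk
  have h1 := nk_step M k
  have h2 : (0 : ℝ) < ((nk M (k + 1) - nk M k : ℕ) : ℝ) := by
    have : 0 < nk M (k + 1) - nk M k := by omega
    exact_mod_cast this
  have h3 := Sk_le Γ M b k a
  rw [← mul_pow]
  apply pow_le_one₀ (by positivity)
  rw [inv_mul_le_iff₀ h2, mul_one]
  exact h3

lemma Zk_indep (Γ : ℝ) (M b k D l : ℕ) (hD : k * M - b + 2 * M ≤ D) : Indep (fun a => Zk Γ M b k a) D l := by
  intro a i hi _ d
  have : V (Function.update a i d) (k * M - b + 2 * M) = V a (k * M - b + 2 * M) := by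
    apply V_congr
    intro j hj
    rw [Function.update_of_ne (by omega)]
  simp only [Zk, Sk]
  rw [this]

/-- parameters for which all windows are mixing -/
def Par (Γ ρ ε : ℝ) (b M : ℕ) : Prop := b ≤ M ∧ 0 < M ∧ ∀ r : ℕ → Fin 6 → ℝ, Laws r → (∀ i d, r i d ≤ 1 - ρ) →
  ∀ k : ℕ, 1 ≤ k → ∀ a : Sq, avI r (k * M - b) (2 * M) (Zk Γ M b k) a ≤ 3 * ε

lemma exists_par (Γ : ℝ) (hΓ : Γ ≠ 0) (ρ : ℝ) (hρ0 : 0 < ρ) (hρ1 : ρ ≤ 1) (ε : ℝ) (hε : 0 < ε) :
    ∃ b M0 : ℕ, ∀ M : ℕ, M0 ≤ M → Par Γ ρ ε b M := by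
  obtain ⟨b, N0, h⟩ := win_moment Γ hΓ ρ hρ0 hρ1 ε hε
  obtain ⟨M1, hM1⟩ := exists_nat_ge (1 / ε)
  refine ⟨b, b + N0 + M1 + 1, fun M hM => ⟨by omega, by omega, fun r hr hρr k hk a => ?_⟩⟩
  have hst := nk_step M k
  set N : ℕ := nk M (k + 1) - nk M k with hN
  have hkM : b ≤ k * M := by
    have : M ≤ k * M := Nat.le_mul_of_pos_left M (by omega)
    omega
  have hNeq : nk M k + N = nk M (k + 1) := by omega
  have h1 := h r hr hρr N (by omega) (nk M k) (k * M - b) (2 * M) (by
    intro n hn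
    rw [mem_Ico, hNeq] at hn
    have h2 := (nk_le_iff M k n).1 hn.1
    have h3 : ¬ (((k + 1) * M : ℕ) : ℤ) ≤ fl n := fun hh => absurd ((nk_le_iff M (k + 1) n).2 hh) (by omega)
    rw [not_le] at h3
    have h4 : (k + 1) * M = k * M + M := by ring
    rw [h4] at h3
    constructor
    · rw [show k * M - b + b = k * M by omega]
      exact h2
    · refine lt_of_lt_of_le h3 ?_
      exact_mod_cast (by omega : k * M + M ≤ k * M - b + 2 * M)) a
  rw [hNeq] at h1
  have h5 : Zk Γ M b k = fun a => (LinearMap.mulLeft ℝ ((N : ℝ)⁻¹ ^ 2)) (‖∑ n ∈ Ico (nk M k) (nk M (k + 1)),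
      e (Γ * (3 / 2) ^ n * V a (k * M - b + 2 * M))‖ ^ 2) := by
    funext a
    rfl
  rw [h5, avI_lin]
  show (N : ℝ)⁻¹ ^ 2 * _ ≤ 3 * ε
  have hN1 : (1 : ℝ) / ε ≤ N := by
    refine hM1.trans ?_
    have : M1 ≤ N := by omega
    exact_mod_cast this
  have hNpos : (0 : ℝ) < N := lt_of_lt_of_le (by positivity) hN1
  rw [div_le_iff₀ hε] at hN1
  calc (N : ℝ)⁻¹ ^ 2 * _ ≤ (N : ℝ)⁻¹ ^ 2 * (N * (1 + 2 * N * ε)) := mul_le_mul_of_nonneg_left h1 (by positivity)
    _ ≤ (N : ℝ)⁻¹ ^ 2 * (N * (3 * (N * ε))) := by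
        apply mul_le_mul_of_nonneg_left _ (by positivity)
        apply mul_le_mul_of_nonneg_left _ hNpos.le
        linarith
    _ = 3 * ε := by field_simp

lemma exp_le_lin (x : ℝ) (h0 : 0 ≤ x) (h1 : x ≤ 1) : Real.exp x ≤ 1 + 2 * x := by
  have h := (Real.abs_exp_sub_one_sub_id_le (x := x) (by rw [abs_of_nonneg h0]; exact h1))
  have h2 := (abs_le.1 h).2
  nlinarith

/-- the exponential moment -/
lemma expo_moment (Γ ρ ε : ℝ) (hε : 0 < ε) (b M : ℕ) (hP : Par Γ ρ ε b M) (r : ℕ → Fin 6 → ℝ) (hr : Laws r)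
    (hρr : ∀ i d, r i d ≤ 1 - ρ) (s : ℕ) (hs : 1 ≤ s) (m : ℕ) (a : Sq) :
    avI r 0 ((2 * m + s) * M - b) (fun a => Real.exp (∑ j ∈ range m, Zk Γ M b (2 * j + s) a)) a ≤
      Real.exp (6 * ε * m) := by
  obtain ⟨hbM, hM0, hpar⟩ := hP
  induction m with
  | zero =>
    simp only [range_zero, sum_empty, Real.exp_zero]
    rw [avI_const r hr]
    simp
  | succ m ih =>
    set D : ℕ := (2 * m + s) * M - b with hD
    have hMs : M ≤ (2 * m + s) * M := Nat.le_mul_of_pos_left M (by omega)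
    have hD2 : (2 * (m + 1) + s) * M - b = D + 2 * M := by
      have : (2 * (m + 1) + s) * M = (2 * m + s) * M + 2 * M := by ring
      omega
    rw [hD2, avI_split, zero_add]
    set Fm : Sq → ℝ := fun a => Real.exp (∑ j ∈ range m, Zk Γ M b (2 * j + s) a) with hFm
    have hFm0 : ∀ a, 0 ≤ Fm a := fun a => (Real.exp_pos _).le
    have hsplit : (fun a => Real.exp (∑ j ∈ range (m + 1), Zk Γ M b (2 * j + s) a)) =
        fun a => Fm a * Real.exp (Zk Γ M b (2 * m + s) a) := by
      funext a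
      rw [sum_range_succ, Real.exp_add]
    have hind : Indep Fm D (2 * M) := by
      intro a i h1 h2 d
      rw [hFm]
      simp only
      congr 1
      apply sum_congr rfl
      intro j hj
      rw [mem_range] at hj
      have hle : (2 * j + s) * M - b + 2 * M ≤ D := by
        have h3 : (2 * j + s) * M + 2 * M ≤ (2 * m + s) * M := by
          have h4 : (2 * j + s + 2) * M ≤ (2 * m + s) * M := Nat.mul_le_mul_right M (by omega)
          calc (2 * j + s) * M + 2 * M = (2 * j + s + 2) * M := by ring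
            _ ≤ _ := h4
        have h5 : M ≤ (2 * j + s) * M := Nat.le_mul_of_pos_left M (by omega)
        omega
      exact Zk_indep Γ M b (2 * j + s) D (2 * M) hle a i h1 h2 d
    rw [hsplit, avI_mul r D (2 * M) _ _ hind]
    have hin : ∀ a, avI r D (2 * M) (fun a => Real.exp (Zk Γ M b (2 * m + s) a)) a ≤ Real.exp (6 * ε) := by
      intro a
      have h1 : avI r D (2 * M) (fun a => Real.exp (Zk Γ M b (2 * m + s) a)) a ≤
          avI r D (2 * M) (fun a => 1 + (LinearMap.mulLeft ℝ (2 : ℝ)) (Zk Γ M b (2 * m + s) a)) a := by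
        apply avI_mono r hr
        intro a
        exact exp_le_lin _ (Zk_nonneg _ _ _ _ _) (Zk_le_one _ _ _ _ hM0 _)
      have h2 : avI r D (2 * M) (fun a => 1 + (LinearMap.mulLeft ℝ (2 : ℝ)) (Zk Γ M b (2 * m + s) a)) a =
          1 + 2 * avI r D (2 * M) (Zk Γ M b (2 * m + s)) a := by
        have h3 := avI_sum r (univ : Finset (Fin 2)) D (2 * M)
          (fun i a => if i = 0 then (1 : ℝ) else (LinearMap.mulLeft ℝ (2 : ℝ)) (Zk Γ M b (2 * m + s) a))
        simp only [Fin.sum_univ_two, if_true, one_ne_zero, if_false, Fin.isValue] at h3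
        have h4 := congrFun h3 a
        rw [h4, avI_const r hr, avI_lin]
        rfl
      have h5 := hpar r hr hρr (2 * m + s) (by omega) a
      rw [h2] at h1
      refine h1.trans ?_
      have h6 := Real.add_one_le_exp (6 * ε)
      linarith
    have h7 : avI r 0 D (fun a => Fm a * avI r D (2 * M) (fun a => Real.exp (Zk Γ M b (2 * m + s) a)) a) a ≤
        avI r 0 D (fun a => (LinearMap.mulLeft ℝ (Real.exp (6 * ε))) (Fm a)) a := by
      apply avI_mono r hr
      intro a
      show _ ≤ Real.exp (6 * ε) * Fm a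
      rw [mul_comm]
      exact mul_le_mul_of_nonneg_right (hin a) (hFm0 a)
    refine h7.trans ?_
    rw [avI_lin]
    show Real.exp (6 * ε) * avI r 0 D Fm a ≤ _
    calc Real.exp (6 * ε) * avI r 0 D Fm a ≤ Real.exp (6 * ε) * Real.exp (6 * ε * m) :=
          mul_le_mul_of_nonneg_left ih (Real.exp_pos _).le
      _ = Real.exp (6 * ε * ((m + 1 : ℕ) : ℝ)) := by
          rw [← Real.exp_add]
          congr 1
          push_cast
          ring

section Prob

variable {Ω : Type} [MeasurableSpace Ω] (μ : Measure Ω) [IsProbabilityMeasure μ] (X : ℕ → Ω → Fin 6)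

/-- the laws of the digits -/
noncomputable def law (i : ℕ) (d : Fin 6) : ℝ := μ.real {ω | X i ω = d}

lemma laws (hX : ∀ i, Measurable (X i)) : Laws (law μ X) := by
  refine ⟨fun i d => measureReal_nonneg, fun i => ?_⟩
  unfold law
  have h1 : μ.real (⋃ d ∈ (univ : Finset (Fin 6)), {ω | X i ω = d}) = ∑ d, μ.real {ω | X i ω = d} := by
    apply measureReal_biUnion_finset
    · intro d _ d' _ hdd
      rw [Function.onFun, Set.disjoint_left]
      intro ω h1 h2
      exact hdd (h1.symm.trans h2)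
    · intro d _
      exact hX i (measurableSet_singleton d)
    · intro d _
      exact measure_ne_top _ _
  rw [← h1]
  have h2 : (⋃ d ∈ (univ : Finset (Fin 6)), {ω | X i ω = d}) = Set.univ := by
    ext ω
    simp
  rw [h2]
  simp

open Classical in
/-- the indicator function of an atom -/
noncomputable def at1 (u : Sq) (n : ℕ) (a : Sq) : ℝ := if ∀ i < n, a i = u i then 1 else 0

lemma at1_pos {u : Sq} {n : ℕ} {a : Sq} (h : ∀ i < n, a i = u i) : at1 u n a = 1 := by
  unfold at1
  rw [if_pos h]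

lemma at1_neg {u : Sq} {n : ℕ} {a : Sq} (h : ¬ ∀ i < n, a i = u i) : at1 u n a = 0 := by
  unfold at1
  rw [if_neg h]

lemma avI_atom (r : ℕ → Fin 6 → ℝ) (u : Sq) (n : ℕ) (a : Sq) :
    avI r 0 n (at1 u n) a = ∏ i ∈ range n, r i (u i) := by
  induction n with
  | zero =>
    show at1 u 0 a = _
    rw [at1_pos (by intro i hi; omega)]
    simp
  | succ n ih =>
    show avI r 0 n (av r (0 + n) (at1 u (n + 1))) a = _
    have h1 : av r (0 + n) (at1 u (n + 1)) = fun a => (LinearMap.mulLeft ℝ (r n (u n))) (at1 u n a) := by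
      funext a
      rw [zero_add]
      unfold av
      rw [sum_eq_single (u n)]
      · show r n (u n) * _ = r n (u n) * _
        congr 1
        by_cases h : ∀ i < n, a i = u i
        · rw [at1_pos h, at1_pos]
          intro i hi
          by_cases hin : i = n
          · subst hin; simp
          · rw [Function.update_of_ne hin]
            exact h i (by omega)
        · rw [at1_neg h, at1_neg]
          intro h'
          apply h
          intro i hi
          have := h' i (by omega)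
          rwa [Function.update_of_ne (by omega)] at this
      · intro d _ hd
        have : at1 u (n + 1) (Function.update a n d) = 0 := by
          apply at1_neg
          intro h
          have := h n (by omega)
          rw [Function.update_self] at this
          exact hd this
        rw [this, smul_zero]
      · intro h
        exact absurd (mem_univ _) h
    rw [h1, avI_lin]
    show r n (u n) * avI r 0 n (at1 u n) a = _
    rw [ih, prod_range_succ, mul_comm]

/-- probabilities of events depending on finitely many digits -/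
lemma link (hX : ∀ i, Measurable (X i)) (hind : iIndepFun X μ) (n : ℕ) (S : Set Sq)
    (hS : ∀ a b : Sq, (∀ i < n, a i = b i) → (a ∈ S ↔ b ∈ S)) (a0 : Sq) [∀ a : Sq, Decidable (a ∈ S)] :
    μ.real {ω | (fun i => X i ω) ∈ S} = avI (law μ X) 0 n (fun a => if a ∈ S then (1 : ℝ) else 0) a0 := by
  classical
  set ex : (Fin n → Fin 6) → Sq := fun u i => if h : i < n then u ⟨i, h⟩ else 0 with hex
  set U : Finset (Fin n → Fin 6) := univ.filter (fun u => ex u ∈ S) with hU
  have hexu : ∀ (a : Sq) (i : ℕ), i < n → ex (fun i : Fin n => a i) i = a i := by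
    intro a i hi
    simp [hex, hi]
  have huniq : ∀ (a : Sq) (u : Fin n → Fin 6), (∀ i < n, a i = ex u i) ↔ u = fun i : Fin n => a i := by
    intro a u
    constructor
    · intro h
      funext i
      have := h i i.2
      simp only [hex, i.2, dite_true] at this
      exact this.symm
    · rintro rfl i hi
      exact (hexu a i hi).symm
  have hind1 : (fun a : Sq => if a ∈ S then (1 : ℝ) else 0) =
      fun a => ∑ u ∈ U, at1 (ex u) n a := by
    funext a
    have h0 : ∀ u, at1 (ex u) n a = if u = (fun i : Fin n => a i) then (1 : ℝ) else 0 := by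
      intro u
      by_cases h : ∀ i < n, a i = ex u i
      · rw [at1_pos h, if_pos ((huniq a u).1 h)]
      · rw [at1_neg h, if_neg (fun hh => h ((huniq a u).2 hh))]
    simp only [h0]
    rw [sum_ite_eq' U (fun i : Fin n => a i)]
    have h1 : (fun i : Fin n => a i) ∈ U ↔ a ∈ S := by
      rw [hU, mem_filter]
      have := hS a (ex fun i : Fin n => a i) (fun i hi => (hexu a i hi).symm)
      simp [this]
    by_cases h : a ∈ S
    · rw [if_pos h, if_pos (h1.2 h)]
    · rw [if_neg h, if_neg (fun hh => h (h1.1 hh))]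
  rw [hind1, avI_sum]
  simp only
  have h2 : ∀ u ∈ U, avI (law μ X) 0 n (at1 (ex u) n) a0 =
      μ.real {ω | ∀ i < n, X i ω ∈ ({ex u i} : Set (Fin 6))} := by
    intro u _
    rw [avI_atom (law μ X) (ex u) n a0, Pool.Agent.Zk45.Rand.box μ X hX hind]
    rfl
  rw [sum_congr rfl h2]
  have h3 : {ω | (fun i => X i ω) ∈ S} = ⋃ u ∈ U, {ω | ∀ i < n, X i ω ∈ ({ex u i} : Set (Fin 6))} := by
    ext ω
    simp only [Set.mem_iUnion, Set.mem_ofPred_eq, Set.mem_singleton_iff, exists_prop]
    constructor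
    · intro h
      refine ⟨fun i : Fin n => X i ω, ?_, ?_⟩
      · rw [hU, mem_filter]
        refine ⟨mem_univ _, ?_⟩
        exact (hS _ _ (fun i hi => (hexu (fun i => X i ω) i hi).symm)).1 h
      · intro i hi
        exact (hexu (fun i => X i ω) i hi).symm
    · rintro ⟨u, hu, h⟩
      rw [hU, mem_filter] at hu
      exact (hS _ _ (fun i hi => h i hi)).2 hu.2
  rw [h3]
  apply measureReal_biUnion_finset
  · intro u _ v _ huv
    rw [Function.onFun, Set.disjoint_left]
    intro ω h4 h5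
    apply huv
    have h6 := (huniq (fun i => X i ω) u).1 (fun i hi => h4 i hi)
    have h7 := (huniq (fun i => X i ω) v).1 (fun i hi => h5 i hi)
    rw [h6, h7]
  · intro u _
    have : {ω | ∀ i < n, X i ω ∈ ({ex u i} : Set (Fin 6))} = ⋂ i ∈ range n, X i ⁻¹' {ex u i} := by
      ext ω
      simp
    rw [this]
    exact Finset.measurableSet_biInter _ fun i _ => hX i (measurableSet_singleton _)
  · intro u _
    exact measure_ne_top _ _

/-- almost surely the sums of the normalised squares are small -/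
lemma as_small (hX : ∀ i, Measurable (X i)) (hind : iIndepFun X μ) (Γ ρ ε : ℝ) (hε : 0 < ε) (b M : ℕ)
    (hP : Par Γ ρ ε b M) (hρ : ∀ i d, law μ X i d ≤ 1 - ρ) (s : ℕ) (hs : 1 ≤ s) :
    ∀ᵐ ω ∂μ, ∀ᶠ m : ℕ in atTop, ∑ j ∈ range m, Zk Γ M b (2 * j + s) (fun i => X i ω) < 8 * ε * m := by
  classical
  set S : ℕ → Set Sq := fun m => {a | 8 * ε * m ≤ ∑ j ∈ range m, Zk Γ M b (2 * j + s) a} with hS
  have hSn : ∀ m : ℕ, μ.real {ω | (fun i => X i ω) ∈ S m} ≤ Real.exp (-(2 * ε)) ^ m := by
    intro m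
    have hdep : ∀ a a' : Sq, (∀ i < (2 * m + s) * M - b, a i = a' i) → (a ∈ S m ↔ a' ∈ S m) := by
      intro a a' haa
      have h1 : ∀ j ∈ range m, Zk Γ M b (2 * j + s) a = Zk Γ M b (2 * j + s) a' := by
        intro j hj
        rw [mem_range] at hj
        unfold Zk Sk
        have h2 : V a ((2 * j + s) * M - b + 2 * M) = V a' ((2 * j + s) * M - b + 2 * M) := by
          apply V_congr
          intro i hi
          apply haa
          have h3 : (2 * j + s + 2) * M ≤ (2 * m + s) * M := Nat.mul_le_mul_right M (by omega)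
          have h4 : (2 * j + s + 2) * M = (2 * j + s) * M + 2 * M := by ring
          have h5 : M ≤ (2 * j + s) * M := Nat.le_mul_of_pos_left M (by omega)
          have h6 := hP.1
          omega
        rw [h2]
      show (8 * ε * m ≤ ∑ j ∈ range m, Zk Γ M b (2 * j + s) a) ↔ (8 * ε * m ≤ ∑ j ∈ range m, Zk Γ M b (2 * j + s) a')
      rw [sum_congr rfl h1]
    have h1 := link μ X hX hind ((2 * m + s) * M - b) (S m) hdep (fun _ => 0)
    rw [h1]
    have h2 : avI (law μ X) 0 ((2 * m + s) * M - b) (fun a => if a ∈ S m then (1 : ℝ) else 0) (fun _ => 0) ≤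
        avI (law μ X) 0 ((2 * m + s) * M - b) (fun a => (LinearMap.mulLeft ℝ (Real.exp (-(8 * ε * m))))
          (Real.exp (∑ j ∈ range m, Zk Γ M b (2 * j + s) a))) (fun _ => 0) := by
      apply avI_mono _ (laws μ X hX)
      intro a
      show _ ≤ Real.exp (-(8 * ε * m)) * Real.exp (∑ j ∈ range m, Zk Γ M b (2 * j + s) a)
      rw [← Real.exp_add]
      split_ifs with h
      · apply Real.one_le_exp
        have h3 : 8 * ε * m ≤ ∑ j ∈ range m, Zk Γ M b (2 * j + s) a := h
        linarith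
      · exact (Real.exp_pos _).le
    refine h2.trans ?_
    rw [avI_lin]
    show Real.exp (-(8 * ε * m)) * _ ≤ _
    have h3 := expo_moment Γ ρ ε hε b M hP (law μ X) (laws μ X hX) hρ s hs m (fun _ => 0)
    calc Real.exp (-(8 * ε * m)) * _ ≤ Real.exp (-(8 * ε * m)) * Real.exp (6 * ε * m) :=
          mul_le_mul_of_nonneg_left h3 (Real.exp_pos _).le
      _ = Real.exp (-(2 * ε)) ^ m := by
          rw [← Real.exp_add, ← Real.exp_nat_mul]
          congr 1
          ring
  have hsum : ∑' m, μ {ω | (fun i => X i ω) ∈ S m} ≠ ⊤ := by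
    have h1 : ∀ m, μ {ω | (fun i => X i ω) ∈ S m} ≤ ENNReal.ofReal (Real.exp (-(2 * ε)) ^ m) := by
      intro m
      rw [← ofReal_measureReal (measure_ne_top _ _)]
      exact ENNReal.ofReal_le_ofReal (hSn m)
    refine ne_top_of_le_ne_top ?_ (ENNReal.tsum_le_tsum h1)
    apply Summable.tsum_ofReal_ne_top
    apply summable_geometric_of_lt_one (Real.exp_pos _).le
    rw [Real.exp_lt_one_iff]
    linarith
  filter_upwards [ae_eventually_notMem hsum] with ω hω
  filter_upwards [hω] with m hm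
  simp only [hS, Set.mem_ofPred_eq, not_le] at hm
  exact hm

end Prob

end Pool.Agent.Zk45.Avg
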