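import Mathlib
import Pool.Agent.Zk45.Bern

set_option autoImplicit false

/-! Almost sure equidistribution for independent digits, conclusion. -/

open Finset Filter Topology MeasureTheory ProbabilityTheory

namespace Pool.Agent.Zk45.Avg

open Pool.Agent.Zk45.W Pool.Agent.Zk45.R Pool.Agent.Zk45.Far Pool.Agent.Zk45.LacN Pool.Agent.Zk45.Two
  Pool.Agent.H429R2.Auto

/-- the value of a sequence of digits -/
noncomputable def Vinf (a : Sq) : ℝ := ∑' i : ℕ, ((a i : Fin 6) : ℕ) / (6 : ℝ) ^ i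

lemma Vinf_summable (a : Sq) : Summable (fun i : ℕ => (((a i : Fin 6) : ℕ) : ℝ) / (6 : ℝ) ^ i) := by
  have h1 : Summable (fun i : ℕ => 5 * ((1 / 6 : ℝ)) ^ i) :=
    (summable_geometric_of_lt_one (by norm_num) (by norm_num)).mul_left 5
  refine Summable.of_nonneg_of_le (fun i => by positivity) (fun i => ?_) h1
  have h2 : (((a i : Fin 6) : ℕ) : ℝ) ≤ 5 := by
    have := (a i).isLt
    exact_mod_cast (by omega : ((a i : Fin 6) : ℕ) ≤ 5)
  rw [one_div_pow, mul_one_div]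
  exact div_le_div_of_nonneg_right h2 (by positivity)

lemma Vinf_tendsto (a : Sq) : Tendsto (fun n => V a n) atTop (𝓝 (Vinf a)) :=
  (Vinf_summable a).hasSum.tendsto_sum_nat

lemma Vinf_ge (a : Sq) (m : ℕ) : V a m ≤ Vinf a := by
  refine ge_of_tendsto (Vinf_tendsto a) ?_
  filter_upwards [eventually_ge_atTop m] with n hn
  obtain ⟨k, rfl⟩ := Nat.exists_eq_add_of_le hn
  exact (V_tail a m k).2

lemma Vinf_le (a : Sq) (m : ℕ) : Vinf a ≤ V a m + 6 / 6 ^ m := by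
  refine le_of_tendsto (Vinf_tendsto a) ?_
  filter_upwards [eventually_ge_atTop m] with n hn
  obtain ⟨k, rfl⟩ := Nat.exists_eq_add_of_le hn
  exact (V_tail a m k).1.le

lemma V_tail' (a : Sq) (m k : ℕ) : V a (m + k) ≤ V a m + 6 / 6 ^ m - 6 / 6 ^ (m + k) := by
  induction k with
  | zero => simp
  | succ k ih =>
    have h1 : V a (m + (k + 1)) = V a (m + k) + ((a (m + k) : Fin 6) : ℕ) / (6 : ℝ) ^ (m + k) := by
      rw [← add_assoc]
      exact sum_range_succ _ _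
    have h2 : (((a (m + k) : Fin 6) : ℕ) : ℝ) ≤ 5 := by
      have := (a (m + k)).isLt
      exact_mod_cast (by omega : ((a (m + k) : Fin 6) : ℕ) ≤ 5)
    have h3 : ((((a (m + k) : Fin 6) : ℕ) : ℝ)) / (6 : ℝ) ^ (m + k) ≤ 5 / 6 ^ (m + k) :=
      div_le_div_of_nonneg_right h2 (by positivity)
    have h4 : (6 : ℝ) / 6 ^ (m + (k + 1)) = 1 / 6 ^ (m + k) := by
      rw [← add_assoc, pow_succ]
      field_simp
    have h5 : (6 : ℝ) / 6 ^ (m + k) = 5 / 6 ^ (m + k) + 1 / 6 ^ (m + k) := by ring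
    rw [h1, h4]
    linarith

lemma Vinf_lt (a : Sq) (m : ℕ) (h : ∃ i ≥ m, a i ≠ 5) : Vinf a < V a m + 6 / 6 ^ m := by
  obtain ⟨i, hi, hai⟩ := h
  obtain ⟨k, rfl⟩ := Nat.exists_eq_add_of_le hi
  have h1 := V_tail' a m k
  have h2 := Vinf_le a (m + k + 1)
  have h3 : V a (m + k + 1) = V a (m + k) + ((a (m + k) : Fin 6) : ℕ) / (6 : ℝ) ^ (m + k) := sum_range_succ _ _
  have h4 : (((a (m + k) : Fin 6) : ℕ) : ℝ) ≤ 4 := by
    have h5 := (a (m + k)).isLt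
    have h6 : ((a (m + k) : Fin 6) : ℕ) ≠ 5 := fun h => hai (Fin.ext h)
    exact_mod_cast (by omega : ((a (m + k) : Fin 6) : ℕ) ≤ 4)
  have h5 : ((((a (m + k) : Fin 6) : ℕ) : ℝ)) / (6 : ℝ) ^ (m + k) ≤ 4 / 6 ^ (m + k) :=
    div_le_div_of_nonneg_right h4 (by positivity)
  have h6 : (6 : ℝ) / 6 ^ (m + k + 1) = 1 / 6 ^ (m + k) := by
    rw [pow_succ]
    field_simp
  have h7 : (6 : ℝ) / 6 ^ (m + k) = 4 / 6 ^ (m + k) + 1 / 6 ^ (m + k) + 1 / 6 ^ (m + k) := by ring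
  have h8 : (0 : ℝ) < 1 / 6 ^ (m + k) := by positivity
  linarith

lemma rep_inf (a : Sq) (h : ∀ m, ∃ i ≥ m, a i ≠ 5) : Rep (conf a) (Vinf a) := by
  intro i
  unfold conf
  rcases le_or_gt 0 i with hi | hi
  · rw [if_pos hi]
    obtain ⟨l, rfl⟩ := Int.eq_ofNat_of_zero_le hi
    obtain ⟨m, h1, h2⟩ := rep_tr_aux a l
    have h3 := h2 l
    unfold conf tr at h3
    rw [if_pos hi] at h3
    simp only [Int.toNat_natCast, Nat.lt_succ_self, if_true] at h3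
    have h4 : (6 : ℝ) ^ (l : ℤ) * ((m : ℝ) / 6 ^ l) = m := by
      rw [zpow_natCast]
      field_simp
    rw [h4, Nat.floor_natCast] at h3
    simp only [Int.toNat_natCast]
    rw [h3]
    congr 1
    symm
    rw [Nat.floor_eq_iff (by have := Vinf_ge a 0; simp [V] at this; positivity)]
    have h5 := Vinf_ge a (l + 1)
    have h6 := Vinf_lt a (l + 1) (h (l + 1))
    rw [h1] at h5 h6
    have h7 : (6 : ℝ) / 6 ^ (l + 1) = 1 / 6 ^ l := by
      rw [pow_succ]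
      field_simp
    rw [h7] at h6
    have h8 : (0 : ℝ) < 6 ^ l := by positivity
    rw [zpow_natCast]
    constructor
    · rw [div_le_iff₀ h8] at h5
      linarith
    · have h9 := mul_lt_mul_of_pos_left h6 h8
      have h10 : (6 : ℝ) ^ l * ((m : ℝ) / 6 ^ l + 1 / 6 ^ l) = m + 1 := by field_simp
      linarith
  · rw [if_neg (not_le.2 hi)]
    have h6 := Vinf_lt a 0 (h 0)
    have h7 : V a 0 = 0 := by simp [V]
    rw [h7] at h6
    have h8 : (6 : ℝ) ^ i ≤ 6 ^ (-1 : ℤ) := zpow_le_zpow_right₀ (by norm_num) (by omega)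
    have h9 := Vinf_ge a 0
    rw [h7] at h9
    have h10 : (6 : ℝ) ^ i * Vinf a < 1 := by
      have h11 : (6 : ℝ) ^ i * Vinf a ≤ 6 ^ (-1 : ℤ) * Vinf a := mul_le_mul_of_nonneg_right h8 h9
      have h12 : (6 : ℝ) ^ (-1 : ℤ) = 1 / 6 := by norm_num
      rw [h12] at h11
      norm_num at h6
      linarith
    rw [Nat.floor_eq_zero.2 h10]
    rfl

/-- the exponential sum over a window -/
noncomputable def Tk (Γ : ℝ) (M k : ℕ) (a : Sq) : ℂ :=
  ∑ n ∈ Ico (nk M k) (nk M (k + 1)), e (Γ * (3 / 2) ^ n * Vinf a)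

lemma Tk_close (Γ : ℝ) (M b k : ℕ) (hb : b ≤ M) (hk : 1 ≤ k) (a : Sq) :
    ‖Tk Γ M k a - Sk Γ M b k a‖ ≤ ((nk M (k + 1) - nk M k : ℕ) : ℝ) * (2 * Real.pi * (6 * |Γ| * 6 ^ b / 6 ^ M)) := by
  unfold Tk Sk
  rw [← sum_sub_distrib]
  refine (norm_sum_le _ _).trans ?_
  have h1 : ∀ n ∈ Ico (nk M k) (nk M (k + 1)), ‖e (Γ * (3 / 2) ^ n * Vinf a) -
      e (Γ * (3 / 2) ^ n * V a (k * M - b + 2 * M))‖ ≤ 2 * Real.pi * (6 * |Γ| * 6 ^ b / 6 ^ M) := by
    intro n hn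
    rw [mem_Ico] at hn
    refine (e_lip _ _).trans ?_
    apply mul_le_mul_of_nonneg_left _ (by positivity)
    rw [← mul_sub, abs_mul, abs_mul, abs_of_pos (by positivity : (0 : ℝ) < (3 / 2) ^ n)]
    set Nv := k * M - b + 2 * M with hNv
    have h2 := Vinf_ge a Nv
    have h3 := Vinf_le a Nv
    rw [abs_of_nonneg (by linarith : (0 : ℝ) ≤ Vinf a - V a Nv)]
    have h4 : Vinf a - V a Nv ≤ 6 / 6 ^ Nv := by linarith
    have h5 : ¬ (((k + 1) * M : ℕ) : ℤ) ≤ fl n := fun hh => absurd ((nk_le_iff M (k + 1) n).2 hh) (by omega)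
    have h6 : (3 / 2 : ℝ) ^ n ≤ 6 ^ ((k + 1) * M) := by
      apply le_of_lt
      rw [pow_lt_iff]
      rw [not_le] at h5
      unfold fl at h5
      rw [Int.floor_lt] at h5
      exact_mod_cast h5
    have h7 : (6 : ℝ) ^ Nv * 6 ^ b = 6 ^ ((k + 1) * M) * 6 ^ M := by
      rw [← pow_add, ← pow_add]
      congr 1
      have h8 : M ≤ k * M := Nat.le_mul_of_pos_left M (by omega)
      have h9 : (k + 1) * M = k * M + M := by ring
      omega
    calc |Γ| * (3 / 2) ^ n * (Vinf a - V a Nv) ≤ |Γ| * 6 ^ ((k + 1) * M) * (6 / 6 ^ Nv) := by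
          apply mul_le_mul _ h4 (by linarith) (by positivity)
          exact mul_le_mul_of_nonneg_left h6 (abs_nonneg _)
      _ = 6 * |Γ| * 6 ^ b / 6 ^ M := by
          rw [mul_div_assoc', div_eq_div_iff (by positivity) (by positivity)]
          linear_combination (-(6 * |Γ|)) * h7
  refine (sum_le_sum h1).trans ?_
  rw [sum_const, Nat.card_Ico, nsmul_eq_mul]

lemma Tk_le (Γ : ℝ) (M b k : ℕ) (hM : 0 < M) (hb : b ≤ M) (hk : 1 ≤ k) (a : Sq) (η : ℝ)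
    (hη : 2 * Real.pi * (6 * |Γ| * 6 ^ b / 6 ^ M) ≤ η) :
    ‖Tk Γ M k a‖ ≤ 5 * M * (Real.sqrt (Zk Γ M b k a) + η) := by
  have hst := nk_step M k
  set w : ℝ := ((nk M (k + 1) - nk M k : ℕ) : ℝ) with hw
  have hwpos : 0 < w := by
    have : 0 < nk M (k + 1) - nk M k := by omega
    rw [hw]
    exact_mod_cast this
  have hw5 : w ≤ 5 * M := by
    have : nk M (k + 1) - nk M k ≤ 5 * M := by omega
    rw [hw]
    exact_mod_cast this
  have hη0 : 0 ≤ η := le_trans (by positivity) hη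
  have h1 : ‖Sk Γ M b k a‖ = w * Real.sqrt (Zk Γ M b k a) := by
    unfold Zk
    rw [← hw, ← mul_pow, Real.sqrt_sq (by positivity)]
    field_simp
  have h2 := Tk_close Γ M b k hb hk a
  have h3 : ‖Tk Γ M k a‖ ≤ ‖Tk Γ M k a - Sk Γ M b k a‖ + ‖Sk Γ M b k a‖ := by
    have := norm_add_le (Tk Γ M k a - Sk Γ M b k a) (Sk Γ M b k a)
    rwa [sub_add_cancel] at this
  have h4 : w * (2 * Real.pi * (6 * |Γ| * 6 ^ b / 6 ^ M)) ≤ w * η := mul_le_mul_of_nonneg_left hη hwpos.le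
  have h5 : 0 ≤ Real.sqrt (Zk Γ M b k a) + η := add_nonneg (Real.sqrt_nonneg _) hη0
  calc ‖Tk Γ M k a‖ ≤ w * (Real.sqrt (Zk Γ M b k a) + η) := by rw [h1] at h3; linarith
    _ ≤ 5 * M * (Real.sqrt (Zk Γ M b k a) + η) := mul_le_mul_of_nonneg_right hw5 h5

lemma range_sum (Γ : ℝ) (M : ℕ) (a : Sq) (m : ℕ) :
    ‖∑ n ∈ range (nk M (2 * m + 1)), e (Γ * (3 / 2) ^ n * Vinf a)‖ ≤
      nk M 1 + ∑ j ∈ range m, (‖Tk Γ M (2 * j + 1) a‖ + ‖Tk Γ M (2 * j + 2) a‖) := by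
  induction m with
  | zero =>
    simp only [range_zero, sum_empty, add_zero, mul_zero, zero_add]
    refine (norm_sum_le _ _).trans ?_
    simp [norm_e]
  | succ m ih =>
    have h1 : nk M (2 * m + 1) ≤ nk M (2 * m + 2) := nk_mono M (by omega)
    have h2 : nk M (2 * m + 2) ≤ nk M (2 * m + 3) := nk_mono M (by omega)
    have h3 : ∑ n ∈ range (nk M (2 * (m + 1) + 1)), e (Γ * (3 / 2) ^ n * Vinf a) =
        ∑ n ∈ range (nk M (2 * m + 1)), e (Γ * (3 / 2) ^ n * Vinf a) + Tk Γ M (2 * m + 1) a + Tk Γ M (2 * m + 2) a := by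
      unfold Tk
      rw [show 2 * (m + 1) + 1 = 2 * m + 3 by ring, range_eq_Ico, range_eq_Ico,
        sum_Ico_consecutive _ (Nat.zero_le _) h1, sum_Ico_consecutive _ (Nat.zero_le _) h2]
    rw [h3, sum_range_succ]
    refine (norm_add_le _ _).trans ?_
    have h4 := norm_add_le (∑ n ∈ range (nk M (2 * m + 1)), e (Γ * (3 / 2) ^ n * Vinf a)) (Tk Γ M (2 * m + 1) a)
    linarith

lemma sqrt_sum (Γ ε : ℝ) (hε : 0 < ε) (M b s m : ℕ) (a : Sq)
    (h : ∑ j ∈ range m, Zk Γ M b (2 * j + s) a < 8 * ε * m) :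
    ∑ j ∈ range m, Real.sqrt (Zk Γ M b (2 * j + s) a) ≤ m * Real.sqrt (8 * ε) := by
  apply le_of_sq_le_sq _ (by positivity)
  refine (sq_sum_le_card_mul_sum_sq (s := range m) (f := fun j => Real.sqrt (Zk Γ M b (2 * j + s) a))).trans ?_
  rw [card_range, mul_pow, Real.sq_sqrt (by positivity)]
  have h1 : ∑ j ∈ range m, Real.sqrt (Zk Γ M b (2 * j + s) a) ^ 2 = ∑ j ∈ range m, Zk Γ M b (2 * j + s) a :=
    sum_congr rfl fun j _ => Real.sq_sqrt (Zk_nonneg _ _ _ _ _)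
  rw [h1]
  calc (m : ℝ) * ∑ j ∈ range m, Zk Γ M b (2 * j + s) a ≤ m * (8 * ε * m) :=
        mul_le_mul_of_nonneg_left h.le (Nat.cast_nonneg _)
    _ = (m : ℝ) ^ 2 * (8 * ε) := by ring

/-- from the windows to all sums -/
lemma det (Γ ε : ℝ) (hε : 0 < ε) (b M : ℕ) (hb : b ≤ M) (hM : 0 < M) (η : ℝ)
    (hη : 2 * Real.pi * (6 * |Γ| * 6 ^ b / 6 ^ M) ≤ η) (a : Sq)
    (h1 : ∀ᶠ m : ℕ in atTop, ∑ j ∈ range m, Zk Γ M b (2 * j + 1) a < 8 * ε * m)
    (h2 : ∀ᶠ m : ℕ in atTop, ∑ j ∈ range m, Zk Γ M b (2 * j + 2) a < 8 * ε * m)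
    (δ : ℝ) (hδ : 5 / 4 * (Real.sqrt (8 * ε) + η) < δ) :
    ∀ᶠ N : ℕ in atTop, ‖∑ n ∈ range N, e (Γ * (3 / 2) ^ n * Vinf a)‖ ≤ δ * N := by
  obtain ⟨m0, hm0⟩ := eventually_atTop.1 (h1.and h2)
  set t : ℝ := Real.sqrt (8 * ε) + η with ht
  have hη0 : 0 ≤ η := le_trans (by positivity) hη
  have ht0 : 0 ≤ t := add_nonneg (Real.sqrt_nonneg _) hη0
  have hMr : (0 : ℝ) < M := by exact_mod_cast hM
  obtain ⟨N1, hN1⟩ := exists_nat_ge (((nk M 1 : ℝ) + 10 * M) / (δ - 5 / 4 * t))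
  rw [eventually_atTop]
  refine ⟨N1 + nk M (2 * m0 + 1), fun N hN => ?_⟩
  -- the window of `N`
  set q : ℕ := (fl N).toNat / M with hq
  have hfl : ((fl N).toNat : ℤ) = fl N := Int.toNat_of_nonneg (fl_nonneg _)
  have hq1 : q * M ≤ (fl N).toNat := Nat.div_mul_le_self _ _
  have hq2 : (fl N).toNat < (q + 1) * M := by
    rw [mul_comm]
    exact Nat.lt_mul_div_succ _ hM
  have hqm : 2 * m0 + 1 ≤ q := by
    rw [hq, Nat.le_div_iff_mul_le hM]
    have := (nk_le_iff M (2 * m0 + 1) N).1 (by omega)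
    omega
  set m : ℕ := (q - 1) / 2 with hm
  have hm1 : 2 * m + 1 ≤ q := by omega
  have hm2 : q + 1 ≤ 2 * m + 3 := by omega
  have hmm0 : m0 ≤ m := by omega
  have hNlo : nk M (2 * m + 1) ≤ N := by
    rw [nk_le_iff, ← hfl]
    exact_mod_cast (Nat.mul_le_mul_right M hm1).trans hq1
  have hNhi : N < nk M (2 * m + 3) := by
    rw [← not_le, nk_le_iff, ← hfl, not_le]
    exact_mod_cast lt_of_lt_of_le hq2 (Nat.mul_le_mul_right M hm2)
  obtain ⟨hz1, hz2⟩ := hm0 m hmm0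
  have hs1 := sqrt_sum Γ ε hε M b 1 m a hz1
  have hs2 := sqrt_sum Γ ε hε M b 2 m a hz2
  have hr := range_sum Γ M a m
  have hT : ∑ j ∈ range m, (‖Tk Γ M (2 * j + 1) a‖ + ‖Tk Γ M (2 * j + 2) a‖) ≤ 10 * M * m * t := by
    calc ∑ j ∈ range m, (‖Tk Γ M (2 * j + 1) a‖ + ‖Tk Γ M (2 * j + 2) a‖)
        ≤ ∑ j ∈ range m, (5 * M * (Real.sqrt (Zk Γ M b (2 * j + 1) a) + η) +
            5 * M * (Real.sqrt (Zk Γ M b (2 * j + 2) a) + η)) := by
          apply sum_le_sum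
          intro j _
          exact add_le_add (Tk_le Γ M b _ hM hb (by omega) a η hη) (Tk_le Γ M b _ hM hb (by omega) a η hη)
      _ = 5 * M * (∑ j ∈ range m, Real.sqrt (Zk Γ M b (2 * j + 1) a) +
            ∑ j ∈ range m, Real.sqrt (Zk Γ M b (2 * j + 2) a)) + 10 * M * m * η := by
          rw [sum_add_distrib, ← mul_sum, ← mul_sum, sum_add_distrib, sum_add_distrib, sum_const, card_range,
            nsmul_eq_mul]
          ring
      _ ≤ 5 * M * (m * Real.sqrt (8 * ε) + m * Real.sqrt (8 * ε)) + 10 * M * m * η := by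
          have := mul_le_mul_of_nonneg_left (add_le_add hs1 hs2) (by positivity : (0 : ℝ) ≤ 5 * M)
          linarith
      _ = 10 * M * m * t := by rw [ht]; ring
  have hrest : ∑ n ∈ range N, e (Γ * (3 / 2) ^ n * Vinf a) =
      ∑ n ∈ range (nk M (2 * m + 1)), e (Γ * (3 / 2) ^ n * Vinf a) +
      ∑ n ∈ Ico (nk M (2 * m + 1)) N, e (Γ * (3 / 2) ^ n * Vinf a) := by
    rw [range_eq_Ico, range_eq_Ico, sum_Ico_consecutive _ (Nat.zero_le _) hNlo]
  have hrestn : ‖∑ n ∈ Ico (nk M (2 * m + 1)) N, e (Γ * (3 / 2) ^ n * Vinf a)‖ ≤ 10 * M := by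
    refine (norm_sum_le _ _).trans ?_
    simp only [norm_e, sum_const, Nat.card_Ico, nsmul_eq_mul, mul_one]
    have h3 := (nk_step M (2 * m + 1)).2
    have h4 := (nk_step M (2 * m + 2)).2
    have h5 : N - nk M (2 * m + 1) ≤ 10 * M := by
      have e1 : 2 * m + 1 + 1 = 2 * m + 2 := rfl
      have e2 : 2 * m + 2 + 1 = 2 * m + 3 := rfl
      rw [e1] at h3
      rw [e2] at h4
      omega
    exact_mod_cast h5
  have hNm : (8 : ℝ) * m * M ≤ N := by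
    have h3 := nk_ge M (2 * m + 1)
    have h4 : 8 * m * M ≤ N := by
      have : 8 * m * M ≤ 4 * ((2 * m + 1) * M) := by nlinarith
      omega
    exact_mod_cast h4
  rw [hrest]
  refine (norm_add_le _ _).trans ?_
  have hgap : 0 < δ - 5 / 4 * t := by linarith
  rw [div_le_iff₀ hgap] at hN1
  have hN1' : (N1 : ℝ) ≤ N := by
    have : N1 ≤ N := by omega
    exact_mod_cast this
  have h6 : (nk M 1 : ℝ) + 10 * M ≤ N * (δ - 5 / 4 * t) := hN1.trans (mul_le_mul_of_nonneg_right hN1' hgap.le)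
  have h7 : 10 * M * m * t ≤ 5 / 4 * t * N := by
    have := mul_le_mul_of_nonneg_left hNm (by positivity : (0 : ℝ) ≤ 5 / 4 * t)
    linarith
  linarith

section Prob

variable {Ω : Type} [MeasurableSpace Ω] (μ : Measure Ω) [IsProbabilityMeasure μ] (X : ℕ → Ω → Fin 6)

/-- almost sure decay of the exponential sums -/
theorem as_sum (hX : ∀ i, Measurable (X i)) (hind : iIndepFun X μ) (ρ : ℝ) (hρ0 : 0 < ρ) (hρ1 : ρ ≤ 1)
    (hρ : ∀ i d, law μ X i d ≤ 1 - ρ) (Γ : ℝ) (hΓ : Γ ≠ 0) :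
    ∀ᵐ ω ∂μ, ∀ δ : ℝ, 0 < δ → ∀ᶠ N : ℕ in atTop,
      ‖∑ n ∈ range N, e (Γ * (3 / 2) ^ n * Vinf (fun i => X i ω))‖ ≤ δ * N := by
  have key : ∀ q : ℕ, ∀ᵐ ω ∂μ, ∀ᶠ N : ℕ in atTop,
      ‖∑ n ∈ range N, e (Γ * (3 / 2) ^ n * Vinf (fun i => X i ω))‖ ≤ (1 / ((q : ℝ) + 1)) * N := by
    intro q
    set δ : ℝ := 1 / ((q : ℝ) + 1) with hδ
    have hδ0 : 0 < δ := by positivity
    set ε : ℝ := (δ / 4) ^ 2 / 8 with hε
    have hε0 : 0 < ε := by positivity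
    obtain ⟨b, M0, hpar⟩ := exists_par Γ hΓ ρ hρ0 hρ1 ε hε0
    obtain ⟨M1, hM1⟩ := pow_unbounded_of_one_lt (2 * Real.pi * (6 * |Γ| * 6 ^ b) / (δ / 4)) (show (1 : ℝ) < 6 by norm_num)
    set M : ℕ := M0 + M1 with hM
    have hP := hpar M (by omega)
    have hη : 2 * Real.pi * (6 * |Γ| * 6 ^ b / 6 ^ M) ≤ δ / 4 := by
      have h1 : (6 : ℝ) ^ M1 ≤ 6 ^ M := pow_le_pow_right₀ (by norm_num) (by omega)
      rw [mul_div_assoc', div_le_iff₀ (by positivity)]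
      rw [div_lt_iff₀ (by positivity)] at hM1
      calc 2 * Real.pi * (6 * |Γ| * 6 ^ b) ≤ 6 ^ M1 * (δ / 4) := hM1.le
        _ ≤ 6 ^ M * (δ / 4) := mul_le_mul_of_nonneg_right h1 (by positivity)
        _ = δ / 4 * 6 ^ M := mul_comm _ _
    have hsq : Real.sqrt (8 * ε) = δ / 4 := by
      rw [hε, mul_div_cancel₀ _ (by norm_num : (8 : ℝ) ≠ 0), Real.sqrt_sq (by positivity)]
    filter_upwards [as_small μ X hX hind Γ ρ ε hε0 b M hP hρ 1 le_rfl,
      as_small μ X hX hind Γ ρ ε hε0 b M hP hρ 2 (by norm_num)] with ω h1 h2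
    exact det Γ ε hε0 b M hP.1 hP.2.1 (δ / 4) hη (fun i => X i ω) h1 h2 δ (by rw [hsq]; linarith)
  filter_upwards [ae_all_iff.2 key] with ω hω δ hδ
  obtain ⟨q, hq⟩ := exists_nat_one_div_lt hδ
  filter_upwards [hω q] with N hN
  exact hN.trans (mul_le_mul_of_nonneg_right hq.le (Nat.cast_nonneg _))

/-- almost surely infinitely many digits are not `5` -/
lemma as_not_five (hX : ∀ i, Measurable (X i)) (hind : iIndepFun X μ) (ρ : ℝ) (hρ0 : 0 < ρ) (hρ1 : ρ ≤ 1)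
    (hρ : ∀ i d, law μ X i d ≤ 1 - ρ) : ∀ᵐ ω ∂μ, ∀ m : ℕ, ∃ i ≥ m, X i ω ≠ 5 := by
  rw [ae_all_iff]
  intro m
  have h1 : ∀ k : ℕ, μ.real {ω | ¬ ∃ i ≥ m, X i ω ≠ 5} ≤ (1 - ρ) ^ k := by
    intro k
    have h2 := Pool.Agent.Zk45.Rand.box μ X hX hind (m + k) (fun i => if i < m then Set.univ else {5})
    have h3 : {ω | ¬ ∃ i ≥ m, X i ω ≠ 5} ⊆ {ω | ∀ i < m + k, X i ω ∈ (if i < m then (Set.univ : Set (Fin 6)) else {5})} := by
      intro ω hω i _
      split_ifs with h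
      · trivial
      · simp only [Set.mem_ofPred_eq, not_exists, not_and, not_not] at hω
        exact hω i (by omega)
    refine (measureReal_mono h3 (measure_ne_top _ _)).trans ?_
    rw [h2, prod_range_add]
    have h4 : ∏ x ∈ range m, μ.real {ω | X x ω ∈ (if x < m then (Set.univ : Set (Fin 6)) else {5})} ≤ 1 :=
      prod_le_one (fun _ _ => measureReal_nonneg) (fun _ _ => measureReal_le_one)
    have h5 : ∏ x ∈ range k, μ.real {ω | X (m + x) ω ∈ (if m + x < m then (Set.univ : Set (Fin 6)) else {5})} ≤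
        (1 - ρ) ^ k := by
      calc _ ≤ ∏ x ∈ range k, (1 - ρ) := by
            apply Finset.prod_le_prod (fun _ _ => measureReal_nonneg)
            intro x _
            rw [if_neg (by omega)]
            exact hρ (m + x) 5
        _ = (1 - ρ) ^ k := by rw [prod_const, card_range]
    have h6 : 0 ≤ (1 - ρ) ^ k := pow_nonneg (by linarith) k
    calc _ ≤ 1 * (1 - ρ) ^ k := mul_le_mul h4 h5 (prod_nonneg fun _ _ => measureReal_nonneg) zero_le_one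
      _ = _ := one_mul _
  have h2 : μ.real {ω | ¬ ∃ i ≥ m, X i ω ≠ 5} = 0 := by
    apply le_antisymm _ measureReal_nonneg
    have h3 := tendsto_pow_atTop_nhds_zero_of_lt_one (by linarith : (0 : ℝ) ≤ 1 - ρ) (by linarith : 1 - ρ < 1)
    exact ge_of_tendsto' h3 h1
  rw [measureReal_eq_zero_iff] at h2
  exact h2

/-- almost surely every word has the right frequency at every position -/
theorem as_freq (hX : ∀ i, Measurable (X i)) (hind : iIndepFun X μ) (ρ : ℝ) (hρ0 : 0 < ρ) (hρ1 : ρ ≤ 1)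
    (hρ : ∀ i d, law μ X i d ≤ 1 - ρ) :
    ∀ᵐ ω ∂μ, ∀ (j : ℤ) (L : ℕ) (w : Fin L → Fin 6),
      Tendsto (fun N : ℕ => ({n : ℕ | n < N ∧ Sh (F^[n] (conf (fun i => X i ω))) w j}.ncard : ℝ) / N) atTop
        (𝓝 (1 / 6 ^ L)) := by
  classical
  have h1 : ∀ᵐ ω ∂μ, ∀ (h : ℤ) (j : ℤ), h ≠ 0 → ∀ δ : ℝ, 0 < δ → ∀ᶠ N : ℕ in atTop,
      ‖∑ n ∈ range N, e ((h * (6 : ℝ) ^ (j - 1)) * (3 / 2) ^ n * Vinf (fun i => X i ω))‖ ≤ δ * N := by
    rw [ae_all_iff]
    intro h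
    rw [ae_all_iff]
    intro j
    by_cases h0 : h = 0
    · exact Eventually.of_forall fun ω hne => absurd h0 hne
    · have hne : (h : ℝ) * (6 : ℝ) ^ (j - 1) ≠ 0 := by
        have : (h : ℝ) ≠ 0 := by exact_mod_cast h0
        positivity
      filter_upwards [as_sum μ X hX hind ρ hρ0 hρ1 hρ _ hne] with ω hω _
      exact hω
  filter_upwards [h1, as_not_five μ X hX hind ρ hρ0 hρ1 hρ] with ω hs h5 j L w
  set a : Sq := fun i => X i ω with ha
  have hrep : Rep (conf a) (Vinf a) := rep_inf a h5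
  have hV0 : 0 ≤ Vinf a := by
    have := Vinf_ge a 0
    simpa [V] using this
  rw [Metric.tendsto_atTop]
  intro ε hε
  have hcode := code_lt w
  have hcode' : ((code w : ℕ) : ℝ) + 1 ≤ 6 ^ L := by exact_mod_cast hcode
  obtain ⟨H, δ, hδ, hw⟩ := weyl_fin (((code w : ℕ) : ℝ) / 6 ^ L) (((code w : ℕ) + 1) / 6 ^ L) (ε / 2) (by positivity)
    (by apply div_le_div_of_nonneg_right _ (by positivity); linarith)
    (by rw [div_le_one (by positivity)]; exact hcode') (by linarith)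
  have h2 : ∀ᶠ N : ℕ in atTop, ∀ h ∈ (Icc (-(H : ℤ)) H).filter (fun h => h ≠ 0),
      ‖∑ n ∈ range N, e ((h * (6 : ℝ) ^ (j - 1)) * (3 / 2) ^ n * Vinf a)‖ ≤ δ * N := by
    rw [eventually_all_finset]
    intro h hh
    rw [mem_filter] at hh
    exact hs h j hh.2 δ hδ
  obtain ⟨N0, hN0⟩ := eventually_atTop.1 h2
  refine ⟨N0 + 1, fun N hN => ?_⟩
  have hNpos : (0 : ℝ) < N := by
    have : 0 < N := by omega
    exact_mod_cast this
  have h3 := hw ℕ (range N) (fun n => (6 : ℝ) ^ (j - 1) * ((3 / 2) ^ n * Vinf a)) (by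
    intro h hh0 hhH
    rw [card_range]
    have h4 := hN0 N (by omega) h (by
      rw [mem_filter, mem_Icc]
      exact ⟨abs_le.1 hhH, hh0⟩)
    refine le_trans (le_of_eq ?_) h4
    congr 1
    apply sum_congr rfl
    intro n _
    congr 1
    ring)
  have hset : {n : ℕ | n < N ∧ Sh (F^[n] (conf a)) w j} =
      (((range N).filter (fun n => ((code w : ℕ) : ℝ) / 6 ^ L ≤ Int.fract ((6 : ℝ) ^ (j - 1) * ((3 / 2) ^ n * Vinf a)) ∧
        Int.fract ((6 : ℝ) ^ (j - 1) * ((3 / 2) ^ n * Vinf a)) < ((code w : ℕ) + 1 : ℝ) / 6 ^ L) : Finset ℕ) : Set ℕ) := by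
    ext n
    rw [Set.mem_ofPred_eq, mem_coe, mem_filter, mem_range]
    apply and_congr_right
    intro _
    exact sh_iff_fract (by positivity) (rep_iter hV0 hrep n) w j
  rw [hset, Set.ncard_coe_finset, Real.dist_eq]
  rw [card_range] at h3
  have h5 : (((code w : ℕ) + 1 : ℝ) / 6 ^ L - (code w : ℕ) / 6 ^ L) * N = (1 / 6 ^ L) * N := by ring
  rw [h5] at h3
  set C : ℝ := (((range N).filter (fun n => ((code w : ℕ) : ℝ) / 6 ^ L ≤ Int.fract ((6 : ℝ) ^ (j - 1) * ((3 / 2) ^ n * Vinf a)) ∧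
        Int.fract ((6 : ℝ) ^ (j - 1) * ((3 / 2) ^ n * Vinf a)) < ((code w : ℕ) + 1 : ℝ) / 6 ^ L)).card : ℝ) with hC
  have h6 : C / N - 1 / 6 ^ L = (C - (1 / 6 ^ L) * N) / N := by
    field_simp
  rw [h6, abs_div, abs_of_pos hNpos, div_lt_iff₀ hNpos]
  refine lt_of_le_of_lt h3 ?_
  nlinarith

end Prob

end Pool.Agent.Zk45.Avg
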