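import Mathlib
import Pool.Agent.Zk45.Bern2

set_option autoImplicit false

/-! Stationary processes of digits: shifts, the past, conditional probabilities of words. -/

open Finset Filter Topology MeasureTheory ProbabilityTheory

namespace Pool.Agent.Zk45.Hst

/-- bi-infinite sequences of digits -/
abbrev Bi := ℤ → Fin 6

/-- the shift by `k` -/
def S (k : ℤ) (ω : Bi) : Bi := fun i => ω (i + k)

lemma S_S (k l : ℤ) (ω : Bi) : S k (S l ω) = S (k + l) ω := by
  funext i
  unfold S
  congr 1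
  ring

lemma S_zero (ω : Bi) : S 0 ω = ω := by
  funext i
  unfold S
  rw [add_zero]

lemma S_meas (k : ℤ) : Measurable (S k) := by
  unfold S
  fun_prop

lemma S_iter (n : ℕ) (ω : Bi) : (S 1)^[n] ω = S n ω := by
  induction n with
  | zero => simp [S_zero]
  | succ n ih =>
    rw [Function.iterate_succ_apply', ih, S_S]
    congr 1
    push_cast
    ring

/-- the σ-algebra generated by the coordinates `i < m` -/
@[instance_reducible] def past (m : ℤ) : MeasurableSpace Bi :=
  MeasurableSpace.comap (fun (ω : Bi) (i : Set.Iio m) => ω i) inferInstance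

lemma past_le (m : ℤ) : past m ≤ (inferInstance : MeasurableSpace Bi) := by
  unfold past
  apply Measurable.comap_le
  fun_prop

lemma past_coord {m i : ℤ} (h : i < m) : Measurable[past m] (fun ω : Bi => ω i) := by
  have h1 : Measurable[past m] (fun (ω : Bi) (i : Set.Iio m) => ω i) := comap_measurable _
  exact (measurable_pi_apply (⟨i, h⟩ : Set.Iio m)).comp h1

lemma to_past {α : Type*} {mα : MeasurableSpace α} (U : α → Bi) (m : ℤ)
    (h : ∀ i < m, Measurable (fun a => U a i)) : @Measurable α Bi mα (past m) U := by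
  unfold past
  rw [measurable_comap_iff]
  rw [measurable_pi_iff]
  intro i
  exact h i i.2

lemma past_mono {m m' : ℤ} (h : m ≤ m') : past m ≤ past m' := by
  have h1 : @Measurable Bi Bi (past m') (past m) id :=
    to_past _ _ fun i hi => past_coord (lt_of_lt_of_le hi h)
  exact fun s hs => h1 hs

lemma S_past (m k : ℤ) : @Measurable Bi Bi (past (m + k)) (past m) (S k) :=
  to_past _ _ fun i hi => past_coord (by omega)

/-- the number with the first `R` digits -/
def N : ℕ → Bi → ℕ
  | 0, _ => 0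
  | R + 1, ω => 6 * N R ω + (ω (R : ℤ) : ℕ)

lemma N_lt (R : ℕ) (ω : Bi) : N R ω < 6 ^ R := by
  induction R with
  | zero => simp [N]
  | succ R ih =>
    have := (ω (R : ℤ)).isLt
    rw [N, pow_succ]
    omega

lemma N_left (R : ℕ) (ω : Bi) : N (R + 1) ω = 6 ^ R * (ω 0 : ℕ) + N R (S 1 ω) := by
  induction R with
  | zero => simp [N]
  | succ R ih =>
    rw [N, ih, N, pow_succ]
    have : (S 1 ω) (R : ℤ) = ω ((R + 1 : ℕ) : ℤ) := by
      unfold S
      push_cast
      rfl
    rw [this]
    ring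

lemma N_div (R k : ℕ) (ω : Bi) : N (R + k) ω / 6 ^ k = N R ω := by
  induction k with
  | zero => simp
  | succ k ih =>
    have := (ω ((R + k : ℕ) : ℤ)).isLt
    rw [← add_assoc, N, pow_succ, mul_comm (6 ^ k) 6, ← Nat.div_div_eq_div_mul]
    rw [Nat.mul_add_div (by norm_num), Nat.div_eq_of_lt this, add_zero, ih]

lemma N_past (R : ℕ) : Measurable[past R] (N R) := by
  induction R with
  | zero => exact measurable_const
  | succ R ih =>
    have h1 : Measurable[past ((R + 1 : ℕ) : ℤ)] (N R) := ih.mono (past_mono (by push_cast; omega)) le_rfl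
    have h2 : Measurable[past ((R + 1 : ℕ) : ℤ)] (fun ω : Bi => ω (R : ℤ)) := past_coord (by push_cast; omega)
    have h3 : Measurable[past ((R + 1 : ℕ) : ℤ)] (fun ω : Bi => ((ω (R : ℤ) : Fin 6) : ℕ)) :=
      (measurable_of_finite (fun d : Fin 6 => (d : ℕ))).comp h2
    exact (measurable_const.mul h1).add h3

lemma N_meas (R : ℕ) : Measurable (N R) := (N_past R).mono (past_le _) le_rfl

lemma N_set (R v : ℕ) : MeasurableSet {ω : Bi | N R ω = v} := (N_meas R) (measurableSet_singleton v)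

lemma d_set (d : Fin 6) : MeasurableSet {ω : Bi | ω 0 = d} := by
  have h : Measurable (fun ω : Bi => ω 0) := measurable_pi_apply 0
  exact h (measurableSet_singleton d)

section M

variable (μ : Measure Bi) [IsProbabilityMeasure μ]

omit [IsProbabilityMeasure μ] in
lemma S_mp (h1 : MeasurePreserving (S 1) μ μ) (k : ℤ) : MeasurePreserving (S k) μ μ := by
  have hn : ∀ n : ℕ, MeasurePreserving (S n) μ μ := by
    intro n
    have h2 := h1.iterate n
    have h3 : (S 1)^[n] = S n := funext fun ω => S_iter n ω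
    rwa [h3] at h2
  rcases le_total 0 k with hk | hk
  · obtain ⟨n, rfl⟩ := Int.eq_ofNat_of_zero_le hk
    exact hn n
  · obtain ⟨n, hn'⟩ := Int.eq_ofNat_of_zero_le (neg_nonneg.2 hk)
    refine ⟨S_meas k, ?_⟩
    have h2 := (hn n).map_eq
    conv_lhs => rw [← h2]
    rw [Measure.map_map (S_meas _) (S_meas _)]
    have h3 : S k ∘ S (n : ℤ) = id := by
      funext ω
      show S k (S n ω) = ω
      rw [S_S, show k + (n : ℤ) = 0 by omega, S_zero]
    rw [h3, Measure.map_id]

/-- the conditional probability given the past -/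
noncomputable def cp (A : Set Bi) (ω : Bi) : ℝ := (condExpKernel μ (past 0) ω).real A

lemma cp_nonneg (A : Set Bi) (ω : Bi) : 0 ≤ cp μ A ω := measureReal_nonneg

lemma cp_le (A : Set Bi) (ω : Bi) : cp μ A ω ≤ 1 := measureReal_le_one

lemma cp_past {A : Set Bi} (hA : MeasurableSet A) : Measurable[past 0] (cp μ A) :=
  (measurable_condExpKernel hA).ennreal_toReal

lemma cp_meas {A : Set Bi} (hA : MeasurableSet A) : Measurable (cp μ A) :=
  (cp_past μ hA).mono (past_le 0) le_rfl

/-- conditional probabilities are conditional expectations -/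
lemma orth {E : Type*} [NormedAddCommGroup E] [NormedSpace ℝ E] [CompleteSpace E] {A : Set Bi} (hA : MeasurableSet A)
    (g : Bi → E) (hg : StronglyMeasurable[past 0] g) (C : ℝ) (hC : ∀ ω, ‖g ω‖ ≤ C) :
    ∫ ω, (A.indicator (fun _ => (1 : ℝ)) ω) • g ω ∂μ = ∫ ω, cp μ A ω • g ω ∂μ := by
  have hg' : StronglyMeasurable g := hg.mono (past_le 0)
  have hi : Integrable (A.indicator (fun _ => (1 : ℝ))) μ := (integrable_const 1).indicator hA
  have hgi : Integrable ((A.indicator (fun _ => (1 : ℝ))) • g) μ := by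
    refine Integrable.mono' (integrable_const C) ?_ (Eventually.of_forall fun ω => ?_)
    · exact ((stronglyMeasurable_const.indicator hA).smul hg').aestronglyMeasurable
    · rw [Pi.smul_apply', norm_smul]
      have h1 : ‖A.indicator (fun _ => (1 : ℝ)) ω‖ ≤ 1 := by
        unfold Set.indicator
        split_ifs <;> simp
      calc ‖A.indicator (fun _ => (1 : ℝ)) ω‖ * ‖g ω‖ ≤ 1 * C := mul_le_mul h1 (hC ω) (norm_nonneg _) zero_le_one
        _ = C := one_mul _
  have h1 := condExp_smul_of_aestronglyMeasurable_right (m := past 0) (μ := μ) hi hgi hg.aestronglyMeasurable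
  have h2 := integral_condExp (past_le 0) (f := (A.indicator (fun _ => (1 : ℝ))) • g) (μ := μ)
  have h3 := condExpKernel_ae_eq_condExp (μ := μ) (past_le 0) hA
  calc ∫ ω, (A.indicator (fun _ => (1 : ℝ)) ω) • g ω ∂μ = ∫ ω, ((A.indicator (fun _ => (1 : ℝ))) • g) ω ∂μ := rfl
    _ = ∫ ω, (μ[(A.indicator (fun _ => (1 : ℝ))) • g | past 0]) ω ∂μ := h2.symm
    _ = ∫ ω, cp μ A ω • g ω ∂μ := by
        apply integral_congr_ae
        filter_upwards [h1, h3] with ω ha hb
        rw [ha, Pi.smul_apply', ← hb]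
        rfl

/-- the shifted version -/
lemma orthS {E : Type*} [NormedAddCommGroup E] [NormedSpace ℝ E] [CompleteSpace E]
    (hT : MeasurePreserving (S 1) μ μ) (m : ℤ) {A : Set Bi} (hA : MeasurableSet A)
    (g : Bi → E) (hg : StronglyMeasurable[past m] g) (C : ℝ) (hC : ∀ ω, ‖g ω‖ ≤ C) :
    ∫ ω, (A.indicator (fun _ => (1 : ℝ)) (S m ω)) • g ω ∂μ = ∫ ω, cp μ A (S m ω) • g ω ∂μ := by
  have hg' : StronglyMeasurable[past 0] (fun ω => g (S (-m) ω)) := by
    have h1 : @Measurable Bi Bi (past 0) (past m) (S (-m)) := by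
      have := S_past m (-m)
      rwa [add_neg_cancel] at this
    exact hg.comp_measurable h1
  have h1 := orth μ hA (fun ω => g (S (-m) ω)) hg' C (fun ω => hC _)
  have hS := S_mp μ hT m
  have hcancel : ∀ ω, S (-m) (S m ω) = ω := fun ω => by rw [S_S, neg_add_cancel, S_zero]
  have e1 : ∀ f : Bi → E, StronglyMeasurable f → ∫ ω, f (S m ω) ∂μ = ∫ ω, f ω ∂μ := by
    intro f hf
    have := integral_map (μ := μ) (hS.measurable.aemeasurable) (f := f) (by rw [hS.map_eq]; exact hf.aestronglyMeasurable)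
    rw [hS.map_eq] at this
    exact this.symm
  have hgm : StronglyMeasurable (fun ω => g (S (-m) ω)) := hg'.mono (past_le 0)
  have h2 := e1 (fun ω => (A.indicator (fun _ => (1 : ℝ)) ω) • g (S (-m) ω)) ((stronglyMeasurable_const.indicator hA).smul hgm)
  have h3 := e1 (fun ω => cp μ A ω • g (S (-m) ω)) ((cp_meas μ hA).stronglyMeasurable.smul hgm)
  simp only [hcancel] at h2 h3
  rw [h2, h3]
  exact h1

/-- Bayes' formula -/
lemma bayes (hT : MeasurePreserving (S 1) μ μ) (R v : ℕ) (d : Fin 6) : ∀ᵐ ω ∂μ, ω 0 = d →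
    cp μ {ω' | ω' 0 = d ∧ N R (S 1 ω') = v} ω = cp μ {ω' | ω' 0 = d} ω * cp μ {ω' | N R ω' = v} (S 1 ω) := by
  set A : Set Bi := {ω' | ω' 0 = d} with hA
  set B : Set Bi := {ω' | N R ω' = v} with hB
  set D : Set Bi := {ω' | ω' 0 = d ∧ N R (S 1 ω') = v} with hD
  have hAm : MeasurableSet A := d_set d
  have hBm : MeasurableSet B := N_set R v
  have hDm : MeasurableSet D := hAm.inter (S_meas 1 hBm)
  -- replace the coordinate `0`
  set U : Bi → Bi := fun ω => Function.update ω 0 d with hU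
  have hUm : @Measurable Bi Bi (past 0) (past 1) U := by
    apply to_past
    intro i hi
    by_cases h0 : i = 0
    · subst h0
      simp only [hU, Function.update_self]
      exact measurable_const
    · simp only [hU, Function.update_of_ne h0]
      exact past_coord (by omega)
  set w : Bi → ℝ := fun ω => cp μ D ω - cp μ A ω * cp μ B (S 1 ω) with hw
  have hP : Measurable[past 0] (cp μ A) := cp_past μ hAm
  have hQ : Measurable[past 0] (cp μ D) := cp_past μ hDm
  have hR : Measurable[past 1] (fun ω => cp μ B (S 1 ω)) := by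
    have h1 : @Measurable Bi Bi (past 1) (past 0) (S 1) := by
      have := S_past 0 1
      rwa [zero_add] at this
    exact (cp_past μ hBm).comp h1
  have h01 : past 0 ≤ past 1 := past_mono (by norm_num)
  have hwm : Measurable[past 1] w := (hQ.mono h01 le_rfl).sub ((hP.mono h01 le_rfl).mul hR)
  have hwb : ∀ ω, |w ω| ≤ 1 := by
    intro ω
    have h1 := cp_nonneg μ D ω
    have h2 := cp_le μ D ω
    have h3 := cp_nonneg μ A ω
    have h4 := cp_le μ A ω
    have h5 := cp_nonneg μ B (S 1 ω)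
    have h6 := cp_le μ B (S 1 ω)
    have h7 : 0 ≤ cp μ A ω * cp μ B (S 1 ω) := mul_nonneg h3 h5
    have h8 : cp μ A ω * cp μ B (S 1 ω) ≤ 1 := mul_le_one₀ h4 h5 h6
    rw [abs_le]
    constructor <;> simp only [hw] <;> linarith
  set u : Bi → ℝ := fun ω => w (U ω) with hu
  have hum : Measurable[past 0] u := hwm.comp hUm
  have hub : ∀ ω, |u ω| ≤ 1 := fun ω => hwb _
  have hUA : ∀ ω, ω ∈ A → U ω = ω := by
    intro ω hω
    have : ω 0 = d := hω
    simp only [hU]
    rw [← this, Function.update_eq_self]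
  set iA : Bi → ℝ := A.indicator (fun _ => (1 : ℝ)) with hiA
  set iD : Bi → ℝ := D.indicator (fun _ => (1 : ℝ)) with hiD
  have hiAb : ∀ ω, |iA ω| ≤ 1 := by
    intro ω
    simp only [hiA, Set.indicator]
    split_ifs <;> simp
  -- first integral
  have hsm : ∀ f : Bi → ℝ, Measurable[past 0] f → StronglyMeasurable[past 0] f := fun f hf => hf.stronglyMeasurable
  have i1 : ∫ ω, iA ω * (u ω * cp μ D ω) ∂μ = ∫ ω, cp μ A ω * (u ω * cp μ D ω) ∂μ := by
    have := orth μ hAm (fun ω => u ω * cp μ D ω) (hsm _ (hum.mul hQ)) 1 (fun ω => by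
      rw [Real.norm_eq_abs, abs_mul]
      exact mul_le_one₀ (hub ω) (abs_nonneg _) (by rw [abs_of_nonneg (cp_nonneg μ D ω)]; exact cp_le μ D ω))
    simpa only [smul_eq_mul] using this
  have i2 : ∫ ω, (B.indicator (fun _ => (1 : ℝ)) (S 1 ω)) * (iA ω * (u ω * cp μ A ω)) ∂μ =
      ∫ ω, cp μ B (S 1 ω) * (iA ω * (u ω * cp μ A ω)) ∂μ := by
    have hAp : MeasurableSet[past 1] A := by
      have h1 : Measurable[past 1] (fun ω : Bi => ω 0) := past_coord (by norm_num)
      exact h1 (measurableSet_singleton d)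
    have hg : StronglyMeasurable[past 1] (fun ω => iA ω * (u ω * cp μ A ω)) := by
      have h1 : StronglyMeasurable[past 1] iA := stronglyMeasurable_const.indicator hAp
      have h2 : StronglyMeasurable[past 1] (fun ω => u ω * cp μ A ω) := (hsm _ (hum.mul hP)).mono h01
      exact h1.mul h2
    have := orthS μ hT 1 hBm (fun ω => iA ω * (u ω * cp μ A ω)) hg 1 (fun ω => by
      rw [Real.norm_eq_abs, abs_mul, abs_mul]
      apply mul_le_one₀ (hiAb ω) (by positivity)
      exact mul_le_one₀ (hub ω) (abs_nonneg _) (by rw [abs_of_nonneg (cp_nonneg μ A ω)]; exact cp_le μ A ω))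
    simpa only [smul_eq_mul] using this
  have i3 : ∫ ω, iD ω * (u ω * cp μ A ω) ∂μ = ∫ ω, cp μ D ω * (u ω * cp μ A ω) ∂μ := by
    have := orth μ hDm (fun ω => u ω * cp μ A ω) (hsm _ (hum.mul hP)) 1 (fun ω => by
      rw [Real.norm_eq_abs, abs_mul]
      exact mul_le_one₀ (hub ω) (abs_nonneg _) (by rw [abs_of_nonneg (cp_nonneg μ A ω)]; exact cp_le μ A ω))
    simpa only [smul_eq_mul] using this
  have hprod : ∀ ω, (B.indicator (fun _ => (1 : ℝ)) (S 1 ω)) * (iA ω * (u ω * cp μ A ω)) = iD ω * (u ω * cp μ A ω) := by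
    intro ω
    rw [← mul_assoc]
    congr 1
    by_cases ha : ω ∈ A
    · by_cases hb : S 1 ω ∈ B
      · have hd : ω ∈ D := ⟨ha, hb⟩
        rw [Set.indicator_of_mem hb, hiA, hiD, Set.indicator_of_mem ha, Set.indicator_of_mem hd, mul_one]
      · have hd : ω ∉ D := fun h => hb h.2
        rw [Set.indicator_of_notMem hb, hiD, Set.indicator_of_notMem hd, zero_mul]
    · have hd : ω ∉ D := fun h => ha h.1
      rw [hiA, hiD, Set.indicator_of_notMem ha, Set.indicator_of_notMem hd, mul_zero]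
  have m1 : Measurable u := hum.mono (past_le 0) le_rfl
  have m2 : Measurable (cp μ D) := cp_meas μ hDm
  have m3 : Measurable (cp μ A) := cp_meas μ hAm
  have m4 : Measurable (fun ω => cp μ B (S 1 ω)) := (cp_meas μ hBm).comp (S_meas 1)
  have m5 : Measurable iA := measurable_const.indicator hAm
  have int1 : ∀ f : Bi → ℝ, Measurable f → (∀ ω, |f ω| ≤ 1) → Integrable f μ := fun f hf hb =>
    Integrable.mono' (integrable_const 1) hf.aestronglyMeasurable (Eventually.of_forall hb)
  have key : ∫ ω, iA ω * (w ω * w ω) ∂μ = 0 := by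
    have h1 : ∀ ω, iA ω * (w ω * w ω) = iA ω * (u ω * cp μ D ω) - cp μ B (S 1 ω) * (iA ω * (u ω * cp μ A ω)) := by
      intro ω
      by_cases ha : ω ∈ A
      · have h2 : u ω = w ω := by simp only [hu, hUA ω ha]
        rw [h2]
        simp only [hw]
        ring
      · rw [hiA, Set.indicator_of_notMem ha]
        ring
    simp only [h1]
    rw [integral_sub, i1, ← i2]
    · simp only [hprod]
      rw [i3, sub_eq_zero]
      apply integral_congr_ae
      exact Eventually.of_forall fun ω => by ring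
    · apply int1 _ (m5.mul (m1.mul m2))
      intro ω
      show |iA ω * (u ω * cp μ D ω)| ≤ 1
      rw [abs_mul, abs_mul]
      apply mul_le_one₀ (hiAb ω) (by positivity)
      exact mul_le_one₀ (hub ω) (abs_nonneg _) (by rw [abs_of_nonneg (cp_nonneg μ D ω)]; exact cp_le μ D ω)
    · apply int1 _ (m4.mul (m5.mul (m1.mul m3)))
      intro ω
      show |cp μ B (S 1 ω) * (iA ω * (u ω * cp μ A ω))| ≤ 1
      rw [abs_mul, abs_mul, abs_mul]
      apply mul_le_one₀ (by rw [abs_of_nonneg (cp_nonneg μ B _)]; exact cp_le μ B _) (by positivity)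
      apply mul_le_one₀ (hiAb ω) (by positivity)
      exact mul_le_one₀ (hub ω) (abs_nonneg _) (by rw [abs_of_nonneg (cp_nonneg μ A ω)]; exact cp_le μ A ω)
  have hwm' : Measurable w := hwm.mono (past_le 1) le_rfl
  have hnn : 0 ≤ᵐ[μ] fun ω => iA ω * (w ω * w ω) := by
    apply Eventually.of_forall
    intro ω
    apply mul_nonneg _ (mul_self_nonneg _)
    simp only [hiA, Set.indicator]
    split_ifs <;> simp
  rw [integral_eq_zero_iff_of_nonneg_ae hnn (int1 _ (m5.mul (hwm'.mul hwm')) (fun ω => by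
      rw [abs_mul, abs_mul]
      exact mul_le_one₀ (hiAb ω) (by positivity) (mul_le_one₀ (hwb ω) (abs_nonneg _) (hwb ω))))] at key
  filter_upwards [key] with ω hω hd
  have ha : ω ∈ A := hd
  simp only [hiA, Set.indicator_of_mem ha, one_mul, Pi.zero_apply, mul_self_eq_zero] at hω
  simp only [hw] at hω
  linarith

/-- the conditional probability of the first `R` digits that occur -/
noncomputable def Pi (R : ℕ) (ω : Bi) : ℝ := cp μ {ω' | N R ω' = N R ω} ω

/-- the conditional probability of the digit that occurs -/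
noncomputable def q (ω : Bi) : ℝ := cp μ {ω' | ω' 0 = ω 0} ω

lemma Pi_sum (R : ℕ) (ω : Bi) : Pi μ R ω = ∑ v ∈ range (6 ^ R),
    ({ω' : Bi | N R ω' = v}.indicator (fun _ => (1 : ℝ)) ω) * cp μ {ω' | N R ω' = v} ω := by
  rw [sum_eq_single (N R ω)]
  · have h : ω ∈ {ω' : Bi | N R ω' = N R ω} := rfl
    rw [Set.indicator_of_mem h, one_mul]
    rfl
  · intro v _ hv
    have h : ω ∉ {ω' : Bi | N R ω' = v} := fun h => hv h.symm
    rw [Set.indicator_of_notMem h, zero_mul]
  · intro h
    exact absurd (mem_range.2 (N_lt R ω)) h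

lemma Pi_meas (R : ℕ) : Measurable (Pi μ R) := by
  have h : Pi μ R = fun ω => ∑ v ∈ range (6 ^ R),
    ({ω' : Bi | N R ω' = v}.indicator (fun _ => (1 : ℝ)) ω) * cp μ {ω' | N R ω' = v} ω := funext fun ω => Pi_sum μ R ω
  rw [h]
  exact Finset.measurable_sum _ fun v _ => (measurable_const.indicator (N_set R v)).mul (cp_meas μ (N_set R v))

lemma q_eq (ω : Bi) : q μ ω = ∑ d : Fin 6, ({ω' : Bi | ω' 0 = d}.indicator (fun _ => (1 : ℝ)) ω) * cp μ {ω' | ω' 0 = d} ω := by
  rw [sum_eq_single (ω 0)]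
  · have h : ω ∈ {ω' : Bi | ω' 0 = ω 0} := rfl
    rw [Set.indicator_of_mem h, one_mul]
    rfl
  · intro v _ hv
    have h : ω ∉ {ω' : Bi | ω' 0 = v} := fun h => hv h.symm
    rw [Set.indicator_of_notMem h, zero_mul]
  · intro h
    exact absurd (mem_univ _) h

lemma q_meas : Measurable (q μ) := by
  have h : q μ = fun ω => ∑ d : Fin 6, ({ω' : Bi | ω' 0 = d}.indicator (fun _ => (1 : ℝ)) ω) * cp μ {ω' | ω' 0 = d} ω :=
    funext fun ω => q_eq μ ω
  rw [h]
  exact Finset.measurable_sum _ fun d _ => (measurable_const.indicator (d_set d)).mul (cp_meas μ (d_set d))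

lemma q_nonneg (ω : Bi) : 0 ≤ q μ ω := cp_nonneg μ _ ω

lemma q_le (ω : Bi) : q μ ω ≤ 1 := cp_le μ _ ω

lemma Pi_succ (hT : MeasurePreserving (S 1) μ μ) (R : ℕ) : ∀ᵐ ω ∂μ, Pi μ (R + 1) ω = q μ ω * Pi μ R (S 1 ω) := by
  have h1 : ∀ᵐ ω ∂μ, ∀ v : ℕ, ∀ d : Fin 6, ω 0 = d →
    cp μ {ω' | ω' 0 = d ∧ N R (S 1 ω') = v} ω = cp μ {ω' | ω' 0 = d} ω * cp μ {ω' | N R ω' = v} (S 1 ω) := by
    rw [ae_all_iff]
    intro v
    rw [ae_all_iff]
    intro d
    exact bayes μ hT R v d
  filter_upwards [h1] with ω hω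
  have h2 := hω (N R (S 1 ω)) (ω 0) rfl
  unfold Pi q
  rw [← h2]
  congr 1
  ext ω'
  simp only [Set.mem_ofPred_eq]
  rw [N_left, N_left]
  have a1 := N_lt R (S 1 ω')
  have a2 := N_lt R (S 1 ω)
  constructor
  · intro h
    have h3 : (ω' 0 : ℕ) = (ω 0 : ℕ) := by
      have b1 : (6 ^ R * (ω' 0 : ℕ) + N R (S 1 ω')) / 6 ^ R = (ω' 0 : ℕ) := by
        rw [Nat.mul_add_div (by positivity), Nat.div_eq_of_lt a1, add_zero]
      have b2 : (6 ^ R * (ω 0 : ℕ) + N R (S 1 ω)) / 6 ^ R = (ω 0 : ℕ) := by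
        rw [Nat.mul_add_div (by positivity), Nat.div_eq_of_lt a2, add_zero]
      rw [← b1, ← b2, h]
    refine ⟨Fin.ext h3, ?_⟩
    rw [h3] at h
    omega
  · rintro ⟨h3, h4⟩
    rw [h3, h4]

lemma Pi_zero (ω : Bi) : Pi μ 0 ω = 1 := by
  unfold Pi cp
  have : {ω' : Bi | N 0 ω' = N 0 ω} = Set.univ := by
    ext ω'
    simp [N]
  rw [this, probReal_univ]

lemma Pi_prod (hT : MeasurePreserving (S 1) μ μ) : ∀ᵐ ω ∂μ, ∀ R : ℕ, Pi μ R ω = ∏ i ∈ range R, q μ (S i ω) := by
  rw [ae_all_iff]
  intro R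
  induction R with
  | zero => exact Eventually.of_forall fun ω => by simp [Pi_zero]
  | succ R ih =>
    have h1 := hT.quasiMeasurePreserving.ae ih
    filter_upwards [h1, Pi_succ μ hT R] with ω h2 h3
    rw [h3, h2, prod_range_succ', mul_comm]
    congr 1
    · apply prod_congr rfl
      intro i _
      rw [S_S]
      push_cast
      rfl
    · simp [S_zero]

/-- the expected probability of a collision -/
noncomputable def Col (R : ℕ) (ω : Bi) : ℝ := ∑ v ∈ range (6 ^ R), cp μ {ω' | N R ω' = v} ω ^ 2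

lemma Col_meas (R : ℕ) : Measurable (Col μ R) :=
  Finset.measurable_sum _ fun v _ => (cp_meas μ (N_set R v)).pow_const 2

lemma Col_int (R : ℕ) : ∫ ω, Col μ R ω ∂μ = ∫ ω, Pi μ R ω ∂μ := by
  have int1 : ∀ f : Bi → ℝ, Measurable f → (∀ ω, |f ω| ≤ 1) → Integrable f μ := fun f hf hb =>
    Integrable.mono' (integrable_const 1) hf.aestronglyMeasurable (Eventually.of_forall hb)
  have hb : ∀ v : ℕ, ∀ ω, |cp μ {ω' | N R ω' = v} ω| ≤ 1 := fun v ω => by
    rw [abs_of_nonneg (cp_nonneg μ _ ω)]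
    exact cp_le μ _ ω
  have hb' : ∀ v : ℕ, ∀ ω, |{ω' : Bi | N R ω' = v}.indicator (fun _ => (1 : ℝ)) ω| ≤ 1 := by
    intro v ω
    simp only [Set.indicator]
    split_ifs <;> simp
  unfold Col
  simp only [Pi_sum]
  rw [integral_finsetSum, integral_finsetSum]
  · apply sum_congr rfl
    intro v _
    have := orth μ (N_set R v) (cp μ {ω' | N R ω' = v}) (cp_past μ (N_set R v)).stronglyMeasurable 1 (hb v)
    simp only [smul_eq_mul] at this
    rw [this]
    simp only [pow_two]
  · intro v _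
    apply int1 _ ((measurable_const.indicator (N_set R v)).mul (cp_meas μ (N_set R v)))
    intro ω
    show |{ω' : Bi | N R ω' = v}.indicator (fun _ => (1 : ℝ)) ω * cp μ {ω' | N R ω' = v} ω| ≤ 1
    rw [abs_mul]
    exact mul_le_one₀ (hb' v ω) (abs_nonneg _) (hb v ω)
  · intro v _
    apply int1 _ ((cp_meas μ (N_set R v)).pow_const 2)
    intro ω
    rw [abs_pow]
    exact pow_le_one₀ (abs_nonneg _) (hb v ω)

/-- no part of the process is deterministic -/
def ND : Prop := ∀ A : Set Bi, MeasurableSet A → S 1 ⁻¹' A = A → μ A ≠ 0 →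
  ¬ ∃ g : Bi → Fin 6, Measurable[past 0] g ∧ ∀ᵐ ω ∂(μ.restrict A), ω 0 = g ω

lemma q_not_one (hT : MeasurePreserving (S 1) μ μ) (hN : ND μ) :
    ∀ᵐ ω ∂μ, ¬ Tendsto (fun i : ℕ => q μ (S i ω)) atTop (𝓝 1) := by
  set E : Set Bi := {ω | Tendsto (fun i : ℕ => q μ (S i ω)) atTop (𝓝 1)} with hE
  have hqS : ∀ i : ℕ, Measurable (fun ω => q μ (S i ω)) := fun i => (q_meas μ).comp (S_meas _)
  have hEm : MeasurableSet E := measurableSet_tendsto (𝓝 1) hqS
  have hEi : S 1 ⁻¹' E = E := by
    ext ω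
    simp only [hE, Set.mem_preimage, Set.mem_ofPred_eq, S_S]
    rw [← tendsto_add_atTop_iff_nat (f := fun i : ℕ => q μ (S i ω)) 1]
    push_cast
    rfl
  have key : ∫ ω in E, (1 - q μ ω) ∂μ = 0 := by
    have h1 : ∀ i : ℕ, ∫ ω in E, (1 - q μ (S i ω)) ∂μ = ∫ ω in E, (1 - q μ ω) ∂μ := by
      intro i
      induction i with
      | zero => simp [S_zero]
      | succ i ih =>
        rw [← ih]
        have h2 := setIntegral_map (μ := μ) (g := S 1) (f := fun ω => 1 - q μ (S i ω)) hEm
          (measurable_const.sub (hqS i)).aestronglyMeasurable (S_meas 1).aemeasurable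
        rw [hEi, hT.map_eq] at h2
        rw [h2]
        simp only [S_S]
        push_cast
        rfl
    have h3 : Tendsto (fun i : ℕ => ∫ ω in E, (1 - q μ (S i ω)) ∂μ) atTop (𝓝 (∫ ω in E, (0 : ℝ) ∂μ)) := by
      apply tendsto_integral_of_dominated_convergence (fun _ => (1 : ℝ))
      · intro i
        exact (measurable_const.sub (hqS i)).aestronglyMeasurable
      · exact integrable_const _
      · intro i
        apply Eventually.of_forall
        intro ω
        have a1 := q_nonneg μ (S i ω)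
        have a2 := q_le μ (S i ω)
        rw [Real.norm_eq_abs, abs_le]
        constructor <;> linarith
      · rw [ae_restrict_iff' hEm]
        apply Eventually.of_forall
        intro ω hω
        have : Tendsto (fun i : ℕ => 1 - q μ (S i ω)) atTop (𝓝 (1 - 1)) := tendsto_const_nhds.sub hω
        simpa using this
    simp only [h1, integral_zero] at h3
    exact tendsto_nhds_unique tendsto_const_nhds h3
  by_contra hcon
  have hpos : μ E ≠ 0 := by
    intro h0
    apply hcon
    rw [ae_iff]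
    simpa [hE] using h0
  apply hN E hEm hEi hpos
  refine ⟨fun ω => ∑ d : Fin 6, if cp μ {ω' | ω' 0 = d} ω = 1 then d else 0, ?_, ?_⟩
  · apply Finset.measurable_sum
    intro d _
    apply Measurable.ite _ measurable_const measurable_const
    exact (cp_past μ (d_set d)) (measurableSet_singleton 1)
  · have hq1 : ∀ᵐ ω ∂(μ.restrict E), q μ ω = 1 := by
      have hint : Integrable (fun ω => 1 - q μ ω) (μ.restrict E) :=
        (integrable_const 1).sub (Integrable.mono' (integrable_const 1) (q_meas μ).aestronglyMeasurable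
          (Eventually.of_forall fun ω => by rw [Real.norm_eq_abs, abs_of_nonneg (q_nonneg μ ω)]; exact q_le μ ω))
      have hnn : 0 ≤ᵐ[μ.restrict E] fun ω => 1 - q μ ω := Eventually.of_forall fun ω => by
        have := q_le μ ω
        show 0 ≤ 1 - q μ ω
        linarith
      rw [integral_eq_zero_iff_of_nonneg_ae hnn hint] at key
      filter_upwards [key] with ω hω
      simp only [Pi.zero_apply] at hω
      linarith
    filter_upwards [hq1] with ω hω
    rw [sum_eq_single (ω 0)]
    · rw [if_pos]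
      exact hω
    · intro d _ hd
      rw [if_neg]
      intro h1
      have h2 : cp μ {ω' | ω' 0 = ω 0} ω = 1 := hω
      unfold cp at h1 h2
      have hdis : Disjoint {ω' : Bi | ω' 0 = d} {ω' | ω' 0 = ω 0} := by
        rw [Set.disjoint_left]
        intro ω' ha hb
        exact hd (ha.symm.trans hb)
      have h3 := measureReal_union (μ := condExpKernel μ (past 0) ω) hdis (d_set (ω 0))
      have h4 : (condExpKernel μ (past 0) ω).real ({ω' : Bi | ω' 0 = d} ∪ {ω' | ω' 0 = ω 0}) ≤ 1 := measureReal_le_one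
      rw [h3, h1, h2] at h4
      norm_num at h4
    · intro h
      exact absurd (mem_univ _) h

/-- the conditional probability of the past given... tends to zero -/
lemma Pi_tendsto (hT : MeasurePreserving (S 1) μ μ) (hN : ND μ) :
    ∀ᵐ ω ∂μ, Tendsto (fun R => Pi μ R ω) atTop (𝓝 0) := by
  filter_upwards [q_not_one μ hT hN, Pi_prod μ hT] with ω h1 h2
  have h3 : Antitone (fun R : ℕ => Pi μ R ω) := by
    apply antitone_nat_of_succ_le
    intro R
    rw [h2, h2, prod_range_succ]
    exact mul_le_of_le_one_right (prod_nonneg fun i _ => q_nonneg μ _) (q_le μ _)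
  have h4 : ∀ R : ℕ, 0 ≤ Pi μ R ω := fun R => cp_nonneg μ _ ω
  have h5 := tendsto_atTop_ciInf h3 ⟨0, fun x ⟨R, hR⟩ => hR ▸ h4 R⟩
  set l : ℝ := ⨅ R, Pi μ R ω with hl
  have hl0 : 0 ≤ l := le_ciInf h4
  rcases hl0.lt_or_eq with hpos | h0
  · exfalso
    apply h1
    have h6 : Tendsto (fun R : ℕ => Pi μ (R + 1) ω / Pi μ R ω) atTop (𝓝 (l / l)) :=
      ((tendsto_add_atTop_iff_nat 1).2 h5).div h5 hpos.ne'
    rw [div_self hpos.ne'] at h6
    refine h6.congr fun R => ?_
    have h7 : l ≤ Pi μ R ω := ciInf_le ⟨0, fun x ⟨R, hR⟩ => hR ▸ h4 R⟩ R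
    have h8 : Pi μ (R + 1) ω = Pi μ R ω * q μ (S R ω) := by rw [h2, h2, prod_range_succ]
    rw [h8, mul_div_cancel_left₀ _ (by linarith : (0 : ℝ) < Pi μ R ω).ne']
  · rw [← h0] at h5
    exact h5

/-- the collision probabilities tend to zero in the mean -/
theorem Col_tendsto (hT : MeasurePreserving (S 1) μ μ) (hN : ND μ) :
    Tendsto (fun R => ∫ ω, Col μ R ω ∂μ) atTop (𝓝 0) := by
  simp only [Col_int]
  have h := tendsto_integral_of_dominated_convergence (μ := μ) (F := fun R ω => Pi μ R ω) (f := fun _ => (0 : ℝ))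
    (fun _ => (1 : ℝ)) (fun R => (Pi_meas μ R).aestronglyMeasurable) (integrable_const _)
    (fun R => Eventually.of_forall fun ω => by
      show ‖cp μ _ ω‖ ≤ 1
      rw [Real.norm_eq_abs, abs_of_nonneg (cp_nonneg μ _ ω)]
      exact cp_le μ _ ω) (Pi_tendsto μ hT hN)
  simpa using h

end M

end Pool.Agent.Zk45.Hst
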