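import Mathlib
import Pool.Agent.Zk45.Host1
import Pool.Agent.H165R3.BPE

set_option autoImplicit false

/-! A strong law for sequences orthogonal at a distance; averages along the skew product over the rotation. -/

open Finset Filter Topology MeasureTheory ProbabilityTheory

namespace Pool.Agent.Zk45.Hst

open Pool.Agent.Zk45.W Pool.Agent.Zk45.R

section L2

variable {Ω : Type*} [MeasurableSpace Ω] (μ : Measure Ω) [IsProbabilityMeasure μ]

lemma second (b : ℕ → Ω → ℂ) (hb : ∀ n, Measurable (b n)) (hbd : ∀ n ω, ‖b n ω‖ ≤ 2) (l : ℕ)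
    (ho : ∀ n n', n + l ≤ n' → ∫ ω, b n' ω * (starRingEnd ℂ) (b n ω) ∂μ = 0) (M : ℕ) :
    ∫ ω, ‖∑ n ∈ range M, b n ω‖ ^ 2 ∂μ ≤ 8 * (l + 1) * M := by
  have hint : ∀ n n', Integrable (fun ω => b n' ω * (starRingEnd ℂ) (b n ω)) μ := by
    intro n n'
    refine Integrable.mono' (integrable_const 4) ?_ (Eventually.of_forall fun ω => ?_)
    · exact ((hb n').mul (Complex.continuous_conj.measurable.comp (hb n))).aestronglyMeasurable
    · rw [norm_mul, RCLike.norm_conj]
      nlinarith [hbd n ω, hbd n' ω, norm_nonneg (b n ω), norm_nonneg (b n' ω)]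
  have hbnd : ∀ n n', ‖∫ ω, b n' ω * (starRingEnd ℂ) (b n ω) ∂μ‖ ≤ 4 := by
    intro n n'
    have := norm_integral_le_of_norm_le_const (μ := μ) (f := fun ω => b n' ω * (starRingEnd ℂ) (b n ω)) (C := 4)
      (Eventually.of_forall fun ω => by
        rw [norm_mul, RCLike.norm_conj]
        nlinarith [hbd n ω, hbd n' ω, norm_nonneg (b n ω), norm_nonneg (b n' ω)])
    simpa using this
  have hzero : ∀ n n', n' + l ≤ n → ∫ ω, b n' ω * (starRingEnd ℂ) (b n ω) ∂μ = 0 := by
    intro n n' h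
    have h1 := ho n' n h
    have h2 : ∀ ω, b n' ω * (starRingEnd ℂ) (b n ω) = (starRingEnd ℂ) (b n ω * (starRingEnd ℂ) (b n' ω)) := by
      intro ω
      rw [map_mul, Complex.conj_conj, mul_comm]
    simp only [h2]
    rw [integral_conj, h1, map_zero]
  have h1 : (((∫ ω, ‖∑ n ∈ range M, b n ω‖ ^ 2 ∂μ : ℝ)) : ℂ) =
      ∑ n' ∈ range M, ∑ n ∈ range M, ∫ ω, b n' ω * (starRingEnd ℂ) (b n ω) ∂μ := by
    rw [← integral_complex_ofReal]
    have h2 : ∀ ω, ((‖∑ n ∈ range M, b n ω‖ ^ 2 : ℝ) : ℂ) =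
        ∑ n' ∈ range M, ∑ n ∈ range M, b n' ω * (starRingEnd ℂ) (b n ω) := by
      intro ω
      rw [← sum_mul_sum, ← map_sum, Complex.mul_conj, Complex.normSq_eq_norm_sq]
    simp only [h2]
    rw [integral_finsetSum]
    · apply sum_congr rfl
      intro n' _
      rw [integral_finsetSum]
      intro n _
      exact hint n n'
    · intro n' _
      exact integrable_finsetSum _ fun n _ => hint n n'
  have h3 : ∫ ω, ‖∑ n ∈ range M, b n ω‖ ^ 2 ∂μ ≤ ∑ n' ∈ range M, ∑ n ∈ range M,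
      (if n' < n + l ∧ n < n' + l then (4 : ℝ) else 0) := by
    have h4 : ∫ ω, ‖∑ n ∈ range M, b n ω‖ ^ 2 ∂μ = ‖(((∫ ω, ‖∑ n ∈ range M, b n ω‖ ^ 2 ∂μ : ℝ)) : ℂ)‖ := by
      rw [Complex.norm_real, Real.norm_of_nonneg]
      exact integral_nonneg fun ω => by positivity
    rw [h4, h1]
    refine (norm_sum_le _ _).trans (sum_le_sum fun n' _ => (norm_sum_le _ _).trans (sum_le_sum fun n _ => ?_))
    split_ifs with h
    · exact hbnd n n'
    · rw [not_and_or, not_lt, not_lt] at h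
      rcases h with h | h
      · rw [ho n n' h, norm_zero]
      · rw [hzero n n' h, norm_zero]
  refine h3.trans ?_
  have h5 : ∀ n' ∈ range M, ∑ n ∈ range M, (if n' < n + l ∧ n < n' + l then (4 : ℝ) else 0) ≤ 8 * (l + 1) := by
    intro n' _
    rw [← sum_filter, sum_const, nsmul_eq_mul]
    have h6 : ((range M).filter (fun n => n' < n + l ∧ n < n' + l)).card ≤ 2 * l := by
      have h7 : (range M).filter (fun n => n' < n + l ∧ n < n' + l) ⊆ Ico (n' - l) (n' + l) := by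
        intro n hn
        rw [mem_filter] at hn
        rw [mem_Ico]
        omega
      have h8 := card_le_card h7
      rw [Nat.card_Ico] at h8
      omega
    have h9 : (((range M).filter (fun n => n' < n + l ∧ n < n' + l)).card : ℝ) ≤ 2 * l := by exact_mod_cast h6
    linarith
  calc _ ≤ ∑ n' ∈ range M, (8 * ((l : ℝ) + 1)) := sum_le_sum h5
    _ = 8 * (l + 1) * M := by
      rw [sum_const, card_range, nsmul_eq_mul]
      ring

/-- a strong law of large numbers -/
theorem slln (b : ℕ → Ω → ℂ) (hb : ∀ n, Measurable (b n)) (hbd : ∀ n ω, ‖b n ω‖ ≤ 2) (l : ℕ)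
    (ho : ∀ n n', n + l ≤ n' → ∫ ω, b n' ω * (starRingEnd ℂ) (b n ω) ∂μ = 0) :
    ∀ᵐ ω ∂μ, ∀ δ : ℝ, 0 < δ → ∀ᶠ M : ℕ in atTop, ‖∑ n ∈ range M, b n ω‖ ≤ δ * M := by
  have hmeas : ∀ M : ℕ, Measurable (fun ω => ‖∑ n ∈ range M, b n ω‖) := fun M =>
    (Finset.measurable_sum _ fun n _ => hb n).norm
  -- along the squares
  have hsq : ∀ j : ℕ, ∀ᵐ ω ∂μ, ∀ᶠ k : ℕ in atTop, ‖∑ n ∈ range (k ^ 2), b n ω‖ < 1 / ((j : ℝ) + 1) * (k : ℝ) ^ 2 := by
    intro j
    set δ : ℝ := 1 / ((j : ℝ) + 1) with hδ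
    have hδ0 : 0 < δ := by positivity
    have h1 : ∀ k : ℕ, μ {ω | ¬ ‖∑ n ∈ range ((k + 1) ^ 2), b n ω‖ < δ * ((k + 1 : ℕ) : ℝ) ^ 2} ≤
        ENNReal.ofReal (8 * (l + 1) / δ ^ 2 * (1 / ((k + 1 : ℕ) : ℝ) ^ 2)) := by
      intro k
      set K : ℝ := ((k + 1 : ℕ) : ℝ) with hK
      have hK0 : 0 < K := by
        rw [hK]
        positivity
      have h2 := second μ b hb hbd l ho ((k + 1) ^ 2)
      have h3 := mul_meas_ge_le_integral_of_nonneg (μ := μ) (f := fun ω => ‖∑ n ∈ range ((k + 1) ^ 2), b n ω‖ ^ 2)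
        (Eventually.of_forall fun ω => by positivity) (by
          refine Integrable.mono' (integrable_const (((((k + 1) ^ 2 : ℕ) : ℝ) * 2) ^ 2))
            ((hmeas _).pow_const 2).aestronglyMeasurable (Eventually.of_forall fun ω => ?_)
          rw [Real.norm_of_nonneg (by positivity)]
          apply pow_le_pow_left₀ (norm_nonneg _)
          refine (norm_sum_le _ _).trans ((sum_le_sum fun n _ => hbd n ω).trans ?_)
          rw [sum_const, card_range, nsmul_eq_mul]) ((δ * K ^ 2) ^ 2)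
      have h4 : {ω | ¬ ‖∑ n ∈ range ((k + 1) ^ 2), b n ω‖ < δ * K ^ 2} ⊆
          {ω | (δ * K ^ 2) ^ 2 ≤ ‖∑ n ∈ range ((k + 1) ^ 2), b n ω‖ ^ 2} := by
        intro ω hω
        simp only [Set.mem_ofPred_eq, not_lt] at hω ⊢
        exact pow_le_pow_left₀ (by positivity) hω 2
      have h5 : μ.real {ω | ¬ ‖∑ n ∈ range ((k + 1) ^ 2), b n ω‖ < δ * K ^ 2} ≤
          8 * (l + 1) / δ ^ 2 * (1 / K ^ 2) := by
        refine (measureReal_mono h4 (measure_ne_top _ _)).trans ?_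
        have h6 : (δ * K ^ 2) ^ 2 * μ.real {ω | (δ * K ^ 2) ^ 2 ≤ ‖∑ n ∈ range ((k + 1) ^ 2), b n ω‖ ^ 2} ≤
            8 * (l + 1) * K ^ 2 := by
          refine h3.trans (h2.trans (le_of_eq ?_))
          rw [hK]
          push_cast
          ring
        have h7 : (0 : ℝ) < (δ * K ^ 2) ^ 2 := by positivity
        rw [← le_div_iff₀' h7] at h6
        refine h6.trans (le_of_eq ?_)
        field_simp
      rw [measureReal_def] at h5
      rw [← ENNReal.ofReal_toReal (measure_ne_top μ _)]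
      exact ENNReal.ofReal_le_ofReal h5
    have hsum : ∑' k : ℕ, μ {ω | ¬ ‖∑ n ∈ range ((k + 1) ^ 2), b n ω‖ < δ * ((k + 1 : ℕ) : ℝ) ^ 2} ≠ ⊤ := by
      have h2 : Summable (fun k : ℕ => 8 * ((l : ℝ) + 1) / δ ^ 2 * (1 / ((k + 1 : ℕ) : ℝ) ^ 2)) := by
        apply Summable.mul_left
        exact (summable_nat_add_iff 1).2 (Real.summable_one_div_nat_pow.2 (by norm_num))
      have h3 : ∑' k : ℕ, ENNReal.ofReal (8 * ((l : ℝ) + 1) / δ ^ 2 * (1 / ((k + 1 : ℕ) : ℝ) ^ 2)) ≠ ⊤ := by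
        rw [← ENNReal.ofReal_tsum_of_nonneg (fun k => by positivity) h2]
        exact ENNReal.ofReal_ne_top
      exact ne_top_of_le_ne_top h3 (ENNReal.tsum_le_tsum h1)
    have h2 := ae_eventually_notMem hsum
    filter_upwards [h2] with ω hω
    have h3 : ∀ᶠ k : ℕ in atTop, ‖∑ n ∈ range ((k + 1) ^ 2), b n ω‖ < δ * ((k + 1 : ℕ) : ℝ) ^ 2 := by
      filter_upwards [hω] with k hk
      simpa using hk
    obtain ⟨k0, hk0⟩ := eventually_atTop.1 h3
    rw [eventually_atTop]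
    refine ⟨k0 + 1, fun k hk => ?_⟩
    obtain ⟨k', rfl⟩ : ∃ k', k = k' + 1 := ⟨k - 1, by omega⟩
    exact hk0 k' (by omega)
  filter_upwards [ae_all_iff.2 hsq] with ω hω δ hδ
  obtain ⟨j, hj⟩ := exists_nat_one_div_lt (show 0 < δ / 2 by linarith)
  obtain ⟨k0, hk0⟩ := eventually_atTop.1 (hω j)
  obtain ⟨k1, hk1⟩ := exists_nat_ge (12 / δ)
  rw [eventually_atTop]
  refine ⟨(k0 + k1 + 1) ^ 2, fun M hM => ?_⟩
  set k : ℕ := Nat.sqrt M with hk
  have hk2 : k ^ 2 ≤ M := Nat.sqrt_le' M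
  have hk3 : M < (k + 1) ^ 2 := Nat.lt_succ_sqrt' M
  have hk4 : k0 + k1 + 1 ≤ k := by
    rw [hk, Nat.le_sqrt']
    exact hM
  have h1 := hk0 k (by omega)
  have h2 : ∑ n ∈ range M, b n ω = ∑ n ∈ range (k ^ 2), b n ω + ∑ n ∈ Ico (k ^ 2) M, b n ω := by
    rw [range_eq_Ico, range_eq_Ico, sum_Ico_consecutive _ (Nat.zero_le _) hk2]
  have h3 : ‖∑ n ∈ Ico (k ^ 2) M, b n ω‖ ≤ 6 * k := by
    refine (norm_sum_le _ _).trans ((sum_le_sum fun n _ => hbd n ω).trans ?_)
    rw [sum_const, Nat.card_Ico, nsmul_eq_mul]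
    have h4 : M - k ^ 2 ≤ 3 * k := by
      have : (k + 1) ^ 2 = k ^ 2 + 2 * k + 1 := by ring
      omega
    have h5 : ((M - k ^ 2 : ℕ) : ℝ) ≤ 3 * k := by exact_mod_cast h4
    linarith
  have h4 : (k : ℝ) ^ 2 ≤ M := by exact_mod_cast hk2
  have h5 : 1 / ((j : ℝ) + 1) * (k : ℝ) ^ 2 ≤ δ / 2 * M := mul_le_mul hj.le h4 (by positivity) (by linarith)
  have h6 : 12 ≤ δ * k := by
    rw [div_le_iff₀ hδ] at hk1
    have : (k1 : ℝ) ≤ k := by exact_mod_cast (by omega : k1 ≤ k)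
    nlinarith
  have h7 : 6 * (k : ℝ) ≤ δ / 2 * M := by
    have hk0 : (0 : ℝ) ≤ k := Nat.cast_nonneg _
    nlinarith
  rw [h2]
  refine (norm_add_le _ _).trans ?_
  linarith

end L2

/-- Lebesgue measure on `[0, 1)` -/
noncomputable def nu : Measure ℝ := volume.restrict (Set.Ico 0 1)

instance : IsProbabilityMeasure nu := ⟨by simp [nu]⟩

/-- the rotation -/
noncomputable def rot (τ : ℝ) : ℝ := if τ + th < 1 then τ + th else τ + (th - 1)

lemma rot_meas : Measurable rot :=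
  Measurable.ite (measurableSet_lt (by fun_prop) measurable_const) (by fun_prop) (by fun_prop)

lemma rot_mp : MeasurePreserving rot nu nu := by
  refine ⟨rot_meas, ?_⟩
  have h1 := th_pos
  have h2 := th_hi
  ext s hs
  rw [Measure.map_apply rot_meas hs]
  unfold nu
  rw [Measure.restrict_apply (rot_meas hs), Measure.restrict_apply hs]
  have e1 : rot ⁻¹' s ∩ Set.Ico 0 1 = ((fun x => x + th) ⁻¹' (s ∩ Set.Ico th 1)) ∪
      ((fun x => x + (th - 1)) ⁻¹' (s ∩ Set.Ico 0 th)) := by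
    ext x
    simp only [Set.mem_inter_iff, Set.mem_preimage, Set.mem_Ico, Set.mem_union, rot]
    constructor
    · rintro ⟨ha, hb, hc⟩
      by_cases h : x + th < 1
      · rw [if_pos h] at ha
        left
        exact ⟨ha, by linarith, h⟩
      · rw [if_neg h] at ha
        right
        exact ⟨ha, by linarith, by linarith⟩
    · rintro (⟨ha, hb, hc⟩ | ⟨ha, hb, hc⟩)
      · rw [if_pos hc]
        exact ⟨ha, by linarith, by linarith⟩
      · rw [if_neg (by linarith)]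
        exact ⟨ha, by linarith, by linarith⟩
  have e2 : s ∩ Set.Ico 0 1 = (s ∩ Set.Ico th 1) ∪ (s ∩ Set.Ico 0 th) := by
    rw [← Set.inter_union_distrib_left, Set.union_comm, Set.Ico_union_Ico_eq_Ico h1.le (by linarith)]
  rw [e1, e2, measure_union, measure_union, measure_preimage_add_right, measure_preimage_add_right]
  · rw [Set.disjoint_left]
    rintro x ⟨_, hx⟩ ⟨_, hy⟩
    rw [Set.mem_Ico] at hx hy
    linarith [hx.1, hy.2]
  · exact hs.inter measurableSet_Ico
  · rw [Set.disjoint_left]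
    rintro x ⟨_, hx⟩ ⟨_, hy⟩
    rw [Set.mem_Ico] at hx hy
    linarith [hx.2, hy.1]
  · exact (by fun_prop : Measurable (fun x : ℝ => x + (th - 1))) (hs.inter measurableSet_Ico)

/-- the skew product -/
noncomputable def Tt (p : ℝ × Bi) : ℝ × Bi := (rot p.1, if p.1 + th < 1 then p.2 else S 1 p.2)

lemma Tt_mp (μ : Measure Bi) [IsProbabilityMeasure μ] (hT : MeasurePreserving (S 1) μ μ) :
    MeasurePreserving Tt (nu.prod μ) (nu.prod μ) := by
  apply MeasurePreserving.skew_product rot_mp (g := fun τ ω => if τ + th < 1 then ω else S 1 ω)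
  · apply Measurable.ite _ measurable_snd ((S_meas 1).comp measurable_snd)
    exact measurableSet_lt (by fun_prop) measurable_const
  · apply Eventually.of_forall
    intro τ
    by_cases h : τ + th < 1
    · simp only [if_pos h]
      exact Measure.map_id
    · simp only [if_neg h]
      exact hT.map_eq

lemma Tt_iter (τ : ℝ) (h0 : 0 ≤ τ) (h1 : τ < 1) (ω : Bi) (n : ℕ) :
    Tt^[n] (τ, ω) = (Int.fract (n * th + τ), S ⌊n * th + τ⌋ ω) := by
  induction n with
  | zero =>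
    have h2 : ⌊τ⌋ = 0 := Int.floor_eq_zero_iff.2 ⟨h0, h1⟩
    simp [Int.fract, h2, S_zero]
  | succ n ih =>
    rw [Function.iterate_succ_apply', ih]
    unfold Tt rot
    have a1 := th_pos
    have a2 := th_hi
    have f0 := Int.fract_nonneg (n * th + τ)
    have f1 := Int.fract_lt_one (n * th + τ)
    have e1 : ((n + 1 : ℕ) : ℝ) * th + τ = (n * th + τ) + th := by
      push_cast
      ring
    rw [e1]
    set x : ℝ := n * th + τ with hx
    have hxf : x = ⌊x⌋ + Int.fract x := (Int.floor_add_fract x).symm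
    by_cases h : Int.fract x + th < 1
    · simp only [if_pos h]
      have h2 : ⌊x + th⌋ = ⌊x⌋ := by
        rw [Int.floor_eq_iff]
        constructor <;> linarith
      rw [Int.fract, Int.fract, h2]
      congr 1
      ring
    · simp only [if_neg h]
      have h2 : ⌊x + th⌋ = ⌊x⌋ + 1 := by
        rw [Int.floor_eq_iff]
        push_cast
        constructor <;> linarith
      rw [Int.fract, Int.fract, h2, S_S]
      congr 1
      · push_cast
        ring
      · congr 1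
        ring

/-- equidistribution of the rotation with an arbitrary starting point -/
lemma rot_equi_tau (τ a b ε : ℝ) (ha : 0 ≤ a) (hab : a ≤ b) (hb : b ≤ 1) (hε : 0 < ε) :
    ∀ᶠ M : ℕ in atTop,
    |(((range M).filter (fun n : ℕ => a ≤ Int.fract (n * th + τ) ∧ Int.fract (n * th + τ) < b)).card : ℝ) -
      (b - a) * M| ≤ ε * M := by
  obtain ⟨H, δ, hδ, h⟩ := weyl_fin a b ε ha hab hb hε
  have hC : ∃ C : ℝ, ∀ h : ℤ, h ≠ 0 → |h| ≤ H → ∀ M : ℕ,
      ‖∑ n ∈ range M, e (h * (n * th + τ))‖ ≤ C := by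
    choose! C hC using rot_sum
    refine ⟨∑ h ∈ Icc (-(H : ℤ)) H, |C h|, fun h h0 hh M => ?_⟩
    have h1 : h ∈ Icc (-(H : ℤ)) H := by
      rw [mem_Icc]
      exact abs_le.1 hh
    have h2 : ‖∑ n ∈ range M, e (h * (n * th + τ))‖ ≤ C h := by
      have h3 : ∑ n ∈ range M, e (h * (n * th + τ)) = (∑ n ∈ range M, e (h * (n * th))) * e (h * τ) := by
        rw [sum_mul]
        apply sum_congr rfl
        intro n _
        rw [← e_add]
        congr 1
        ring
      rw [h3, norm_mul, norm_e, mul_one]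
      have := hC h h0 0 M
      rwa [zero_add, ← range_eq_Ico] at this
    exact (h2.trans (le_abs_self _)).trans (single_le_sum (f := fun h => |C h|) (fun i _ => abs_nonneg _) h1)
  obtain ⟨C, hC⟩ := hC
  obtain ⟨N0, hN0⟩ := exists_nat_ge (C / δ)
  rw [eventually_atTop]
  refine ⟨N0, fun M hM => ?_⟩
  have h1 := h ℕ (range M) (fun n => n * th + τ) (fun h h0 hh => (hC h h0 hh M).trans (by
    rw [card_range]
    have : (N0 : ℝ) ≤ M := by exact_mod_cast hM
    rw [div_le_iff₀ hδ] at hN0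
    nlinarith))
  rw [card_range] at h1
  exact h1

/-- averages of a Lipschitz function along the rotation -/
lemma rot_avg (g : ℝ → ℝ) (hg : ContinuousOn g (Set.Icc 0 1)) (h0 : ∀ x, 0 ≤ g x) (h1 : ∀ x, g x ≤ 1) (Λ : ℝ) (hΛ : 0 ≤ Λ)
    (hL : ∀ x y, 0 ≤ x → x ≤ 1 → 0 ≤ y → y ≤ 1 → |g x - g y| ≤ Λ * |x - y|) (τ ε : ℝ) (hε : 0 < ε) :
    ∀ᶠ M : ℕ in atTop, ∑ n ∈ range M, g (Int.fract (n * th + τ)) ≤ ((∫ x in (0 : ℝ)..1, g x) + ε) * M := by
  classical
  obtain ⟨J, hJ'⟩ := exists_nat_gt (4 * (Λ + 1) / ε + Λ)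
  have hJpos : 0 ≤ 4 * (Λ + 1) / ε := by positivity
  have hJ : 4 * (Λ + 1) / ε < J := by linarith
  have hJΛ : Λ < J := by linarith
  have hJr : (0 : ℝ) < J := by linarith
  have hJ0 : 0 < J := by exact_mod_cast hJr
  have hcell : ∀ i ∈ range J, ∀ᶠ M : ℕ in atTop,
      |(((range M).filter (fun n : ℕ => (i : ℝ) / J ≤ Int.fract (n * th + τ) ∧
        Int.fract (n * th + τ) < ((i : ℝ) + 1) / J)).card : ℝ) - (1 / J) * M| ≤ (ε / (4 * J)) * M := by
    intro i hi
    have hi' : (i : ℝ) + 1 ≤ J := by exact_mod_cast (mem_range.1 hi)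
    have h := rot_equi_tau τ ((i : ℝ) / J) (((i : ℝ) + 1) / J) (ε / (4 * J)) (by positivity)
      (by apply div_le_div_of_nonneg_right _ hJr.le; linarith)
      (by rw [div_le_one hJr]; exact hi') (by positivity)
    have h2 : ((i : ℝ) + 1) / J - (i : ℝ) / J = 1 / J := by ring
    rw [h2] at h
    exact h
  rw [← eventually_all_finset] at hcell
  filter_upwards [hcell] with M hM
  set x : ℕ → ℝ := fun n => Int.fract (n * th + τ) with hx
  have hx0 : ∀ n, 0 ≤ x n := fun n => Int.fract_nonneg _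
  have hx1 : ∀ n, x n < 1 := fun n => Int.fract_lt_one _
  have hmaps : ∀ n ∈ range M, ⌊(J : ℝ) * x n⌋₊ ∈ range J := by
    intro n _
    rw [mem_range, Nat.floor_lt (by have := hx0 n; positivity)]
    have := hx1 n
    nlinarith
  have hiff : ∀ (i n : ℕ), ⌊(J : ℝ) * x n⌋₊ = i ↔ (i : ℝ) / J ≤ x n ∧ x n < ((i : ℝ) + 1) / J := by
    intro i n
    rw [Nat.floor_eq_iff (by have := hx0 n; positivity), div_le_iff₀ hJr, lt_div_iff₀ hJr, mul_comm]
  rw [← sum_fiberwise_of_maps_to hmaps]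
  -- the integral over a cell
  have hcont : ∀ i ∈ range J, ContinuousOn g (Set.uIcc ((i : ℝ) / J) (((i : ℝ) + 1) / J)) := by
    intro i hi
    have hi' : (i : ℝ) + 1 ≤ J := by exact_mod_cast (mem_range.1 hi)
    rw [Set.uIcc_of_le (by apply div_le_div_of_nonneg_right _ hJr.le; linarith)]
    apply hg.mono
    apply Set.Icc_subset_Icc (by positivity)
    rw [div_le_one hJr]
    exact hi'
  have hlow : ∀ i ∈ range J, (1 / J : ℝ) * (g ((i : ℝ) / J) - Λ / J) ≤
      ∫ t in ((i : ℝ) / J)..(((i : ℝ) + 1) / J), g t := by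
    intro i hi
    have hi' : (i : ℝ) + 1 ≤ J := by exact_mod_cast (mem_range.1 hi)
    have hle : (i : ℝ) / J ≤ ((i : ℝ) + 1) / J := by apply div_le_div_of_nonneg_right _ hJr.le; linarith
    have h3 : ∫ t in ((i : ℝ) / J)..(((i : ℝ) + 1) / J), (g ((i : ℝ) / J) - Λ / J) =
        (1 / J : ℝ) * (g ((i : ℝ) / J) - Λ / J) := by
      rw [intervalIntegral.integral_const, smul_eq_mul]
      ring
    rw [← h3]
    apply intervalIntegral.integral_mono_on hle (by simp) (hcont i hi).intervalIntegrable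
    intro t ht
    have ht1 : ((i : ℝ) + 1) / J ≤ 1 := by rw [div_le_one hJr]; exact hi'
    have hi0 : 0 ≤ (i : ℝ) / J := by positivity
    have h4 := hL ((i : ℝ) / J) t hi0 (hle.trans ht1) (hi0.trans ht.1) (ht.2.trans ht1)
    have h5 : |(i : ℝ) / J - t| ≤ 1 / J := by
      have h6 : ((i : ℝ) + 1) / J - (i : ℝ) / J = 1 / J := by ring
      rw [abs_le]
      constructor
      · linarith [ht.2]
      · have : 0 ≤ 1 / (J : ℝ) := by positivity
        linarith [ht.1]
    have h6 : Λ * |(i : ℝ) / J - t| ≤ Λ / J := by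
      calc Λ * |(i : ℝ) / J - t| ≤ Λ * (1 / J) := mul_le_mul_of_nonneg_left h5 hΛ
        _ = Λ / J := by ring
    have h7 := (abs_le.1 (h4.trans h6)).2
    linarith
  have hint : ∑ i ∈ range J, ∫ t in ((i : ℝ) / J)..(((i : ℝ) + 1) / J), g t = ∫ t in (0 : ℝ)..1, g t := by
    have h3 := intervalIntegral.sum_integral_adjacent_intervals (f := g) (μ := volume)
      (a := fun i : ℕ => (i : ℝ) / J) (n := J) (fun k hk => by
        have := (hcont k (mem_range.2 hk)).intervalIntegrable (μ := volume)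
        push_cast
        exact this)
    have h4 : ∑ i ∈ range J, ∫ t in ((i : ℝ) / J)..(((i : ℝ) + 1) / J), g t =
        ∑ k ∈ range J, ∫ x in ((k : ℕ) : ℝ) / J..((k + 1 : ℕ) : ℝ) / J, g x := by
      apply sum_congr rfl
      intro i _
      push_cast
      rfl
    rw [h4, h3]
    simp [hJr.ne']
  have hcellsum : ∀ i ∈ range J, ∑ n ∈ (range M).filter (fun n => ⌊(J : ℝ) * x n⌋₊ = i), g (x n) ≤
      (∫ t in ((i : ℝ) / J)..(((i : ℝ) + 1) / J), g t) * M + 2 * Λ / J ^ 2 * M + ε / (4 * J) * (1 + Λ / J) * M := by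
    intro i hi
    have hi' : (i : ℝ) + 1 ≤ J := by exact_mod_cast (mem_range.1 hi)
    have hc := hM i hi
    have hfe : (range M).filter (fun n => ⌊(J : ℝ) * x n⌋₊ = i) = (range M).filter (fun n : ℕ =>
        (i : ℝ) / J ≤ Int.fract (n * th + τ) ∧ Int.fract (n * th + τ) < ((i : ℝ) + 1) / J) := by
      ext n
      rw [mem_filter, mem_filter, hiff]
    rw [hfe]
    set c : ℝ := (((range M).filter (fun n : ℕ =>
        (i : ℝ) / J ≤ Int.fract (n * th + τ) ∧ Int.fract (n * th + τ) < ((i : ℝ) + 1) / J)).card : ℝ) with hcd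
    have hlt : ((i : ℝ) + 1) / J ≤ 1 := by rw [div_le_one hJr]; exact hi'
    have hi0 : 0 ≤ (i : ℝ) / J := by positivity
    have hle : (i : ℝ) / J ≤ ((i : ℝ) + 1) / J := by apply div_le_div_of_nonneg_right _ hJr.le; linarith
    have h3 : ∑ n ∈ (range M).filter (fun n : ℕ =>
        (i : ℝ) / J ≤ Int.fract (n * th + τ) ∧ Int.fract (n * th + τ) < ((i : ℝ) + 1) / J), g (x n) ≤
        c * (g ((i : ℝ) / J) + Λ / J) := by
      rw [hcd, ← nsmul_eq_mul, ← sum_const]
      apply sum_le_sum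
      intro n hn
      rw [mem_filter] at hn
      have h4 := hL (x n) ((i : ℝ) / J) (hx0 n) (hx1 n).le hi0 (hle.trans hlt)
      have h5 : |x n - (i : ℝ) / J| ≤ 1 / J := by
        have h6 : ((i : ℝ) + 1) / J - (i : ℝ) / J = 1 / J := by ring
        have h7 : (i : ℝ) / J ≤ x n := hn.2.1
        have h8 : x n < ((i : ℝ) + 1) / J := hn.2.2
        rw [abs_of_nonneg (by linarith)]
        linarith
      have h6 : Λ * |x n - (i : ℝ) / J| ≤ Λ / J := by
        calc Λ * |x n - (i : ℝ) / J| ≤ Λ * (1 / J) := mul_le_mul_of_nonneg_left h5 hΛ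
          _ = Λ / J := by ring
      linarith [(abs_le.1 (h4.trans h6)).2]
    refine h3.trans ?_
    have h4 : c ≤ (1 / J) * M + (ε / (4 * J)) * M := by linarith [(abs_le.1 hc).2]
    have h5 : 0 ≤ g ((i : ℝ) / J) + Λ / J := add_nonneg (h0 _) (by positivity)
    have h6 : g ((i : ℝ) / J) + Λ / J ≤ 1 + Λ / J := by linarith [h1 ((i : ℝ) / J)]
    have h7 := hlow i hi
    have hMr : (0 : ℝ) ≤ M := Nat.cast_nonneg _
    calc c * (g ((i : ℝ) / J) + Λ / J) ≤ ((1 / J) * M + (ε / (4 * J)) * M) * (g ((i : ℝ) / J) + Λ / J) :=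
          mul_le_mul_of_nonneg_right h4 h5
      _ = ((1 / J : ℝ) * (g ((i : ℝ) / J) - Λ / J)) * M + 2 * Λ / J ^ 2 * M +
            ε / (4 * J) * (g ((i : ℝ) / J) + Λ / J) * M := by
          field_simp
          ring
      _ ≤ _ := by
          apply add_le_add (add_le_add (mul_le_mul_of_nonneg_right h7 hMr) le_rfl)
          apply mul_le_mul_of_nonneg_right _ hMr
          exact mul_le_mul_of_nonneg_left h6 (by positivity)
  refine (sum_le_sum hcellsum).trans ?_
  rw [sum_add_distrib, sum_add_distrib, ← sum_mul, hint, sum_const, sum_const, card_range, nsmul_eq_mul, nsmul_eq_mul]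
  have hMr : (0 : ℝ) ≤ M := Nat.cast_nonneg _
  have hΛJ : Λ / J ≤ ε / 4 := by
    rw [div_lt_iff₀ hε] at hJ
    rw [div_le_iff₀ hJr]
    linarith
  have hε1 : ε / 4 * (1 + Λ / J) ≤ ε / 2 := by
    have hc : Λ / J ≤ 1 := by
      rw [div_le_one hJr]
      exact hJΛ.le
    nlinarith
  have h3 : (J : ℝ) * (2 * Λ / J ^ 2 * M) = 2 * (Λ / J) * M := by field_simp
  have h4 : (J : ℝ) * (ε / (4 * J) * (1 + Λ / J) * M) = (ε / 4 * (1 + Λ / J)) * M := by field_simp
  rw [h3, h4]
  nlinarith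

end Pool.Agent.Zk45.Hst
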