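import Mathlib
import Pool.Agent.Zk45.Host2

set_option autoImplicit false

/-! Averages of a function of the phase and of the process, at the phase zero. -/

open Finset Filter Topology MeasureTheory ProbabilityTheory

namespace Pool.Agent.Zk45.Hst

open Pool.Agent.Zk45.W Pool.Agent.Zk45.R

lemma exists_good (τ0 : ℝ) (h0 : 0 < τ0) (h1 : τ0 ≤ 1) (P : ℝ → Prop) (hP : ∀ᵐ τ ∂nu, P τ) :
    ∃ τ, 0 < τ ∧ τ < τ0 ∧ P τ := by
  by_contra hcon
  push Not at hcon
  have h2 : Set.Ioo 0 τ0 ⊆ {τ | ¬ P τ} := fun τ hτ => hcon τ hτ.1 hτ.2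
  have h3 : nu (Set.Ioo 0 τ0) = 0 := measure_mono_null h2 hP
  unfold nu at h3
  have h4 : Set.Ioo 0 τ0 ⊆ Set.Ico (0 : ℝ) 1 := fun x hx => ⟨hx.1.le, hx.2.trans_le h1⟩
  rw [Measure.restrict_apply measurableSet_Ioo, Set.inter_eq_left.2 h4, Real.volume_Ioo, sub_zero,
    ENNReal.ofReal_eq_zero] at h3
  linarith

lemma erg (μ : Measure Bi) [IsProbabilityMeasure μ] (hT : MeasurePreserving (S 1) μ μ) (Φ : ℝ → Bi → ℝ)
    (hm : Measurable (Function.uncurry Φ)) (h0 : ∀ τ ω, 0 ≤ Φ τ ω) (h1 : ∀ τ ω, Φ τ ω ≤ 1) (Λ : ℝ) (hΛ : 0 ≤ Λ)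
    (hL : ∀ τ σ ω, 0 ≤ τ → τ ≤ 1 → 0 ≤ σ → σ ≤ 1 → |Φ τ ω - Φ σ ω| ≤ Λ * |τ - σ|)
    (δ : ℝ) (hδ : ∫ τ in (0 : ℝ)..1, ∫ ω, Φ τ ω ∂μ ≤ δ) (η : ℝ) (hη : 0 < η) :
    μ {ω | ¬ ∀ᶠ M : ℕ in atTop, ∑ n ∈ range M, Φ (Int.fract (n * th)) (S ⌊n * th⌋ ω) ≤ 4 * η * M} ≤
      ENNReal.ofReal (δ / η) := by
  set τ0 : ℝ := min 1 (η / (Λ + 1)) with hτ0
  have hτ0p : 0 < τ0 := lt_min one_pos (by positivity)
  have hτ01 : τ0 ≤ 1 := min_le_left _ _
  have hmt : ∀ t : ℝ, Measurable (Φ t) := fun t => hm.of_uncurry_left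
  have habs : ∀ t ω, |Φ t ω| ≤ 1 := fun t ω => by rw [abs_of_nonneg (h0 t ω)]; exact h1 t ω
  have hintt : ∀ t : ℝ, Integrable (Φ t) μ := fun t =>
    Integrable.mono' (integrable_const 1) (hmt t).aestronglyMeasurable (Eventually.of_forall (habs t))
  have hb := Pool.Agent.H165R3.BPE.birkhoff (Tt_mp μ hT) (Function.uncurry Φ) hm 1 (fun p => habs p.1 p.2)
  set G : ℝ × Bi → ℝ := (nu.prod μ)[Function.uncurry Φ | MeasurableSpace.invariants Tt] with hG
  have hGm : Measurable G := (stronglyMeasurable_condExp.mono (MeasurableSpace.invariants_le Tt)).measurable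
  obtain ⟨τ, hτ1, hτ2, hτ3⟩ := exists_good τ0 hτ0p hτ01 _ (Measure.ae_ae_of_ae_prod hb)
  have hτlt : τ < 1 := by linarith
  have hiter : ∀ (k : ℕ) (ω : Bi), Function.uncurry Φ (Tt^[k] (τ, ω)) =
      Φ (Int.fract (k * th + τ)) (S ⌊k * th + τ⌋ ω) := by
    intro k ω
    rw [Tt_iter τ hτ1.le hτlt ω k]
    rfl
  simp only [hiter] at hτ3
  -- the mean in ω
  set g : ℝ → ℝ := fun t => ∫ ω, Φ t ω ∂μ with hg
  have hg0 : ∀ t, 0 ≤ g t := fun t => integral_nonneg (h0 t)
  have hg1 : ∀ t, g t ≤ 1 := by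
    intro t
    have h2 : ∫ ω, Φ t ω ∂μ ≤ ∫ _ω, (1 : ℝ) ∂μ := integral_mono (hintt t) (integrable_const 1) (h1 t)
    simpa using h2
  have hgL : ∀ x y, 0 ≤ x → x ≤ 1 → 0 ≤ y → y ≤ 1 → |g x - g y| ≤ Λ * |x - y| := by
    intro x y hx hx' hy hy'
    rw [hg]
    dsimp only
    rw [← integral_sub (hintt x) (hintt y)]
    have h2 := norm_integral_le_of_norm_le_const (μ := μ) (f := fun ω => Φ x ω - Φ y ω) (C := Λ * |x - y|)
      (Eventually.of_forall fun ω => hL x y ω hx hx' hy hy')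
    simpa using h2
  have hgc : ContinuousOn g (Set.Icc 0 1) := by
    have h2 : LipschitzOnWith (Real.toNNReal Λ) g (Set.Icc 0 1) := by
      apply LipschitzOnWith.of_dist_le_mul
      intro x hx y hy
      rw [Real.dist_eq, Real.dist_eq, Real.coe_toNNReal _ hΛ]
      exact hgL x y hx.1 hx.2 hy.1 hy.2
    exact h2.continuousOn
  have hmean : ∀ (t : ℝ) (k : ℤ), ∫ ω, Φ t (S k ω) ∂μ = g t := by
    intro t k
    have hS := S_mp μ hT k
    have := integral_map (μ := μ) (hS.measurable.aemeasurable) (f := Φ t) (hmt t).aestronglyMeasurable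
    rw [hS.map_eq] at this
    exact this.symm
  have hint2 : ∀ (t : ℝ) (k : ℤ), Integrable (fun ω => Φ t (S k ω)) μ := fun t k =>
    (S_mp μ hT k).integrable_comp_of_integrable (hintt t)
  have hlim : Tendsto (fun M : ℕ => ∫ ω, (M : ℝ)⁻¹ * ∑ k ∈ range M, Φ (Int.fract (k * th + τ)) (S ⌊k * th + τ⌋ ω) ∂μ)
      atTop (𝓝 (∫ ω, G (τ, ω) ∂μ)) := by
    apply tendsto_integral_of_dominated_convergence (fun _ => (1 : ℝ))
    · intro M
      apply Measurable.aestronglyMeasurable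
      exact measurable_const.mul (Finset.measurable_sum _ fun k _ => (hmt _).comp (S_meas _))
    · exact integrable_const _
    · intro M
      apply Eventually.of_forall
      intro ω
      rw [Real.norm_eq_abs, abs_mul, abs_of_nonneg (by positivity : (0 : ℝ) ≤ (M : ℝ)⁻¹)]
      have h2 : |∑ k ∈ range M, Φ (Int.fract (k * th + τ)) (S ⌊k * th + τ⌋ ω)| ≤ M := by
        refine (abs_sum_le_sum_abs _ _).trans ((sum_le_sum fun k _ => habs _ _).trans ?_)
        simp
      rcases Nat.eq_zero_or_pos M with h | h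
      · subst h
        simp
      · have hM : (0 : ℝ) < M := by exact_mod_cast h
        rw [inv_mul_le_iff₀ hM, mul_one]
        exact h2
    · exact hτ3
  have hmeanM : ∀ M : ℕ, ∫ ω, (M : ℝ)⁻¹ * ∑ k ∈ range M, Φ (Int.fract (k * th + τ)) (S ⌊k * th + τ⌋ ω) ∂μ =
      (M : ℝ)⁻¹ * ∑ k ∈ range M, g (Int.fract (k * th + τ)) := by
    intro M
    rw [integral_const_mul, integral_finsetSum _ fun k _ => hint2 _ _]
    congr 1
    exact sum_congr rfl fun k _ => hmean _ _
  have hγ : ∫ ω, G (τ, ω) ∂μ ≤ δ := by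
    apply le_of_forall_pos_le_add
    intro ε hε
    apply le_of_tendsto hlim
    have h2 := rot_avg g hgc hg0 hg1 Λ hΛ hgL τ ε hε
    filter_upwards [h2, eventually_gt_atTop 0] with M hM hM0
    have hMr : (0 : ℝ) < M := by exact_mod_cast hM0
    rw [hmeanM M, inv_mul_le_iff₀ hMr]
    calc _ ≤ _ := hM
      _ ≤ (δ + ε) * M := mul_le_mul_of_nonneg_right (by linarith) hMr.le
      _ = M * (δ + ε) := mul_comm _ _
  have hGnn : ∀ᵐ ω ∂μ, 0 ≤ G (τ, ω) := by
    filter_upwards [hτ3] with ω hω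
    apply ge_of_tendsto' hω
    intro M
    exact mul_nonneg (by positivity) (sum_nonneg fun k _ => h0 _ _)
  have hGle : ∀ᵐ ω ∂μ, G (τ, ω) ≤ 1 := by
    filter_upwards [hτ3] with ω hω
    apply le_of_tendsto hω
    filter_upwards [eventually_gt_atTop 0] with M hM0
    have hMr : (0 : ℝ) < M := by exact_mod_cast hM0
    rw [inv_mul_le_iff₀ hMr, mul_one]
    refine (sum_le_sum fun k _ => h1 _ _).trans ?_
    simp
  have hGm' : Measurable (fun ω => G (τ, ω)) := hGm.comp (measurable_const.prodMk measurable_id)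
  have hGi : Integrable (fun ω => G (τ, ω)) μ := by
    refine Integrable.mono' (integrable_const 1) hGm'.aestronglyMeasurable ?_
    filter_upwards [hGnn, hGle] with ω ha hb
    rw [Real.norm_of_nonneg ha]
    exact hb
  have hmark : μ.real {ω | η ≤ G (τ, ω)} ≤ δ / η := by
    have h2 := mul_meas_ge_le_integral_of_nonneg hGnn hGi η
    rw [le_div_iff₀' hη]
    exact h2.trans hγ
  -- the frequency of the phases near one
  have hfreq := rot_equi_tau 0 (1 - τ) 1 η (by linarith) (by linarith) le_rfl hη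
  have hsub : ∀ᵐ ω ∂μ, G (τ, ω) < η → ∀ᶠ M : ℕ in atTop, ∑ n ∈ range M, Φ (Int.fract (n * th)) (S ⌊n * th⌋ ω) ≤ 4 * η * M := by
    filter_upwards [hτ3] with ω hω hlt
    filter_upwards [hω.eventually_lt_const hlt, hfreq, eventually_gt_atTop 0] with M hM1 hM2 hM0
    have hMr : (0 : ℝ) < M := by exact_mod_cast hM0
    rw [inv_mul_lt_iff₀ hMr] at hM1
    simp only [add_zero] at hM2
    set B : Finset ℕ := (range M).filter (fun n : ℕ => 1 - τ ≤ Int.fract (n * th) ∧ Int.fract (n * th) < 1) with hB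
    have hcmp : ∀ n ∈ range M, Φ (Int.fract (n * th)) (S ⌊n * th⌋ ω) ≤
        Φ (Int.fract (n * th + τ)) (S ⌊n * th + τ⌋ ω) + Λ * τ + (if n ∈ B then 1 else 0) := by
      intro n hn
      split_ifs with hnB
      · have a1 := h1 (Int.fract (n * th)) (S ⌊n * th⌋ ω)
        have a2 := h0 (Int.fract (n * th + τ)) (S ⌊n * th + τ⌋ ω)
        have a3 : 0 ≤ Λ * τ := mul_nonneg hΛ hτ1.le
        linarith
      · have f0 := Int.fract_nonneg (n * th)
        have f1 := Int.fract_lt_one (n * th)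
        have h2 : Int.fract (n * th) < 1 - τ := by
          by_contra hc
          apply hnB
          rw [hB, mem_filter]
          exact ⟨hn, not_lt.1 hc, f1⟩
        have hxf : (n * th : ℝ) = ⌊n * th⌋ + Int.fract (n * th) := (Int.floor_add_fract _).symm
        have h3 : ⌊n * th + τ⌋ = ⌊n * th⌋ := by
          rw [Int.floor_eq_iff]
          constructor <;> linarith
        have h4 : Int.fract (n * th + τ) = Int.fract (n * th) + τ := by
          rw [Int.fract, Int.fract, h3]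
          ring
        rw [h3, h4]
        have h5 := hL (Int.fract (n * th)) (Int.fract (n * th) + τ) (S ⌊n * th⌋ ω) f0 f1.le (by linarith) (by linarith)
        have h6 : |Int.fract (n * th) - (Int.fract (n * th) + τ)| = τ := by
          rw [sub_add_cancel_left, abs_neg, abs_of_pos hτ1]
        rw [h6] at h5
        linarith [(abs_le.1 h5).2]
    refine (sum_le_sum hcmp).trans ?_
    rw [sum_add_distrib, sum_add_distrib, sum_const, card_range, nsmul_eq_mul]
    have hBc : ∑ n ∈ range M, (if n ∈ B then (1 : ℝ) else 0) = (B.card : ℝ) := by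
      rw [← sum_filter, sum_const, nsmul_eq_mul, mul_one]
      congr 2
      ext n
      rw [mem_filter]
      constructor
      · exact fun h => h.2
      · intro h
        exact ⟨(mem_filter.1 h).1, h⟩
    rw [hBc]
    have h2 : (B.card : ℝ) ≤ (1 - (1 - τ)) * M + η * M := by linarith [(abs_le.1 hM2).2]
    have h3 : Λ * τ + τ ≤ η := by
      have h4 : τ ≤ η / (Λ + 1) := hτ2.le.trans (min_le_right _ _)
      rw [le_div_iff₀ (by linarith)] at h4
      linarith
    nlinarith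
  calc μ {ω | ¬ ∀ᶠ M : ℕ in atTop, ∑ n ∈ range M, Φ (Int.fract (n * th)) (S ⌊n * th⌋ ω) ≤ 4 * η * M}
      ≤ μ {ω | η ≤ G (τ, ω)} := by
        apply measure_mono_ae
        filter_upwards [hsub] with ω hω hbad
        show η ≤ G (τ, ω)
        by_contra hc
        exact hbad (hω (not_le.1 hc))
    _ ≤ ENNReal.ofReal (δ / η) := by
        rw [← ENNReal.ofReal_toReal (measure_ne_top μ {ω | η ≤ G (τ, ω)})]
        exact ENNReal.ofReal_le_ofReal hmark

end Pool.Agent.Zk45.Hst
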