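import Mathlib
import Pool.Agent.Zk45.Host3

set_option autoImplicit false

/-! The conditional characteristic functions and their mean squares. -/

open Finset Filter Topology MeasureTheory ProbabilityTheory

namespace Pool.Agent.Zk45.Hst

open Pool.Agent.Zk45.W Pool.Agent.Zk45.R

/-- the conditional characteristic function of the first `Q` digits -/
noncomputable def phi (μ : Measure Bi) [IsProbabilityMeasure μ] (Q : ℕ) (c τ : ℝ) (ω : Bi) : ℂ :=
  ∑ v ∈ range (6 ^ Q), (cp μ {ω' | N Q ω' = v} ω : ℂ) * e (c * 6 ^ τ * v)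

section P

variable (μ : Measure Bi) [IsProbabilityMeasure μ]

lemma cp_group (R k a : ℕ) (ω : Bi) : cp μ {ω' | N R ω' = a} ω =
    ∑ v ∈ (range (6 ^ (R + k))).filter (fun v => v / 6 ^ k = a), cp μ {ω' | N (R + k) ω' = v} ω := by
  unfold cp
  rw [← measureReal_biUnion_finset]
  · congr 1
    ext ω'
    simp only [Set.mem_ofPred_eq, Set.mem_iUnion, mem_filter, mem_range]
    constructor
    · intro h
      refine ⟨N (R + k) ω', ⟨N_lt _ _, ?_⟩, rfl⟩
      rw [N_div, h]
    · rintro ⟨v, ⟨_, h1⟩, h2⟩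
      rw [← N_div R k ω', h2, h1]
  · intro v _ v' _ hne
    rw [Function.onFun, Set.disjoint_left]
    intro ω' h1 h2
    exact hne (h1.symm.trans h2)
  · intro v _
    exact N_set _ _

lemma cp_sum (Q : ℕ) (ω : Bi) : ∑ v ∈ range (6 ^ Q), cp μ {ω' | N Q ω' = v} ω = 1 := by
  have h := cp_group μ 0 Q 0 ω
  rw [zero_add] at h
  have h1 : (range (6 ^ Q)).filter (fun v => v / 6 ^ Q = 0) = range (6 ^ Q) := by
    rw [filter_eq_self]
    intro v hv
    exact Nat.div_eq_of_lt (mem_range.1 hv)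
  rw [h1] at h
  rw [← h]
  unfold cp
  have : {ω' : Bi | N 0 ω' = 0} = Set.univ := by
    ext ω'
    simp [N]
  rw [this, probReal_univ]

lemma phi_le (Q : ℕ) (c τ : ℝ) (ω : Bi) : ‖phi μ Q c τ ω‖ ≤ 1 := by
  unfold phi
  refine (norm_sum_le _ _).trans ?_
  rw [← cp_sum μ Q ω]
  apply sum_le_sum
  intro v _
  rw [norm_mul, norm_e, mul_one, Complex.norm_real, Real.norm_of_nonneg (cp_nonneg μ _ ω)]

lemma six_lip (x y : ℝ) (hx : 0 ≤ x) (hx1 : x ≤ 1) (hy : 0 ≤ y) (hy1 : y ≤ 1) :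
    |(6 : ℝ) ^ x - 6 ^ y| ≤ 30 * |x - y| := by
  wlog h : y ≤ x generalizing x y
  · rw [abs_sub_comm, abs_sub_comm x y]
    exact this y x hy hy1 hx hx1 (le_of_not_ge h)
  have h1 : (6 : ℝ) ^ x = 6 ^ y * 6 ^ (x - y) := by
    rw [← Real.rpow_add (by norm_num)]
    congr 1
    ring
  have h2 : (6 : ℝ) ^ (x - y) ≤ 1 + (x - y) * 5 := by
    have := rpow_one_add_le_one_add_mul_self (s := 5) (by norm_num) (p := x - y) (by linarith) (by linarith)
    norm_num at this
    linarith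
  have h3 : (6 : ℝ) ^ y ≤ 6 := by
    calc (6 : ℝ) ^ y ≤ 6 ^ (1 : ℝ) := Real.rpow_le_rpow_of_exponent_le (by norm_num) hy1
      _ = 6 := by norm_num
  have h4 : (6 : ℝ) ^ y ≤ 6 ^ x := Real.rpow_le_rpow_of_exponent_le (by norm_num) h
  have h5 : (0 : ℝ) < 6 ^ y := by positivity
  rw [abs_of_nonneg (by linarith), abs_of_nonneg (by linarith), h1]
  nlinarith

lemma phi_lip (Q : ℕ) (c x y : ℝ) (ω : Bi) (hx : 0 ≤ x) (hx1 : x ≤ 1) (hy : 0 ≤ y) (hy1 : y ≤ 1) :
    |‖phi μ Q c x ω‖ - ‖phi μ Q c y ω‖| ≤ (2 * Real.pi * (|c| * 30 * 6 ^ Q)) * |x - y| := by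
  refine (abs_norm_sub_norm_le _ _).trans ?_
  unfold phi
  rw [← sum_sub_distrib]
  refine (norm_sum_le _ _).trans ?_
  have h1 : ∀ v ∈ range (6 ^ Q), ‖(cp μ {ω' | N Q ω' = v} ω : ℂ) * e (c * 6 ^ x * v) -
      (cp μ {ω' | N Q ω' = v} ω : ℂ) * e (c * 6 ^ y * v)‖ ≤
      cp μ {ω' | N Q ω' = v} ω * ((2 * Real.pi * (|c| * 30 * 6 ^ Q)) * |x - y|) := by
    intro v hv
    rw [← mul_sub, norm_mul, Complex.norm_real, Real.norm_of_nonneg (cp_nonneg μ _ ω)]
    apply mul_le_mul_of_nonneg_left _ (cp_nonneg μ _ ω)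
    refine (e_lip _ _).trans ?_
    have h2 : c * 6 ^ x * v - c * 6 ^ y * v = c * ((6 ^ x - 6 ^ y) * v) := by ring
    have hv' : (v : ℝ) ≤ 6 ^ Q := by exact_mod_cast (mem_range.1 hv).le
    rw [h2, abs_mul, abs_mul, Nat.abs_cast]
    have h3 := six_lip x y hx hx1 hy hy1
    calc 2 * Real.pi * (|c| * (|(6 : ℝ) ^ x - 6 ^ y| * v)) ≤ 2 * Real.pi * (|c| * ((30 * |x - y|) * 6 ^ Q)) := by
          apply mul_le_mul_of_nonneg_left _ (by positivity)
          apply mul_le_mul_of_nonneg_left _ (abs_nonneg _)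
          exact mul_le_mul h3 hv' (Nat.cast_nonneg _) (by positivity)
      _ = _ := by ring
  refine (sum_le_sum h1).trans ?_
  rw [← sum_mul, cp_sum, one_mul]

lemma phi_meas (Q : ℕ) (c : ℝ) : Measurable (Function.uncurry (fun τ ω => ‖phi μ Q c τ ω‖)) := by
  apply Measurable.norm
  unfold phi
  apply Finset.measurable_sum
  intro v _
  apply Measurable.mul
  · exact Complex.measurable_ofReal.comp ((cp_meas μ (N_set Q v)).comp measurable_snd)
  · apply e_cont.measurable.comp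
    apply Measurable.mul_const
    exact measurable_const.mul (six_cont.measurable.comp measurable_fst)

lemma phi_past (Q : ℕ) (c τ : ℝ) : Measurable[past 0] (phi μ Q c τ) := by
  unfold phi
  apply Finset.measurable_sum
  intro v _
  exact (Complex.measurable_ofReal.comp (cp_past μ (N_set Q v))).mul_const _

lemma phi_cont (Q : ℕ) (c : ℝ) (ω : Bi) : Continuous (fun τ => phi μ Q c τ ω) := by
  unfold phi
  apply continuous_finsetSum
  intro v _
  apply continuous_const.mul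
  apply e_cont.comp
  exact (continuous_const.mul six_cont).mul continuous_const

lemma I_le_one (y : ℝ) : ‖I y‖ ≤ 1 := by
  unfold I
  have := intervalIntegral.norm_integral_le_of_norm_le_const (a := (0 : ℝ)) (b := 1)
    (f := fun t => e (y * 6 ^ t)) (C := 1) (fun x _ => (norm_e _).le)
  simpa using this

/-- the mean square over the phases -/
lemma phi_sq (R k : ℕ) (c : ℝ) (hc : c ≠ 0) (ω : Bi) :
    ∫ τ in (0 : ℝ)..1, ‖phi μ (R + k) c τ ω‖ ^ 2 ≤ 3 * Col μ R ω + 1 / (|c| * 6 ^ k) := by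
  classical
  set Q : ℕ := R + k with hQ
  set p : ℕ → ℝ := fun v => cp μ {ω' | N Q ω' = v} ω with hp
  have hp0 : ∀ v, 0 ≤ p v := fun v => cp_nonneg μ _ ω
  have hps : ∑ v ∈ range (6 ^ Q), p v = 1 := cp_sum μ Q ω
  have hcpos : 0 < |c| := abs_pos.2 hc
  set P : ℕ → ℝ := fun a => cp μ {ω' | N R ω' = a} ω with hP
  have hP0 : ∀ a, 0 ≤ P a := fun a => cp_nonneg μ _ ω
  -- expansion of the square
  have h1 : ((∫ τ in (0 : ℝ)..1, ‖phi μ Q c τ ω‖ ^ 2 : ℝ) : ℂ) =
      ∑ v ∈ range (6 ^ Q), ∑ v' ∈ range (6 ^ Q), (p v : ℂ) * p v' * I (c * (v - v')) := by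
    rw [← intervalIntegral.integral_ofReal]
    have h2 : ∀ τ : ℝ, ((‖phi μ Q c τ ω‖ ^ 2 : ℝ) : ℂ) =
        ∑ v ∈ range (6 ^ Q), ∑ v' ∈ range (6 ^ Q), (p v : ℂ) * p v' * e (c * (v - v') * 6 ^ τ) := by
      intro τ
      rw [← Complex.normSq_eq_norm_sq, ← Complex.mul_conj]
      unfold phi
      rw [map_sum, sum_mul_sum]
      apply sum_congr rfl
      intro v _
      apply sum_congr rfl
      intro v' _
      rw [map_mul, ← e_neg, Complex.conj_ofReal]
      have h3 : c * (v - v') * 6 ^ τ = c * 6 ^ τ * v + -(c * 6 ^ τ * v') := by ring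
      rw [h3, e_add]
      ring
    simp only [h2]
    have hcont : ∀ v v' : ℕ, Continuous (fun τ : ℝ => (p v : ℂ) * p v' * e (c * (v - v') * 6 ^ τ)) := fun v v' =>
      continuous_const.mul (e_cont.comp (continuous_const.mul six_cont))
    rw [intervalIntegral.integral_finsetSum]
    · apply sum_congr rfl
      intro v _
      rw [intervalIntegral.integral_finsetSum]
      · apply sum_congr rfl
        intro v' _
        rw [intervalIntegral.integral_const_mul]
        rfl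
      · intro v' _
        exact (hcont v v').intervalIntegrable _ _
    · intro v _
      exact (continuous_finsetSum _ fun v' _ => hcont v v').intervalIntegrable _ _
  have h2 : ∫ τ in (0 : ℝ)..1, ‖phi μ Q c τ ω‖ ^ 2 ≤ ∑ v ∈ range (6 ^ Q), ∑ v' ∈ range (6 ^ Q),
      p v * p v' * ((if v / 6 ^ k ≤ v' / 6 ^ k + 1 ∧ v' / 6 ^ k ≤ v / 6 ^ k + 1 then 1 else 0) + 1 / (|c| * 6 ^ k)) := by
    have h3 : 0 ≤ ∫ τ in (0 : ℝ)..1, ‖phi μ Q c τ ω‖ ^ 2 :=
      intervalIntegral.integral_nonneg (by norm_num) fun τ _ => by positivity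
    have h4 : ∫ τ in (0 : ℝ)..1, ‖phi μ Q c τ ω‖ ^ 2 = ‖((∫ τ in (0 : ℝ)..1, ‖phi μ Q c τ ω‖ ^ 2 : ℝ) : ℂ)‖ := by
      rw [Complex.norm_real, Real.norm_of_nonneg h3]
    rw [h4, h1]
    refine (norm_sum_le _ _).trans (sum_le_sum fun v _ => (norm_sum_le _ _).trans (sum_le_sum fun v' _ => ?_))
    rw [norm_mul, norm_mul, Complex.norm_real, Complex.norm_real, Real.norm_of_nonneg (hp0 v),
      Real.norm_of_nonneg (hp0 v')]
    apply mul_le_mul_of_nonneg_left _ (mul_nonneg (hp0 v) (hp0 v'))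
    have h6 : 0 ≤ 1 / (|c| * 6 ^ k) := by positivity
    split_ifs with hif
    · have := I_le_one (c * (v - v'))
      linarith
    · rw [not_and_or, not_le, not_le] at hif
      have h7 : (6 : ℝ) ^ k ≤ |(v : ℝ) - v'| := by
        have key : ∀ x y : ℕ, y / 6 ^ k + 1 < x / 6 ^ k → (6 : ℝ) ^ k ≤ x - y := by
          intro x y hxy
          have h8 : y < 6 ^ k * (y / 6 ^ k + 1) := Nat.lt_mul_div_succ y (by positivity)
          have h9 : 6 ^ k * (x / 6 ^ k) ≤ x := Nat.mul_div_le x _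
          have h10 : 6 ^ k * (y / 6 ^ k + 1 + 1) ≤ 6 ^ k * (x / 6 ^ k) := Nat.mul_le_mul_left _ hxy
          have h11 : y + 6 ^ k ≤ x := by
            have : 6 ^ k * (y / 6 ^ k + 1 + 1) = 6 ^ k * (y / 6 ^ k + 1) + 6 ^ k := by ring
            omega
          have h12 : (y : ℝ) + 6 ^ k ≤ x := by exact_mod_cast h11
          linarith
        rcases hif with h | h
        · exact (key v v' h).trans (le_abs_self _)
        · rw [abs_sub_comm]
          exact (key v' v h).trans (le_abs_self _)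
      have hne : c * ((v : ℝ) - v') ≠ 0 := by
        apply mul_ne_zero hc
        intro h0
        rw [h0, abs_zero] at h7
        have : (0 : ℝ) < 6 ^ k := by positivity
        linarith
      rw [zero_add]
      refine (I_le _ hne).trans ?_
      rw [abs_mul]
      apply one_div_le_one_div_of_le (by positivity)
      exact mul_le_mul_of_nonneg_left h7 hcpos.le
  refine h2.trans ?_
  -- the collision sum
  set K : ℕ → ℕ → ℝ := fun a a' => if a ≤ a' + 1 ∧ a' ≤ a + 1 then 1 else 0 with hK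
  have hK0 : ∀ a a', 0 ≤ K a a' := by
    intro a a'
    simp only [hK]
    split_ifs <;> norm_num
  have hgrp : ∑ v ∈ range (6 ^ Q), ∑ v' ∈ range (6 ^ Q), p v * p v' * K (v / 6 ^ k) (v' / 6 ^ k) =
      ∑ a ∈ range (6 ^ R), ∑ a' ∈ range (6 ^ R), P a * P a' * K a a' := by
    have hmaps : ∀ v ∈ range (6 ^ Q), v / 6 ^ k ∈ range (6 ^ R) := by
      intro v hv
      rw [mem_range] at hv ⊢
      rw [Nat.div_lt_iff_lt_mul (by positivity), ← pow_add]
      exact hv
    have hin : ∀ v : ℕ, ∑ v' ∈ range (6 ^ Q), p v * p v' * K (v / 6 ^ k) (v' / 6 ^ k) =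
        ∑ a' ∈ range (6 ^ R), p v * P a' * K (v / 6 ^ k) a' := by
      intro v
      rw [← sum_fiberwise_of_maps_to hmaps]
      apply sum_congr rfl
      intro a' _
      rw [hP]
      dsimp only
      rw [cp_group μ R k a' ω, mul_sum, sum_mul]
      apply sum_congr rfl
      intro v' hv'
      rw [(mem_filter.1 hv').2]
    simp only [hin]
    rw [← sum_fiberwise_of_maps_to hmaps]
    apply sum_congr rfl
    intro a _
    have : ∀ v ∈ (range (6 ^ Q)).filter (fun v => v / 6 ^ k = a), ∑ a' ∈ range (6 ^ R), p v * P a' * K (v / 6 ^ k) a' =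
        p v * ∑ a' ∈ range (6 ^ R), P a' * K a a' := by
      intro v hv
      rw [(mem_filter.1 hv).2, mul_sum]
      apply sum_congr rfl
      intro a' _
      ring
    rw [sum_congr rfl this, ← sum_mul, ← cp_group μ R k a ω, mul_sum]
    apply sum_congr rfl
    intro a' _
    ring
  have hcol : ∑ a ∈ range (6 ^ R), ∑ a' ∈ range (6 ^ R), P a * P a' * K a a' ≤ 3 * Col μ R ω := by
    have hcnt : ∀ a : ℕ, ∑ a' ∈ range (6 ^ R), K a a' ≤ 3 := by
      intro a
      simp only [hK]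
      rw [← sum_filter, sum_const, nsmul_eq_mul, mul_one]
      have h3 : (range (6 ^ R)).filter (fun a' => a ≤ a' + 1 ∧ a' ≤ a + 1) ⊆ Icc (a - 1) (a + 1) := by
        intro a' ha'
        rw [mem_filter] at ha'
        rw [mem_Icc]
        omega
      have h4 := card_le_card h3
      rw [Nat.card_Icc] at h4
      have h5 : ((range (6 ^ R)).filter (fun a' => a ≤ a' + 1 ∧ a' ≤ a + 1)).card ≤ 3 := by omega
      exact_mod_cast h5
    have hsymm : ∀ a a', K a a' = K a' a := by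
      intro a a'
      simp only [hK]
      congr 1
      rw [and_comm]
    have h3 : ∀ a a', P a * P a' * K a a' ≤ (P a ^ 2 / 2) * K a a' + (P a' ^ 2 / 2) * K a a' := by
      intro a a'
      rw [← add_mul]
      apply mul_le_mul_of_nonneg_right _ (hK0 a a')
      nlinarith [sq_nonneg (P a - P a')]
    calc ∑ a ∈ range (6 ^ R), ∑ a' ∈ range (6 ^ R), P a * P a' * K a a'
        ≤ ∑ a ∈ range (6 ^ R), ∑ a' ∈ range (6 ^ R), ((P a ^ 2 / 2) * K a a' + (P a' ^ 2 / 2) * K a a') :=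
          sum_le_sum fun a _ => sum_le_sum fun a' _ => h3 a a'
      _ = ∑ a ∈ range (6 ^ R), ∑ a' ∈ range (6 ^ R), (P a ^ 2 / 2) * K a a' +
          ∑ a ∈ range (6 ^ R), ∑ a' ∈ range (6 ^ R), (P a' ^ 2 / 2) * K a a' := by
          rw [← sum_add_distrib]
          exact sum_congr rfl fun a _ => sum_add_distrib
      _ = 2 * ∑ a ∈ range (6 ^ R), (P a ^ 2 / 2) * ∑ a' ∈ range (6 ^ R), K a a' := by
          have h4 : ∑ a ∈ range (6 ^ R), ∑ a' ∈ range (6 ^ R), (P a' ^ 2 / 2) * K a a' =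
              ∑ a ∈ range (6 ^ R), ∑ a' ∈ range (6 ^ R), (P a ^ 2 / 2) * K a a' := by
            rw [sum_comm]
            apply sum_congr rfl
            intro a _
            apply sum_congr rfl
            intro a' _
            rw [hsymm]
          rw [h4, two_mul]
          congr 1 <;> exact sum_congr rfl fun a _ => by rw [mul_sum]
      _ ≤ 2 * ∑ a ∈ range (6 ^ R), (P a ^ 2 / 2) * 3 := by
          apply mul_le_mul_of_nonneg_left _ (by norm_num)
          apply sum_le_sum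
          intro a _
          exact mul_le_mul_of_nonneg_left (hcnt a) (by positivity)
      _ = 3 * Col μ R ω := by
          unfold Col
          rw [← sum_mul, ← sum_div]
          ring
  have hsplit : ∑ v ∈ range (6 ^ Q), ∑ v' ∈ range (6 ^ Q),
      p v * p v' * ((if v / 6 ^ k ≤ v' / 6 ^ k + 1 ∧ v' / 6 ^ k ≤ v / 6 ^ k + 1 then 1 else 0) + 1 / (|c| * 6 ^ k)) =
      ∑ v ∈ range (6 ^ Q), ∑ v' ∈ range (6 ^ Q), p v * p v' * K (v / 6 ^ k) (v' / 6 ^ k) + 1 / (|c| * 6 ^ k) := by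
    have h3 : ∑ v ∈ range (6 ^ Q), ∑ v' ∈ range (6 ^ Q), p v * p v' * (1 / (|c| * 6 ^ k)) = 1 / (|c| * 6 ^ k) := by
      have : ∀ v : ℕ, ∑ v' ∈ range (6 ^ Q), p v * p v' * (1 / (|c| * 6 ^ k)) = p v * (1 / (|c| * 6 ^ k)) := by
        intro v
        rw [← sum_mul, ← mul_sum, hps, mul_one]
      simp only [this]
      rw [← sum_mul, hps, one_mul]
    conv_rhs => rw [← h3]
    rw [← sum_add_distrib]
    apply sum_congr rfl
    intro v _
    rw [← sum_add_distrib]
    apply sum_congr rfl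
    intro v' _
    ring
  rw [hsplit, hgrp]
  linarith

/-- the mean over the phases and the process -/
lemma phi_mean (hT : MeasurePreserving (S 1) μ μ) (hN : ND μ) (γ : ℝ) (hγ : γ ≠ 0) (δ : ℝ) (hδ : 0 < δ) :
    ∃ K0 : ℕ, ∀ k : ℕ, ∃ Q : ℕ, k ≤ Q ∧
      ∫ τ in (0 : ℝ)..1, ∫ ω, ‖phi μ Q (γ * 6 ^ (K0 + 1) / 6 ^ Q) τ ω‖ ∂μ ≤ δ := by
  have hCol := Col_tendsto μ hT hN
  obtain ⟨R, hR⟩ := (hCol.eventually_lt_const (show (0 : ℝ) < δ ^ 2 / 6 by positivity)).exists
  have hγp : 0 < |γ| := abs_pos.2 hγ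
  obtain ⟨K0, hK0⟩ := pow_unbounded_of_one_lt ((6 : ℝ) ^ R * 2 / (δ ^ 2 * |γ|)) (show (1 : ℝ) < 6 by norm_num)
  refine ⟨K0, fun k => ⟨R + k, by omega, ?_⟩⟩
  set c : ℝ := γ * 6 ^ (K0 + 1) / 6 ^ (R + k) with hc
  have hcne : c ≠ 0 := by
    rw [hc]
    positivity
  have hcabs : |c| * 6 ^ k = |γ| * 6 ^ (K0 + 1) / 6 ^ R := by
    rw [hc, abs_div, abs_mul, abs_of_pos (by positivity : (0 : ℝ) < 6 ^ (K0 + 1)),
      abs_of_pos (by positivity : (0 : ℝ) < 6 ^ (R + k)), pow_add 6 R k]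
    field_simp
  have hsmall : 1 / (|c| * 6 ^ k) ≤ δ ^ 2 / 2 := by
    rw [hcabs, one_div_div, div_le_iff₀ (by positivity)]
    rw [div_lt_iff₀ (by positivity)] at hK0
    have h1 : (6 : ℝ) ^ (K0 + 1) = 6 * 6 ^ K0 := by rw [pow_succ, mul_comm]
    rw [h1]
    have h2 : (0 : ℝ) < 6 ^ K0 * (δ ^ 2 * |γ|) := by positivity
    nlinarith
  -- Fubini
  set f : ℝ → Bi → ℝ := fun τ ω => ‖phi μ (R + k) c τ ω‖ with hf
  have hfm : Measurable (Function.uncurry f) := phi_meas μ (R + k) c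
  have hf0 : ∀ τ ω, 0 ≤ f τ ω := fun τ ω => norm_nonneg _
  have hf1 : ∀ τ ω, f τ ω ≤ 1 := fun τ ω => phi_le μ _ _ _ _
  have hfi : ∀ τ, Integrable (f τ) μ := fun τ =>
    Integrable.mono' (integrable_const 1) (hfm.of_uncurry_left).aestronglyMeasurable
      (Eventually.of_forall fun ω => by rw [Real.norm_of_nonneg (hf0 τ ω)]; exact hf1 τ ω)
  have hfi2 : ∀ τ, Integrable (fun ω => f τ ω ^ 2) μ := fun τ =>
    Integrable.mono' (integrable_const 1) (hfm.of_uncurry_left.pow_const 2).aestronglyMeasurable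
      (Eventually.of_forall fun ω => by
        rw [Real.norm_of_nonneg (by positivity)]
        exact pow_le_one₀ (hf0 τ ω) (hf1 τ ω))
  have hprod2 : Integrable (fun z : ℝ × Bi => f z.1 z.2 ^ 2) ((volume.restrict (Set.Ioc (0 : ℝ) 1)).prod μ) := by
    refine Integrable.mono' (integrable_const 1) (hfm.pow_const 2).aestronglyMeasurable
      (Eventually.of_forall fun z => by
        rw [Real.norm_of_nonneg (by positivity)]
        exact pow_le_one₀ (hf0 _ _) (hf1 _ _))
  have hprod1 : Integrable (fun z : ℝ × Bi => f z.1 z.2) ((volume.restrict (Set.Ioc (0 : ℝ) 1)).prod μ) := by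
    refine Integrable.mono' (integrable_const 1) hfm.aestronglyMeasurable
      (Eventually.of_forall fun z => by
        rw [Real.norm_of_nonneg (hf0 _ _)]
        exact hf1 _ _)
  have hsq : ∫ τ in (0 : ℝ)..1, ∫ ω, f τ ω ^ 2 ∂μ ≤ δ ^ 2 := by
    rw [intervalIntegral.integral_of_le (by norm_num)]
    rw [integral_integral_swap hprod2]
    have h1 : ∀ ω, ∫ τ in Set.Ioc (0 : ℝ) 1, f τ ω ^ 2 ≤ 3 * Col μ R ω + δ ^ 2 / 2 := by
      intro ω
      have h2 := phi_sq μ R k c hcne ω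
      rw [intervalIntegral.integral_of_le (by norm_num)] at h2
      linarith
    have hCi : Integrable (fun ω => 3 * Col μ R ω + δ ^ 2 / 2) μ := by
      apply Integrable.add _ (integrable_const _)
      apply Integrable.const_mul
      refine Integrable.mono' (integrable_const ((6 : ℝ) ^ R)) (Col_meas μ R).aestronglyMeasurable
        (Eventually.of_forall fun ω => ?_)
      unfold Col
      rw [Real.norm_of_nonneg (sum_nonneg fun _ _ => by positivity)]
      calc ∑ v ∈ range (6 ^ R), cp μ {ω' | N R ω' = v} ω ^ 2 ≤ ∑ v ∈ range (6 ^ R), (1 : ℝ) :=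
            sum_le_sum fun v _ => pow_le_one₀ (cp_nonneg μ _ ω) (cp_le μ _ ω)
        _ = 6 ^ R := by simp
    calc ∫ ω, (∫ τ in Set.Ioc (0 : ℝ) 1, f τ ω ^ 2) ∂μ ≤ ∫ ω, (3 * Col μ R ω + δ ^ 2 / 2) ∂μ :=
          integral_mono hprod2.integral_prod_right hCi h1
      _ = 3 * ∫ ω, Col μ R ω ∂μ + δ ^ 2 / 2 := by
          rw [integral_add _ (integrable_const _), integral_const_mul]
          · simp
          · apply Integrable.const_mul
            refine Integrable.mono' (integrable_const ((6 : ℝ) ^ R)) (Col_meas μ R).aestronglyMeasurable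
              (Eventually.of_forall fun ω => ?_)
            unfold Col
            rw [Real.norm_of_nonneg (sum_nonneg fun _ _ => by positivity)]
            calc ∑ v ∈ range (6 ^ R), cp μ {ω' | N R ω' = v} ω ^ 2 ≤ ∑ v ∈ range (6 ^ R), (1 : ℝ) :=
                  sum_le_sum fun v _ => pow_le_one₀ (cp_nonneg μ _ ω) (cp_le μ _ ω)
              _ = 6 ^ R := by simp
      _ ≤ δ ^ 2 := by linarith
  have hamgm : ∀ τ ω, f τ ω ≤ δ / 2 + (1 / (2 * δ)) * f τ ω ^ 2 := by
    intro τ ω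
    have h1 := sq_nonneg (f τ ω - δ)
    have h2 : (1 / (2 * δ)) * f τ ω ^ 2 = f τ ω ^ 2 / (2 * δ) := by ring
    rw [h2]
    have h3 : δ / 2 + f τ ω ^ 2 / (2 * δ) - f τ ω = (f τ ω - δ) ^ 2 / (2 * δ) := by
      field_simp
      ring
    have h4 : 0 ≤ (f τ ω - δ) ^ 2 / (2 * δ) := by positivity
    linarith
  have hI1 : IntervalIntegrable (fun τ => ∫ ω, f τ ω ∂μ) volume 0 1 := by
    rw [intervalIntegrable_iff_integrableOn_Ioc_of_le (by norm_num)]
    exact hprod1.integral_prod_left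
  have hI2 : IntervalIntegrable (fun τ => ∫ ω, f τ ω ^ 2 ∂μ) volume 0 1 := by
    rw [intervalIntegrable_iff_integrableOn_Ioc_of_le (by norm_num)]
    exact hprod2.integral_prod_left
  calc ∫ τ in (0 : ℝ)..1, ∫ ω, f τ ω ∂μ ≤ ∫ τ in (0 : ℝ)..1, (δ / 2 + (1 / (2 * δ)) * ∫ ω, f τ ω ^ 2 ∂μ) := by
        apply intervalIntegral.integral_mono_on (by norm_num) hI1
        · exact intervalIntegrable_const.add (hI2.const_mul _)
        · intro τ _
          calc ∫ ω, f τ ω ∂μ ≤ ∫ ω, (δ / 2 + (1 / (2 * δ)) * f τ ω ^ 2) ∂μ :=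
                integral_mono (hfi τ) ((integrable_const _).add ((hfi2 τ).const_mul _)) (hamgm τ)
            _ = _ := by
                rw [integral_add (integrable_const _) ((hfi2 τ).const_mul _), integral_const_mul]
                simp
    _ = δ / 2 + (1 / (2 * δ)) * ∫ τ in (0 : ℝ)..1, ∫ ω, f τ ω ^ 2 ∂μ := by
        rw [intervalIntegral.integral_add intervalIntegrable_const (hI2.const_mul _),
          intervalIntegral.integral_const_mul]
        simp
    _ ≤ δ / 2 + (1 / (2 * δ)) * δ ^ 2 := by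
        have := mul_le_mul_of_nonneg_left hsq (by positivity : (0 : ℝ) ≤ 1 / (2 * δ))
        linarith
    _ = δ := by
        field_simp
        ring

end P

end Pool.Agent.Zk45.Hst
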