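import Mathlib
import Pool.Agent.Zk45.Host4

set_option autoImplicit false

/-! Almost sure decay of the exponential sums. -/

open Finset Filter Topology MeasureTheory ProbabilityTheory

namespace Pool.Agent.Zk45.Hst

open Pool.Agent.Zk45.W Pool.Agent.Zk45.R Pool.Agent.Zk45.Far Pool.Agent.Zk45.Avg

/-- the digits to the right of the origin -/
def dg (ω : Bi) : ℕ → Fin 6 := fun i => ω (i : ℤ)

lemma V_past (m : ℕ) : Measurable[past m] (fun ω : Bi => V (dg ω) m) := by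
  unfold V dg
  apply Finset.measurable_sum
  intro i hi
  have h1 : Measurable[past m] (fun ω : Bi => ω (i : ℤ)) := past_coord (by exact_mod_cast (mem_range.1 hi))
  exact ((measurable_of_finite (fun d : Fin 6 => ((d : ℕ) : ℝ))).comp h1).div_const _

lemma V_split (ω : Bi) (m Q : ℕ) : V (dg ω) (m + Q) = V (dg ω) m + (N Q (S m ω) : ℝ) * 6 / (6 ^ m * 6 ^ Q) := by
  induction Q with
  | zero => simp [N]
  | succ Q ih =>
    have h1 : V (dg ω) (m + (Q + 1)) = V (dg ω) (m + Q) + ((dg ω (m + Q) : Fin 6) : ℕ) / (6 : ℝ) ^ (m + Q) := by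
      rw [← add_assoc]
      exact sum_range_succ _ _
    have h2 : (S m ω) (Q : ℤ) = dg ω (m + Q) := by
      unfold S dg
      congr 1
      push_cast
      ring
    rw [h1, ih, N, h2, pow_succ, pow_add]
    push_cast
    field_simp
    ring

section B

variable (μ : Measure Bi) [IsProbabilityMeasure μ] (γ : ℝ) (K0 Q : ℕ) (ξ : ℕ → Bi → ℂ)

/-- the deviation of a term of the exponential sum from its conditional expectation -/
noncomputable def bb (n : ℕ) (ω : Bi) : ℂ :=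
  if (K0 : ℤ) ≤ fl n then
    ξ n ω * e (γ * (3 / 2) ^ n * V (dg ω) (fl n - K0).toNat) *
      (e (γ * 6 ^ (K0 + 1) / 6 ^ Q * 6 ^ (Int.fract (n * th)) * N Q (S (fl n - K0) ω)) -
        phi μ Q (γ * 6 ^ (K0 + 1) / 6 ^ Q) (Int.fract (n * th)) (S (fl n - K0) ω))
  else 0

lemma bb_le (hξ : ∀ n ω, ‖ξ n ω‖ ≤ 1) (n : ℕ) (ω : Bi) : ‖bb μ γ K0 Q ξ n ω‖ ≤ 2 := by
  unfold bb
  split_ifs with h
  · rw [norm_mul, norm_mul, norm_e, mul_one]
    have h1 := hξ n ω
    have h2 := norm_sub_le (e (γ * 6 ^ (K0 + 1) / 6 ^ Q * 6 ^ (Int.fract (n * th)) * N Q (S (fl n - K0) ω)))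
        (phi μ Q (γ * 6 ^ (K0 + 1) / 6 ^ Q) (Int.fract (n * th)) (S (fl n - K0) ω))
    rw [norm_e] at h2
    have h3 := phi_le μ Q (γ * 6 ^ (K0 + 1) / 6 ^ Q) (Int.fract (n * th)) (S (fl n - K0) ω)
    calc _ ≤ 1 * 2 := mul_le_mul h1 (by linarith) (norm_nonneg _) zero_le_one
      _ = 2 := one_mul _
  · simp

lemma bb_past (hξm : ∀ n, Measurable[past 0] (ξ n)) (n : ℕ) (h : (K0 : ℤ) ≤ fl n) :
    Measurable[past (fl n - K0 + Q)] (bb μ γ K0 Q ξ n) := by
  obtain ⟨m, hm⟩ := Int.eq_ofNat_of_zero_le (sub_nonneg.2 h)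
  unfold bb
  simp only [if_pos h]
  rw [hm]
  have hm0 : past 0 ≤ past ((m : ℤ) + Q) := past_mono (by positivity)
  have hm1 : past (m : ℤ) ≤ past ((m : ℤ) + Q) := past_mono (by simp)
  have h1 : Measurable[past ((m : ℤ) + Q)] (ξ n) := (hξm n).mono hm0 le_rfl
  have h2 : Measurable[past ((m : ℤ) + Q)] (fun ω : Bi => e (γ * (3 / 2) ^ n * V (dg ω) ((m : ℤ)).toNat)) := by
    apply e_cont.measurable.comp
    rw [Int.toNat_natCast]
    exact ((V_past m).mono hm1 le_rfl).const_mul _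
  have h3 : Measurable[past ((m : ℤ) + Q)] (fun ω : Bi =>
      e (γ * 6 ^ (K0 + 1) / 6 ^ Q * 6 ^ (Int.fract (n * th)) * N Q (S (m : ℤ) ω))) := by
    apply e_cont.measurable.comp
    have h4 : Measurable[past ((m : ℤ) + Q)] (fun ω : Bi => N Q (S (m : ℤ) ω)) := by
      have h5 := (N_past Q).comp (S_past (Q : ℤ) (m : ℤ))
      rw [add_comm] at h5
      exact h5
    exact ((measurable_of_countable (fun x : ℕ => (x : ℝ))).comp h4).const_mul _
  have h4 : Measurable[past ((m : ℤ) + Q)] (fun ω : Bi =>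
      phi μ Q (γ * 6 ^ (K0 + 1) / 6 ^ Q) (Int.fract (n * th)) (S (m : ℤ) ω)) := by
    have h5 := (phi_past μ Q (γ * 6 ^ (K0 + 1) / 6 ^ Q) (Int.fract (n * th))).comp (S_past (0 : ℤ) (m : ℤ))
    rw [zero_add] at h5
    exact h5.mono hm1 le_rfl
  exact (h1.mul h2).mul (h3.sub h4)

lemma bb_meas (hξm : ∀ n, Measurable[past 0] (ξ n)) (n : ℕ) : Measurable (bb μ γ K0 Q ξ n) := by
  by_cases h : (K0 : ℤ) ≤ fl n
  · exact (bb_past μ γ K0 Q ξ hξm n h).mono (past_le _) le_rfl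
  · have : bb μ γ K0 Q ξ n = fun _ => 0 := by
      funext ω
      unfold bb
      rw [if_neg h]
    rw [this]
    exact measurable_const

lemma fl_five (Q : ℕ) : (Q : ℤ) ≤ fl (5 * Q) := by
  unfold fl
  rw [Int.le_floor]
  have := th_lo
  push_cast
  have hQ : (0 : ℝ) ≤ Q := Nat.cast_nonneg _
  nlinarith

lemma bb_orth (hT : MeasurePreserving (S 1) μ μ) (hξm : ∀ n, Measurable[past 0] (ξ n)) (hξ : ∀ n ω, ‖ξ n ω‖ ≤ 1)
    (n n' : ℕ) (hn : n + 5 * Q ≤ n') :
    ∫ ω, bb μ γ K0 Q ξ n' ω * (starRingEnd ℂ) (bb μ γ K0 Q ξ n ω) ∂μ = 0 := by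
  by_cases h : (K0 : ℤ) ≤ fl n
  swap
  · have h1 : ∀ ω, bb μ γ K0 Q ξ n ω = 0 := fun ω => by
      unfold bb
      rw [if_neg h]
    simp [h1]
  have hfl : fl n + Q ≤ fl n' := by
    have h1 := (fl_add n (5 * Q)).1
    have h2 := fl_mono hn
    have h3 := fl_five Q
    omega
  have h' : (K0 : ℤ) ≤ fl n' := by omega
  have hbp := bb_past μ γ K0 Q ξ hξm n h
  set m : ℤ := fl n' - K0 with hm
  have hbp' : Measurable[past m] (bb μ γ K0 Q ξ n) := hbp.mono (past_mono (by omega)) le_rfl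
  obtain ⟨m', hm'⟩ := Int.eq_ofNat_of_zero_le (show 0 ≤ m by omega)
  set t : ℝ := γ * 6 ^ (K0 + 1) / 6 ^ Q * 6 ^ (Int.fract (n' * th)) with ht
  set g : Bi → ℂ := fun ω => (ξ n' ω * e (γ * (3 / 2) ^ n' * V (dg ω) m')) * (starRingEnd ℂ) (bb μ γ K0 Q ξ n ω) with hg
  have hgm : Measurable[past m] g := by
    apply Measurable.mul
    · apply Measurable.mul ((hξm n').mono (past_mono (by omega)) le_rfl)
      apply e_cont.measurable.comp
      rw [hm']
      exact (V_past m').const_mul _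
    · exact Complex.continuous_conj.measurable.comp hbp'
  have hgb : ∀ ω, ‖g ω‖ ≤ 2 := by
    intro ω
    simp only [hg]
    rw [norm_mul, norm_mul, norm_e, mul_one, RCLike.norm_conj]
    calc ‖ξ n' ω‖ * ‖bb μ γ K0 Q ξ n ω‖ ≤ 1 * 2 :=
          mul_le_mul (hξ _ _) (bb_le μ γ K0 Q ξ hξ n ω) (norm_nonneg _) zero_le_one
      _ = 2 := one_mul _
  have hexp : ∀ ω, bb μ γ K0 Q ξ n' ω * (starRingEnd ℂ) (bb μ γ K0 Q ξ n ω) =
      ∑ v ∈ range (6 ^ Q), (({ω' : Bi | N Q ω' = v}.indicator (fun _ => (1 : ℝ)) (S m ω)) • (g ω * e (t * v)) -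
        cp μ {ω' | N Q ω' = v} (S m ω) • (g ω * e (t * v))) := by
    intro ω
    have h1 : e (t * N Q (S m ω)) = ∑ v ∈ range (6 ^ Q),
        (({ω' : Bi | N Q ω' = v}.indicator (fun _ => (1 : ℝ)) (S m ω) : ℝ) : ℂ) * e (t * v) := by
      rw [sum_eq_single (N Q (S m ω))]
      · have h : S m ω ∈ {ω' : Bi | N Q ω' = N Q (S m ω)} := rfl
        rw [Set.indicator_of_mem h]
        simp
      · intro v _ hv
        have h : S m ω ∉ {ω' : Bi | N Q ω' = v} := fun h => hv h.symm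
        rw [Set.indicator_of_notMem h]
        simp
      · intro h
        exact absurd (mem_range.2 (N_lt Q _)) h
    have h2 : bb μ γ K0 Q ξ n' ω = ξ n' ω * e (γ * (3 / 2) ^ n' * V (dg ω) m') *
        (e (t * N Q (S m ω)) - phi μ Q (γ * 6 ^ (K0 + 1) / 6 ^ Q) (Int.fract (n' * th)) (S m ω)) := by
      unfold bb
      rw [if_pos h', ← hm, hm', Int.toNat_natCast]
    rw [h2, h1]
    unfold phi
    rw [← sum_sub_distrib, mul_assoc, sum_mul, mul_sum]
    apply sum_congr rfl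
    intro v _
    simp only [Complex.real_smul, hg]
    ring
  simp only [hexp]
  have hmeasS : Measurable (S m) := S_meas m
  have hgm0 : Measurable g := hgm.mono (past_le _) le_rfl
  have hge : ∀ (v : ℕ) (ω : Bi), ‖g ω * e (t * v)‖ ≤ 2 := fun v ω => by
    rw [norm_mul, norm_e, mul_one]
    exact hgb ω
  have i1 : ∀ v : ℕ, Integrable (fun ω => ({ω' : Bi | N Q ω' = v}.indicator (fun _ => (1 : ℝ)) (S m ω)) • (g ω * e (t * v))) μ := by
    intro v
    refine Integrable.mono' (integrable_const 2) ?_ (Eventually.of_forall fun ω => ?_)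
    · have hi : Measurable ({ω' : Bi | N Q ω' = v}.indicator (fun _ => (1 : ℝ))) := measurable_const.indicator (N_set Q v)
      exact ((hi.comp hmeasS).smul (hgm0.mul_const _)).aestronglyMeasurable
    · rw [norm_smul]
      have h1 : ‖{ω' : Bi | N Q ω' = v}.indicator (fun _ => (1 : ℝ)) (S m ω)‖ ≤ 1 := by
        unfold Set.indicator
        split_ifs <;> simp
      calc _ ≤ 1 * 2 := mul_le_mul h1 (hge v ω) (norm_nonneg _) zero_le_one
        _ = 2 := one_mul _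
  have i2 : ∀ v : ℕ, Integrable (fun ω => cp μ {ω' | N Q ω' = v} (S m ω) • (g ω * e (t * v))) μ := by
    intro v
    refine Integrable.mono' (integrable_const 2) ?_ (Eventually.of_forall fun ω => ?_)
    · exact (((cp_meas μ (N_set Q v)).comp hmeasS).smul (hgm0.mul_const _)).aestronglyMeasurable
    · rw [norm_smul]
      have h1 : ‖cp μ {ω' | N Q ω' = v} (S m ω)‖ ≤ 1 := by
        rw [Real.norm_of_nonneg (cp_nonneg μ _ _)]
        exact cp_le μ _ _
      calc _ ≤ 1 * 2 := mul_le_mul h1 (hge v ω) (norm_nonneg _) zero_le_one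
        _ = 2 := one_mul _
  have i3 : ∀ v ∈ range (6 ^ Q), Integrable (fun ω =>
      ({ω' : Bi | N Q ω' = v}.indicator (fun _ => (1 : ℝ)) (S m ω)) • (g ω * e (t * v)) -
        cp μ {ω' | N Q ω' = v} (S m ω) • (g ω * e (t * v))) μ := fun v _ => (i1 v).sub (i2 v)
  rw [integral_finsetSum _ i3]
  apply sum_eq_zero
  intro v _
  rw [integral_sub (i1 v) (i2 v), sub_eq_zero]
  exact orthS μ hT m (N_set Q v) (fun ω => g ω * e (t * v)) (hgm.mul_const _).stronglyMeasurable 2 (hge v)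

/-- the terms of the exponential sum -/
lemma term_close (ω : Bi) (n : ℕ) (h : (K0 : ℤ) ≤ fl n) :
    ‖ξ n ω * e (γ * (3 / 2) ^ n * Vinf (dg ω)) - (bb μ γ K0 Q ξ n ω +
      ξ n ω * e (γ * (3 / 2) ^ n * V (dg ω) (fl n - K0).toNat) *
        phi μ Q (γ * 6 ^ (K0 + 1) / 6 ^ Q) (Int.fract (n * th)) (S (fl n - K0) ω))‖ ≤
      ‖ξ n ω‖ * (2 * Real.pi * (|γ| * 6 ^ (K0 + 2) / 6 ^ Q)) := by
  obtain ⟨m, hm⟩ := Int.eq_ofNat_of_zero_le (sub_nonneg.2 h)
  unfold bb
  rw [if_pos h, hm, Int.toNat_natCast]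
  have hpow : (3 / 2 : ℝ) ^ n = 6 ^ (Int.fract (n * th)) * (6 ^ m * 6 ^ K0) := by
    rw [← six_th n]
    have h1 : (n * th : ℝ) = Int.fract (n * th) + ((m + K0 : ℕ) : ℝ) := by
      have h2 : fl n = ((m + K0 : ℕ) : ℤ) := by
        push_cast
        omega
      have h3 : (fl n : ℝ) = ((m + K0 : ℕ) : ℝ) := by
        rw [h2]
        push_cast
        rfl
      rw [← h3]
      unfold fl
      exact (Int.fract_add_floor _).symm
    conv_lhs => rw [h1]
    rw [Real.rpow_add (by norm_num), Real.rpow_natCast, pow_add]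
  have hval : γ * (3 / 2) ^ n * V (dg ω) (m + Q) = γ * (3 / 2) ^ n * V (dg ω) m +
      γ * 6 ^ (K0 + 1) / 6 ^ Q * 6 ^ (Int.fract (n * th)) * N Q (S m ω) := by
    rw [V_split, mul_add]
    congr 1
    rw [hpow, pow_succ]
    field_simp
  have halg : ξ n ω * e (γ * (3 / 2) ^ n * V (dg ω) m) *
      (e (γ * 6 ^ (K0 + 1) / 6 ^ Q * 6 ^ (Int.fract (n * th)) * N Q (S (m : ℤ) ω)) -
        phi μ Q (γ * 6 ^ (K0 + 1) / 6 ^ Q) (Int.fract (n * th)) (S (m : ℤ) ω)) +
      ξ n ω * e (γ * (3 / 2) ^ n * V (dg ω) m) *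
        phi μ Q (γ * 6 ^ (K0 + 1) / 6 ^ Q) (Int.fract (n * th)) (S (m : ℤ) ω) =
      ξ n ω * e (γ * (3 / 2) ^ n * V (dg ω) (m + Q)) := by
    rw [hval, e_add]
    ring
  rw [halg, ← mul_sub, norm_mul]
  apply mul_le_mul_of_nonneg_left _ (norm_nonneg _)
  refine (e_lip _ _).trans ?_
  apply mul_le_mul_of_nonneg_left _ (by positivity)
  rw [← mul_sub, abs_mul, abs_mul, abs_of_pos (by positivity : (0 : ℝ) < (3 / 2) ^ n)]
  have h2 := Vinf_ge (dg ω) (m + Q)
  have h3 := Vinf_le (dg ω) (m + Q)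
  rw [abs_of_nonneg (by linarith : (0 : ℝ) ≤ Vinf (dg ω) - V (dg ω) (m + Q))]
  have h4 : (6 : ℝ) ^ (Int.fract (n * th)) ≤ 6 := by
    calc (6 : ℝ) ^ (Int.fract (n * th)) ≤ 6 ^ (1 : ℝ) :=
          Real.rpow_le_rpow_of_exponent_le (by norm_num) (Int.fract_lt_one _).le
      _ = 6 := by norm_num
  calc |γ| * (3 / 2) ^ n * (Vinf (dg ω) - V (dg ω) (m + Q)) ≤ |γ| * (6 * (6 ^ m * 6 ^ K0)) * (6 / 6 ^ (m + Q)) := by
        apply mul_le_mul _ (by linarith) (by linarith) (by positivity)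
        rw [hpow]
        apply mul_le_mul_of_nonneg_left _ (abs_nonneg _)
        exact mul_le_mul_of_nonneg_right h4 (by positivity)
    _ = |γ| * 6 ^ (K0 + 2) / 6 ^ Q := by
        rw [pow_add, pow_add 6 K0 2]
        field_simp

end B

section F

variable (μ : Measure Bi) [IsProbabilityMeasure μ]

/-- almost sure decay of the exponential sums, for a fixed frequency -/
theorem main_sum (hT : MeasurePreserving (S 1) μ μ) (hN : ND μ) (γ : ℝ) (hγ : γ ≠ 0) (ξ : ℕ → Bi → ℂ)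
    (hξm : ∀ n, Measurable[past 0] (ξ n)) (hξ : ∀ n ω, ‖ξ n ω‖ ≤ 1) :
    ∀ᵐ ω ∂μ, ∀ δ : ℝ, 0 < δ → ∀ᶠ M : ℕ in atTop,
      ‖∑ n ∈ range M, ξ n ω * e (γ * (3 / 2) ^ n * Vinf (dg ω))‖ ≤ δ * M := by
  have key : ∀ q : ℕ, ∀ᵐ ω ∂μ, ∀ᶠ M : ℕ in atTop,
      ‖∑ n ∈ range M, ξ n ω * e (γ * (3 / 2) ^ n * Vinf (dg ω))‖ ≤ 7 * (1 / ((q : ℝ) + 1)) * M := by
    intro q
    set η : ℝ := 1 / ((q : ℝ) + 1) with hη
    have hη0 : 0 < η := by positivity
    rw [ae_iff, ← nonpos_iff_eq_zero]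
    apply ENNReal.le_of_forall_pos_le_add
    intro ε hε _
    rw [zero_add]
    have hε' : (0 : ℝ) < ε := by exact_mod_cast hε
    obtain ⟨K0, hK0⟩ := phi_mean μ hT hN γ hγ (ε * η) (by positivity)
    obtain ⟨k, hk⟩ := pow_unbounded_of_one_lt (2 * Real.pi * (|γ| * 6 ^ (K0 + 2)) / η) (show (1 : ℝ) < 6 by norm_num)
    obtain ⟨Q, hkQ, hQ⟩ := hK0 k
    have hsmall : 2 * Real.pi * (|γ| * 6 ^ (K0 + 2) / 6 ^ Q) ≤ η := by
      have h1 : (6 : ℝ) ^ k ≤ 6 ^ Q := pow_le_pow_right₀ (by norm_num) hkQ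
      rw [div_lt_iff₀ hη0] at hk
      rw [mul_div_assoc', div_le_iff₀ (by positivity)]
      nlinarith
    set c : ℝ := γ * 6 ^ (K0 + 1) / 6 ^ Q with hc
    have herg := erg μ hT (fun τ ω => ‖phi μ Q c τ ω‖) (phi_meas μ Q c) (fun τ ω => norm_nonneg _)
      (fun τ ω => phi_le μ Q c τ ω) (2 * Real.pi * (|c| * 30 * 6 ^ Q)) (by positivity)
      (fun x y ω hx hx1 hy hy1 => phi_lip μ Q c x y ω hx hx1 hy hy1) (ε * η) hQ η hη0
    have hεη : (ε : ℝ) * η / η = ε := mul_div_cancel_right₀ _ hη0.ne'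
    rw [hεη, ENNReal.ofReal_coe_nnreal] at herg
    set Bad : Set Bi := {ω | ¬ ∀ᶠ M : ℕ in atTop, ∑ n ∈ range M, ‖phi μ Q c (Int.fract (n * th)) (S ⌊n * th⌋ ω)‖ ≤ 4 * η * M} with hBad
    have hpre : μ (S (-(K0 : ℤ)) ⁻¹' Bad) ≤ ε := by
      have h1 : S (-(K0 : ℤ)) ⁻¹' Bad ⊆ S (-(K0 : ℤ)) ⁻¹' (toMeasurable μ Bad) :=
        Set.preimage_mono (subset_toMeasurable μ Bad)
      refine (measure_mono h1).trans ?_
      rw [(S_mp μ hT (-(K0 : ℤ))).measure_preimage (measurableSet_toMeasurable μ Bad).nullMeasurableSet,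
        measure_toMeasurable]
      exact herg
    refine le_trans ?_ hpre
    apply measure_mono_ae
    have hs := slln μ (bb μ γ K0 Q ξ) (bb_meas μ γ K0 Q ξ hξm) (bb_le μ γ K0 Q ξ hξ) (5 * Q)
      (fun n n' hn => bb_orth μ γ K0 Q ξ hT hξm hξ n n' hn)
    filter_upwards [hs] with ω hω hbad
    show S (-(K0 : ℤ)) ω ∈ Bad
    by_contra hnot
    apply hbad
    simp only [hBad, Set.mem_ofPred_eq, not_not] at hnot
    have h1 := hω η hη0
    obtain ⟨M0, hM0⟩ := exists_nat_ge ((5 * (K0 : ℝ) + 5) / η)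
    filter_upwards [hnot, h1, eventually_ge_atTop M0] with M h2 h3 h4
    have hMr : (0 : ℝ) ≤ M := Nat.cast_nonneg _
    -- the first terms
    set n0 : ℕ := 5 * K0 with hn0
    have hfl : ∀ n, n0 ≤ n → (K0 : ℤ) ≤ fl n := fun n hn => (fl_five K0).trans (fl_mono hn)
    have hterm : ∀ n : ℕ, ‖ξ n ω * e (γ * (3 / 2) ^ n * Vinf (dg ω)) - bb μ γ K0 Q ξ n ω‖ ≤
        ‖phi μ Q c (Int.fract (n * th)) (S ⌊n * th⌋ (S (-(K0 : ℤ)) ω))‖ + η + (if n < n0 then 1 else 0) := by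
      intro n
      have hSS : S ⌊n * th⌋ (S (-(K0 : ℤ)) ω) = S (fl n - K0) ω := by
        rw [S_S]
        rfl
      rw [hSS]
      by_cases hfn : (K0 : ℤ) ≤ fl n
      · have h5 := term_close μ γ K0 Q ξ ω n hfn
        rw [← hc] at h5
        set X := ξ n ω * e (γ * (3 / 2) ^ n * V (dg ω) (fl n - K0).toNat) *
          phi μ Q c (Int.fract (n * th)) (S (fl n - K0) ω) with hX
        have h6 : ‖X‖ ≤ ‖phi μ Q c (Int.fract (n * th)) (S (fl n - K0) ω)‖ := by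
          rw [hX, norm_mul, norm_mul, norm_e, mul_one]
          calc ‖ξ n ω‖ * ‖phi μ Q c (Int.fract (n * th)) (S (fl n - K0) ω)‖ ≤ 1 * _ :=
                mul_le_mul_of_nonneg_right (hξ n ω) (norm_nonneg _)
            _ = _ := one_mul _
        have h7 : ‖ξ n ω‖ * (2 * Real.pi * (|γ| * 6 ^ (K0 + 2) / 6 ^ Q)) ≤ η := by
          calc _ ≤ 1 * η := mul_le_mul (hξ n ω) hsmall (by positivity) zero_le_one
            _ = η := one_mul _
        have h8 : ξ n ω * e (γ * (3 / 2) ^ n * Vinf (dg ω)) - bb μ γ K0 Q ξ n ω =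
            (ξ n ω * e (γ * (3 / 2) ^ n * Vinf (dg ω)) - (bb μ γ K0 Q ξ n ω + X)) + X := by ring
        rw [h8]
        refine (norm_add_le _ _).trans ?_
        have h9 : (0 : ℝ) ≤ if n < n0 then 1 else 0 := by split_ifs <;> norm_num
        linarith
      · have h5 : n < n0 := by
          by_contra hcon
          exact hfn (hfl n (not_lt.1 hcon))
        have h6 : bb μ γ K0 Q ξ n ω = 0 := by
          unfold bb
          rw [if_neg hfn]
        rw [h6, sub_zero, norm_mul, norm_e, mul_one, if_pos h5]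
        have h7 := hξ n ω
        have h8 := norm_nonneg (phi μ Q c (Int.fract (n * th)) (S (fl n - K0) ω))
        linarith
    have hsum : ‖∑ n ∈ range M, ξ n ω * e (γ * (3 / 2) ^ n * Vinf (dg ω))‖ ≤
        ‖∑ n ∈ range M, bb μ γ K0 Q ξ n ω‖ + ∑ n ∈ range M,
          (‖phi μ Q c (Int.fract (n * th)) (S ⌊n * th⌋ (S (-(K0 : ℤ)) ω))‖ + η + (if n < n0 then 1 else 0)) := by
      have h5 : ∑ n ∈ range M, ξ n ω * e (γ * (3 / 2) ^ n * Vinf (dg ω)) = ∑ n ∈ range M, bb μ γ K0 Q ξ n ω +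
          ∑ n ∈ range M, (ξ n ω * e (γ * (3 / 2) ^ n * Vinf (dg ω)) - bb μ γ K0 Q ξ n ω) := by
        rw [← sum_add_distrib]
        apply sum_congr rfl
        intro n _
        ring
      rw [h5]
      refine (norm_add_le _ _).trans (add_le_add le_rfl ((norm_sum_le _ _).trans (sum_le_sum fun n _ => hterm n)))
    refine hsum.trans ?_
    rw [sum_add_distrib, sum_add_distrib, sum_const, card_range, nsmul_eq_mul]
    have h5 : ∑ n ∈ range M, (if n < n0 then (1 : ℝ) else 0) ≤ n0 := by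
      rw [← sum_filter, sum_const, nsmul_eq_mul, mul_one]
      have h6 : (range M).filter (fun n => n < n0) ⊆ range n0 := by
        intro n hn
        rw [mem_filter] at hn
        exact mem_range.2 hn.2
      have h7 := card_le_card h6
      rw [card_range] at h7
      exact_mod_cast h7
    have h6 : (n0 : ℝ) ≤ η * M := by
      rw [div_le_iff₀ hη0] at hM0
      have h7 : (M0 : ℝ) ≤ M := by exact_mod_cast h4
      have h8 : (n0 : ℝ) = 5 * K0 := by
        rw [hn0]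
        push_cast
        rfl
      rw [h8]
      nlinarith
    linarith
  filter_upwards [ae_all_iff.2 key] with ω hω δ hδ
  obtain ⟨q, hq⟩ := exists_nat_one_div_lt (show 0 < δ / 7 by linarith)
  filter_upwards [hω q] with M hM
  refine hM.trans (mul_le_mul_of_nonneg_right ?_ (Nat.cast_nonneg _))
  linarith

end F

end Pool.Agent.Zk45.Hst
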