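import Mathlib
import Pool.Agent.Zk45.Host5

set_option autoImplicit false

/-! From exponential sums to the automaton. -/

open Finset Filter Topology MeasureTheory ProbabilityTheory

namespace Pool.Agent.Zk45.Hst

open Pool.Agent.Zk45.W Pool.Agent.Zk45.R Pool.Agent.Zk45.Far Pool.Agent.Zk45.Avg Pool.Agent.Zk45.Two
  Pool.Agent.H429R2.Auto

/-- locality of the automaton, on the left -/
lemma local_left (x z : Conf) (M : ℤ) (h : ∀ i, M ≤ i → x i = z i) (n : ℕ) :
    ∀ i : ℤ, M + n ≤ i → F^[n] x i = F^[n] z i := by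
  induction n with
  | zero =>
    intro i hi
    exact h i (by simpa using hi)
  | succ n ih =>
    intro i hi
    rw [Function.iterate_succ_apply', Function.iterate_succ_apply']
    push_cast at hi
    rw [F_apply, F_apply, ih (i - 1) (by omega), ih i (by omega), ih (i + 1) (by omega)]

lemma rep_left {y : Conf} {v : ℝ} (h : Rep y v) (k : ℕ) : Rep (fun i => y (i + k)) (6 ^ k * v) := by
  intro i
  have h1 := h (i + k)
  dsimp only
  rw [h1]
  congr 2
  rw [zpow_add₀ (by norm_num), zpow_natCast]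
  ring

/-- the digits of `x` from the position `-k` on -/
def cut (x : Conf) (k : ℕ) : ℕ → Fin 6 := fun i => x ((i : ℤ) - k)

/-- the truncation on the left -/
def trL (x : Conf) (k : ℕ) : Conf := fun i => if -(k : ℤ) ≤ i then x i else 0

lemma trL_eq (x : Conf) (k : ℕ) : trL x k = fun i => conf (cut x k) (i + k) := by
  funext i
  unfold trL conf cut
  by_cases h : -(k : ℤ) ≤ i
  · rw [if_pos h, if_pos (by omega)]
    congr 1
    omega
  · rw [if_neg h, if_neg (by omega)]

lemma Vinf_cut (x : Conf) (k : ℕ) : Vinf (cut x k) = V (cut x k) k + Vinf (fun i => x (i : ℤ)) / 6 ^ k := by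
  unfold Vinf
  have hs := Vinf_summable (cut x k)
  rw [← hs.sum_add_tsum_nat_add k]
  congr 1
  rw [← tsum_div_const]
  apply tsum_congr
  intro i
  unfold cut
  rw [pow_add, div_div]
  congr 3
  push_cast
  congr 1
  ring

section M

variable (μ : Measure Bi) [IsProbabilityMeasure μ]

/-- almost surely infinitely many digits to the right are not `5` -/
lemma not_five (hT : MeasurePreserving (S 1) μ μ) (hN : ND μ) : ∀ᵐ ω ∂μ, ∀ m : ℕ, ∃ i ≥ m, dg ω i ≠ 5 := by
  set E : ℤ → Set Bi := fun m => {ω | ∀ i : ℤ, m ≤ i → ω i = 5} with hE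
  have hEm : ∀ m, MeasurableSet (E m) := by
    intro m
    have : E m = ⋂ i : ℤ, ⋂ _ : m ≤ i, {ω : Bi | ω i = 5} := by
      ext ω
      simp [hE]
    rw [this]
    apply MeasurableSet.iInter
    intro i
    apply MeasurableSet.iInter
    intro _
    have h : Measurable (fun ω : Bi => ω i) := measurable_pi_apply i
    exact h (measurableSet_singleton 5)
  have hpre : ∀ m, S 1 ⁻¹' (E m) = E (m + 1) := by
    intro m
    ext ω
    simp only [hE, Set.mem_preimage, Set.mem_ofPred_eq, S]
    constructor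
    · intro h i hi
      have := h (i - 1) (by omega)
      rwa [sub_add_cancel] at this
    · intro h i hi
      exact h (i + 1) (by omega)
  have hmono : ∀ m, E m ⊆ E (m + 1) := fun m ω h i hi => h i (by omega)
  have hdiff : ∀ m, μ (E (m + 1) \ E m) = 0 := by
    intro m
    rw [measure_sdiff (hmono m) (hEm m).nullMeasurableSet (measure_ne_top _ _), ← hpre m,
      hT.measure_preimage (hEm m).nullMeasurableSet, tsub_self]
  have hae : ∀ᵐ ω ∂μ, ∀ m : ℤ, ω ∈ E (m + 1) → ω ∈ E m := by
    rw [ae_all_iff]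
    intro m
    rw [ae_iff]
    refine measure_mono_null ?_ (hdiff m)
    intro ω hω
    simp only [Set.mem_ofPred_eq, Classical.not_imp] at hω
    exact hω
  -- the constant sequence
  have hA0 : μ {ω : Bi | ∀ i, ω i = 5} = 0 := by
    by_contra hne
    have hAm : MeasurableSet {ω : Bi | ∀ i, ω i = 5} := by
      have : {ω : Bi | ∀ i, ω i = 5} = ⋂ i : ℤ, {ω : Bi | ω i = 5} := by
        ext ω
        simp
      rw [this]
      apply MeasurableSet.iInter
      intro i
      have h : Measurable (fun ω : Bi => ω i) := measurable_pi_apply i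
      exact h (measurableSet_singleton 5)
    apply hN _ hAm _ hne
    · refine ⟨fun _ => 5, measurable_const, ?_⟩
      rw [ae_restrict_iff' hAm]
      exact Eventually.of_forall fun ω hω => hω 0
    · ext ω
      simp only [Set.mem_preimage, Set.mem_ofPred_eq, S]
      constructor
      · intro h i
        have := h (i - 1)
        rwa [sub_add_cancel] at this
      · intro h i
        exact h (i + 1)
  have hA1 : ∀ᵐ ω ∂μ, ¬ ∀ i, ω i = 5 := by
    rw [ae_iff]
    simpa using hA0
  filter_upwards [hae, hA1] with ω h1 h2 m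
  by_contra hcon
  push Not at hcon
  have h3 : ω ∈ E m := by
    intro i hi
    obtain ⟨l, rfl⟩ := Int.eq_ofNat_of_zero_le (show 0 ≤ i by omega)
    exact hcon l (by omega)
  have h4 : ∀ k : ℕ, ω ∈ E ((m : ℤ) - k) := by
    intro k
    induction k with
    | zero => simpa using h3
    | succ k ih =>
      apply h1
      have : (m : ℤ) - ((k + 1 : ℕ) : ℤ) + 1 = m - k := by
        push_cast
        ring
      rw [this]
      exact ih
  apply h2
  intro i
  exact h4 ((m : ℤ) - i).toNat i (by omega)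

/-- the configuration with the digits of `ω` to the right and those of `l` to the left of the origin -/
def glue (l ω : Bi) : Conf := fun i => if 0 ≤ i then ω i else l i

/-- almost surely all words have the right frequency at every position, along every fixed set of times of positive
lower density -/
theorem freq (hT : MeasurePreserving (S 1) μ μ) (hN : ND μ) (l : Bi → Bi)
    (hl : ∀ i : ℤ, i < 0 → Measurable[past 0] (fun ω => l ω i))
    (T : Set ℕ) (c : ℝ) (hc : 0 < c) (hTc : ∀ᶠ N : ℕ in atTop, c * N ≤ ({n : ℕ | n < N ∧ n ∈ T}.ncard : ℝ)) :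
    ∀ᵐ ω ∂μ, ∀ (j : ℤ) (L : ℕ) (w : Fin L → Fin 6),
      Tendsto (fun N : ℕ => ({n : ℕ | n < N ∧ n ∈ T ∧ Sh (F^[n] (glue (l ω) ω)) w j}.ncard : ℝ) /
        ({n : ℕ | n < N ∧ n ∈ T}.ncard : ℝ)) atTop (𝓝 (1 / 6 ^ L)) := by
  classical
  -- the contribution of the left digits
  set u : ℤ → ℕ → Bi → ℝ := fun j n ω => 6 ^ (n + j.natAbs) * V (cut (glue (l ω) ω) (n + j.natAbs)) (n + j.natAbs) with hu
  have hum : ∀ j n, Measurable[past 0] (u j n) := by
    intro j n
    simp only [hu]
    apply Measurable.const_mul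
    unfold V
    apply Finset.measurable_sum
    intro i hi
    rw [mem_range] at hi
    apply Measurable.div_const
    have h1 : Measurable[past 0] (fun ω : Bi => cut (glue (l ω) ω) (n + j.natAbs) i) := by
      have h2 : ∀ ω : Bi, cut (glue (l ω) ω) (n + j.natAbs) i = l ω ((i : ℤ) - (n + j.natAbs : ℕ)) := by
        intro ω
        unfold cut glue
        rw [if_neg (by omega)]
      simp only [h2]
      exact hl _ (by omega)
    exact (measurable_of_finite (fun d : Fin 6 => ((d : ℕ) : ℝ))).comp h1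
  set ξ : ℤ → ℤ → ℕ → Bi → ℂ := fun h j n ω => if n ∈ T then e ((h * (6 : ℝ) ^ (j - 1)) * (3 / 2) ^ n * u j n ω) else 0 with hξ
  have h1 : ∀ᵐ ω ∂μ, ∀ (h : ℤ) (j : ℤ), h ≠ 0 → ∀ δ : ℝ, 0 < δ → ∀ᶠ N : ℕ in atTop,
      ‖∑ n ∈ range N, ξ h j n ω * e ((h * (6 : ℝ) ^ (j - 1)) * (3 / 2) ^ n * Vinf (dg ω))‖ ≤ δ * N := by
    rw [ae_all_iff]
    intro h
    rw [ae_all_iff]
    intro j
    by_cases h0 : h = 0
    · exact Eventually.of_forall fun ω hne => absurd h0 hne
    · have hne : (h : ℝ) * (6 : ℝ) ^ (j - 1) ≠ 0 := by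
        have : (h : ℝ) ≠ 0 := by exact_mod_cast h0
        positivity
      filter_upwards [main_sum μ hT hN _ hne (ξ h j) (fun n => by
          simp only [hξ]
          split_ifs with hn
          · exact e_cont.measurable.comp ((hum j n).const_mul _)
          · exact measurable_const) (fun n ω => by
          simp only [hξ]
          split_ifs with hn
          · rw [norm_e]
          · simp)] with ω hω _
      exact hω
  filter_upwards [h1, not_five μ hT hN] with ω hs h5 j L w
  set x : Conf := glue (l ω) ω with hx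
  set vv : ℕ → ℝ := fun n => u j n ω + Vinf (dg ω) with hvv
  have hV0 : 0 ≤ Vinf (dg ω) := by
    have := Vinf_ge (dg ω) 0
    simpa [V] using this
  have hu0 : ∀ n, 0 ≤ u j n ω := by
    intro n
    simp only [hu]
    have := V_nonneg (cut (glue (l ω) ω) (n + j.natAbs)) (n + j.natAbs)
    positivity
  have hrep : ∀ n : ℕ, Rep (trL x (n + j.natAbs)) (vv n) := by
    intro n
    set k : ℕ := n + j.natAbs with hk
    have h6 : ∀ m, ∃ i ≥ m, cut x k i ≠ 5 := by
      intro m
      obtain ⟨i, hi, h7⟩ := h5 m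
      refine ⟨i + k, by omega, ?_⟩
      unfold cut
      have : ((i + k : ℕ) : ℤ) - k = i := by
        push_cast
        ring
      rw [this, hx]
      unfold glue
      rw [if_pos (by positivity)]
      exact h7
    have h7 := rep_left (rep_inf (cut x k) h6) k
    rw [← trL_eq] at h7
    have h8 : (6 : ℝ) ^ k * Vinf (cut x k) = vv n := by
      rw [Vinf_cut, mul_add, mul_div_cancel₀ _ (by positivity : (6 : ℝ) ^ k ≠ 0)]
      have h9 : (fun i : ℕ => x (i : ℤ)) = dg ω := by
        funext i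
        rw [hx]
        unfold glue dg
        rw [if_pos (by positivity)]
      rw [h9]
    rw [h8] at h7
    exact h7
  have hsh : ∀ n : ℕ, Sh (F^[n] x) w j ↔ Sh (F^[n] (trL x (n + j.natAbs))) w j := by
    intro n
    have h6 : ∀ s : Fin L, F^[n] x (j + (s : ℕ)) = F^[n] (trL x (n + j.natAbs)) (j + (s : ℕ)) := by
      intro s
      apply local_left _ _ (-((n + j.natAbs : ℕ) : ℤ))
      · intro i hi
        unfold trL
        rw [if_pos hi]
      · push_cast
        have h9 := neg_abs_le j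
        have h10 : (0 : ℤ) ≤ ((s : ℕ) : ℤ) := by positivity
        linarith
    unfold Sh
    simp only [h6]
  have hfr : ∀ n : ℕ, Sh (F^[n] x) w j ↔ ((code w : ℕ) : ℝ) / 6 ^ L ≤ Int.fract ((6 : ℝ) ^ (j - 1) * ((3 / 2) ^ n * vv n)) ∧
        Int.fract ((6 : ℝ) ^ (j - 1) * ((3 / 2) ^ n * vv n)) < ((code w : ℕ) + 1 : ℝ) / 6 ^ L := by
    intro n
    have hv : 0 ≤ vv n := add_nonneg (hu0 n) hV0
    rw [hsh n]
    exact sh_iff_fract (by positivity) (rep_iter hv (hrep n) n) w j
  rw [Metric.tendsto_atTop]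
  intro ε hε
  have hcode := code_lt w
  have hcode' : ((code w : ℕ) : ℝ) + 1 ≤ 6 ^ L := by exact_mod_cast hcode
  obtain ⟨H, δ, hδ, hw⟩ := weyl_fin (((code w : ℕ) : ℝ) / 6 ^ L) (((code w : ℕ) + 1) / 6 ^ L) (ε / 2) (by positivity)
    (by apply div_le_div_of_nonneg_right _ (by positivity); linarith)
    (by rw [div_le_one (by positivity)]; exact hcode') (by linarith)
  have h2 : ∀ᶠ N : ℕ in atTop, ∀ h ∈ (Icc (-(H : ℤ)) H).filter (fun h => h ≠ 0),
      ‖∑ n ∈ range N, ξ h j n ω * e ((h * (6 : ℝ) ^ (j - 1)) * (3 / 2) ^ n * Vinf (dg ω))‖ ≤ (δ * c) * N := by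
    rw [eventually_all_finset]
    intro h hh
    rw [mem_filter] at hh
    exact hs h j hh.2 (δ * c) (by positivity)
  obtain ⟨N0, hN0⟩ := eventually_atTop.1 (h2.and hTc)
  refine ⟨N0 + 1, fun N hN => ?_⟩
  have hNpos : (0 : ℝ) < N := by
    have : 0 < N := by omega
    exact_mod_cast this
  set A : Finset ℕ := (range N).filter (fun n => n ∈ T) with hA
  have hAc : ({n : ℕ | n < N ∧ n ∈ T}.ncard : ℝ) = A.card := by
    have : {n : ℕ | n < N ∧ n ∈ T} = (A : Set ℕ) := by
      ext n
      rw [hA, mem_coe, mem_filter, mem_range]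
      rfl
    rw [this, Set.ncard_coe_finset]
  have hAlow : c * N ≤ (A.card : ℝ) := by
    rw [← hAc]
    exact (hN0 N (by omega)).2
  have hApos : (0 : ℝ) < A.card := lt_of_lt_of_le (by positivity) hAlow
  have h3 := hw ℕ A (fun n => (6 : ℝ) ^ (j - 1) * ((3 / 2) ^ n * vv n)) (by
    intro h hh0 hhH
    have h4 := (hN0 N (by omega)).1 h (by
      rw [mem_filter, mem_Icc]
      exact ⟨abs_le.1 hhH, hh0⟩)
    have h6 : ∑ n ∈ A, e (h * ((6 : ℝ) ^ (j - 1) * ((3 / 2) ^ n * vv n))) =
        ∑ n ∈ range N, ξ h j n ω * e ((h * (6 : ℝ) ^ (j - 1)) * (3 / 2) ^ n * Vinf (dg ω)) := by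
      rw [hA, sum_filter]
      apply sum_congr rfl
      intro n _
      simp only [hξ, hvv]
      split_ifs with hn
      · rw [← e_add]
        congr 1
        ring
      · rw [zero_mul]
    rw [h6]
    refine h4.trans ?_
    rw [mul_assoc]
    exact mul_le_mul_of_nonneg_left hAlow hδ.le)
  have hset : {n : ℕ | n < N ∧ n ∈ T ∧ Sh (F^[n] x) w j} =
      ((A.filter (fun n => ((code w : ℕ) : ℝ) / 6 ^ L ≤ Int.fract ((6 : ℝ) ^ (j - 1) * ((3 / 2) ^ n * vv n)) ∧
        Int.fract ((6 : ℝ) ^ (j - 1) * ((3 / 2) ^ n * vv n)) < ((code w : ℕ) + 1 : ℝ) / 6 ^ L) : Finset ℕ) : Set ℕ) := by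
    ext n
    rw [Set.mem_ofPred_eq, mem_coe, mem_filter, hA, mem_filter, mem_range, and_assoc]
    apply and_congr_right
    intro _
    apply and_congr_right
    intro _
    exact hfr n
  rw [hset, Set.ncard_coe_finset, hAc, Real.dist_eq]
  have h5 : (((code w : ℕ) + 1 : ℝ) / 6 ^ L - (code w : ℕ) / 6 ^ L) * A.card = (1 / 6 ^ L) * A.card := by ring
  rw [h5] at h3
  set C : ℝ := ((A.filter (fun n => ((code w : ℕ) : ℝ) / 6 ^ L ≤ Int.fract ((6 : ℝ) ^ (j - 1) * ((3 / 2) ^ n * vv n)) ∧
        Int.fract ((6 : ℝ) ^ (j - 1) * ((3 / 2) ^ n * vv n)) < ((code w : ℕ) + 1 : ℝ) / 6 ^ L)).card : ℝ) with hC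
  have h6 : C / A.card - 1 / 6 ^ L = (C - (1 / 6 ^ L) * A.card) / A.card := by
    field_simp
  rw [h6, abs_div, abs_of_pos hApos, div_lt_iff₀ hApos]
  refine lt_of_le_of_lt h3 ?_
  nlinarith

end M

end Pool.Agent.Zk45.Hst
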