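import Mathlib

/-!
# Digit sums: Kummer's theorem, and the size of the classes of equal binary digit sum (helper45)
-/

set_option autoImplicit false

namespace Pool.Agent.Zk45.DSC

open Finset

/-- Kummer: numbers with the same digit sum form an antichain modulo `p`. -/
lemma dvd_choose_of_sum (p : ℕ) (hp : p.Prime) (x y : ℕ) (hxy : x ≠ y)
    (h : (Nat.digits p x).sum = (Nat.digits p y).sum) : p ∣ x.choose y := by
  have : Fact p.Prime := ⟨hp⟩
  rcases lt_or_ge x y with h1 | h1
  · rw [Nat.choose_eq_zero_of_lt h1]
    exact dvd_zero p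
  · have h2 := sub_one_mul_padicValNat_choose_eq_sub_sum_digits (p := p) h1
    rw [h, Nat.add_sub_cancel_left] at h2
    have h3 : (Nat.digits p (x - y)).sum ≠ 0 := by
      intro h0
      have h4 : x - y ≠ 0 := by omega
      have h5 := Nat.getLast_digit_ne_zero p h4
      have h6 : (Nat.digits p (x - y)).getLast (Nat.digits_ne_nil_iff_ne_zero.2 h4) ∈
        Nat.digits p (x - y) := List.getLast_mem _
      exact h5 (List.sum_eq_zero_iff.1 h0 _ h6)
    have h4 : padicValNat p (x.choose y) ≠ 0 := by
      intro h0
      rw [h0, mul_zero] at h2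
      exact h3 h2.symm
    exact dvd_of_one_le_padicValNat (Nat.one_le_iff_ne_zero.2 h4)

lemma sum_two_mul (m : ℕ) : (Nat.digits 2 (2 * m)).sum = (Nat.digits 2 m).sum := by
  rcases Nat.eq_zero_or_pos m with rfl | h
  · simp
  · rw [Nat.digits_def' (by norm_num) (by omega)]
    simp

lemma sum_two_mul_add_one (m : ℕ) : (Nat.digits 2 (2 * m + 1)).sum = (Nat.digits 2 m).sum + 1 := by
  rw [Nat.digits_def' (by norm_num) (by omega)]
  have h1 : (2 * m + 1) % 2 = 1 := by omega
  have h2 : (2 * m + 1) / 2 = m := by omega
  rw [h1, h2]
  simp [add_comm]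

/-- the numbers below `2 ^ K` with binary digit sum `s` -/
def cls (K s : ℕ) : Finset ℕ := (range (2 ^ K)).filter fun m => (Nat.digits 2 m).sum = s

lemma cls_card : ∀ K s : ℕ, (cls K s).card = K.choose s
  | 0, 0 => by decide
  | 0, s + 1 => by
      unfold cls
      rw [Nat.choose_zero_succ, Finset.card_eq_zero, Finset.filter_eq_empty_iff]
      intro m hm
      have : m = 0 := by simpa using hm
      subst this
      simp
  | K + 1, s => by
      have h1 : cls (K + 1) s = (cls K s).image (2 * ·) ∪
          (if s = 0 then ∅ else (cls K (s - 1)).image (2 * · + 1)) := by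
        ext m
        unfold cls
        simp only [mem_union, mem_image, mem_filter, mem_range, pow_succ]
        constructor
        · rintro ⟨hm, hs⟩
          rcases Nat.even_or_odd' m with ⟨t, ht | ht⟩
          · left
            refine ⟨t, ⟨by omega, ?_⟩, ht.symm⟩
            rw [← hs, ht, sum_two_mul]
          · right
            rw [ht, sum_two_mul_add_one] at hs
            rw [if_neg (by omega)]
            simp only [mem_image, mem_filter, mem_range]
            exact ⟨t, ⟨by omega, by omega⟩, ht.symm⟩
        · rintro (⟨t, ⟨h1, h2⟩, rfl⟩ | h)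
          · exact ⟨by omega, by rw [sum_two_mul]; exact h2⟩
          · by_cases hs : s = 0
            · rw [if_pos hs] at h
              simp at h
            · rw [if_neg hs] at h
              simp only [mem_image, mem_filter, mem_range] at h
              obtain ⟨t, ⟨h1, h2⟩, rfl⟩ := h
              exact ⟨by omega, by rw [sum_two_mul_add_one]; omega⟩
      rw [h1]
      rcases s with _ | s
      · rw [if_pos rfl, union_empty, card_image_of_injective _ (fun a b h => by
          simpa using h), cls_card K 0]
        simp
      · rw [if_neg (by omega), card_union_of_disjoint, card_image_of_injective _ (fun a b h => by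
          simpa using h), card_image_of_injective _ (fun a b h => by simpa using h), cls_card K,
          Nat.add_sub_cancel, cls_card K s, Nat.choose_succ_succ]
        · ring
        · rw [disjoint_left]
          intro m h1 h2
          rw [mem_image] at h1 h2
          obtain ⟨a, _, ha⟩ := h1
          obtain ⟨b, _, hb⟩ := h2
          omega

/-- `C(2k, k) ≥ 4 ^ k / (2 √k)` -/
lemma central (k : ℕ) (hk : 1 ≤ k) : 16 ^ k ≤ 4 * k * ((2 * k).choose k) ^ 2 := by
  induction k, hk using Nat.le_induction with
  | base => decide
  | succ k hk ih =>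
    have h1 := Nat.succ_mul_centralBinom_succ k
    unfold Nat.centralBinom at h1
    set c := (2 * k).choose k with hc
    set c' := (2 * (k + 1)).choose (k + 1) with hc'
    have h2 : (k + 1) ^ 2 * c' ^ 2 = (2 * (2 * k + 1)) ^ 2 * c ^ 2 := by
      rw [← mul_pow, ← mul_pow, h1]
    have h3 : (k * (k + 1)) * 16 ^ (k + 1) ≤ (k * (k + 1)) * (4 * (k + 1) * c' ^ 2) := by
      have e1 : (k * (k + 1)) * (4 * (k + 1) * c' ^ 2) = 4 * k * ((k + 1) ^ 2 * c' ^ 2) := by ring
      rw [e1, h2]
      have e2 : 4 * k * ((2 * (2 * k + 1)) ^ 2 * c ^ 2) = (4 * k * c ^ 2) * (2 * (2 * k + 1)) ^ 2 := by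
        ring
      rw [e2]
      have e3 : (k * (k + 1)) * 16 ^ (k + 1) = 16 ^ k * (16 * (k * (k + 1))) := by ring
      rw [e3]
      apply Nat.mul_le_mul ih
      nlinarith
    exact Nat.le_of_mul_le_mul_left h3 (by positivity)

end Pool.Agent.Zk45.DSC
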