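import Pool.Agent.N568.BK.DS3

/-!
# Words in letters which are an antichain modulo a prime (helper45)
-/

set_option autoImplicit false

namespace Pool.Agent.Zk45.DSA

open Finset Pool.Agent.H777R4.DM
open Pool.Agent.N568.BK (AR cR cR_rat cR_map)
open Pool.Agent.H861R3.DM.LeadN (evN PhiN_wd)
open Pool.Agent.N568.DSF (evN_eq evN_Dp)

attribute [local instance 100] LieRing.ofAssociativeRing

/-- One step: only the first entry counts. -/
theorem AR_anti {R : Type} [CommRing R] (b : ℕ) : ∀ (e : List ℕ) (g : List ℕ → R), e ≠ [] →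
    (∀ x ∈ e, x = 2 * b ∨ ((2 * b).choose x : R) = 0) →
    AR b g e = if e.headD 0 = 2 * b then g e.tail else 0
  | [], g, h, _ => absurd rfl h
  | [k], g, _, _ => rfl
  | k :: l :: e, g, _, hx => by
      have ih := AR_anti b (l :: e) (fun e' => g (k :: e')) (by simp)
        (fun x h => hx x (List.mem_cons_of_mem _ h))
      have hk := hx k (by simp)
      have hl := hx l (by simp)
      have h1 : ((-1 : R)) ^ (2 * b) = 1 := by rw [pow_mul]; simp
      unfold AR
      rw [ih]
      simp only [List.headD_cons, List.tail_cons]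
      by_cases hkb : k = 2 * b
      · subst hkb
        rw [if_pos (show 2 * b ≤ 2 * b + l by omega), if_pos rfl]
        have e1 : 2 * b + l - 2 * b = l := by omega
        rw [e1, h1, Nat.choose_self, Nat.cast_one]
        by_cases hlb : l = 2 * b
        · subst hlb
          rw [if_pos rfl, h1, Nat.choose_self, Nat.cast_one]
          ring
        · rw [if_neg hlb, hl.resolve_left hlb]
          ring
      · rw [if_neg hkb, hk.resolve_left hkb]
        by_cases hlb : l = 2 * b
        · subst hlb
          rw [if_pos rfl, if_pos (show 2 * b ≤ k + 2 * b by omega), h1, Nat.choose_self,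
            Nat.cast_one]
          have e1 : k + 2 * b - 2 * b = k := by omega
          rw [e1]
          ring
        · rw [if_neg hlb, hl.resolve_left hlb]
          simp

/-- The coefficients modulo `p`. -/
theorem cR_anti {R : Type} [CommRing R] : ∀ (w' w : List ℕ), w'.length = w.length →
    (∀ x ∈ w', ∀ y ∈ w, y = x ∨ ((2 * x).choose (2 * y) : R) = 0) →
    cR R w' (w.map (2 * ·)) = if w' = w then 1 else 0
  | [], [], _, _ => by simp [cR]
  | [], _ :: _, h, _ => by simp at h
  | _ :: _, [], h, _ => by simp at h
  | x :: u, y :: v, h, hE => by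
      show AR x (cR R u) _ = _
      rw [AR_anti x _ _ (by simp) (by
        intro z hz
        rw [List.mem_map] at hz
        obtain ⟨t, ht, rfl⟩ := hz
        rcases hE x (by simp) t ht with h1 | h1
        · left; rw [h1]
        · right; exact h1)]
      simp only [List.map_cons, List.headD_cons, List.tail_cons]
      rw [cR_anti u v (by simpa using h)
        (fun a ha c hc => hE a (List.mem_cons_of_mem _ ha) c (List.mem_cons_of_mem _ hc))]
      by_cases hxy : y = x
      · subst hxy
        simp
      · rw [if_neg (by omega), if_neg]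
        intro h2
        rw [List.cons.injEq] at h2
        exact hxy h2.1.symm

/-- the coefficient vectors are independent -/
theorem indep (p : ℕ) (hp : p.Prime) (E : ℕ → Prop)
    (hE : ∀ x y, E x → E y → x ≠ y → p ∣ (2 * x).choose (2 * y)) (d : ℕ) (F : Finset (List ℕ))
    (hF : ∀ w ∈ F, w.length = d ∧ ∀ x ∈ w, E x)
    (lam : List ℕ → ℚ) (h : ∀ w ∈ F, ∑ w' ∈ F, lam w' * cR ℚ w' (w.map (2 * ·)) = 0) :
    ∀ w ∈ F, lam w = 0 := by
  classical
  have : Fact p.Prime := ⟨hp⟩
  set M : Matrix F F ℤ := fun w' w => cR ℤ w'.1 (w.1.map (2 * ·)) with hM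
  have hdet : M.det ≠ 0 := by
    intro h0
    have h1 : (Int.castRingHom (ZMod p)) M.det = 0 := by rw [h0, map_zero]
    rw [RingHom.map_det] at h1
    have h2 : (Int.castRingHom (ZMod p)).mapMatrix M = (1 : Matrix F F (ZMod p)) := by
      ext w' w
      rw [RingHom.mapMatrix_apply, Matrix.map_apply, hM]
      rw [cR_map (Int.castRingHom (ZMod p)), cR_anti w'.1 w.1
        (by rw [(hF _ w'.2).1, (hF _ w.2).1]) (by
          intro x hx y hy
          by_cases hxy : y = x
          · exact Or.inl hxy
          · right
            have := hE x y ((hF _ w'.2).2 x hx) ((hF _ w.2).2 y hy) (fun h => hxy h.symm)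
            exact (ZMod.natCast_eq_zero_iff _ _).2 this), Matrix.one_apply]
      by_cases hww : w' = w
      · rw [if_pos (by rw [hww]), if_pos hww]
      · rw [if_neg (fun h => hww (Subtype.ext h)), if_neg hww]
    rw [h2, Matrix.det_one] at h1
    exact one_ne_zero h1
  have hdet' : ((Int.castRingHom ℚ).mapMatrix M).det ≠ 0 := by
    rw [← RingHom.map_det]
    simpa using hdet
  have h3 := Matrix.eq_zero_of_vecMul_eq_zero hdet' (v := fun w => lam w.1) (by
    funext w
    have h4 := h w.1 w.2
    rw [← Finset.sum_attach] at h4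
    rw [Matrix.vecMul, Pi.zero_apply]
    refine Eq.trans ?_ h4
    unfold dotProduct
    rw [← Finset.attach_eq_univ]
    refine Finset.sum_congr rfl fun w' _ => ?_
    congr 1
    show (Int.castRingHom ℚ) (cR ℤ w'.1 (w.1.map (2 * ·))) = _
    rw [cR_map (Int.castRingHom ℚ)])
  intro w hw
  exact congrFun h3 ⟨w, hw⟩

/-- **Main theorem.** -/
theorem main (p : ℕ) (hpp : p.Prime) (n : ℕ) (b : Fin n → ℕ) (hb : ∀ i, 1 ≤ b i)
    (hanti : ∀ i j, i ≠ j → p ∣ (2 * b i).choose (2 * b j))
    (ψ : Fin n → A) (hL : ∀ i, ψ i ∈ LieX)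
    (hhom : ∀ i u, co (ψ i) u ≠ 0 → u.length = 2 * b i + 1)
    (hne : ∀ i, co (ψ i) (wordX [2 * b i]) ≠ 0) : Function.Injective (PhiN ψ) := by
  classical
  have hbinj : Function.Injective b := by
    intro i j hij
    by_contra hne'
    have h1 := hanti i j hne'
    rw [hij, Nat.choose_self] at h1
    exact hpp.one_lt.ne' (Nat.dvd_one.1 h1)
  rw [← LinearMap.ker_eq_bot, LinearMap.ker_eq_bot']
  intro P hP
  -- all coefficients vanish
  suffices h : ∀ r : ℕ, ∀ W : List (Fin n), W.length = r → co P W = 0 by
    exact al_ext fun W => by rw [h W.length W rfl, co_zero]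
  intro r
  induction r using Nat.strong_induction_on with
  | _ r ih =>
  intro W0 hW0
  set κ : List (Fin n) → ℚ := fun W => (W.map fun i => co (ψ i) (wordX [2 * b i])).prod with hκ
  have hκ0 : ∀ W, κ W ≠ 0 := by
    intro W
    rw [hκ]
    simp only
    apply List.prod_ne_zero
    intro h
    rw [List.mem_map] at h
    obtain ⟨i, _, hi⟩ := h
    exact hne i hi
  set S : Finset (List (Fin n)) := (P.coeff.support.image FreeMonoid.toList).filter fun W => W.length = r
    with hS
  -- the coefficients of `PhiN ψ P`
  have hsum : ∀ e : List ℕ, e.length = r → ∑ W ∈ S, co P W * κ W * cR ℚ (W.map b) e = 0 := by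
    intro e he
    have h1 : co (PhiN ψ P) (wordX e) = 0 := by rw [hP, co_zero]
    rw [Lead2.expand P, map_sum, Lead2.co_sum] at h1
    rw [← h1, hS, sum_filter, sum_image (fun x _ y _ h => FreeMonoid.toList.injective h)]
    refine sum_congr rfl fun m hm => ?_
    rw [map_smul, co_smul, PhiN_wd]
    by_cases h2 : (FreeMonoid.toList m).length = r
    · rw [if_pos h2, evN_eq ψ b hb hL hhom (FreeMonoid.toList m) e (by rw [he, h2])]
      ring
    · rw [if_neg h2]
      rcases Nat.lt_or_gt_of_ne h2 with h3 | h3
      · rw [ih _ h3 _ rfl, zero_mul]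
      · have h4 : co (evN ψ (FreeMonoid.toList m)) (wordX e) = 0 := by
          by_contra h5
          have := evN_Dp ψ b hb hL hhom _ _ h5
          rw [wordX_count, he] at this
          omega
        rw [h4, mul_zero]
  by_cases hmem : W0 ∈ S
  · set lam : List ℕ → ℚ := fun w => ∑ W ∈ S, if W.map b = w then co P W * κ W else 0 with hlam
    have h1 := indep p hpp (fun x => ∃ i, b i = x) (by
      rintro _ _ ⟨i, rfl⟩ ⟨j, rfl⟩ hij
      exact hanti i j fun h => hij (by rw [h])) r (S.image (List.map b)) (by
      intro w hw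
      rw [mem_image] at hw
      obtain ⟨W, hW, rfl⟩ := hw
      rw [hS, mem_filter] at hW
      refine ⟨by rw [List.length_map]; exact hW.2, ?_⟩
      intro x hx
      rw [List.mem_map] at hx
      obtain ⟨i, _, rfl⟩ := hx
      exact ⟨i, rfl⟩) lam (by
      intro w hw
      rw [mem_image] at hw
      obtain ⟨W1, hW1, rfl⟩ := hw
      rw [hS, mem_filter] at hW1
      have h2 := hsum ((W1.map b).map (2 * ·)) (by
        rw [List.length_map, List.length_map]
        exact hW1.2)
      rw [← h2, sum_image (fun x _ y _ h => List.map_injective_iff.mpr hbinj h)]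
      refine sum_congr rfl fun W hW => ?_
      congr 1
      rw [hlam]
      simp only
      rw [sum_eq_single W]
      · rw [if_pos rfl]
      · intro W' _ hne'
        rw [if_neg]
        exact fun h => hne' (List.map_injective_iff.mpr hbinj h)
      · exact fun h => absurd hW h)
    have h2 := h1 (W0.map b) (mem_image_of_mem _ hmem)
    rw [hlam] at h2
    simp only at h2
    rw [sum_eq_single W0] at h2
    · rw [if_pos rfl] at h2
      exact (mul_eq_zero.mp h2).resolve_right (hκ0 W0)
    · intro W' _ hne'
      rw [if_neg]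
      exact fun h => hne' (List.map_injective_iff.mpr hbinj h)
    · exact fun h => absurd hmem h
  · by_contra h
    apply hmem
    rw [hS, mem_filter]
    refine ⟨?_, hW0⟩
    rw [mem_image]
    refine ⟨FreeMonoid.ofList W0, ?_, rfl⟩
    rw [Finsupp.mem_support_iff]
    exact h

end Pool.Agent.Zk45.DSA
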