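import Mathlib
import Pool.Agent.H429R2.Auto
import Pool.Agent.Zk45.Bern2

set_option autoImplicit false

/-!
# Configurations with independent digits

Let the digits at the positions `0, 1, 2, …` be independent and uniformly nondegenerate (no digit has a
probability larger than `1 - ρ`), but otherwise with arbitrary, also varying laws (for example all
digits `0` or `1` with probability `1/2`). Then almost surely, at every position, every word of length
`L` is shown with frequency exactly `6 ^ (-L)` in the orbit under `F`.

Proof: the time is cut into windows. The conditional second moment of the exponential sum over a window,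
given all digits before it, is bounded by Riesz products along the rotation by `log (3/2) / log 6`,
which are small on average; exponential moments and Borel–Cantelli give the almost sure statement.
-/

namespace Pool.Agent.Results.MP_cc0c1a_nt.IndependentDigits

open Pool.Agent.H429R2.Auto Filter Topology MeasureTheory ProbabilityTheory

/-- The configuration with the digits `a 0, a 1, …` at the positions `0, 1, …` and zeros elsewhere. -/
def conf (a : ℕ → Fin 6) : Conf := fun i => if 0 ≤ i then a i.toNat else 0

/-- `x` shows the word `w` of `L` letters starting at the position `j`. -/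
def Shows {L : ℕ} (x : Conf) (w : Fin L → Fin 6) (j : ℤ) : Prop := ∀ s : Fin L, x (j + (s : ℕ)) = w s

/-- Let `ρ > 0` and let `X 0, X 1, …` be independent random digits with `P (X i = d) ≤ 1 - ρ` for all
`i` and all digits `d`. Then almost surely, for every position `j` and every word `w` of length `L`, the
proportion of the times `n < N` at which `F ^ n` of the configuration `… 0 0 X_0 X_1 X_2 …` shows `w` at
`j` tends to `6 ^ (-L)` as `N → ∞`; in particular its orbit is dense. -/
theorem result {Ω : Type} [MeasurableSpace Ω] (μ : Measure Ω) [IsProbabilityMeasure μ] (X : ℕ → Ω → Fin 6)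
    (hX : ∀ i, Measurable (X i)) (hind : iIndepFun X μ) (ρ : ℝ) (hρ0 : 0 < ρ)
    (hρ : ∀ (i : ℕ) (d : Fin 6), μ.real {ω | X i ω = d} ≤ 1 - ρ) :
    ∀ᵐ ω ∂μ, (∀ (j : ℤ) (L : ℕ) (w : Fin L → Fin 6),
      Tendsto (fun N : ℕ => ({n : ℕ | n < N ∧ Shows (F^[n] (conf (fun i => X i ω))) w j}.ncard : ℝ) / N) atTop
        (𝓝 (1 / 6 ^ L))) ∧ Dense (orbit (conf (fun i => X i ω))) := by
  have hρ1 : ρ ≤ 1 := by
    have h1 := hρ 0 0
    have h2 : 0 ≤ μ.real {ω | X 0 ω = 0} := measureReal_nonneg
    linarith
  filter_upwards [Pool.Agent.Zk45.Avg.as_freq μ X hX hind ρ hρ0 hρ1 hρ] with ω hω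
  refine ⟨hω, Pool.Agent.Zk45.Far.dense_of_shows _ fun j L w => ?_⟩
  have h1 := hω j L w
  by_contra hno
  push Not at hno
  have h2 : ∀ N : ℕ, {n : ℕ | n < N ∧ Pool.Agent.Zk45.Two.Sh (F^[n] (Pool.Agent.Zk45.Far.conf (fun i => X i ω))) w j} = ∅ := by
    intro N
    ext n
    simp only [Set.mem_ofPred_eq, Set.mem_empty_iff_false, iff_false, not_and]
    intro _
    exact hno n
  simp only [h2, Set.ncard_empty, Nat.cast_zero, zero_div] at h1
  have h3 := tendsto_nhds_unique h1 tendsto_const_nhds
  have h4 : (0 : ℝ) < 1 / 6 ^ L := by positivity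
  linarith

end Pool.Agent.Results.MP_cc0c1a_nt.IndependentDigits
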